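import Mathlib
import Pool.Agent.Lib.PrimrecProp.Basic

set_option autoImplicit false

namespace Pool.Agent.P.MP_067fd8_lc

open Turing Pool.Agent.Lib.PrimrecProp

lemma trNat_rec (n : ℕ) (hn : n ≠ 0) : PartrecToTM2.trNat n =
    (if n % 2 = 1 then PartrecToTM2.Γ'.bit1 else PartrecToTM2.Γ'.bit0) ::
      PartrecToTM2.trNat (n / 2) := by
  have key : ∀ m : Num, m ≠ 0 → PartrecToTM2.trNum m =
      (if (m : ℕ) % 2 = 1 then PartrecToTM2.Γ'.bit1 else PartrecToTM2.Γ'.bit0) ::
        PartrecToTM2.trNat ((m : ℕ) / 2) := by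
    rintro (_ | p) hm
    · exact (hm rfl).elim
    · cases p with
      | one => simp [PartrecToTM2.trNum, PartrecToTM2.trPosNum]
      | bit0 p =>
        have h1 : ((p : ℕ) + p) % 2 = 0 := by omega
        have h2 : ((p : ℕ) + p) / 2 = p := by omega
        simp [PartrecToTM2.trNum, PartrecToTM2.trPosNum, PartrecToTM2.trNat, h1, h2]
      | bit1 p =>
        have h1 : ((p : ℕ) + p + 1) % 2 = 1 := by omega
        have h2 : ((p : ℕ) + p + 1) / 2 = p := by omega
        simp [PartrecToTM2.trNum, PartrecToTM2.trPosNum, PartrecToTM2.trNat, h1, h2]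
  have := key n (by
    intro h
    have := congrArg (fun m : Num => (m : ℕ)) h
    simp at this
    exact hn this)
  rw [Num.to_of_nat] at this
  exact this

lemma primrec_trNat {A : Type} [Primcodable A] (χ : PartrecToTM2.Γ' → A) :
    Primrec fun n => (PartrecToTM2.trNat n).map χ := by
  have hm : Primrec fun n : ℕ => n % 2 := Primrec.nat_mod.comp Primrec.id (Primrec.const 2)
  have hd : Primrec fun n : ℕ => n / 2 := Primrec.nat_div.comp Primrec.id (Primrec.const 2)
  have h := Primrec.nat_strong_rec (fun (_ : Unit) n => (PartrecToTM2.trNat n).map χ)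
    (g := fun _ l => some (cond (eqb l.length 0) []
      (cond (eqb (l.length % 2) 1) (χ PartrecToTM2.Γ'.bit1) (χ PartrecToTM2.Γ'.bit0) ::
        l.getD (l.length / 2) [])))
    (by
      have h1 : Primrec fun x : Unit × List (List A) => x.2.length % 2 := hm.comp (by fun_prop)
      have h2 : Primrec fun x : Unit × List (List A) => x.2.length / 2 := hd.comp (by fun_prop)
      refine Primrec.option_some.comp (p_cond (by fun_prop) (by fun_prop) (p_cons (p_cond
        (p_eqb h1 (by fun_prop)) (by fun_prop) (by fun_prop)) (p_getD _ (by fun_prop) h2))))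
    (by
      intro _ n
      simp only [List.length_map, List.length_range, Option.some.injEq]
      by_cases hn : n = 0
      · subst hn; simp [eqb]
      · rw [trNat_rec n hn]
        have : n / 2 < n := by omega
        by_cases h2 : n % 2 = 1 <;> simp [eqb, hn, h2, List.getD_eq_getElem?_getD, this])
  exact h.comp (Primrec.const ()) Primrec.id

theorem tm0_undec : ∃ (G Λ : Type) (_ : Inhabited G) (_ : Inhabited Λ) (_ : Finite G)
    (M : TM0.Machine G Λ) (S : Finset Λ) (c₀ : G) (R : ℕ → List G), TM0.Supports M S ∧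
    (∀ (A : Type) [Primcodable A] (χ : G → A), Primrec fun n => (R n).map χ) ∧
    ¬ REPred fun n => ¬ (TM0.eval M (c₀ :: R n)).Dom := by
  classical
  have hU : Partrec fun n : ℕ => Nat.Partrec.Code.eval (Denumerable.ofNat Nat.Partrec.Code n) 0 :=
    Nat.Partrec.Code.eval_part.comp (Computable.ofNat _) (Computable.const 0)
  obtain ⟨c, hc⟩ := ToPartrec.Code.exists_code (Nat.Partrec'.part_iff₁.2 hU)
  let _ : Inhabited PartrecToTM2.Λ' := ⟨PartrecToTM2.trNormal c PartrecToTM2.Cont'.halt⟩
  let _ : Fintype PartrecToTM2.K' := ⟨{.main, .rev, .aux, .stack}, by intro x; cases x <;> simp⟩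
  have s2 := PartrecToTM2.tr_supports c PartrecToTM2.Cont'.halt
  have s1 := TM2to1.tr_supports PartrecToTM2.tr s2
  have s0 := TM1to0.tr_supports _ s1
  let ψ : PartrecToTM2.Γ' → TM2to1.Γ' PartrecToTM2.K' fun _ => PartrecToTM2.Γ' :=
    fun a => (false, Function.update (fun _ => none) PartrecToTM2.K'.main (some a))
  refine ⟨_, _, inferInstance, inferInstance, inferInstance, _, _,
    (true, (ψ PartrecToTM2.Γ'.cons).2), fun n => (PartrecToTM2.trNat n).reverse.map ψ, s0, ?_, ?_⟩
  · intro A _ χ
    refine (Primrec.list_reverse.comp (primrec_trNat (χ ∘ ψ))).of_eq fun n => ?_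
    simp
  · intro h
    refine ComputablePred.halting_problem_not_re 0 ?_
    have h2 : REPred fun x : Nat.Partrec.Code => _ := h.comp Computable.encode
    refine REPred.of_eq h2 fun x => not_congr ?_
    have e1 : ((true, (ψ PartrecToTM2.Γ'.cons).2) ::
        (PartrecToTM2.trNat (Encodable.encode x)).reverse.map ψ)
        = TM2to1.trInit PartrecToTM2.K'.main (PartrecToTM2.trList [Encodable.encode x]) := by
      simp [TM2to1.trInit, ψ]
      rfl
    rw [e1]
    refine (congrArg Part.Dom (TM1to0.tr_eval _ _)).to_iff.trans ((TM2to1.tr_eval_dom _ _ _).trans ?_)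
    have e2 : TM2.init PartrecToTM2.K'.main (PartrecToTM2.trList [Encodable.encode x])
        = PartrecToTM2.init c [Encodable.encode x] := by
      unfold TM2.init PartrecToTM2.init
      congr 1
      funext k
      cases k <;> rfl
    have e3 := hc ⟨[Encodable.encode x], rfl⟩
    unfold TM2.eval
    rw [e2, PartrecToTM2.tr_eval]
    simp only at e3
    rw [e3]
    simp [List.Vector.head]

end Pool.Agent.P.MP_067fd8_lc
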