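import Mathlib

set_option autoImplicit false

namespace Pool.Agent.P.MP_067fd8_lc

/-- abstract binary grammars -/
structure AG (Θ A : Type) where
  At : Θ → List A → Prop
  Un : Θ → Θ → Prop
  Bin : Θ → Θ → Θ → Prop
  Top : Θ → Prop

variable {Θ A I : Type}

/-- generated words -/
inductive AG.Gn (G : AG Θ A) : Θ → List A → Prop
  | atom {θ w} : G.At θ w → G.Gn θ w
  | un {θ θ' w} : G.Un θ θ' → G.Gn θ' w → G.Gn θ w
  | bin {θ θ₁ θ₂ w₁ w₂} : G.Bin θ θ₁ θ₂ → G.Gn θ₁ w₁ → G.Gn θ₂ w₂ → G.Gn θ (w₁ ++ w₂)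

/-- spines: the first type occurs below the second one -/
inductive AG.Sp (G : AG Θ A) (θ₀ : Θ) : Θ → List A → List A → Prop
  | refl : G.Sp θ₀ θ₀ [] []
  | un {θ θ' γ δ} : G.Un θ θ' → G.Sp θ₀ θ' γ δ → G.Sp θ₀ θ γ δ
  | addR {θ θ₁ θ₂ γ δ w} : G.Bin θ θ₁ θ₂ → G.Sp θ₀ θ₁ γ δ → G.Gn θ₂ w → G.Sp θ₀ θ γ (δ ++ w)
  | addL {θ θ₁ θ₂ γ δ w} : G.Bin θ θ₁ θ₂ → G.Gn θ₁ w → G.Sp θ₀ θ₂ γ δ → G.Sp θ₀ θ (w ++ γ) δ

variable {G : AG Θ A}

lemma AG.Sp.trans {θ₁ θ₂ θ₃ γ δ γ' δ'} (h : G.Sp θ₁ θ₂ γ δ) (h' : G.Sp θ₂ θ₃ γ' δ') :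
    G.Sp θ₁ θ₃ (γ' ++ γ) (δ ++ δ') := by
  induction h' with
  | refl => simpa using h
  | un h1 _ ih => exact .un h1 ih
  | addR h1 _ h2 ih => rw [← List.append_assoc]; exact .addR h1 ih h2
  | addL h1 h2 _ ih => rw [List.append_assoc]; exact .addL h1 h2 ih

lemma AG.Sp.plug {θ₁ θ₂ γ δ w} (h : G.Sp θ₁ θ₂ γ δ) (hw : G.Gn θ₁ w) :
    G.Gn θ₂ (γ ++ w ++ δ) := by
  induction h with
  | refl => simpa using hw
  | un h1 _ ih => exact .un h1 ih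
  | addR h1 _ h2 ih => rw [← List.append_assoc]; exact .bin h1 ih h2
  | addL h1 h2 _ ih => simpa only [List.append_assoc] using AG.Gn.bin h1 h2 ih

/-- the lowest node containing a given heavy factor -/
lemma AG.Gn.split (p : A → Bool) {K : ℕ} (hK : ∀ θ w, G.At θ w → w.countP p ≤ K) {θ w}
    (h : G.Gn θ w) : ∀ x s z, w = x ++ s ++ z → K < s.countP p →
      ∃ θ' θ₁ θ₂ γ δ w₁ w₂, G.Sp θ' θ γ δ ∧ G.Bin θ' θ₁ θ₂ ∧ G.Gn θ₁ w₁ ∧ G.Gn θ₂ w₂ ∧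
        w = γ ++ w₁ ++ w₂ ++ δ ∧ γ.length ≤ x.length ∧ x.length ≤ γ.length + w₁.length ∧
        γ.length + w₁.length ≤ x.length + s.length ∧
        x.length + s.length ≤ γ.length + w₁.length + w₂.length := by
  induction h with
  | atom h =>
    rintro x s z rfl hs
    have := hK _ _ h
    simp only [List.countP_append] at this
    omega
  | un h1 _ ih =>
    intro x s z e hs
    obtain ⟨θ', θ₁, θ₂, γ, δ, w₁, w₂, a1, a2⟩ := ih x s z e hs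
    exact ⟨θ', θ₁, θ₂, γ, δ, w₁, w₂, .un h1 a1, a2⟩
  | @bin θ θ₁ θ₂ w₁ w₂ h1 h2 h3 ih1 ih2 =>
    intro x s z e hs
    have hl := congrArg List.length e
    simp only [List.length_append] at hl
    by_cases c1 : x.length + s.length ≤ w₁.length
    · obtain ⟨z', rfl⟩ : x ++ s <+: w₁ :=
        List.prefix_of_prefix_length_le ⟨z, e.symm⟩ ⟨w₂, rfl⟩ (by simpa using c1)
      obtain ⟨θ', θ₁, θ₂, γ, δ, v₁, v₂, a1, a2, a3, a4, a5, a6⟩ := ih1 x s z' rfl hs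
      exact ⟨θ', θ₁, θ₂, γ, δ ++ w₂, v₁, v₂, .addR h1 a1 h3, a2, a3, a4, by simp [a5], a6⟩
    · by_cases c2 : w₁.length ≤ x.length
      · obtain ⟨x', rfl⟩ : w₁ <+: x :=
          List.prefix_of_prefix_length_le ⟨w₂, rfl⟩ ⟨s ++ z, by simp [e]⟩ c2
        obtain ⟨θ', θ₁, θ₂, γ, δ, v₁, v₂, a1, a2, a3, a4, a5, a6⟩ := ih2 x' s z
          (by simpa using e) hs
        refine ⟨θ', θ₁, θ₂, w₁ ++ γ, δ, v₁, v₂, .addL h1 h2 a1, a2, a3, a4, by simp [a5], ?_⟩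
        simp only [List.length_append]
        omega
      · refine ⟨θ, θ₁, θ₂, [], [], w₁, w₂, .refl, h1, h2, h3, by simp, ?_⟩
        simp only [List.length_nil]
        omega

section spine

variable (G) (tl : I → A) (ur : I → List A) (y₀ : List A)
  (items : List (Θ × List A × List A × List A)) (C : ℕ)

/-- reachable states of the nondeterministic simulation -/
def Rch : List I → Θ × List A × List A → Prop
  | [], st => ∃ it ∈ items, G.Sp it.1 st.1 (st.2.1 ++ it.2.1) (it.2.2.2 ++ y₀ ++ st.2.2)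
  | t :: τ, st' => ∃ st : Θ × List A × List A, (st.2.1.length ≤ C ∧ st.2.2.length ≤ C) ∧
      Rch τ st ∧ ∃ γ δ, G.Sp st.1 st'.1 γ δ ∧ γ ++ st.2.1 = st'.2.1 ++ [tl t] ∧
        st.2.2 ++ δ = ur t ++ st'.2.2

def cL (σ₁ : List A) (τ : List I) : List A := τ.map tl ++ σ₁

def cR (σ₂ : List A) (τ : List I) : List A := σ₂ ++ y₀ ++ τ.reverse.flatMap ur

lemma cL_suffix (σ₁ : List A) {τ τ' : List I} (h : τ' <:+ τ) : cL tl σ₁ τ' <:+ cL tl σ₁ τ := by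
  obtain ⟨x, rfl⟩ := h
  exact ⟨x.map tl, by simp [cL]⟩

lemma cR_pre (σ₂ : List A) {τ τ' : List I} (h : τ' <:+ τ) : cR ur y₀ σ₂ τ' <+: cR ur y₀ σ₂ τ := by
  obtain ⟨x, rfl⟩ := h
  exact ⟨x.reverse.flatMap ur, by simp [cR]⟩

variable {G tl ur y₀ items}

theorem spine {θ₀ θt : Θ} {σ₁ w σ₂ : List A} (hit : (θ₀, σ₁, w, σ₂) ∈ items) (τ : List I)
    (hB : ∀ θ γ' δ' γ'' δ'', G.Sp θ₀ θ γ' δ' → G.Sp θ θt γ'' δ'' → γ'' ++ γ' = cL tl σ₁ τ →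
      δ' ++ δ'' = cR ur y₀ σ₂ τ → ∀ τs, τs <:+ τ →
      (γ'.length < (cL tl σ₁ τs).length ∨ δ'.length < (cR ur y₀ σ₂ τs).length) →
      γ'.length ≤ (cL tl σ₁ τs).length + C ∧ δ'.length ≤ (cR ur y₀ σ₂ τs).length + C)
    (hR : ∀ θ θ₁ θ₂ γ δ s γ'' δ'', G.Bin θ θ₁ θ₂ → G.Sp θ₀ θ₁ γ δ → G.Gn θ₂ s →
      G.Sp θ θt γ'' δ'' → γ'' ++ γ = cL tl σ₁ τ → δ ++ s ++ δ'' = cR ur y₀ σ₂ τ → s.length ≤ C)
    (hL : ∀ θ θ₁ θ₂ γ δ s γ'' δ'', G.Bin θ θ₁ θ₂ → G.Gn θ₁ s → G.Sp θ₀ θ₂ γ δ →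
      G.Sp θ θt γ'' δ'' → γ'' ++ (s ++ γ) = cL tl σ₁ τ → δ ++ δ'' = cR ur y₀ σ₂ τ → s.length ≤ C)
    (h : G.Sp θ₀ θt (cL tl σ₁ τ) (cR ur y₀ σ₂ τ)) :
    Rch G tl ur y₀ items (C + C) τ (θt, [], []) := by
  let Cl : Θ → List A → List A → List I → Prop := fun θ γ' δ' τs =>
    ∃ st : Θ × List A × List A, (st.2.1.length ≤ C + C ∧ st.2.2.length ≤ C + C) ∧
      Rch G tl ur y₀ items (C + C) τs st ∧ ∃ γ δ, G.Sp st.1 θ γ δ ∧
      γ' = γ ++ st.2.1 ++ cL tl σ₁ τs ∧ δ' = cR ur y₀ σ₂ τs ++ st.2.2 ++ δ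
  have new : ∀ θ γ' δ', G.Sp θ₀ θ γ' δ' → ∀ τs l r, γ' = l ++ cL tl σ₁ τs →
      δ' = cR ur y₀ σ₂ τs ++ r → (∀ t τ', τs = t :: τ' → Cl θ γ' δ' τ') →
      Rch G tl ur y₀ items (C + C) τs (θ, l, r) := by
    intro θ γ' δ' hs τs l r e1 e2 hc
    cases τs with
    | nil => exact ⟨_, hit, by simpa [e1, e2, cL, cR] using hs⟩
    | cons t τ' =>
      obtain ⟨st, a1, a2, γ, δ, a3, a4, a5⟩ := hc t τ' rfl
      refine ⟨st, a1, a2, γ, δ, a3, ?_, ?_⟩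
      · apply List.append_cancel_right (bs := cL tl σ₁ τ')
        rw [← a4, e1]; simp [cL]
      · apply List.append_cancel_left (as := cR ur y₀ σ₂ τ')
        rw [← List.append_assoc, ← a5, e2]; simp [cR]
  have upd : ∀ θ γ' δ' γ'' δ'', G.Sp θ₀ θ γ' δ' → γ'' ++ γ' = cL tl σ₁ τ →
      δ' ++ δ'' = cR ur y₀ σ₂ τ →
      (∀ τs, τs <:+ τ → (cL tl σ₁ τs).length ≤ γ'.length → (cR ur y₀ σ₂ τs).length ≤ δ'.length →
        Cl θ γ' δ' τs ∨ (γ'.length ≤ (cL tl σ₁ τs).length + (C + C) ∧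
          δ'.length ≤ (cR ur y₀ σ₂ τs).length + (C + C))) →
      ∀ τs, τs <:+ τ → (cL tl σ₁ τs).length ≤ γ'.length → (cR ur y₀ σ₂ τs).length ≤ δ'.length →
        Cl θ γ' δ' τs := by
    intro θ γ' δ' γ'' δ'' hs e1 e2 hc τs
    induction τs with
    | nil =>
      intro h1 h2 h3
      rcases hc _ h1 h2 h3 with h4 | h4
      · exact h4
      obtain ⟨l, e3⟩ := List.suffix_of_suffix_length_le (cL_suffix tl σ₁ h1) ⟨_, e1⟩ h2
      obtain ⟨r, e4⟩ := List.prefix_of_prefix_length_le (cR_pre ur y₀ σ₂ h1) ⟨_, e2⟩ h3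
      have l1 := congrArg List.length e3
      have l2 := congrArg List.length e4
      simp only [List.length_append] at l1 l2
      exact ⟨(θ, l, r), ⟨by simp only; omega, by simp only; omega⟩,
        new θ γ' δ' hs _ l r e3.symm e4.symm (by simp), [], [], .refl, by simp [e3], by simp [e4]⟩
    | cons t τ' ih =>
      intro h1 h2 h3
      rcases hc _ h1 h2 h3 with h4 | h4
      · exact h4
      obtain ⟨l, e3⟩ := List.suffix_of_suffix_length_le (cL_suffix tl σ₁ h1) ⟨_, e1⟩ h2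
      obtain ⟨r, e4⟩ := List.prefix_of_prefix_length_le (cR_pre ur y₀ σ₂ h1) ⟨_, e2⟩ h3
      have l1 := congrArg List.length e3
      have l2 := congrArg List.length e4
      simp only [List.length_append] at l1 l2
      have l3 := (cL_suffix tl σ₁ (List.suffix_cons t τ')).length_le
      have l4 := (cR_pre ur y₀ σ₂ (List.suffix_cons t τ')).length_le
      have := ih ((List.suffix_cons t τ').trans h1) (by omega) (by omega)
      exact ⟨(θ, l, r), ⟨by simp only; omega, by simp only; omega⟩,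
        new θ γ' δ' hs _ l r e3.symm e4.symm (by rintro _ _ ⟨⟩; exact this), [], [], .refl,
        by simp [e3], by simp [e4]⟩
  have ext : ∀ θ θ' γ' δ' γ δ τs, Cl θ γ' δ' τs → G.Sp θ θ' γ δ → Cl θ' (γ ++ γ') (δ' ++ δ) τs := by
    rintro θ θ' γ' δ' γ δ τs ⟨st, a1, a2, γ₁, δ₁, a3, a4, a5⟩ hs
    exact ⟨st, a1, a2, γ ++ γ₁, δ₁ ++ δ, a3.trans hs, by simp [a4], by simp [a5]⟩
  have main : ∀ θ γ' δ', G.Sp θ₀ θ γ' δ' → ∀ γ'' δ'', G.Sp θ θt γ'' δ'' → γ'' ++ γ' = cL tl σ₁ τ →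
      δ' ++ δ'' = cR ur y₀ σ₂ τ → ∀ τs, τs <:+ τ → (cL tl σ₁ τs).length ≤ γ'.length →
      (cR ur y₀ σ₂ τs).length ≤ δ'.length → Cl θ γ' δ' τs := by
    intro θ γ' δ' hs
    induction hs with
    | refl =>
      intro γ'' δ'' _ e1 e2
      exact upd _ _ _ _ _ .refl e1 e2 fun τs _ _ _ => Or.inr (by simp)
    | @un θ θ' γ δ h1 h2 ih =>
      intro γ'' δ'' h3 e1 e2 τs a1 a2 a3
      have h4 : G.Sp θ' θ [] [] := .un h1 .refl
      simpa using ext _ _ _ _ _ _ _ (ih γ'' δ'' (by simpa using h4.trans h3) e1 e2 τs a1 a2 a3) h4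
    | @addR θ θ₁ θ₂ γ δ s h1 h2 h3 ih =>
      intro γ'' δ'' h4 e1 e2
      have h5 : G.Sp θ₁ θ [] s := by simpa using AG.Sp.addR h1 .refl h3
      have h6 : G.Sp θ₁ θt γ'' (s ++ δ'') := by simpa using h5.trans h4
      have e3 : δ ++ (s ++ δ'') = cR ur y₀ σ₂ τ := by simpa using e2
      refine upd _ _ _ _ _ (.addR h1 h2 h3) e1 e2 fun τs a1 a2 a3 => ?_
      by_cases c : (cR ur y₀ σ₂ τs).length ≤ δ.length
      · exact Or.inl (by simpa using ext _ _ _ _ _ _ _ (ih _ _ h6 e1 e3 τs a1 a2 c) h5)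
      · have b1 := hB _ _ _ _ _ h2 h6 e1 e3 τs a1 (Or.inr (by omega))
        have b2 := hR _ _ _ _ _ _ _ _ h1 h2 h3 h4 e1 e2
        simp only [List.length_append]
        omega
    | @addL θ θ₁ θ₂ γ δ s h1 h2 h3 ih =>
      intro γ'' δ'' h4 e1 e2
      have h5 : G.Sp θ₂ θ s [] := by simpa using AG.Sp.addL h1 h2 .refl
      have h6 : G.Sp θ₂ θt (γ'' ++ s) δ'' := by simpa using h5.trans h4
      have e3 : γ'' ++ s ++ γ = cL tl σ₁ τ := by simpa using e1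
      refine upd _ _ _ _ _ (.addL h1 h2 h3) e1 e2 fun τs a1 a2 a3 => ?_
      by_cases c : (cL tl σ₁ τs).length ≤ γ.length
      · exact Or.inl (by simpa using ext _ _ _ _ _ _ _ (ih _ _ h6 e3 e2 τs a1 c a3) h5)
      · have b1 := hB _ _ _ _ _ h3 h6 e3 e2 τs a1 (Or.inl (by omega))
        have b2 := hL _ _ _ _ _ _ _ _ h1 h2 h3 h4 e1 e2
        simp only [List.length_append]
        omega
  refine new θt _ _ h τ [] [] (by simp) (by simp) ?_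
  rintro t τ' rfl
  exact main _ _ _ h [] [] .refl (by simp) (by simp) τ' (List.suffix_cons t τ')
    (cL_suffix tl σ₁ (List.suffix_cons t τ')).length_le
    (cR_pre ur y₀ σ₂ (List.suffix_cons t τ')).length_le

/-- determinisation -/
theorem determinise [Finite Θ] [Finite A]
    (h : ∀ τ, ∃ θ, G.Top θ ∧ Rch G tl ur y₀ items C τ (θ, [], [])) :
    ∃ ms : List (List (Θ × List A × List A)),
      (∃ m ∈ ms, ∀ st ∈ m, ∃ it ∈ items,
        G.Sp it.1 st.1 (st.2.1 ++ it.2.1) (it.2.2.2 ++ y₀ ++ st.2.2)) ∧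
      (∀ m ∈ ms, ∀ t, ∃ m' ∈ ms, ∀ st' ∈ m', ∃ st ∈ m, ∃ γ δ, G.Sp st.1 st'.1 γ δ ∧
        γ ++ st.2.1 = st'.2.1 ++ [tl t] ∧ st.2.2 ++ δ = ur t ++ st'.2.2) ∧
      (∀ m ∈ ms, ∃ θ, G.Top θ ∧ (θ, [], []) ∈ m) := by
  classical
  have hf : {st : Θ × List A × List A | st.2.1.length ≤ C ∧ st.2.2.length ≤ C}.Finite :=
    (Set.finite_univ.prod ((List.finite_length_le A C).prod (List.finite_length_le A C))).subset
      fun st h => ⟨trivial, h⟩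
  let Stl := hf.toFinset.toList
  have hS : ∀ st, st ∈ Stl ↔ st.2.1.length ≤ C ∧ st.2.2.length ≤ C := by simp [Stl]
  let m : List I → List (Θ × List A × List A) := fun τ =>
    Stl.filter fun st => Rch G tl ur y₀ items C τ st
  have hm : ∀ τ st, st ∈ m τ ↔ (st.2.1.length ≤ C ∧ st.2.2.length ≤ C) ∧
      Rch G tl ur y₀ items C τ st := by simp [m, hS]
  let ms := Stl.sublists.filter fun x => ∃ τ, x = m τ
  have hms : ∀ x, x ∈ ms ↔ ∃ τ, x = m τ := by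
    intro x
    simp only [ms, List.mem_filter, List.mem_sublists, decide_eq_true_eq]
    exact ⟨fun h => h.2, fun ⟨τ, h⟩ => ⟨h ▸ List.filter_sublist, τ, h⟩⟩
  refine ⟨ms, ⟨m [], (hms _).2 ⟨_, rfl⟩, fun st hst => ((hm _ _).1 hst).2⟩, ?_, ?_⟩
  · intro x hx t
    obtain ⟨τ, rfl⟩ := (hms _).1 hx
    refine ⟨m (t :: τ), (hms _).2 ⟨_, rfl⟩, fun st' hst => ?_⟩
    obtain ⟨st, a1, a2, a3⟩ := ((hm _ _).1 hst).2
    exact ⟨st, (hm _ _).2 ⟨a1, a2⟩, a3⟩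
  · intro x hx
    obtain ⟨τ, rfl⟩ := (hms _).1 hx
    obtain ⟨θ, a1, a2⟩ := h τ
    exact ⟨θ, a1, (hm _ _).2 ⟨by simp, a2⟩⟩

end spine

end Pool.Agent.P.MP_067fd8_lc
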