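import Mathlib

set_option autoImplicit false

namespace Pool.Agent.P.MP_067fd8_lc

open Symbol

variable {α N : Type}

/-- Leftmost derivations, recorded by the list of rules used. -/
inductive D (P : Set (ContextFreeRule α N)) :
    List (Symbol α N) → List (ContextFreeRule α N) → List α → Prop
  | nil : D P [] [] []
  | term {a : α} {s rs w} : D P s rs w → D P (terminal a :: s) rs (a :: w)
  | nt {r : ContextFreeRule α N} {s rs w} : r ∈ P → D P (r.output ++ s) rs w →
      D P (nonterminal r.input :: s) (r :: rs) w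

variable {P : Set (ContextFreeRule α N)}

lemma D.nil_iff {rs w} : D P [] rs w ↔ rs = [] ∧ w = [] := by
  constructor
  · intro h; cases h; simp
  · rintro ⟨rfl, rfl⟩; exact D.nil

lemma D.term_iff {a s rs w} : D P (terminal a :: s) rs w ↔ ∃ w', w = a :: w' ∧ D P s rs w' := by
  constructor
  · intro h; cases h with | term h => exact ⟨_, rfl, h⟩
  · rintro ⟨w', rfl, h⟩; exact h.term

lemma D.nt_iff {X s rs w} : D P (nonterminal X :: s) rs w ↔
    ∃ r rs', rs = r :: rs' ∧ r ∈ P ∧ r.input = X ∧ D P (r.output ++ s) rs' w := by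
  constructor
  · intro h
    generalize hs : nonterminal X :: s = s0 at h
    cases h with
    | nil => cases hs
    | term h => cases hs
    | nt hr h =>
      simp only [List.cons.injEq, nonterminal.injEq] at hs
      obtain ⟨rfl, rfl⟩ := hs
      exact ⟨_, _, rfl, hr, rfl, h⟩
  · rintro ⟨r, rs', rfl, hr, rfl, h⟩; exact D.nt hr h

lemma D.append {s t rs₁ rs₂ w₁ w₂} (h₁ : D P s rs₁ w₁) (h₂ : D P t rs₂ w₂) :
    D P (s ++ t) (rs₁ ++ rs₂) (w₁ ++ w₂) := by
  induction h₁ with
  | nil => simpa
  | term _ ih => exact ih.term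
  | nt hr _ ih => rw [List.append_assoc] at ih; exact D.nt hr ih

lemma D.split {s t rs w} (h : D P (s ++ t) rs w) :
    ∃ rs₁ rs₂ w₁ w₂, rs = rs₁ ++ rs₂ ∧ w = w₁ ++ w₂ ∧ D P s rs₁ w₁ ∧ D P t rs₂ w₂ := by
  generalize hs : s ++ t = s0 at h
  induction h generalizing s with
  | nil =>
    obtain ⟨rfl, rfl⟩ := List.append_eq_nil_iff.1 hs
    exact ⟨[], [], [], [], rfl, rfl, D.nil, D.nil⟩
  | @term a s' rs w h ih =>
    cases s with
    | nil =>
      refine ⟨[], rs, [], a :: w, rfl, rfl, D.nil, ?_⟩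
      rw [List.nil_append] at hs
      rw [hs]; exact h.term
    | cons x s =>
      simp only [List.cons_append, List.cons.injEq] at hs
      obtain ⟨rfl, rfl⟩ := hs
      obtain ⟨rs₁, rs₂, w₁, w₂, rfl, rfl, h₁, h₂⟩ := ih rfl
      exact ⟨rs₁, rs₂, a :: w₁, w₂, rfl, rfl, h₁.term, h₂⟩
  | @nt r s' rs w hr h ih =>
    cases s with
    | nil =>
      refine ⟨[], r :: rs, [], w, rfl, rfl, D.nil, ?_⟩
      rw [List.nil_append] at hs
      rw [hs]; exact D.nt hr h
    | cons x s =>
      simp only [List.cons_append, List.cons.injEq] at hs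
      obtain ⟨rfl, rfl⟩ := hs
      obtain ⟨rs₁, rs₂, w₁, w₂, rfl, rfl, h₁, h₂⟩ := ih (s := r.output ++ s) (by simp)
      exact ⟨r :: rs₁, rs₂, w₁, w₂, rfl, rfl, D.nt hr h₁, h₂⟩

lemma D.terminals (w : List α) : D P (w.map terminal) [] w := by
  induction w with
  | nil => exact D.nil
  | cons a w ih => exact ih.term

lemma D.terminals_append_iff {u : List α} {s rs w} :
    D P (u.map terminal ++ s) rs w ↔ ∃ w', w = u ++ w' ∧ D P s rs w' := by
  induction u generalizing w with
  | nil => simp
  | cons a u ih =>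
    simp only [List.map_cons, List.cons_append, D.term_iff, ih]
    constructor
    · rintro ⟨_, rfl, w', rfl, h⟩; exact ⟨w', rfl, h⟩
    · rintro ⟨w', rfl, h⟩; exact ⟨_, rfl, w', rfl, h⟩

lemma D.terminals_iff {u : List α} {rs w} : D P (u.map terminal) rs w ↔ rs = [] ∧ w = u := by
  have := D.terminals_append_iff (P := P) (u := u) (s := []) (rs := rs) (w := w)
  rw [List.append_nil] at this
  rw [this]
  simp only [D.nil_iff]
  constructor
  · rintro ⟨_, rfl, rfl, rfl⟩; simp
  · rintro ⟨rfl, rfl⟩; exact ⟨[], by simp, rfl, rfl⟩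

/-- complete derivations from the same form are incomparable, and determine the word -/
lemma D.det {s rs₁ rs₂ w₁ w₂ x y} (h₁ : D P s rs₁ w₁) (h₂ : D P s rs₂ w₂)
    (e : rs₁ ++ x = rs₂ ++ y) : rs₁ = rs₂ ∧ w₁ = w₂ := by
  induction h₁ generalizing rs₂ w₂ with
  | nil => obtain ⟨rfl, rfl⟩ := D.nil_iff.1 h₂; simp
  | term _ ih =>
    obtain ⟨w', rfl, h⟩ := D.term_iff.1 h₂
    obtain ⟨rfl, rfl⟩ := ih h e
    simp
  | nt hr _ ih =>
    obtain ⟨r', rs', rfl, _, _, h⟩ := D.nt_iff.1 h₂
    simp only [List.cons_append, List.cons.injEq] at e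
    obtain ⟨rfl, e⟩ := e
    obtain ⟨rfl, rfl⟩ := ih h e
    simp

lemma D.mem {s rs w} (h : D P s rs w) : ∀ r ∈ rs, r ∈ P := by
  induction h with
  | nil => simp
  | term _ ih => exact ih
  | nt hr _ ih => simpa using ⟨hr, ih⟩

/-- The grammar with rules `P` and start symbol `S` generates `L` unambiguously. -/
def UG (P : Set (ContextFreeRule α N)) (S : N) (L : Set (List α)) : Prop :=
  (∀ w, w ∈ L ↔ ∃ rs, D P [nonterminal S] rs w) ∧
    ∀ w rs rs', D P [nonterminal S] rs w → D P [nonterminal S] rs' w → rs = rs'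

/-- Unambiguous context-free languages. -/
def UL (L : Set (List α)) : Prop :=
  ∃ (N : Type) (S : N) (P : Set (ContextFreeRule α N)), P.Finite ∧ UG P S L

/-- the sequence form of leftmost derivations -/
def LDs (P : Set (ContextFreeRule α N)) (s : List (Symbol α N)) (w : List α) (n : ℕ)
    (rs : ℕ → ContextFreeRule α N) : Prop :=
  ∃ ss : ℕ → List (Symbol α N), ss 0 = s ∧ ss n = w.map Symbol.terminal ∧
    ∀ i < n, rs i ∈ P ∧ ∃ (u : List α) (v : List (Symbol α N)),
      ss i = u.map Symbol.terminal ++ Symbol.nonterminal (rs i).input :: v ∧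
      ss (i + 1) = u.map Symbol.terminal ++ (rs i).output ++ v

lemma LDs.toD {s w n rs} (h : LDs P s w n rs) : D P s ((List.range n).map rs) w := by
  induction n generalizing s rs with
  | zero =>
    obtain ⟨ss, rfl, h, _⟩ := h
    rw [h]; exact D.terminals w
  | succ n ih =>
    obtain ⟨ss, rfl, h1, h2⟩ := h
    obtain ⟨hr, u, v, e1, e2⟩ := h2 0 (by omega)
    have := ih (s := ss 1) (rs := fun i => rs (i + 1))
      ⟨fun i => ss (i + 1), rfl, h1, fun i hi => h2 (i + 1) (by omega)⟩
    rw [List.range_succ_eq_map, List.map_cons, List.map_map, e1]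
    rw [e2, List.append_assoc, D.terminals_append_iff] at this
    obtain ⟨w', rfl, h⟩ := this
    exact D.terminals_append_iff.2 ⟨w', rfl, D.nt hr h⟩

lemma D.toLDs {s l w} (h : D P s l w) (rs : ℕ → ContextFreeRule α N)
    (e : (List.range l.length).map rs = l) : LDs P s w l.length rs := by
  induction h generalizing rs with
  | nil => exact ⟨fun _ => [], rfl, rfl, by simp⟩
  | @term a s l w _ ih =>
    obtain ⟨ss, h0, h1, h2⟩ := ih rs e
    refine ⟨fun i => terminal a :: ss i, by simp [h0], by simp [h1], fun i hi => ?_⟩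
    obtain ⟨hr, u, v, e1, e2⟩ := h2 i hi
    exact ⟨hr, a :: u, v, by simp [e1], by simp [e2]⟩
  | @nt r s l w hr _ ih =>
    rw [List.length_cons, List.range_succ_eq_map, List.map_cons, List.map_map] at e
    simp only [List.cons.injEq] at e
    obtain ⟨ss, h0, h1, h2⟩ := ih (fun i => rs (i + 1)) e.2
    refine ⟨fun i => Nat.casesOn i (nonterminal r.input :: s) ss, rfl, h1, fun i hi => ?_⟩
    cases i with
    | zero => exact ⟨e.1 ▸ hr, [], s, by simp [e.1], by simp [e.1, h0]⟩
    | succ i => exact h2 i (by simpa using hi)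

lemma UL_iff (L : Set (List α)) : UL L ↔
    ∃ (N : Type) (S : N) (P : Finset (ContextFreeRule α N)),
      (∀ w : List α, w ∈ L ↔ ∃ (n : ℕ) (rs : ℕ → ContextFreeRule α N),
        LDs (P : Set _) [nonterminal S] w n rs) ∧
      ∀ (w : List α) (n m : ℕ) (rs rs' : ℕ → ContextFreeRule α N),
        LDs (P : Set _) [nonterminal S] w n rs → LDs (P : Set _) [nonterminal S] w m rs' →
          n = m ∧ ∀ i < n, rs i = rs' i := by
  have key : ∀ {N : Type} (S : N) (l : List (ContextFreeRule α N)),
      (List.range l.length).map (fun i => l.getD i ⟨S, []⟩) = l := by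
    intro N S l
    apply List.ext_getElem (by simp)
    intro i h1 h2
    simp [List.getD_eq_getElem?_getD, h2]
  constructor
  · rintro ⟨N, S, P, hP, h1, h2⟩
    refine ⟨N, S, hP.toFinset, ?_, ?_⟩
    · intro w
      rw [h1, hP.coe_toFinset]
      exact ⟨fun ⟨l, h⟩ => ⟨_, _, h.toLDs _ (key S l)⟩, fun ⟨n, rs, h⟩ => ⟨_, h.toD⟩⟩
    · intro w n m rs rs' h h'
      rw [hP.coe_toFinset] at h h'
      have e := h2 w _ _ h.toD h'.toD
      have hl := congrArg List.length e
      simp only [List.length_map, List.length_range] at hl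
      subst hl
      refine ⟨rfl, fun i hi => ?_⟩
      exact List.map_inj_left.1 e i (List.mem_range.2 hi)
  · rintro ⟨N, S, P, h1, h2⟩
    refine ⟨N, S, P, P.finite_toSet, ?_, ?_⟩
    · intro w
      rw [h1]
      exact ⟨fun ⟨n, rs, h⟩ => ⟨_, h.toD⟩, fun ⟨l, h⟩ => ⟨_, _, h.toLDs _ (key S l)⟩⟩
    · intro w l l' h h'
      obtain ⟨e1, e2⟩ := h2 w _ _ _ _ (h.toLDs _ (key S l)) (h'.toLDs _ (key S l'))
      rw [← key S l, ← key S l', ← e1]
      exact List.map_congr_left fun i hi => e2 i (List.mem_range.1 hi)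

/-- renaming of nonterminals in symbols -/
def smap {N' : Type} (g : N' → N) : Symbol α N' → Symbol α N
  | terminal a => terminal a
  | nonterminal X => nonterminal (g X)

/-- renaming of nonterminals in rules -/
def rmap {N' : Type} (g : N' → N) (r : ContextFreeRule α N') : ContextFreeRule α N :=
  ⟨g r.input, r.output.map (smap g)⟩

lemma smap_inj {N' : Type} {g : N' → N} (hg : Function.Injective g) :
    Function.Injective (smap (α := α) g) := by
  intro x y h
  cases x <;> cases y <;> simp_all [smap, hg.eq_iff]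

lemma rmap_inj {N' : Type} {g : N' → N} (hg : Function.Injective g) :
    Function.Injective (rmap (α := α) g) := by
  intro r r' h
  simp only [rmap, ContextFreeRule.mk.injEq] at h
  exact ContextFreeRule.ext (hg h.1) (List.map_injective_iff.2 (smap_inj hg) h.2)

lemma D.map {N' : Type} (g : N' → N) {s rs w} (h : D (rmap g ⁻¹' P) s rs w) :
    D P (s.map (smap g)) (rs.map (rmap g)) w := by
  induction h with
  | nil => exact D.nil
  | term _ ih => exact ih.term
  | @nt r s rs w hr _ ih =>
    exact D.nt (r := rmap g r) hr (by simpa [rmap] using ih)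

lemma D.lift {N' : Type} (g : N' → N) (hg : Function.Injective g)
    (hP : ∀ r ∈ P, ∃ r', rmap g r' = r) {s rs w} (h : D P s rs w) :
    ∀ s', s'.map (smap g) = s → ∃ rs', D (rmap g ⁻¹' P) s' rs' w := by
  induction h with
  | nil => intro s' e; rw [List.map_eq_nil_iff.1 e]; exact ⟨[], D.nil⟩
  | @term a s rs w _ ih =>
    intro s' e
    obtain ⟨x, s'', rfl, e1, e2⟩ := List.map_eq_cons_iff.1 e
    obtain ⟨rs', h⟩ := ih s'' e2
    cases x with
    | terminal b => simp only [smap, terminal.injEq] at e1; subst e1; exact ⟨rs', h.term⟩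
    | nonterminal X => cases e1
  | @nt r s rs w hr _ ih =>
    intro s' e
    obtain ⟨x, s'', rfl, e1, e2⟩ := List.map_eq_cons_iff.1 e
    obtain ⟨r', rfl⟩ := hP r hr
    obtain ⟨rs', h⟩ := ih (r'.output ++ s'') (by simp [rmap, e2])
    cases x with
    | terminal b => cases e1
    | nonterminal X =>
      simp only [smap, rmap, nonterminal.injEq] at e1
      rw [hg e1]
      exact ⟨r' :: rs', D.nt hr h⟩

lemma UL.finite {L : Set (List α)} (h : UL L) :
    ∃ (N : Type) (_ : Finite N) (S : N) (P : Set (ContextFreeRule α N)), P.Finite ∧ UG P S L := by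
  obtain ⟨N, S, P, hP, h1, h2⟩ := h
  let Z : Set N := {S} ∪ ⋃ r ∈ P, ({r.input} ∪ {X | nonterminal X ∈ r.output})
  have hZ : Z.Finite := by
    refine (Set.finite_singleton _).union (hP.biUnion fun r _ => (Set.finite_singleton _).union ?_)
    exact (List.finite_toSet r.output).preimage (f := fun X => (nonterminal X : Symbol α N))
      (fun x _ y _ h => by simpa using h)
  have hg : Function.Injective (Subtype.val : Z → N) := Subtype.val_injective
  have hP' : ∀ r ∈ P, ∃ r', rmap (Subtype.val : Z → N) r' = r := by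
    intro r hr
    have h1 : r.input ∈ Z := Or.inr (Set.mem_biUnion hr (Or.inl rfl))
    have h2 : ∀ x ∈ r.output, ∃ y, smap (Subtype.val : Z → N) y = x := by
      intro x hx
      cases x with
      | terminal a => exact ⟨terminal a, rfl⟩
      | nonterminal X => exact ⟨nonterminal ⟨X, Or.inr (Set.mem_biUnion hr (Or.inr hx))⟩, rfl⟩
    obtain ⟨o, ho⟩ : ∃ o : List (Symbol α Z), o.map (smap Subtype.val) = r.output := by
      have : ∀ l : List (Symbol α N), (∀ x ∈ l, ∃ y, smap (Subtype.val : Z → N) y = x) →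
          ∃ o : List (Symbol α Z), o.map (smap Subtype.val) = l := by
        intro l
        induction l with
        | nil => exact fun _ => ⟨[], rfl⟩
        | cons x l ih =>
          intro h
          obtain ⟨y, rfl⟩ := h x (by simp)
          obtain ⟨o, rfl⟩ := ih fun z hz => h z (by simp [hz])
          exact ⟨y :: o, rfl⟩
      exact this _ h2
    exact ⟨⟨⟨r.input, h1⟩, o⟩, by simp [rmap, ho]⟩
  refine ⟨Z, hZ.to_subtype, ⟨S, Or.inl rfl⟩, rmap Subtype.val ⁻¹' P,
    hP.preimage (rmap_inj hg).injOn, fun w => ?_, fun w rs rs' h h' => ?_⟩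
  · rw [h1]
    exact ⟨fun ⟨rs, h⟩ => h.lift _ hg hP' _ rfl, fun ⟨rs, h⟩ => ⟨_, h.map _⟩⟩
  · exact List.map_injective_iff.2 (rmap_inj hg) (h2 w _ _ (h.map _) (h'.map _))

end Pool.Agent.P.MP_067fd8_lc
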