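import Mathlib
import Pool.Agent.P.MP_067fd8_lc.Basic

set_option autoImplicit false

namespace Pool.Agent.P.MP_067fd8_lc

open Symbol

variable {B N : Type}

/-- the sentential form derives the word -/
def Y (P : Set (ContextFreeRule B N)) (s : List (Symbol B N)) (z : List B) : Prop :=
  ∃ rs, D P s rs z

/-- contexts: the form `s` occurs as a node (a symbol, or a final segment of a right-hand side)
below the second form -/
inductive Ctx (P : Set (ContextFreeRule B N)) (s : List (Symbol B N)) :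
    List (Symbol B N) → List B → List B → Prop
  | refl : Ctx P s s [] []
  | head {e s₂ γ δ z} : s₂ ≠ [] → Ctx P s [e] γ δ → Y P s₂ z → Ctx P s (e :: s₂) γ (δ ++ z)
  | tail {e s₂ γ δ z} : s₂ ≠ [] → Y P [e] z → Ctx P s s₂ γ δ → Ctx P s (e :: s₂) (z ++ γ) δ
  | rule {r γ δ} : r ∈ P → Ctx P s r.output γ δ → Ctx P s [nonterminal r.input] γ δ

variable {P : Set (ContextFreeRule B N)}

lemma Ctx.trans {s₁ s₂ s₃ γ δ γ' δ'} (h : Ctx P s₁ s₂ γ δ) (h' : Ctx P s₂ s₃ γ' δ') :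
    Ctx P s₁ s₃ (γ' ++ γ) (δ ++ δ') := by
  induction h' with
  | refl => simpa using h
  | head h1 _ h2 ih => rw [← List.append_assoc]; exact Ctx.head h1 ih h2
  | tail h1 h2 _ ih => rw [List.append_assoc]; exact Ctx.tail h1 h2 ih
  | rule hr _ ih => exact Ctx.rule hr ih

/-- nodes of a derivation, with their spans -/
inductive Node (P : Set (ContextFreeRule B N)) :
    List (Symbol B N) → List (ContextFreeRule B N) → List B → ℕ → ℕ → Prop
  | refl {s rs w} : D P s rs w → Node P s rs w 0 w.length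
  | head {e s₂ rs₁ rs₂ w₁ w₂ i j} : s₂ ≠ [] → Node P [e] rs₁ w₁ i j → D P s₂ rs₂ w₂ →
      Node P (e :: s₂) (rs₁ ++ rs₂) (w₁ ++ w₂) i j
  | tail {e s₂ rs₁ rs₂ w₁ w₂ i j} : s₂ ≠ [] → D P [e] rs₁ w₁ → Node P s₂ rs₂ w₂ i j →
      Node P (e :: s₂) (rs₁ ++ rs₂) (w₁ ++ w₂) (w₁.length + i) (w₁.length + j)
  | rule {r rs w i j} : r ∈ P → Node P r.output rs w i j →
      Node P [nonterminal r.input] (r :: rs) w i j

lemma Node.toD {s rs w i j} (h : Node P s rs w i j) : D P s rs w ∧ j ≤ w.length := by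
  induction h with
  | refl h => exact ⟨h, le_rfl⟩
  | head _ _ h ih => exact ⟨ih.1.append h, by simp; omega⟩
  | tail _ h _ ih => exact ⟨h.append ih.1, by simp; omega⟩
  | rule hr _ ih => exact ⟨D.nt hr (by simpa using ih.1), ih.2⟩

lemma Node.inv {s rs w i j} (h : Node P s rs w i j) :
    i = 0 ∧ j = w.length ∨
    (∃ e s₂ rs₁ rs₂ w₁ w₂, s = e :: s₂ ∧ rs = rs₁ ++ rs₂ ∧ w = w₁ ++ w₂ ∧ s₂ ≠ [] ∧
      Node P [e] rs₁ w₁ i j) ∨
    (∃ e s₂ rs₁ rs₂ w₁ w₂ i' j', s = e :: s₂ ∧ rs = rs₁ ++ rs₂ ∧ w = w₁ ++ w₂ ∧ s₂ ≠ [] ∧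
      D P [e] rs₁ w₁ ∧ Node P s₂ rs₂ w₂ i' j' ∧ i = w₁.length + i' ∧ j = w₁.length + j') ∨
    (∃ r rs', s = [nonterminal r.input] ∧ rs = r :: rs' ∧ Node P r.output rs' w i j) := by
  cases h with
  | refl => exact Or.inl ⟨rfl, rfl⟩
  | head h1 h2 _ => exact Or.inr (Or.inl ⟨_, _, _, _, _, _, rfl, rfl, rfl, h1, h2⟩)
  | tail h1 h2 h3 =>
    exact Or.inr (Or.inr (Or.inl ⟨_, _, _, _, _, _, _, _, rfl, rfl, rfl, h1, h2, h3, rfl, rfl⟩))
  | rule _ h => exact Or.inr (Or.inr (Or.inr ⟨_, _, rfl, rfl, h⟩))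

lemma Node.no_cross {s rs w i j} (h : Node P s rs w i j) :
    ∀ {i' j'}, Node P s rs w i' j' → ¬ (i < i' ∧ i' < j ∧ j < j') := by
  induction h with
  | refl _ => intro i' j' h'; have := h'.toD.2; omega
  | head h1 h2 h3 ih =>
    intro i' j' h'
    rcases h'.inv with ⟨rfl, _⟩ | ⟨e, s₂, rs₁, rs₂, w₁, w₂, e1, e2, e3, _, a⟩ |
      ⟨e, s₂, rs₁, rs₂, w₁, w₂, i'', j'', e1, e2, e3, _, a, b, rfl, rfl⟩ | ⟨r, rs', e1, _⟩
    · omega
    · cases e1
      obtain ⟨rfl, rfl⟩ := h2.toD.1.det a.toD.1 e2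
      exact ih a
    · cases e1
      obtain ⟨rfl, rfl⟩ := h2.toD.1.det a e2
      have := h2.toD.2
      omega
    · simp [h1] at e1
  | tail h1 h2 h3 ih =>
    intro i' j' h'
    rcases h'.inv with ⟨rfl, _⟩ | ⟨e, s₂, rs₁, rs₂, w₁, w₂, e1, e2, e3, _, a⟩ |
      ⟨e, s₂, rs₁, rs₂, w₁, w₂, i'', j'', e1, e2, e3, _, a, b, rfl, rfl⟩ | ⟨r, rs', e1, _⟩
    · omega
    · cases e1
      obtain ⟨rfl, rfl⟩ := h2.det a.toD.1 e2
      have := a.toD.2
      omega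
    · cases e1
      obtain ⟨rfl, rfl⟩ := h2.det a e2
      obtain rfl := List.append_cancel_left e2
      obtain rfl := List.append_cancel_left e3
      have := ih b
      omega
    · simp [h1] at e1
  | rule hr h ih =>
    intro i' j' h'
    rcases h'.inv with ⟨rfl, _⟩ | ⟨e, s₂, rs₁, rs₂, w₁, w₂, e1, _, _, h1, _⟩ |
      ⟨e, s₂, rs₁, rs₂, w₁, w₂, i'', j'', e1, _, _, h1, _⟩ | ⟨r, rs', _, e2, a⟩
    · omega
    · cases e1; exact (h1 rfl).elim
    · cases e1; exact (h1 rfl).elim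
    · cases e2; exact ih a

lemma Ctx.node {s s' γ δ z} (h : Ctx P s s' γ δ) (hz : Y P s z) :
    ∃ rs, Node P s' rs (γ ++ z ++ δ) γ.length (γ.length + z.length) := by
  induction h with
  | refl => obtain ⟨rs, h⟩ := hz; exact ⟨rs, by simpa using Node.refl h⟩
  | head h1 _ h2 ih =>
    obtain ⟨rs, h⟩ := ih
    obtain ⟨rs', h'⟩ := h2
    exact ⟨_, by simpa using Node.head h1 h h'⟩
  | tail h1 h2 _ ih =>
    obtain ⟨rs, h⟩ := ih
    obtain ⟨rs', h'⟩ := h2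
    exact ⟨_, by simpa [add_assoc] using Node.tail h1 h' h⟩
  | rule hr _ ih =>
    obtain ⟨rs, h⟩ := ih
    exact ⟨_, Node.rule hr h⟩

lemma Ctx.plug {s s' γ δ z} (h : Ctx P s s' γ δ) (hz : Y P s z) : Y P s' (γ ++ z ++ δ) := by
  obtain ⟨rs, h⟩ := h.node hz
  exact ⟨rs, h.toD.1⟩

/-- In an unambiguous grammar two nodes over the same word do not cross. -/
theorem no_cross {S : N} (hU : ∀ w rs rs', D P [nonterminal S] rs w → D P [nonterminal S] rs' w →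
      rs = rs') {s s' γ δ z γ' δ' z'}
    (h : Ctx P s [nonterminal S] γ δ) (hz : Y P s z) (h' : Ctx P s' [nonterminal S] γ' δ')
    (hz' : Y P s' z') (e : γ ++ z ++ δ = γ' ++ z' ++ δ') :
    ¬ (γ.length < γ'.length ∧ γ'.length < γ.length + z.length ∧
      γ.length + z.length < γ'.length + z'.length) := by
  obtain ⟨rs, a⟩ := h.node hz
  obtain ⟨rs', a'⟩ := h'.node hz'
  rw [← e] at a'
  obtain rfl := hU _ _ _ a.toD.1 a'.toD.1
  exact a.no_cross a'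

end Pool.Agent.P.MP_067fd8_lc
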