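import Mathlib
import Pool.Agent.Lib.PrimrecProp.Basic

set_option autoImplicit false

namespace Pool.Agent.P.MP_067fd8_lc

open Pool.Agent.Lib.PrimrecProp

variable {α β : Type} [Primcodable α] [Primcodable β]

/-- `P` is the projection of a primitive recursive predicate. -/
def Sig (P : α → Prop) : Prop :=
  ∃ (τ : Type) (_ : Primcodable τ) (R : α × τ → Prop), PrimrecPred R ∧ ∀ a, P a ↔ ∃ t, R (a, t)

lemma Sig.of_eq {P Q : α → Prop} (h : Sig P) (e : ∀ a, P a ↔ Q a) : Sig Q := by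
  obtain ⟨τ, i, R, hR, h⟩ := h
  exact ⟨τ, i, R, hR, fun a => (e a).symm.trans (h a)⟩

lemma Sig.of_primrec {P : α → Prop} (h : PrimrecPred P) : Sig P :=
  ⟨Unit, inferInstance, fun x => P x.1, h.comp Primrec.fst, fun a => by simp⟩

lemma Sig.comp {P : β → Prop} (h : Sig P) {f : α → β} (hf : Primrec f) :
    Sig fun a => P (f a) := by
  obtain ⟨τ, i, R, hR, h⟩ := h
  exact ⟨τ, i, fun x => R (f x.1, x.2), hR.comp ((hf.comp Primrec.fst).pair Primrec.snd),
    fun a => h (f a)⟩

lemma Sig.and {P Q : α → Prop} (hP : Sig P) (hQ : Sig Q) : Sig fun a => P a ∧ Q a := by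
  obtain ⟨τ, i, R, hR, h⟩ := hP
  obtain ⟨τ', i', R', hR', h'⟩ := hQ
  refine ⟨τ × τ', inferInstance, fun x => R (x.1, x.2.1) ∧ R' (x.1, x.2.2),
    (hR.comp (Primrec.fst.pair (Primrec.fst.comp Primrec.snd))).and
      (hR'.comp (Primrec.fst.pair (Primrec.snd.comp Primrec.snd))), fun a => ?_⟩
  simp [h, h']

lemma Sig.or {P Q : α → Prop} (hP : Sig P) (hQ : Sig Q) : Sig fun a => P a ∨ Q a := by
  obtain ⟨τ, i, R, hR, h⟩ := hP
  obtain ⟨τ', i', R', hR', h'⟩ := hQ
  have h1 : PrimrecRel fun (t : τ) (x : α) => R (x, t) := hR.comp (Primrec.snd.pair Primrec.fst)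
  have h2 : PrimrecRel fun (t : τ') (x : α) => R' (x, t) := hR'.comp (Primrec.snd.pair Primrec.fst)
  refine ⟨List τ × List τ', inferInstance,
    fun x => (∃ t ∈ x.2.1, R (x.1, t)) ∨ (∃ t ∈ x.2.2, R' (x.1, t)),
    (h1.exists_mem_list.comp (Primrec.fst.comp Primrec.snd) Primrec.fst).or
      (h2.exists_mem_list.comp (Primrec.snd.comp Primrec.snd) Primrec.fst), fun a => ?_⟩
  simp only [h, h']
  constructor
  · rintro (⟨t, ht⟩ | ⟨t, ht⟩)
    exacts [⟨([t], []), Or.inl ⟨t, by simp, ht⟩⟩, ⟨([], [t]), Or.inr ⟨t, by simp, ht⟩⟩]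
  · rintro ⟨_, ⟨t, _, ht⟩ | ⟨t, _, ht⟩⟩
    exacts [Or.inl ⟨t, ht⟩, Or.inr ⟨t, ht⟩]

lemma Sig.ex {P : α → β → Prop} (hP : Sig fun x : α × β => P x.1 x.2) :
    Sig fun a => ∃ b, P a b := by
  obtain ⟨τ, i, R, hR, h⟩ := hP
  refine ⟨β × τ, inferInstance, fun x => R ((x.1, x.2.1), x.2.2),
    hR.comp ((Primrec.fst.pair (Primrec.fst.comp Primrec.snd)).pair
      (Primrec.snd.comp Primrec.snd)), fun a => ?_⟩
  have : ∀ b, P a b ↔ ∃ t, R ((a, b), t) := fun b => h (a, b)
  simp [this]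

lemma Sig.all_mem {P : α → β → Prop} {l : α → List β} (hl : Primrec l)
    (hP : Sig fun x : α × β => P x.1 x.2) : Sig fun a => ∀ b ∈ l a, P a b := by
  obtain ⟨τ, i, R, hR, h⟩ := hP
  have h1 : PrimrecRel fun (t : τ) (x : α × β) => R (x, t) :=
    hR.comp (Primrec.snd.pair Primrec.fst)
  have h2 : PrimrecRel fun (b : β) (x : α × List τ) => ∃ t ∈ x.2, R ((x.1, b), t) :=
    h1.exists_mem_list.comp (Primrec.snd.comp Primrec.snd)
      ((Primrec.fst.comp Primrec.snd).pair Primrec.fst)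
  refine ⟨List τ, inferInstance, fun x => ∀ b ∈ l x.1, ∃ t ∈ x.2, R ((x.1, b), t),
    h2.forall_mem_list.comp (hl.comp Primrec.fst) Primrec.id, fun a => ?_⟩
  have h' : ∀ b, P a b ↔ ∃ t, R ((a, b), t) := fun b => h (a, b)
  simp only [h']
  constructor
  · intro H
    choose f hf using H
    exact ⟨(l a).attach.map fun b => f b.1 b.2, fun b hb =>
      ⟨f b hb, List.mem_map.2 ⟨⟨b, hb⟩, List.mem_attach _ _, rfl⟩, hf b hb⟩⟩
  · rintro ⟨ts, H⟩ b hb
    obtain ⟨t, -, ht⟩ := H b hb
    exact ⟨t, ht⟩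

lemma Sig.eq {f g : α → β} (hf : Primrec f) (hg : Primrec g) : Sig fun a => f a = g a :=
  Sig.of_primrec (Primrec.eq.comp hf hg)

lemma Sig.ne {f g : α → β} (hf : Primrec f) (hg : Primrec g) : Sig fun a => f a ≠ g a :=
  Sig.of_primrec (Primrec.eq.comp hf hg).not

lemma Sig.lt {f g : α → ℕ} (hf : Primrec f) (hg : Primrec g) : Sig fun a => f a < g a :=
  Sig.of_primrec (Primrec.nat_lt.comp hf hg)

lemma Sig.mem {f : α → β} {l : α → List β} (hf : Primrec f) (hl : Primrec l) :
    Sig fun a => f a ∈ l a :=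
  Sig.of_primrec ((((Primrec.eq (α := β)).exists_mem_list).comp hl hf).of_eq (by simp))

lemma Sig.ex_mem {P : α → β → Prop} {l : α → List β} (hl : Primrec l)
    (hP : Sig fun x : α × β => P x.1 x.2) : Sig fun a => ∃ b ∈ l a, P a b :=
  Sig.ex ((Sig.mem Primrec.snd (hl.comp Primrec.fst)).and hP)

lemma Sig.rtg {R : α → α → Prop} (hR : Sig fun x : α × α => R x.1 x.2) :
    Sig fun x : α × α => Relation.ReflTransGen R x.1 x.2 := by
  have h : Sig fun x : α × α => ∃ l : List α, (x.1 :: l)[l.length]? = some x.2 ∧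
      ∀ i ∈ List.range l.length, ∃ p : α × α, (x.1 :: l)[i]? = some p.1 ∧ l[i]? = some p.2 ∧
        R p.1 p.2 := by
    refine Sig.ex (Sig.and (Sig.eq (by fun_prop) (by fun_prop)) (Sig.all_mem (by fun_prop) ?_))
    refine Sig.ex (Sig.and (Sig.eq (by fun_prop) (by fun_prop))
      (Sig.and (Sig.eq (by fun_prop) (by fun_prop)) (hR.comp Primrec.snd)))
  refine h.of_eq ?_
  rintro ⟨a, b⟩
  simp only [List.mem_range]
  constructor
  · rintro ⟨l, h1, h2⟩
    induction l generalizing a with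
    | nil => simp at h1; subst h1; rfl
    | cons c l ih =>
      obtain ⟨p, e1, e2, hp⟩ := h2 0 (by simp)
      simp only [List.getElem?_cons_zero, Option.some.injEq] at e1 e2
      subst e1 e2
      refine Relation.ReflTransGen.head hp (ih _ (by simpa using h1) fun i hi => ?_)
      simpa using h2 (i + 1) (by simpa using hi)
  · intro h
    induction h using Relation.ReflTransGen.head_induction_on with
    | refl => exact ⟨[], by simp, by simp⟩
    | @head a c hac _ ih =>
      obtain ⟨l, h1, h2⟩ := ih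
      refine ⟨c :: l, by simpa using h1, fun i hi => ?_⟩
      cases i with
      | zero => exact ⟨(a, c), by simp, by simp, hac⟩
      | succ i => simpa using h2 i (by simpa using hi)

lemma Sig.re {P : α → Prop} (h : Sig P) : REPred P := by
  classical
  obtain ⟨τ, i, R, hR, h⟩ := h
  have h1 : Primrec fun x : α × ℕ => ((Encodable.decode (α := τ) x.2).casesOn false
      (fun t => decide (R (x.1, t))) : Bool) :=
    Primrec.option_casesOn (Primrec.decode.comp Primrec.snd) (Primrec.const false)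
      (hR.comp ((Primrec.fst.comp Primrec.fst).pair Primrec.snd)).decide
  have h2 : Partrec fun a : α => Nat.rfind fun n => Part.some
      ((Encodable.decode (α := τ) n).casesOn false (fun t => decide (R (a, t))) : Bool) :=
    Partrec.rfind h1.to_comp.partrec
  refine h2.dom_re.of_eq fun a => ?_
  rw [h, Nat.rfind_dom]
  simp only [Part.mem_some_iff, Part.some_dom, implies_true, and_true]
  constructor
  · rintro ⟨n, hn⟩
    cases e : Encodable.decode (α := τ) n with
    | none => simp [e] at hn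
    | some t => exact ⟨t, by simpa [e] using hn⟩
  · rintro ⟨t, ht⟩
    exact ⟨Encodable.encode t, by simp [ht]⟩

end Pool.Agent.P.MP_067fd8_lc
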