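import Mathlib
import Pool.Agent.P.MP_067fd8_lc.Cross
import Pool.Agent.P.MP_067fd8_lc.Sig

set_option autoImplicit false

namespace Pool.Agent.P.MP_067fd8_lc

open Symbol

/-- a sentential form with the pending words on both sides -/
abbrev Ty (B N : Type) : Type := List B × List (Symbol B N) × List B

section defs

variable {A B N I : Type} (P : Set (ContextFreeRule B N)) (h : A → List B)

def GenS (θ : Ty B N) (w : List A) : Prop :=
  ∃ z, Y P θ.2.1 z ∧ θ.1 ++ w.flatMap h = z ++ θ.2.2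

def CtxS (θ' : Ty B N) (γ : List A) (θ : Ty B N) (δ : List A) : Prop :=
  ∃ γδ : List B × List B, Ctx P θ.2.1 θ'.2.1 γδ.1 γδ.2 ∧ θ'.1 ++ γ.flatMap h = γδ.1 ++ θ.1 ∧
    θ.2.2 ++ δ.flatMap h = γδ.2 ++ θ'.2.2

def Side (S : N) (tiles : List I) (tl : I → A) (ur : I → List A) (y₀ g : List A)
    (items : List (Ty B N × List A × List A × List A))
    (ms : List (List (Ty B N × List A × List A))) : Prop :=
  (∀ it ∈ items, GenS P h it.1 it.2.2.1 ∧ it.2.1 ++ it.2.2.1 ++ it.2.2.2 = g) ∧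
  (∃ m ∈ ms, ∀ st ∈ m, ∃ it ∈ items,
    CtxS P h st.1 (st.2.1 ++ it.2.1) it.1 (it.2.2.2 ++ y₀ ++ st.2.2)) ∧
  (∀ m ∈ ms, ∀ t ∈ tiles, ∃ m' ∈ ms, ∀ st' ∈ m', ∃ st ∈ m, ∃ γδ : List A × List A,
    CtxS P h st'.1 γδ.1 st.1 γδ.2 ∧ γδ.1 ++ st.2.1 = st'.2.1 ++ [tl t] ∧
      st.2.2 ++ γδ.2 = ur t ++ st'.2.2) ∧
  (∀ m ∈ ms, (([], [nonterminal S], []), [], []) ∈ m)

def Crosses (it it' : Ty B N × List A × List A × List A) : Prop :=
  (it.2.1.flatMap h).length + it'.1.1.length < (it'.2.1.flatMap h).length + it.1.1.length ∧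
  (it'.2.1.flatMap h).length + it.1.2.2.length
    < ((it.2.1 ++ it.2.2.1).flatMap h).length + it'.1.1.length ∧
  ((it.2.1 ++ it.2.2.1).flatMap h).length + it'.1.2.2.length
    < ((it'.2.1 ++ it'.2.2.1).flatMap h).length + it.1.2.2.length

def Cert (S : N) (tiles : List I) (tl : I → A) (ur vr : I → List A) (y₀ : List A) : Prop :=
  ∃ g : List A, ∃ iU : List (Ty B N × List A × List A × List A),
    ∃ iV : List (Ty B N × List A × List A × List A),
    ∃ mU : List (List (Ty B N × List A × List A)), ∃ mV : List (List (Ty B N × List A × List A)),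
      Side P h S tiles tl ur [] g iU mU ∧ Side P h S tiles tl vr y₀ g iV mV ∧
      ∀ it ∈ iU, ∀ it' ∈ iV, Crosses h it it'

variable {P h}

lemma CtxS.refl (θ : Ty B N) : CtxS P h θ [] θ [] := ⟨([], []), Ctx.refl, by simp, by simp⟩

lemma CtxS.trans {θ₁ θ₂ θ₃ : Ty B N} {γ δ γ' δ' : List A} (h₁ : CtxS P h θ₂ γ θ₁ δ)
    (h₂ : CtxS P h θ₃ γ' θ₂ δ') : CtxS P h θ₃ (γ' ++ γ) θ₁ (δ ++ δ') := by
  obtain ⟨⟨γ₀, δ₀⟩, a1, a2, a3⟩ := h₁
  obtain ⟨⟨γ₁, δ₁⟩, b1, b2, b3⟩ := h₂
  refine ⟨(γ₁ ++ γ₀, δ₀ ++ δ₁), a1.trans b1, ?_, ?_⟩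
  · simp only at a2 b2 ⊢
    rw [List.flatMap_append, ← List.append_assoc, b2, List.append_assoc, a2, List.append_assoc]
  · simp only at a3 b3 ⊢
    rw [List.flatMap_append, ← List.append_assoc, a3, List.append_assoc, b3, List.append_assoc]

lemma CtxS.plug {θ θ' : Ty B N} {γ δ w : List A} (h₁ : CtxS P h θ' γ θ δ) (h₂ : GenS P h θ w) :
    GenS P h θ' (γ ++ w ++ δ) := by
  obtain ⟨⟨γ₀, δ₀⟩, a1, a2, a3⟩ := h₁
  obtain ⟨z, b1, b2⟩ := h₂
  refine ⟨_, a1.plug b1, ?_⟩
  simp only at a2 a3 ⊢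
  rw [List.flatMap_append, List.flatMap_append, ← List.append_assoc, ← List.append_assoc, a2,
    List.append_assoc γ₀, b2]
  simp [a3]

lemma Side.sound {S : N} {tiles : List I} {tl : I → A} {ur : I → List A} {y₀ g : List A}
    {items ms} (hs : Side P h S tiles tl ur y₀ g items ms) (τ : List I) (hτ : ∀ t ∈ τ, t ∈ tiles) :
    ∃ it ∈ items, CtxS P h ([], [nonterminal S], []) (τ.reverse.map tl ++ it.2.1) it.1
      (it.2.2.2 ++ y₀ ++ τ.flatMap ur) := by
  obtain ⟨_, h2, h3, h4⟩ := hs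
  have key : ∃ m ∈ ms, ∀ st ∈ m, ∃ it ∈ items, CtxS P h st.1 (st.2.1 ++ τ.reverse.map tl ++ it.2.1)
      it.1 (it.2.2.2 ++ y₀ ++ τ.flatMap ur ++ st.2.2) := by
    induction τ using List.reverseRecOn with
    | nil => simpa using h2
    | append_singleton τ t ih =>
      obtain ⟨m, hm, ih⟩ := ih fun t ht => hτ t (by simp [ht])
      obtain ⟨m', hm', h5⟩ := h3 m hm t (hτ t (by simp))
      refine ⟨m', hm', fun st' hst' => ?_⟩
      obtain ⟨st, hst, ⟨γ, δ⟩, a1, a2, a3⟩ := h5 st' hst'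
      obtain ⟨it, hit, a4⟩ := ih st hst
      refine ⟨it, hit, ?_⟩
      have := a4.trans a1
      simp only at a2 a3 this
      convert this using 1
      · rw [← List.append_assoc, ← List.append_assoc, a2]; simp
      · rw [List.append_assoc _ st.2.2, a3]; simp
  obtain ⟨m, hm, h5⟩ := key
  simpa using h5 _ (h4 m hm)

theorem Cert.sound {S : N} (hU : ∀ w rs rs', D P [nonterminal S] rs w →
      D P [nonterminal S] rs' w → rs = rs') {tiles : List I} {tl : I → A} {ur vr : I → List A}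
    {y₀ : List A} (hc : Cert P h S tiles tl ur vr y₀) (τ : List I) (hτ : ∀ t ∈ τ, t ∈ tiles) :
    τ.flatMap ur ≠ y₀ ++ τ.flatMap vr := by
  intro e
  obtain ⟨g, iU, iV, mU, mV, h1, h2, h3⟩ := hc
  obtain ⟨it, hit, ⟨γ, δ⟩, a1, a2, a3⟩ := h1.sound τ hτ
  obtain ⟨it', hit', ⟨γ', δ'⟩, b1, b2, b3⟩ := h2.sound τ hτ
  obtain ⟨⟨z, a4, a5⟩, a6⟩ := h1.1 it hit
  obtain ⟨⟨z', b4, b5⟩, b6⟩ := h2.1 it' hit'
  obtain ⟨c1, c2, c3⟩ := h3 it hit it' hit'
  simp only [List.nil_append, List.append_nil] at a1 a2 a3 b1 b2 b3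
  have w1 : γ ++ z ++ δ = (τ.reverse.map tl ++ g ++ τ.flatMap ur).flatMap h := by
    rw [← a3, ← List.append_assoc, List.append_assoc γ, ← a5, ← List.append_assoc, ← a2, ← a6]
    simp
  have w2 : γ' ++ z' ++ δ' = (τ.reverse.map tl ++ g ++ τ.flatMap ur).flatMap h := by
    rw [← b3, ← List.append_assoc, List.append_assoc γ', ← b5, ← List.append_assoc, ← b2, ← b6, e]
    simp
  refine no_cross hU a1 a4 b1 b4 (w1.trans w2.symm) ?_
  have l1 := congrArg List.length a2
  have l2 := congrArg List.length b2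
  have l3 := congrArg List.length a5
  have l4 := congrArg List.length b5
  simp only [List.flatMap_append, List.length_append] at l1 l2 l3 l4 c1 c2 c3
  omega

end defs

section sig

open Pool.Agent.Lib.PrimrecProp

variable {A B N I : Type} [Primcodable A] [Primcodable B] [Primcodable (Symbol B N)] [Primcodable I]
variable {P : Set (ContextFreeRule B N)}

omit [Primcodable B] in
lemma sig_rule (hP : P.Finite) : Sig fun x : Symbol B N × List (Symbol B N) =>
    ∃ r ∈ P, x.1 = nonterminal r.input ∧ x.2 = r.output := by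
  refine (Sig.mem (f := id) (l := fun _ => hP.toFinset.toList.map
    fun r => ((nonterminal r.input : Symbol B N), r.output)) Primrec.id (Primrec.const _)).of_eq ?_
  rintro ⟨x, o⟩
  simp only [id, List.mem_map, Finset.mem_toList, Set.Finite.mem_toFinset, Prod.mk.injEq]
  exact exists_congr fun r => and_congr_right fun _ => ⟨fun h => ⟨h.1.symm, h.2.symm⟩,
    fun h => ⟨h.1.symm, h.2.symm⟩⟩

lemma sig_Y [Finite B] (hP : P.Finite) :
    Sig fun x : List (Symbol B N) × List B => Y P x.1 x.2 := by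
  have hT : Primrec (terminal : B → Symbol B N) := Primrec.dom_finite _
  let R : List (Symbol B N) × List B → List (Symbol B N) × List B → Prop := fun x y =>
    (∃ b, x.1 = terminal b :: y.1 ∧ x.2 = b :: y.2) ∨
    (∃ q : (Symbol B N × List (Symbol B N)) × List (Symbol B N),
      (∃ r ∈ P, q.1.1 = nonterminal r.input ∧ q.1.2 = r.output) ∧ x.1 = q.1.1 :: q.2 ∧
        y.1 = q.1.2 ++ q.2 ∧ x.2 = y.2)
  have hR : Sig fun x : (List (Symbol B N) × List B) × (List (Symbol B N) × List B) =>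
      R x.1 x.2 := by
    refine Sig.or (Sig.ex (Sig.and (Sig.eq (by fun_prop) (by fun_prop))
      (Sig.eq (by fun_prop) (by fun_prop)))) (Sig.ex (Sig.and ?_ (Sig.and
      (Sig.eq (by fun_prop) (by fun_prop)) (Sig.and (Sig.eq (by fun_prop) (by fun_prop))
      (Sig.eq (by fun_prop) (by fun_prop))))))
    exact (sig_rule hP).comp (Primrec.fst.comp Primrec.snd)
  refine ((Sig.rtg hR).comp (f := fun x => (x, ([], []))) (by fun_prop)).of_eq ?_
  intro x
  simp only
  constructor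
  · intro h
    induction h using Relation.ReflTransGen.head_induction_on with
    | refl => exact ⟨[], D.nil⟩
    | head h _ ih =>
      obtain ⟨rs, ih⟩ := ih
      rcases h with ⟨b, h1, h2⟩ | ⟨q, ⟨r, hr, h1, h2⟩, h3, h4, h5⟩
      · exact ⟨rs, by rw [h1, h2]; exact ih.term⟩
      · exact ⟨r :: rs, by rw [h3, h1, h5]; exact D.nt hr (by rw [← h2, ← h4]; exact ih)⟩
  · obtain ⟨s, z⟩ := x
    rintro ⟨rs, h⟩
    simp only at h
    induction h with
    | nil => rfl
    | term _ ih =>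
      refine Relation.ReflTransGen.head ?_ ih
      exact Or.inl ⟨_, rfl, rfl⟩
    | @nt r s rs w hr _ ih =>
      refine Relation.ReflTransGen.head ?_ ih
      exact Or.inr ⟨((nonterminal r.input, r.output), s), ⟨r, hr, rfl, rfl⟩, rfl, rfl, rfl⟩

lemma sig_Ctx [Finite B] (hP : P.Finite) :
    Sig fun x : List (Symbol B N) × List (Symbol B N) × List B × List B =>
      Ctx P x.1 x.2.1 x.2.2.1 x.2.2.2 := by
  let R : List (Symbol B N) × List B × List B → List (Symbol B N) × List B × List B → Prop :=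
    fun x y =>
    (∃ q : Symbol B N × List (Symbol B N) × List B, q.2.1 ≠ [] ∧ x.1 = q.1 :: q.2.1 ∧ y.1 = [q.1] ∧
      x.2.1 = y.2.1 ∧ x.2.2 = y.2.2 ++ q.2.2 ∧ Y P q.2.1 q.2.2) ∨
    (∃ q : Symbol B N × List B, y.1 ≠ [] ∧ x.1 = q.1 :: y.1 ∧
      x.2.1 = q.2 ++ y.2.1 ∧ x.2.2 = y.2.2 ∧ Y P [q.1] q.2) ∨
    (∃ e : Symbol B N, x.1 = [e] ∧ x.2 = y.2 ∧ ∃ r ∈ P, e = nonterminal r.input ∧ y.1 = r.output)
  have hR : Sig fun x : (List (Symbol B N) × List B × List B) ×
      (List (Symbol B N) × List B × List B) => R x.1 x.2 := by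
    refine Sig.or (Sig.ex (Sig.and (Sig.ne (by fun_prop) (by fun_prop))
      (Sig.and (Sig.eq (by fun_prop) (by fun_prop)) (Sig.and (Sig.eq (by fun_prop) (by fun_prop))
      (Sig.and (Sig.eq (by fun_prop) (by fun_prop)) (Sig.and (Sig.eq (by fun_prop) (by fun_prop))
      ?_)))))) (Sig.or (Sig.ex (Sig.and (Sig.ne (by fun_prop) (by fun_prop))
      (Sig.and (Sig.eq (by fun_prop) (by fun_prop)) (Sig.and (Sig.eq (by fun_prop) (by fun_prop))
      (Sig.and (Sig.eq (by fun_prop) (by fun_prop)) ?_)))))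
      (Sig.ex (Sig.and (Sig.eq (by fun_prop) (by fun_prop))
      (Sig.and (Sig.eq (by fun_prop) (by fun_prop)) ?_))))
    · exact (sig_Y hP).comp (Primrec.snd.comp Primrec.snd)
    · exact (sig_Y hP).comp (f := fun x : ((List (Symbol B N) × List B × List B) ×
        (List (Symbol B N) × List B × List B)) × Symbol B N × List B => ([x.2.1], x.2.2))
        (by fun_prop)
    · exact (sig_rule hP).comp (f := fun x : ((List (Symbol B N) × List B × List B) ×
        (List (Symbol B N) × List B × List B)) × Symbol B N => (x.2, x.1.2.1)) (by fun_prop)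
  refine ((Sig.rtg hR).comp (f := fun x : List (Symbol B N) × List (Symbol B N) × List B × List B =>
    (x.2, (x.1, [], []))) (by fun_prop)).of_eq ?_
  rintro ⟨s, x⟩
  simp only
  constructor
  · intro h
    induction h using Relation.ReflTransGen.head_induction_on with
    | refl => exact Ctx.refl
    | head h _ ih =>
      rcases h with ⟨q, h1, h2, h3, h4, h5, h6⟩ | ⟨q, h1, h2, h3, h4, h5⟩ | ⟨e, h1, h2, r, hr, h3, h4⟩
      · rw [h2, h4, h5]; rw [h3] at ih; exact Ctx.head h1 ih h6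
      · rw [h2, h3, h4]; exact Ctx.tail h1 h5 ih
      · rw [h1, h2, h3]; rw [h4] at ih; exact Ctx.rule hr ih
  · obtain ⟨s', γ, δ⟩ := x
    intro h
    simp only at h
    induction h with
    | refl => rfl
    | @head e s₂ γ δ z h1 _ h2 ih =>
      refine Relation.ReflTransGen.head ?_ ih
      exact Or.inl ⟨(e, s₂, z), h1, rfl, rfl, rfl, rfl, h2⟩
    | @tail e s₂ γ δ z h1 h2 _ ih =>
      refine Relation.ReflTransGen.head ?_ ih
      exact Or.inr (Or.inl ⟨(e, z), h1, rfl, rfl, rfl, h2⟩)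
    | rule hr _ ih =>
      refine Relation.ReflTransGen.head ?_ ih
      exact Or.inr (Or.inr ⟨_, rfl, rfl, _, hr, rfl, rfl⟩)

/-- the morphism coded by a list of words -/
def hf {A B : Type} [Encodable A] (H : List (List B)) (a : A) : List B :=
  H.getD (Encodable.encode a) []

@[fun_prop] lemma p_hf {α : Type} [Primcodable α] {f : α → List (List B)} {g : α → A}
    (hf' : Primrec f) (hg : Primrec g) : Primrec fun x => (hf (f x) (g x) : List B) :=
  (Primrec.list_getD []).comp hf' (Primrec.encode.comp hg)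

omit [Primcodable B] in
lemma exists_hf [Finite A] (f : A → List B) : ∃ H : List (List B), hf H = f := by
  obtain ⟨n, hn⟩ := (Set.finite_range (Encodable.encode : A → ℕ)).bddAbove
  refine ⟨(List.range (n + 1)).map fun i => (Encodable.decode (α := A) i).elim [] f, ?_⟩
  ext1 a
  have : Encodable.encode a < n + 1 := Nat.lt_succ_of_le (hn ⟨a, rfl⟩)
  simp [hf, List.getD_eq_getElem?_getD, this]

variable {α : Type} [Primcodable α]

lemma sig_GenS [Finite B] (hP : P.Finite) {H : α → List (List B)} {θ : α → Ty B N}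
    {w : α → List A} (hH : Primrec H) (hθ : Primrec θ) (hw : Primrec w) :
    Sig fun x => GenS P (hf (H x)) (θ x) (w x) := by
  refine Sig.ex (Sig.and ?_ (Sig.eq (by fun_prop) (by fun_prop)))
  exact (sig_Y hP).comp (f := fun x : α × List B => ((θ x.1).2.1, x.2)) (by fun_prop)

lemma sig_CtxS [Finite B] (hP : P.Finite) {H : α → List (List B)} {θ θ' : α → Ty B N}
    {γ δ : α → List A} (hH : Primrec H) (hθ' : Primrec θ') (hγ : Primrec γ) (hθ : Primrec θ)
    (hδ : Primrec δ) : Sig fun x => CtxS P (hf (H x)) (θ' x) (γ x) (θ x) (δ x) := by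
  refine Sig.ex (Sig.and ?_ (Sig.and (Sig.eq (by fun_prop) (by fun_prop))
    (Sig.eq (by fun_prop) (by fun_prop))))
  exact (sig_Ctx hP).comp (f := fun x : α × List B × List B => ((θ x.1).2.1, (θ' x.1).2.1, x.2))
    (by fun_prop)

lemma sig_Side [Finite B] [Finite I] (hP : P.Finite) (S : N) (tiles : List I) (tl : I → A)
    (ur : I → List A) {H : α → List (List B)} {y₀ g : α → List A}
    {items : α → List (Ty B N × List A × List A × List A)}
    {ms : α → List (List (Ty B N × List A × List A))} (hH : Primrec H) (hy : Primrec y₀)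
    (hg : Primrec g) (hi : Primrec items) (hm : Primrec ms) :
    Sig fun x => Side P (hf (H x)) S tiles tl ur (y₀ x) (g x) (items x) (ms x) := by
  have h1 : Primrec tl := Primrec.dom_finite _
  have h2 : Primrec ur := Primrec.dom_finite _
  refine Sig.and (Sig.all_mem hi (Sig.and (sig_GenS hP (by fun_prop) (by fun_prop) (by fun_prop))
    (Sig.eq (by fun_prop) (by fun_prop)))) (Sig.and ?_ (Sig.and ?_
    (Sig.all_mem hm (Sig.mem (by fun_prop) (by fun_prop)))))
  · exact Sig.ex_mem hm (Sig.all_mem (by fun_prop) (Sig.ex_mem (by fun_prop)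
      (sig_CtxS hP (by fun_prop) (by fun_prop) (by fun_prop) (by fun_prop) (by fun_prop))))
  · refine Sig.all_mem hm (Sig.all_mem (by fun_prop) (Sig.ex_mem (by fun_prop)
      (Sig.all_mem (by fun_prop) (Sig.ex_mem (by fun_prop) (Sig.ex (Sig.and
      (sig_CtxS hP (by fun_prop) (by fun_prop) (by fun_prop) (by fun_prop) (by fun_prop))
      (Sig.and (Sig.eq (by fun_prop) (by fun_prop)) (Sig.eq (by fun_prop) (by fun_prop)))))))))

theorem sig_Cert [Finite B] [Finite I] (hP : P.Finite) (S : N) (tiles : List I) (tl : I → A)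
    (ur vr : I → List A) :
    Sig fun y₀ : List A => ∃ H : List (List B), Cert P (hf H) S tiles tl ur vr y₀ := by
  refine Sig.ex (Sig.ex (Sig.ex (Sig.ex (Sig.ex (Sig.ex (Sig.and
    (sig_Side hP S tiles tl ur (by fun_prop) (by fun_prop) (by fun_prop) (by fun_prop) (by fun_prop))
    (Sig.and (sig_Side hP S tiles tl vr (by fun_prop) (by fun_prop) (by fun_prop) (by fun_prop)
    (by fun_prop)) (Sig.all_mem (by fun_prop) (Sig.all_mem (by fun_prop) ?_)))))))))
  exact Sig.and (Sig.lt (by fun_prop) (by fun_prop)) (Sig.and (Sig.lt (by fun_prop) (by fun_prop))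
    (Sig.lt (by fun_prop) (by fun_prop)))

end sig

end Pool.Agent.P.MP_067fd8_lc
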