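import Mathlib
import Pool.Agent.P.MP_067fd8_lc.Basic

set_option autoImplicit false

namespace Pool.Agent.P.MP_067fd8_lc

open Symbol

/-- states: automaton state and pending part of the image of the last letter -/
abbrev St (σ B : Type) (H : ℕ) : Type := σ × {r : List B // r.length ≤ H}

instance St.finite (σ B : Type) (H : ℕ) [Finite σ] [Finite B] : Finite (St σ B H) :=
  haveI : Finite {r : List B // r.length ≤ H} := (List.finite_length_le B H).to_subtype
  inferInstance

instance symFinite (B N : Type) [Finite B] [Finite N] : Finite (Symbol B N) :=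
  Finite.of_surjective (Sum.elim terminal nonterminal : B ⊕ N → Symbol B N) (by
    rintro (b | X)
    exacts [⟨Sum.inl b, rfl⟩, ⟨Sum.inr X, rfl⟩])

lemma finite_rules {B N : Type} [Finite B] [Finite N] (P : Set (ContextFreeRule B N)) (m : ℕ)
    (h : ∀ r ∈ P, r.output.length ≤ m) : P.Finite := by
  refine Set.Finite.of_finite_image (f := fun r => (r.input, r.output)) ?_ ?_
  · refine (Set.finite_univ.prod (List.finite_length_le (Symbol B N) m)).subset ?_
    rintro _ ⟨r, hr, rfl⟩
    exact ⟨trivial, h r hr⟩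
  · intro r _ r' _ e
    simp only [Prod.mk.injEq] at e
    exact ContextFreeRule.ext e.1 e.2

lemma exists_output_bound {B N : Type} {P : Set (ContextFreeRule B N)} (hP : P.Finite) :
    ∃ m, 1 ≤ m ∧ ∀ r ∈ P, r.output.length ≤ m := by
  obtain ⟨m, hm⟩ := (hP.image fun r => r.output.length).bddAbove
  exact ⟨m + 1, by omega, fun r hr => (hm ⟨r, hr, rfl⟩).trans (by omega)⟩

lemma exists_image_bound {A B : Type} [Finite A] (f : A → List B) :
    ∃ H, ∀ a, (f a).length ≤ H := by
  obtain ⟨m, hm⟩ := (Set.finite_range fun a => (f a).length).bddAbove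
  exact ⟨m, fun a => hm ⟨a, rfl⟩⟩

/-- nonterminals of the product grammar -/
inductive NT (σ B N : Type) (H : ℕ) : Type
  | start : NT σ B N H
  | fin : σ → NT σ B N H
  | mid : St σ B H → Symbol B N → St σ B H → NT σ B N H

instance NT.finite (σ B N : Type) (H : ℕ) [Finite σ] [Finite B] [Finite N] :
    Finite (NT σ B N H) :=
  Finite.of_surjective (fun x : Option (σ ⊕ (St σ B H × Symbol B N × St σ B H)) =>
    (x.elim NT.start (Sum.elim NT.fin fun y => NT.mid y.1 y.2.1 y.2.2) : NT σ B N H)) (by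
    rintro (_ | s | ⟨p, x, q⟩)
    exacts [⟨none, rfl⟩, ⟨some (Sum.inl s), rfl⟩, ⟨some (Sum.inr (p, x, q)), rfl⟩])

section

variable {A B N σ : Type} {H : ℕ}

/-- decorating a sentential form with states -/
inductive Lift : St σ B H → List (Symbol B N) → St σ B H → List (Symbol A (NT σ B N H)) → Prop
  | nil (p) : Lift p [] p []
  | cons {p p₁ q x s o} : Lift p₁ s q o → Lift p (x :: s) q (nonterminal (NT.mid p x p₁) :: o)

lemma Lift.append {p q r : St σ B H} {s t : List (Symbol B N)} {o o' : List (Symbol A (NT σ B N H))}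
    (h : Lift p s q o) (h' : Lift q t r o') : Lift p (s ++ t) r (o ++ o') := by
  induction h with
  | nil => exact h'
  | cons _ ih => exact (ih h').cons

lemma Lift.split {p r : St σ B H} {s t : List (Symbol B N)} {o : List (Symbol A (NT σ B N H))}
    (h : Lift p (s ++ t) r o) : ∃ q o₁ o₂, o = o₁ ++ o₂ ∧ Lift p s q o₁ ∧ Lift q t r o₂ := by
  induction s generalizing p o with
  | nil => exact ⟨p, [], o, rfl, Lift.nil p, h⟩
  | cons x s ih =>
    cases h with
    | cons h =>
      obtain ⟨q, o₁, o₂, rfl, h₁, h₂⟩ := ih h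
      exact ⟨q, _, o₂, rfl, h₁.cons, h₂⟩

lemma Lift.length {p q : St σ B H} {s : List (Symbol B N)} {o : List (Symbol A (NT σ B N H))}
    (h : Lift p s q o) : o.length = s.length := by
  induction h with
  | nil => rfl
  | cons _ ih => simp [ih]

lemma Lift.det {p q q' : St σ B H} {s : List (Symbol B N)} {o : List (Symbol A (NT σ B N H))}
    (h : Lift p s q o) (h' : Lift p s q' o) : q = q' := by
  induction h with
  | nil => cases h'; rfl
  | cons _ ih => cases h' with | cons h' => exact ih h'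

/-- forgetting the states -/
def unl : Symbol A (NT σ B N H) → Option (Symbol B N)
  | nonterminal (NT.mid _ x _) => some x
  | _ => none

lemma Lift.unl {p q : St σ B H} {s : List (Symbol B N)} {o : List (Symbol A (NT σ B N H))}
    (h : Lift p s q o) : o.filterMap unl = s := by
  induction h with
  | nil => rfl
  | cons _ ih => rw [List.filterMap_cons_some (by rfl), ih]

/-- projection of rules -/
def proj (r : ContextFreeRule A (NT σ B N H)) : Option (ContextFreeRule B N) :=
  match r.input with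
  | NT.mid _ (nonterminal X) _ => some ⟨X, r.output.filterMap unl⟩
  | _ => none

variable (M : DFA A σ) (f : A → List B) (P : Set (ContextFreeRule B N)) (S : N)

/-- the rules of the product grammar -/
inductive PR : ContextFreeRule A (NT σ B N H) → Prop
  | start (p q : St σ B H) : p.1 = M.start → p.2.1 = [] → q.2.1 = [] →
      PR ⟨NT.start, [nonterminal (NT.mid p (nonterminal S) q), nonterminal (NT.fin q.1)]⟩
  | stop (s) : s ∈ M.accept → PR ⟨NT.fin s, []⟩
  | fskip (s e) : f e = [] → PR ⟨NT.fin s, [terminal e, nonterminal (NT.fin (M.step s e))]⟩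
  | rule (p q r o) : r ∈ P → Lift p r.output q o → PR ⟨NT.mid p (nonterminal r.input) q, o⟩
  | pop (p q : St σ B H) (b) : p.2.1 = b :: q.2.1 → q.1 = p.1 → PR ⟨NT.mid p (terminal b) q, []⟩
  | read (p q : St σ B H) (a b) : p.2.1 = [] → f a = b :: q.2.1 → q.1 = M.step p.1 a →
      PR ⟨NT.mid p (terminal b) q, [terminal a]⟩
  | skip (p p₁ q : St σ B H) (e b) : p.2.1 = [] → f e = [] → p₁.1 = M.step p.1 e → p₁.2.1 = [] →
      PR ⟨NT.mid p (terminal b) q, [terminal e, nonterminal (NT.mid p₁ (terminal b) q)]⟩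

/-- reading one letter of the image -/
inductive Step (b : B) (q : St σ B H) :
    St σ B H → List A → List (ContextFreeRule A (NT σ B N H)) → Prop
  | pop (p : St σ B H) : p.2.1 = b :: q.2.1 → q.1 = p.1 →
      Step b q p [] [⟨NT.mid p (terminal b) q, []⟩]
  | read (p : St σ B H) (a) : p.2.1 = [] → f a = b :: q.2.1 → q.1 = M.step p.1 a →
      Step b q p [a] [⟨NT.mid p (terminal b) q, [terminal a]⟩]
  | skip (p p₁ : St σ B H) (e u g) : p.2.1 = [] → f e = [] → p₁.1 = M.step p.1 e → p₁.2.1 = [] →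
      Step b q p₁ u g → Step b q p (e :: u)
        (⟨NT.mid p (terminal b) q, [terminal e, nonterminal (NT.mid p₁ (terminal b) q)]⟩ :: g)

/-- reading the final erased letters -/
inductive Fin' : σ → List A → List (ContextFreeRule A (NT σ B N H)) → Prop
  | stop (s) : s ∈ M.accept → Fin' s [] [⟨NT.fin s, []⟩]
  | skip (s e u g) : f e = [] → Fin' (M.step s e) u g →
      Fin' s (e :: u) (⟨NT.fin s, [terminal e, nonterminal (NT.fin (M.step s e))]⟩ :: g)

variable {M f P S}

lemma step_iff {b : B} {p q : St σ B H} {u g} :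
    D {r | PR M f P S r} [nonterminal (NT.mid p (terminal b) q)] g u ↔ Step M f b q p u g := by
  constructor
  · intro h
    induction g generalizing p u with
    | nil => obtain ⟨_, _, h, _⟩ := D.nt_iff.1 h; cases h
    | cons r g ih =>
      obtain ⟨r', g', e, hr, hi, h⟩ := D.nt_iff.1 h
      simp only [List.cons.injEq] at e
      obtain ⟨rfl, rfl⟩ := e
      rw [List.append_nil] at h
      cases hr with
      | start => cases hi
      | stop => cases hi
      | fskip => cases hi
      | rule => cases hi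
      | pop p' q' b' h1 h2 =>
        cases hi
        obtain ⟨rfl, rfl⟩ := D.nil_iff.1 h
        exact Step.pop _ h1 h2
      | read p' q' a b' h1 h2 h3 =>
        cases hi
        obtain ⟨w', rfl, h'⟩ := D.term_iff.1 h
        obtain ⟨rfl, rfl⟩ := D.nil_iff.1 h'
        exact Step.read _ _ h1 h2 h3
      | skip p' p₁ q' e b' h1 h2 h3 h4 =>
        cases hi
        obtain ⟨w', rfl, h'⟩ := D.term_iff.1 h
        exact Step.skip _ _ _ _ _ h1 h2 h3 h4 (ih h')
  · intro h
    induction h with
    | pop p h1 h2 => exact D.nt (r := ⟨_, _⟩) (PR.pop _ _ _ h1 h2) D.nil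
    | read p a h1 h2 h3 => exact D.nt (r := ⟨_, _⟩) (PR.read _ _ _ _ h1 h2 h3) D.nil.term
    | skip p p₁ e u g h1 h2 h3 h4 _ ih =>
      exact D.nt (r := ⟨_, _⟩) (PR.skip _ _ _ _ _ h1 h2 h3 h4) ih.term

lemma fin_iff {s : σ} {u} {g : List (ContextFreeRule A (NT σ B N H))} :
    D {r | PR M f P S r} [nonterminal (NT.fin s)] g u ↔ Fin' M f s u g := by
  constructor
  · intro h
    induction g generalizing s u with
    | nil => obtain ⟨_, _, h, _⟩ := D.nt_iff.1 h; cases h
    | cons r g ih =>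
      obtain ⟨r', g', e, hr, hi, h⟩ := D.nt_iff.1 h
      simp only [List.cons.injEq] at e
      obtain ⟨rfl, rfl⟩ := e
      rw [List.append_nil] at h
      cases hr with
      | start => cases hi
      | rule => cases hi
      | pop => cases hi
      | read => cases hi
      | skip => cases hi
      | stop s' h1 =>
        cases hi
        obtain ⟨rfl, rfl⟩ := D.nil_iff.1 h
        exact Fin'.stop _ h1
      | fskip s' e h1 =>
        cases hi
        obtain ⟨w', rfl, h'⟩ := D.term_iff.1 h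
        exact Fin'.skip _ _ _ _ h1 (ih h')
  · intro h
    induction h with
    | stop s h1 => exact D.nt (r := ⟨_, _⟩) (PR.stop _ h1) D.nil
    | skip s e u g h1 _ ih => exact D.nt (r := ⟨_, _⟩) (PR.fskip _ _ h1) ih.term

lemma St.ext' {p q : St σ B H} (h1 : p.1 = q.1) (h2 : p.2.1 = q.2.1) : p = q :=
  Prod.ext h1 (Subtype.ext h2)

lemma Step.det {b : B} {p q q' : St σ B H} {u u' x y} {g g' : List (ContextFreeRule A (NT σ B N H))}
    (h : Step M f b q p u g) (h' : Step M f b q' p u' g') (e : u ++ x = u' ++ y) :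
    q = q' ∧ u = u' ∧ g = g' := by
  induction h generalizing u' g' with
  | pop p h1 h2 =>
    cases h' with
    | pop _ h3 h4 =>
      have : q = q' := St.ext' (h2.trans h4.symm) (by simpa [h1] using h3)
      subst this; simp
    | read _ _ h3 => simp [h1] at h3
    | skip _ _ _ _ _ h3 => simp [h1] at h3
  | read p a h1 h2 h3 =>
    cases h' with
    | pop _ h4 => simp [h1] at h4
    | read _ a' h4 h5 h6 =>
      simp only [List.cons_append, List.cons.injEq] at e
      obtain ⟨rfl, _⟩ := e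
      have : q = q' := St.ext' (h3.trans h6.symm) (by simpa [h2] using h5)
      subst this; simp
    | skip _ _ e' _ _ _ h4 =>
      simp only [List.cons_append, List.cons.injEq] at e
      obtain ⟨rfl, _⟩ := e
      simp [h2] at h4
  | skip p p₁ a u g h1 h2 h3 h4 _ ih =>
    cases h' with
    | pop _ h5 => simp [h1] at h5
    | read _ a' _ h5 =>
      simp only [List.cons_append, List.cons.injEq] at e
      obtain ⟨rfl, _⟩ := e
      simp [h2] at h5
    | skip _ p₂ a' u' g' _ _ h5 h6 h7 =>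
      simp only [List.cons_append, List.cons.injEq] at e
      obtain ⟨rfl, e⟩ := e
      have : p₁ = p₂ := St.ext' (h3.trans h5.symm) (h4.trans h6.symm)
      subst this
      obtain ⟨rfl, rfl, rfl⟩ := ih h7 e
      simp

lemma Fin'.det {s : σ} {u} {g g' : List (ContextFreeRule A (NT σ B N H))}
    (h : Fin' M f s u g) (h' : Fin' M f s u g') : g = g' := by
  induction h generalizing g' with
  | stop => cases h'; rfl
  | skip _ _ _ _ _ _ ih => cases h' with | skip _ _ _ _ _ h => rw [ih h]

lemma Step.proj {b : B} {p q : St σ B H} {u} {g : List (ContextFreeRule A (NT σ B N H))}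
    (h : Step M f b q p u g) : g.filterMap proj = [] ∧ g ≠ [] := by
  induction h with
  | pop => simp [Pool.Agent.P.MP_067fd8_lc.proj]
  | read => simp [Pool.Agent.P.MP_067fd8_lc.proj]
  | skip _ _ _ _ _ _ _ _ _ _ ih =>
    refine ⟨?_, by simp⟩
    rw [List.filterMap_cons_none (by simp [Pool.Agent.P.MP_067fd8_lc.proj]), ih.1]

lemma Step.sem {b : B} {p q : St σ B H} {u} {g : List (ContextFreeRule A (NT σ B N H))}
    (h : Step M f b q p u g) :
    p.2.1 ++ u.flatMap f = b :: q.2.1 ∧ q.1 = M.evalFrom p.1 u := by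
  induction h with
  | pop _ h1 h2 => simp [h1, h2]
  | read _ _ h1 h2 h3 => simp [h1, h2, h3]
  | skip _ _ _ _ _ h1 h2 h3 h4 _ ih => simpa [h1, h2, ← h3, h4] using ih

lemma Fin'.sem {s : σ} {u} {g : List (ContextFreeRule A (NT σ B N H))}
    (h : Fin' M f s u g) : u.flatMap f = [] ∧ M.evalFrom s u ∈ M.accept := by
  induction h with
  | stop _ h => simpa using h
  | skip _ _ _ _ h1 _ ih => simpa [h1] using ih

lemma Fin'.exists (u : List A) (s : σ) (h1 : u.flatMap f = []) (h2 : M.evalFrom s u ∈ M.accept) :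
    ∃ g : List (ContextFreeRule A (NT σ B N H)), Fin' M f s u g := by
  induction u generalizing s with
  | nil => exact ⟨_, Fin'.stop s h2⟩
  | cons e u ih =>
    rw [List.flatMap_cons, List.append_eq_nil_iff] at h1
    obtain ⟨g, hg⟩ := ih (M.step s e) h1.2 h2
    exact ⟨_, Fin'.skip s e u g h1.1 hg⟩

lemma Step.exists (hH : ∀ a, (f a).length ≤ H) (b : B) (w : List A) (p : St σ B H) (z : List B)
    (h : p.2.1 ++ w.flatMap f = b :: z) :
    ∃ (u w' : List A) (q : St σ B H) (g : List (ContextFreeRule A (NT σ B N H))),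
      w = u ++ w' ∧ Step M f b q p u g ∧ q.2.1 ++ w'.flatMap f = z := by
  induction w generalizing p with
  | nil =>
    rw [List.flatMap_nil, List.append_nil] at h
    have hz : z.length ≤ H := by have := p.2.2; rw [h] at this; simp at this; omega
    exact ⟨[], [], (p.1, ⟨z, hz⟩), _, rfl, Step.pop p h rfl, by simp⟩
  | cons a w ih =>
    rcases hp : p.2.1 with _ | ⟨c, r⟩
    · rw [hp, List.nil_append, List.flatMap_cons] at h
      rcases ha : f a with _ | ⟨c, r⟩
      · obtain ⟨u, w', q, g, rfl, h1, h2⟩ := ih (M.step p.1 a, ⟨[], by simp⟩) (by simpa [ha] using h)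
        exact ⟨a :: u, w', q, _, rfl, Step.skip p _ a u g hp ha rfl rfl h1, h2⟩
      · rw [ha] at h
        simp only [List.cons_append, List.cons.injEq] at h
        obtain ⟨rfl, h⟩ := h
        have hr : r.length ≤ H := by have := hH a; rw [ha] at this; simp at this; omega
        exact ⟨[a], w, (M.step p.1 a, ⟨r, hr⟩), _, rfl, Step.read p a hp ha rfl, h⟩
    · rw [hp] at h
      simp only [List.cons_append, List.cons.injEq] at h
      obtain ⟨rfl, h⟩ := h
      have hr : r.length ≤ H := by have := p.2.2; rw [hp] at this; simp at this; omega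
      exact ⟨[], a :: w, (p.1, ⟨r, hr⟩), _, rfl, Step.pop p hp rfl, h⟩

variable (M f N) in
/-- canonical runs -/
inductive Run : St σ B H → List A → List B → St σ B H → Prop
  | nil (p) : Run p [] [] p
  | cons {p p₁ q u w b z} {g : List (ContextFreeRule A (NT σ B N H))} :
      Step M f b p₁ p u g → Run p₁ w z q → Run p (u ++ w) (b :: z) q

lemma Run.sem {p q : St σ B H} {w z} (h : Run N M f p w z q) :
    p.2.1 ++ w.flatMap f = z ++ q.2.1 ∧ q.1 = M.evalFrom p.1 w := by
  induction h with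
  | nil => simp
  | cons h _ ih =>
    obtain ⟨h1, h2⟩ := h.sem
    rw [List.flatMap_append, ← List.append_assoc, h1, M.evalFrom_of_append, ← h2]
    simpa using ih

lemma Run.exists (hH : ∀ a, (f a).length ≤ H) (z : List B) (w : List A) (p : St σ B H)
    (h : p.2.1 ++ w.flatMap f = z) :
    ∃ (w₁ w₂ : List A) (q : St σ B H),
      w = w₁ ++ w₂ ∧ Run N M f p w₁ z q ∧ q.2.1 ++ w₂.flatMap f = [] := by
  induction z generalizing w p with
  | nil => exact ⟨[], w, p, rfl, Run.nil p, h⟩
  | cons b z ih =>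
    obtain ⟨u, w', q, g, rfl, h1, h2⟩ := Step.exists (N := N) (M := M) hH b w p z h
    obtain ⟨w₁, w₂, q', rfl, h3, h4⟩ := ih w' q h2
    exact ⟨u ++ w₁, w₂, q', by simp, Run.cons h1 h3, h4⟩

lemma lift_sound (n : ℕ) : ∀ {p q : St σ B H} {s o rs w}, rs.length < n → Lift p s q o →
    D {r | PR M f P S r} o rs w → ∃ z, D P s (rs.filterMap proj) z ∧ Run N M f p w z q := by
  induction n with
  | zero => intros; omega
  | succ n ih =>
    intro p q s o rs w hn hl h
    cases hl with
    | nil =>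
      obtain ⟨rfl, rfl⟩ := D.nil_iff.1 h
      exact ⟨[], D.nil, Run.nil _⟩
    | @cons _ p₁ _ x s o hl =>
      cases x with
      | terminal b =>
        obtain ⟨g, rs', u, w', rfl, rfl, h1, h2⟩ := D.split (s := [_]) h
        rw [step_iff] at h1
        have := List.length_pos_iff.2 h1.proj.2
        obtain ⟨z, h3, h4⟩ := ih (by simp at hn; omega) hl h2
        exact ⟨b :: z, by rw [List.filterMap_append, h1.proj.1]; exact h3.term, Run.cons h1 h4⟩
      | nonterminal X =>
        obtain ⟨r', rs', rfl, hr, hi, h'⟩ := D.nt_iff.1 h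
        cases hr with
        | start => cases hi
        | stop => cases hi
        | fskip => cases hi
        | pop => cases hi
        | read => cases hi
        | skip => cases hi
        | rule p' q' r o' hr hl' =>
          cases hi
          obtain ⟨z, h3, h4⟩ := ih (by simp at hn; omega) (hl'.append hl) h'
          refine ⟨z, ?_, h4⟩
          rw [List.filterMap_cons_some (b := r) (by simp [proj, hl'.unl])]
          exact D.nt hr h3

lemma lift_complete {s rs z} (h : D P s rs z) : ∀ {p q : St σ B H} {w}, Run N M f p w z q →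
    ∃ o rs', Lift p s q o ∧ D {r | PR M f P S r} o rs' w := by
  induction h with
  | nil => intro p q w h; cases h; exact ⟨[], [], Lift.nil _, D.nil⟩
  | term _ ih =>
    intro p q w h
    cases h with
    | cons h1 h2 =>
      obtain ⟨o, rs', h3, h4⟩ := ih h2
      exact ⟨_, _, h3.cons, (step_iff.2 h1).append h4⟩
  | nt hr _ ih =>
    intro p q w h
    obtain ⟨o, rs', h3, h4⟩ := ih h
    obtain ⟨p₁, o₁, o₂, rfl, h5, h6⟩ := h3.split
    exact ⟨_, _, h6.cons, D.nt (r := ⟨_, o₁⟩) (PR.rule _ _ _ _ hr h5) h4⟩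

lemma lift_unique {s rs z} (h : D P s rs z) : ∀ {p q₁ q₂ : St σ B H} {o₁ o₂ rs₁ rs₂ w₁ w₂ x y},
    Lift p s q₁ o₁ → Lift p s q₂ o₂ → D {r | PR M f P S r} o₁ rs₁ w₁ →
    D {r | PR M f P S r} o₂ rs₂ w₂ → rs₁.filterMap proj = rs → rs₂.filterMap proj = rs →
    w₁ ++ x = w₂ ++ y → o₁ = o₂ ∧ rs₁ = rs₂ ∧ w₁ = w₂ := by
  induction h with
  | nil =>
    intro p q₁ q₂ o₁ o₂ rs₁ rs₂ w₁ w₂ x y l₁ l₂ h₁ h₂ _ _ _
    cases l₁; cases l₂
    obtain ⟨rfl, rfl⟩ := D.nil_iff.1 h₁
    obtain ⟨rfl, rfl⟩ := D.nil_iff.1 h₂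
    simp
  | term _ ih =>
    intro p q₁ q₂ o₁ o₂ rs₁ rs₂ w₁ w₂ x y l₁ l₂ h₁ h₂ e₁ e₂ e
    cases l₁ with | cons l₁ =>
    cases l₂ with | cons l₂ =>
    obtain ⟨g, rs', u, w', rfl, rfl, a1, a2⟩ := D.split (s := [_]) h₁
    obtain ⟨g', rs'', u', w'', rfl, rfl, b1, b2⟩ := D.split (s := [_]) h₂
    rw [step_iff] at a1 b1
    rw [List.append_assoc, List.append_assoc] at e
    obtain ⟨rfl, rfl, rfl⟩ := a1.det b1 e
    rw [List.filterMap_append, a1.proj.1, List.nil_append] at e₁ e₂
    obtain ⟨rfl, rfl, rfl⟩ := ih l₁ l₂ a2 b2 e₁ e₂ (List.append_cancel_left e)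
    simp
  | @nt r s rs z hr _ ih =>
    intro p q₁ q₂ o₁ o₂ rs₁ rs₂ w₁ w₂ x y l₁ l₂ h₁ h₂ e₁ e₂ e
    have key : ∀ {p₁ : St σ B H} {o rs' w},
        D {r | PR M f P S r} (nonterminal (NT.mid p (nonterminal r.input) p₁) :: o) rs' w →
        rs'.filterMap proj = r :: rs → ∃ o' rs'', rs' = ⟨NT.mid p (nonterminal r.input) p₁, o'⟩ :: rs'' ∧
          Lift p r.output p₁ o' ∧ D {r | PR M f P S r} (o' ++ o) rs'' w ∧
          rs''.filterMap proj = rs := by
      intro p₁ o rs' w h e
      obtain ⟨r', rs'', rfl, hr', hi, h'⟩ := D.nt_iff.1 h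
      clear h
      generalize hX : r.input = X at hi
      cases hr' with
      | start => cases hi
      | stop => cases hi
      | fskip => cases hi
      | pop => cases hi
      | read => cases hi
      | skip => cases hi
      | rule p' q' r₀ o' hr₀ hl' =>
        cases hi
        rw [List.filterMap_cons_some (b := r₀) (by simp [proj, hl'.unl])] at e
        simp only [List.cons.injEq] at e
        obtain ⟨rfl, e⟩ := e
        exact ⟨o', rs'', rfl, hl', h', e⟩
    cases l₁ with | cons l₁ =>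
    cases l₂ with | cons l₂ =>
    obtain ⟨o', rs', rfl, a1, a2, a3⟩ := key h₁ e₁
    obtain ⟨o'', rs'', rfl, b1, b2, b3⟩ := key h₂ e₂
    obtain ⟨c1, rfl, rfl⟩ := ih (a1.append l₁) (b1.append l₂) a2 b2 a3 b3 e
    obtain ⟨rfl, rfl⟩ := List.append_inj c1 (a1.length.trans b1.length.symm)
    obtain rfl := a1.det b1
    simp

lemma start_iff {rs w} : D {r | PR (H := H) M f P S r} [nonterminal NT.start] rs w ↔
    ∃ (p q : St σ B H) (rs₁ rs₂ : List (ContextFreeRule A (NT σ B N H))) (w₁ w₂ : List A),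
      p.1 = M.start ∧ p.2.1 = [] ∧ q.2.1 = [] ∧
      rs = ⟨NT.start, [nonterminal (NT.mid p (nonterminal S) q), nonterminal (NT.fin q.1)]⟩ ::
        (rs₁ ++ rs₂) ∧ w = w₁ ++ w₂ ∧
      D {r | PR M f P S r} [nonterminal (NT.mid p (nonterminal S) q)] rs₁ w₁ ∧
      Fin' M f q.1 w₂ rs₂ := by
  constructor
  · intro h
    obtain ⟨r', rs', rfl, hr, hi, h'⟩ := D.nt_iff.1 h
    cases hr with
    | stop => cases hi
    | fskip => cases hi
    | pop => cases hi
    | read => cases hi
    | skip => cases hi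
    | rule => cases hi
    | start p q h1 h2 h3 =>
      obtain ⟨rs₁, rs₂, w₁, w₂, rfl, rfl, a1, a2⟩ := D.split (s := [_]) h'
      exact ⟨p, q, rs₁, rs₂, w₁, w₂, h1, h2, h3, rfl, rfl, a1, fin_iff.1 a2⟩
  · rintro ⟨p, q, rs₁, rs₂, w₁, w₂, h1, h2, h3, rfl, rfl, a1, a2⟩
    exact D.nt (r := ⟨_, _⟩) (PR.start p q h1 h2 h3) (a1.append (fin_iff.2 a2))

end

theorem closure {A B σ : Type} [Finite A] [Finite B] [Finite σ] {L : Set (List B)} (hL : UL L)
    (f : A → List B) (M : DFA A σ) : UL {w : List A | w.flatMap f ∈ L ∧ w ∈ M.accepts} := by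
  obtain ⟨N, _, S, P, hP, h1, h2⟩ := hL.finite
  obtain ⟨H, hH⟩ := exists_image_bound f
  obtain ⟨m, hm1, hm⟩ := exists_output_bound hP
  have sound : ∀ {p q : St σ B H} {rs₁ rs₂ w₁ w₂}, p.2.1 = [] → q.2.1 = [] →
      D {r | PR M f P S r} [nonterminal (NT.mid p (nonterminal S) q)] rs₁ w₁ →
      Fin' (N := N) (H := H) M f q.1 w₂ rs₂ →
      D P [nonterminal S] (rs₁.filterMap proj) ((w₁ ++ w₂).flatMap f) ∧
        M.evalFrom p.1 (w₁ ++ w₂) ∈ M.accept := by
    intro p q rs₁ rs₂ w₁ w₂ hp hq a1 a2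
    obtain ⟨z, b1, b2⟩ := lift_sound _ (Nat.lt_succ_self _) (Lift.nil q).cons a1
    obtain ⟨c1, c2⟩ := b2.sem
    obtain ⟨c3, c4⟩ := a2.sem
    rw [hp, hq, List.nil_append, List.append_nil] at c1
    rw [List.flatMap_append, c1, c3, List.append_nil, M.evalFrom_of_append, ← c2]
    exact ⟨b1, c4⟩
  refine ⟨NT σ B N H, NT.start, {r | PR M f P S r}, finite_rules _ (m + 1) ?_, fun w => ?_, ?_⟩
  · intro r hr
    cases hr with
    | rule p q r o hr hl => have := hm r hr; simp [hl.length]; omega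
    | _ => simp <;> omega
  · constructor
    · rintro ⟨hw, hM⟩
      obtain ⟨rs, hrs⟩ := (h1 _).1 hw
      obtain ⟨w₁, w₂, q, rfl, a1, a2⟩ := Run.exists (N := N) (M := M) hH _ w (M.start, ⟨[], by simp⟩) rfl
      rw [List.append_eq_nil_iff] at a2
      obtain ⟨o, rs', a3, a4⟩ := lift_complete (S := S) hrs a1
      cases a3 with | cons a3 =>
      cases a3
      obtain ⟨g, hg⟩ := Fin'.exists (N := N) (H := H) (M := M) w₂ q.1 a2.2 (by
        rw [a1.sem.2, ← M.evalFrom_of_append]; exact hM)
      exact ⟨_, start_iff.2 ⟨_, q, rs', g, w₁, w₂, rfl, rfl, a2.1, rfl, rfl, a4, hg⟩⟩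
    · rintro ⟨rs, h⟩
      obtain ⟨p, q, rs₁, rs₂, w₁, w₂, a1, a2, a3, rfl, rfl, a4, a5⟩ := start_iff.1 h
      obtain ⟨b1, b2⟩ := sound a2 a3 a4 a5
      exact ⟨(h1 _).2 ⟨_, b1⟩, by rw [a1] at b2; exact b2⟩
  · intro w rs rs' h h'
    obtain ⟨p, q, rs₁, rs₂, w₁, w₂, a1, a2, a3, rfl, rfl, a4, a5⟩ := start_iff.1 h
    obtain ⟨p', q', rs₁', rs₂', w₁', w₂', b1, b2, b3, rfl, e, b4, b5⟩ := start_iff.1 h'
    obtain rfl : p = p' := St.ext' (a1.trans b1.symm) (a2.trans b2.symm)
    have c1 := (sound a2 a3 a4 a5).1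
    have c2 := (sound b2 b3 b4 b5).1
    rw [← e] at c2
    have c3 := h2 _ _ _ c1 c2
    obtain ⟨c4, rfl, rfl⟩ := lift_unique c1 (Lift.nil q).cons (Lift.nil q').cons a4 b4 rfl c3.symm e
    simp only [List.cons.injEq, nonterminal.injEq, NT.mid.injEq, true_and, and_true] at c4
    subst c4
    obtain rfl := List.append_cancel_left e
    rw [a5.det b5]

end Pool.Agent.P.MP_067fd8_lc
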