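import Mathlib
import Pool.Agent.P.MP_067fd8_lc.Closure

set_option autoImplicit false

namespace Pool.Agent.P.MP_067fd8_lc

open Symbol

/-- the alphabet: tile names, tile letters and three further letters -/
inductive Al (I Γ : Type) : Type
  | t : I → Al I Γ
  | g : Γ → Al I Γ
  | a : Al I Γ
  | b : Al I Γ
  | c : Al I Γ

instance Al.finite (I Γ : Type) [Finite I] [Finite Γ] : Finite (Al I Γ) :=
  Finite.of_surjective (fun x : I ⊕ Γ ⊕ Option Bool =>
    (x.elim Al.t (Sum.elim Al.g fun y => y.elim Al.a fun z => cond z Al.b Al.c) : Al I Γ)) (by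
    rintro (i | x | _ | _ | _)
    exacts [⟨Sum.inl i, rfl⟩, ⟨Sum.inr (Sum.inl x), rfl⟩, ⟨Sum.inr (Sum.inr none), rfl⟩,
      ⟨Sum.inr (Sum.inr (some true)), rfl⟩, ⟨Sum.inr (Sum.inr (some false)), rfl⟩])

variable {I Γ : Type}

def getT : Al I Γ → Option I
  | Al.t i => some i
  | _ => none

def getG : Al I Γ → Option Γ
  | Al.g x => some x
  | _ => none

def isA : Al I Γ → Bool
  | Al.a => true
  | _ => false

def isB : Al I Γ → Bool
  | Al.b => true
  | _ => false

def isC : Al I Γ → Bool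
  | Al.c => true
  | _ => false

/-- the middle part -/
def gad (i j k : ℕ) : List (Al I Γ) :=
  List.replicate i Al.a ++ List.replicate j Al.b ++ List.replicate k Al.c

/-- the shape of all words of the language -/
def word (τ : List I) (i j k : ℕ) (x : List Γ) : List (Al I Γ) :=
  τ.reverse.map Al.t ++ gad i j k ++ x.map Al.g

@[simp] lemma word_getT (τ : List I) (i j k : ℕ) (x : List Γ) :
    (word τ i j k x).filterMap getT = τ.reverse := by
  simp [word, gad, List.filterMap_map, getT]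

@[simp] lemma word_getG (τ : List I) (i j k : ℕ) (x : List Γ) :
    (word τ i j k x).filterMap getG = x := by
  simp [word, gad, List.filterMap_map, getG]

@[simp] lemma word_isA (τ : List I) (i j k : ℕ) (x : List Γ) :
    (word τ i j k x).countP isA = i := by
  simp [word, gad, List.countP_map, Function.comp_def, isA, List.countP_replicate]

@[simp] lemma word_isB (τ : List I) (i j k : ℕ) (x : List Γ) :
    (word τ i j k x).countP isB = j := by
  simp [word, gad, List.countP_map, Function.comp_def, isB, List.countP_replicate]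

@[simp] lemma word_isC (τ : List I) (i j k : ℕ) (x : List Γ) :
    (word τ i j k x).countP isC = k := by
  simp [word, gad, List.countP_map, Function.comp_def, isC, List.countP_replicate]

lemma word_inj {τ τ' : List I} {i j k i' j' k' : ℕ} {x x' : List Γ}
    (h : word τ i j k x = word τ' i' j' k' x') : τ = τ' ∧ i = i' ∧ j = j' ∧ k = k' ∧ x = x' := by
  refine ⟨?_, ?_, ?_, ?_, ?_⟩
  · simpa using congrArg (List.filterMap getT) h
  · simpa using congrArg (List.countP isA) h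
  · simpa using congrArg (List.countP isB) h
  · simpa using congrArg (List.countP isC) h
  · simpa using congrArg (List.filterMap getG) h

/-- the language attached to a correspondence instance -/
def LL (u v : I → List Γ) (y : List Γ) : Set (List (Al I Γ)) :=
  {w | ∃ τ i j k, (i = j ∧ w = word τ i j k (τ.flatMap u)) ∨
    (j = k ∧ w = word τ i j k (y ++ τ.flatMap v))}

/-- nonterminals -/
inductive NN : Type
  | S | U | V | X | C | A | Y
  deriving DecidableEq, Fintype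

def Loop (u v : I → List Γ) : NN → Set (List (Al I Γ) × List (Al I Γ))
  | NN.S => ∅
  | NN.U => Set.range fun i => ([Al.t i], (u i).map Al.g)
  | NN.V => Set.range fun i => ([Al.t i], (v i).map Al.g)
  | NN.X => {([Al.a], [Al.b])}
  | NN.C => {([Al.c], [])}
  | NN.A => {([Al.a], [])}
  | NN.Y => {([Al.b], [Al.c])}

def Exit (y : List Γ) : NN → Set (List (Symbol (Al I Γ) NN))
  | NN.S => {[nonterminal NN.U], [nonterminal NN.V]}
  | NN.U => {[nonterminal NN.X, nonterminal NN.C]}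
  | NN.V => {nonterminal NN.A :: nonterminal NN.Y :: (y.map Al.g).map terminal}
  | _ => {[]}

def lr (Z : NN) (p : List (Al I Γ) × List (Al I Γ)) : ContextFreeRule (Al I Γ) NN :=
  ⟨Z, p.1.map terminal ++ nonterminal Z :: p.2.map terminal⟩

def GP (u v : I → List Γ) (y : List Γ) : Set (ContextFreeRule (Al I Γ) NN) :=
  {r | (∃ p ∈ Loop u v r.input, r = lr r.input p) ∨ r.output ∈ Exit y r.input}

variable {u v : I → List Γ} {y : List Γ}

lemma lin_iff {Z : NN} {rs w} : D (GP u v y) [nonterminal Z] rs w ↔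
    ∃ (σ : List (List (Al I Γ) × List (Al I Γ))) (β : List (Symbol (Al I Γ) NN)) (rs' : _) (w' : _),
      (∀ p ∈ σ, p ∈ Loop u v Z) ∧ β ∈ Exit y Z ∧ rs = σ.map (lr Z) ++ ⟨Z, β⟩ :: rs' ∧
      D (GP u v y) β rs' w' ∧ w = σ.flatMap Prod.fst ++ w' ++ σ.reverse.flatMap Prod.snd := by
  constructor
  · intro h
    induction rs generalizing w with
    | nil => obtain ⟨_, _, h, _⟩ := D.nt_iff.1 h; cases h
    | cons r rs ih =>
      obtain ⟨r', rs', e, hr, hi, h'⟩ := D.nt_iff.1 h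
      simp only [List.cons.injEq] at e
      obtain ⟨rfl, rfl⟩ := e
      subst hi
      rw [List.append_nil] at h'
      rcases hr with ⟨p, hp, e⟩ | hr
      · rw [e] at h'
        obtain ⟨w', rfl, h''⟩ := D.terminals_append_iff.1 h'
        obtain ⟨rs₁, rs₂, w₁, w₂, rfl, rfl, h1, h2⟩ := D.split (s := [_]) h''
        obtain ⟨rfl, rfl⟩ := D.terminals_iff.1 h2
        rw [List.append_nil] at ih ⊢
        obtain ⟨σ, β, rs', w', a1, a2, a3, a4, rfl⟩ := ih h1
        refine ⟨p :: σ, β, rs', w', by simpa using ⟨hp, fun a b h => a1 _ h⟩, a2, ?_, a4, by simp⟩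
        rw [List.map_cons, ← e, a3]; rfl
      · exact ⟨[], r.output, rs, w, by simp, hr, rfl, h', by simp⟩
  · rintro ⟨σ, β, rs', w', a1, a2, rfl, a4, rfl⟩
    induction σ with
    | nil => exact D.nt (r := ⟨Z, β⟩) (Or.inr a2) (by simpa using a4)
    | cons p σ ih =>
      have h := ih fun q hq => a1 q (by simp [hq])
      refine D.nt (r := lr Z p) (Or.inl ⟨p, a1 p (by simp), rfl⟩) ?_
      have h2 := h.append (D.terminals (P := GP u v y) p.2)
      rw [List.append_nil, lr]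
      refine D.terminals_append_iff.2 ⟨_, ?_, by simpa using h2⟩
      simp

lemma single_iff {Z : NN} {p} (h1 : Loop u v Z = {p}) (h2 : Exit (I := I) y Z = {[]}) {rs w} :
    D (GP u v y) [nonterminal Z] rs w ↔ ∃ n, rs = List.replicate n (lr Z p) ++ [⟨Z, []⟩] ∧
      w = (List.replicate n p.1).flatten ++ (List.replicate n p.2).flatten := by
  rw [lin_iff, h1, h2]
  constructor
  · rintro ⟨σ, β, rs', w', a1, rfl, rfl, a4, rfl⟩
    obtain ⟨rfl, rfl⟩ := D.nil_iff.1 a4
    have : σ = List.replicate σ.length p := List.eq_replicate_iff.2 ⟨rfl, a1⟩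
    refine ⟨σ.length, ?_, ?_⟩ <;> rw [this] <;> simp [List.flatMap_replicate]
  · rintro ⟨n, rfl, rfl⟩
    refine ⟨List.replicate n p, [], [], [], fun q hq => (List.mem_replicate.1 hq).2, rfl, by simp,
      D.nil, by simp [List.flatMap_replicate]⟩

lemma tiles_iff {Z : NN} {u' : I → List Γ} {β}
    (h1 : Loop u v Z = Set.range fun i => ([Al.t i], (u' i).map Al.g))
    (h2 : Exit (I := I) y Z = {β}) {rs w} :
    D (GP u v y) [nonterminal Z] rs w ↔ ∃ (τ : List I) (rs' : _) (w' : _),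
      rs = τ.reverse.map (fun i => lr Z ([Al.t i], (u' i).map Al.g)) ++ ⟨Z, β⟩ :: rs' ∧
      D (GP u v y) β rs' w' ∧ w = τ.reverse.map Al.t ++ w' ++ (τ.flatMap u').map Al.g := by
  rw [lin_iff, h1, h2]
  have e1 : ∀ τ : List I, (τ.map fun i => (([Al.t i], (u' i).map Al.g) :
      List (Al I Γ) × List (Al I Γ))).flatMap Prod.fst = τ.map Al.t := by
    intro τ; induction τ <;> simp_all
  have e2 : ∀ τ : List I, (τ.map fun i => (([Al.t i], (u' i).map Al.g) :
      List (Al I Γ) × List (Al I Γ))).flatMap Prod.snd = (τ.flatMap u').map Al.g := by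
    intro τ; induction τ <;> simp_all
  constructor
  · rintro ⟨σ, β, rs', w', a1, rfl, rfl, a4, rfl⟩
    obtain ⟨τ, rfl⟩ : ∃ τ : List I, τ.map (fun i => (([Al.t i], (u' i).map Al.g) :
        List (Al I Γ) × List (Al I Γ))) = σ := by
      induction σ with
      | nil => exact ⟨[], rfl⟩
      | cons p σ ih =>
        obtain ⟨i, rfl⟩ := a1 p (by simp)
        obtain ⟨τ, rfl⟩ := ih fun q hq => a1 q (by simp [hq])
        exact ⟨i :: τ, rfl⟩
    refine ⟨τ.reverse, rs', w', by simp [Function.comp_def], a4, ?_⟩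
    rw [e1, ← List.map_reverse, e2, List.reverse_reverse]
  · rintro ⟨τ, rs', w', rfl, a4, rfl⟩
    refine ⟨τ.reverse.map fun i => ([Al.t i], (u' i).map Al.g), β, rs', w', ?_, rfl,
      by simp [Function.comp_def], a4, ?_⟩
    · intro p hp
      obtain ⟨i, _, rfl⟩ := List.mem_map.1 hp
      exact ⟨i, rfl⟩
    · rw [e1, ← List.map_reverse, e2, List.reverse_reverse]

def rsU (u : I → List Γ) (τ : List I) (i k : ℕ) : List (ContextFreeRule (Al I Γ) NN) :=
  ⟨NN.S, [nonterminal NN.U]⟩ :: (τ.reverse.map (fun i => lr NN.U ([Al.t i], (u i).map Al.g)) ++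
    ⟨NN.U, [nonterminal NN.X, nonterminal NN.C]⟩ ::
      ((List.replicate i (lr NN.X ([Al.a], [Al.b])) ++ [⟨NN.X, []⟩]) ++
        (List.replicate k (lr NN.C ([Al.c], [])) ++ [⟨NN.C, []⟩])))

def rsV (v : I → List Γ) (y : List Γ) (τ : List I) (i k : ℕ) : List (ContextFreeRule (Al I Γ) NN) :=
  ⟨NN.S, [nonterminal NN.V]⟩ :: (τ.reverse.map (fun i => lr NN.V ([Al.t i], (v i).map Al.g)) ++
    ⟨NN.V, nonterminal NN.A :: nonterminal NN.Y :: (y.map Al.g).map terminal⟩ ::
      ((List.replicate i (lr NN.A ([Al.a], [])) ++ [⟨NN.A, []⟩]) ++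
        (List.replicate k (lr NN.Y ([Al.b], [Al.c])) ++ [⟨NN.Y, []⟩])))

lemma start_iff' {rs w} : D (GP u v y) [nonterminal NN.S] rs w ↔
    (∃ τ i k, rs = rsU u τ i k ∧ w = word τ i i k (τ.flatMap u)) ∨
    (∃ τ i k, rs = rsV v y τ i k ∧ w = word τ i k k (y ++ τ.flatMap v)) := by
  have hX := fun rs w => single_iff (u := u) (v := v) (y := y) (Z := NN.X) rfl rfl (rs := rs) (w := w)
  have hC := fun rs w => single_iff (u := u) (v := v) (y := y) (Z := NN.C) rfl rfl (rs := rs) (w := w)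
  have hA := fun rs w => single_iff (u := u) (v := v) (y := y) (Z := NN.A) rfl rfl (rs := rs) (w := w)
  have hY := fun rs w => single_iff (u := u) (v := v) (y := y) (Z := NN.Y) rfl rfl (rs := rs) (w := w)
  have hU := fun rs w => tiles_iff (u := u) (v := v) (y := y) (Z := NN.U) rfl rfl (rs := rs) (w := w)
  have hV := fun rs w => tiles_iff (u := u) (v := v) (y := y) (Z := NN.V) rfl rfl (rs := rs) (w := w)
  constructor
  · intro h
    obtain ⟨σ, β, rs', w', a1, a2, rfl, a4, rfl⟩ := lin_iff.1 h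
    obtain rfl : σ = [] := List.eq_nil_iff_forall_not_mem.2 a1
    rcases a2 with rfl | rfl
    · obtain ⟨τ, rs'', w'', rfl, b1, rfl⟩ := (hU _ _).1 a4
      obtain ⟨rs₁, rs₂, w₁, w₂, rfl, rfl, c1, c2⟩ := D.split (s := [_]) b1
      obtain ⟨i, rfl, rfl⟩ := (hX _ _).1 c1
      obtain ⟨k, rfl, rfl⟩ := (hC _ _).1 c2
      exact Or.inl ⟨τ, i, k, rfl, by simp [word, gad]⟩
    · obtain ⟨τ, rs'', w'', rfl, b1, rfl⟩ := (hV _ _).1 a4
      obtain ⟨rs₁, rs₂, w₁, w₂, rfl, rfl, c1, c2⟩ := D.split (s := [_]) b1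
      obtain ⟨rs₃, rs₄, w₃, w₄, rfl, rfl, c3, c4⟩ := D.split (s := [_]) c2
      obtain ⟨rfl, rfl⟩ := D.terminals_iff.1 c4
      obtain ⟨i, rfl, rfl⟩ := (hA _ _).1 c1
      obtain ⟨k, rfl, rfl⟩ := (hY _ _).1 c3
      exact Or.inr ⟨τ, i, k, by simp [rsV], by simp [word, gad]⟩
  · rintro (⟨τ, i, k, rfl, rfl⟩ | ⟨τ, i, k, rfl, rfl⟩)
    · refine lin_iff.2 ⟨[], _, _, _, by simp, Or.inl rfl, rfl, (hU _ _).2 ⟨τ, _, _, rfl,
        ((hX _ _).2 ⟨i, rfl, rfl⟩).append ((hC _ _).2 ⟨k, rfl, rfl⟩), rfl⟩, by simp [word, gad]⟩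
    · refine lin_iff.2 ⟨[], _, _, _, by simp, Or.inr rfl, ?_, (hV _ _).2 ⟨τ, _, _, rfl,
        ((hA _ _).2 ⟨i, rfl, rfl⟩).append (((hY _ _).2 ⟨k, rfl, rfl⟩).append (D.terminals _)), rfl⟩,
        by simp [word, gad]⟩
      simp [rsV]

theorem LL_unambiguous [Finite I] (hno : ¬ ∃ τ : List I, τ.flatMap u = y ++ τ.flatMap v) :
    UL (LL u v y) := by
  refine ⟨NN, NN.S, GP u v y, ?_, fun w => ?_, fun w rs rs' h h' => ?_⟩
  · have h1 : ∀ Z, (Loop u v Z).Finite := by
      intro Z; cases Z <;> simp [Loop, Set.finite_range]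
    have h2 : ∀ Z, (Exit (I := I) y Z).Finite := by
      intro Z; cases Z <;> simp [Exit]
    refine ((Set.finite_iUnion fun Z => (h1 Z).image (lr Z)).union
      (Set.finite_iUnion fun Z => (h2 Z).image fun β => ⟨Z, β⟩)).subset ?_
    rintro r (⟨p, hp, e⟩ | hr)
    · exact Or.inl (Set.mem_iUnion.2 ⟨r.input, p, hp, e.symm⟩)
    · exact Or.inr (Set.mem_iUnion.2 ⟨r.input, r.output, hr, rfl⟩)
  · simp only [start_iff']
    constructor
    · rintro ⟨τ, i, j, k, ⟨rfl, rfl⟩ | ⟨rfl, rfl⟩⟩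
      exacts [⟨_, Or.inl ⟨τ, i, k, rfl, rfl⟩⟩, ⟨_, Or.inr ⟨τ, i, j, rfl, rfl⟩⟩]
    · rintro ⟨_, ⟨τ, i, k, rfl, rfl⟩ | ⟨τ, i, k, rfl, rfl⟩⟩
      exacts [⟨τ, i, i, k, Or.inl ⟨rfl, rfl⟩⟩, ⟨τ, i, k, k, Or.inr ⟨rfl, rfl⟩⟩]
  · rcases start_iff'.1 h with ⟨τ, i, k, rfl, rfl⟩ | ⟨τ, i, k, rfl, rfl⟩ <;>
      rcases start_iff'.1 h' with ⟨τ', i', k', rfl, e⟩ | ⟨τ', i', k', rfl, e⟩
    · obtain ⟨rfl, rfl, _, rfl, _⟩ := word_inj e; rfl
    · obtain ⟨rfl, _, _, _, e⟩ := word_inj e; exact (hno ⟨τ, e⟩).elim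
    · obtain ⟨rfl, _, _, _, e⟩ := word_inj e; exact (hno ⟨τ, e.symm⟩).elim
    · obtain ⟨rfl, rfl, rfl, _, _⟩ := word_inj e; rfl

end Pool.Agent.P.MP_067fd8_lc
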