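import Mathlib
import Pool.Agent.P.MP_067fd8_lc.Gram
import Pool.Agent.P.MP_067fd8_lc.Abs

set_option autoImplicit false

namespace Pool.Agent.P.MP_067fd8_lc

lemma fin_choice {κ β : Type} [Finite κ] (R : κ → β → Prop) (μ : β → ℕ) :
    ∃ E, ∀ k, (∃ w, R k w) → ∃ w, R k w ∧ μ w ≤ E := by
  classical
  obtain ⟨E, hE⟩ := (Set.finite_range fun k => if h : ∃ w, R k w then μ h.choose else 0).bddAbove
  refine ⟨E, fun k h => ⟨h.choose, h.choose_spec, ?_⟩⟩
  have := hE ⟨k, rfl⟩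
  simpa [h] using this

variable {I Γ Θ : Type}

def ca (x : List (Al I Γ)) : ℕ := x.countP isA
def cb (x : List (Al I Γ)) : ℕ := x.countP isB
def cc (x : List (Al I Γ)) : ℕ := x.countP isC
def ct (x : List (Al I Γ)) : ℕ := (x.filterMap getT).length
def wG (x : List (Al I Γ)) : ℕ := (x.filterMap getG).length
def wI (ur : I → List Γ) (x : List (Al I Γ)) : ℕ := ((x.filterMap getT).flatMap ur).length

@[simp] lemma ca_append (x y : List (Al I Γ)) : ca (x ++ y) = ca x + ca y := by simp [ca]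
@[simp] lemma cb_append (x y : List (Al I Γ)) : cb (x ++ y) = cb x + cb y := by simp [cb]
@[simp] lemma cc_append (x y : List (Al I Γ)) : cc (x ++ y) = cc x + cc y := by simp [cc]
@[simp] lemma ct_append (x y : List (Al I Γ)) : ct (x ++ y) = ct x + ct y := by simp [ct]
@[simp] lemma wG_append (x y : List (Al I Γ)) : wG (x ++ y) = wG x + wG y := by simp [wG]
@[simp] lemma wI_append (ur : I → List Γ) (x y : List (Al I Γ)) :
    wI ur (x ++ y) = wI ur x + wI ur y := by simp [wI]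

lemma len_eq (x : List (Al I Γ)) : x.length = ct x + wG x + ca x + cb x + cc x := by
  induction x with
  | nil => rfl
  | cons e x ih =>
    have := ct_append [e] x
    have := wG_append [e] x
    have := ca_append [e] x
    have := cb_append [e] x
    have := cc_append [e] x
    have : 1 = ct [e] + wG [e] + ca [e] + cb [e] + cc [e] := by cases e <;> rfl
    simp only [List.singleton_append, List.length_cons] at *
    omega

lemma ct_le {ur : I → List Γ} (h : ∀ t, ur t ≠ []) (x : List (Al I Γ)) : ct x ≤ wI ur x := by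
  unfold ct wI
  induction x.filterMap getT with
  | nil => simp
  | cons t l ih =>
    have := List.length_pos_iff.2 (h t)
    simp only [List.length_cons, List.flatMap_cons, List.length_append]
    omega

lemma wI_zero (ur : I → List Γ) {x : List (Al I Γ)} (h : ct x = 0) : wI ur x = 0 := by
  unfold ct at h
  simp [wI, List.length_eq_zero_iff.1 h]

lemma cnt_t (τ : List I) : ct (τ.map (Al.t : I → Al I Γ)) = τ.length ∧
    ca (τ.map (Al.t : I → Al I Γ)) = 0 ∧ cb (τ.map (Al.t : I → Al I Γ)) = 0 ∧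
    cc (τ.map (Al.t : I → Al I Γ)) = 0 ∧ wG (τ.map (Al.t : I → Al I Γ)) = 0 := by
  simp [ct, ca, cb, cc, wG, List.filterMap_map, getT, getG, isA, isB, isC, Function.comp_def]

lemma cnt_g (x : List Γ) : ct (x.map (Al.g : Γ → Al I Γ)) = 0 ∧
    ca (x.map (Al.g : Γ → Al I Γ)) = 0 ∧ cb (x.map (Al.g : Γ → Al I Γ)) = 0 ∧
    cc (x.map (Al.g : Γ → Al I Γ)) = 0 ∧ wG (x.map (Al.g : Γ → Al I Γ)) = x.length := by
  simp [ct, ca, cb, cc, wG, List.filterMap_map, getT, getG, isA, isB, isC, Function.comp_def]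

lemma cnt_gad (i j k : ℕ) : ct (gad i j k : List (Al I Γ)) = 0 ∧
    ca (gad i j k : List (Al I Γ)) = i ∧ cb (gad i j k : List (Al I Γ)) = j ∧
    cc (gad i j k : List (Al I Γ)) = k ∧ wG (gad i j k : List (Al I Γ)) = 0 := by
  simp [ct, ca, cb, cc, wG, gad, getT, getG, isA, isB, isC, List.countP_replicate]

lemma wI_t (ur : I → List Γ) (τ : List I) :
    wI ur (τ.map Al.t) = (τ.reverse.flatMap ur).length := by
  simp [wI, List.filterMap_map, getT, List.length_flatMap]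

lemma pre_counts {p : List (Al I Γ)} {τ : List I} {i j k : ℕ} {x : List Γ}
    (h : p <+: τ.map Al.t ++ gad i j k ++ x.map Al.g) :
    ct p = min p.length τ.length ∧ ca p = min (p.length - τ.length) i ∧
      cb p = min (p.length - τ.length - i) j ∧ cc p = min (p.length - τ.length - i - j) k ∧
      wG p = min (p.length - τ.length - i - j - k) x.length := by
  rw [List.prefix_iff_eq_take] at h
  generalize p.length = n at h
  have : p = (τ.take n).map Al.t ++ gad (min (n - τ.length) i) (min (n - τ.length - i) j)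
      (min (n - τ.length - i - j) k) ++ (x.take (n - τ.length - i - j - k)).map Al.g := by
    rw [h]
    simp [gad, List.take_append, List.take_replicate, Nat.sub_sub]
  subst this
  have h1 := cnt_t (Γ := Γ) (τ.take n)
  have h2 := cnt_gad (I := I) (Γ := Γ) (min (n - τ.length) i) (min (n - τ.length - i) j)
      (min (n - τ.length - i - j) k)
  have h3 := cnt_g (I := I) (x.take (n - τ.length - i - j - k))
  simp only [ct_append, ca_append, cb_append, cc_append, wG_append, List.length_take] at *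
  omega

lemma pre_cases {p : List (Al I Γ)} {τ : List I} {i j k : ℕ} {x : List Γ}
    (h : p <+: τ.map Al.t ++ gad i j k ++ x.map Al.g) :
    (p.length ≤ τ.length ∧ ct p = p.length ∧ ca p = 0 ∧ cb p = 0 ∧ cc p = 0 ∧ wG p = 0) ∨
    (ct p = τ.length ∧ τ.length + ca p = p.length ∧ ca p ≤ i ∧ cb p = 0 ∧ cc p = 0 ∧ wG p = 0) ∨
    (ct p = τ.length ∧ ca p = i ∧ τ.length + i + cb p = p.length ∧ cb p ≤ j ∧ cc p = 0 ∧
      wG p = 0) ∨
    (ct p = τ.length ∧ ca p = i ∧ cb p = j ∧ τ.length + i + j + cc p = p.length ∧ cc p ≤ k ∧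
      wG p = 0) ∨
    (ct p = τ.length ∧ ca p = i ∧ cb p = j ∧ cc p = k ∧
      τ.length + i + j + k + wG p = p.length) := by
  obtain ⟨h1, h2, h3, h4, h5⟩ := pre_counts h
  have h6 := len_eq p
  by_cases c1 : p.length ≤ τ.length
  · left; omega
  by_cases c2 : p.length ≤ τ.length + i
  · right; left; omega
  by_cases c3 : p.length ≤ τ.length + i + j
  · right; right; left; omega
  by_cases c4 : p.length ≤ τ.length + i + j + k
  · right; right; right; left; omega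
  · right; right; right; right; omega

variable {u v : I → List Γ} {y : List Γ} {G : AG Θ (Al I Γ)}

lemma LL_facts {w : List (Al I Γ)} (h : w ∈ LL u v y) :
    (ca w = cb w ∧ w.filterMap getG = (w.filterMap getT).reverse.flatMap u) ∨
    (cb w = cc w ∧ w.filterMap getG = y ++ (w.filterMap getT).reverse.flatMap v) := by
  obtain ⟨τ, i, j, k, ⟨rfl, rfl⟩ | ⟨rfl, rfl⟩⟩ := h
  · left; simp [ca, cb]
  · right; simp [cb, cc]

lemma occ_facts [Finite Θ] (hL : ∀ w, w ∈ LL u v y ↔ ∃ θ, G.Top θ ∧ G.Gn θ w)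
    (hno : ¬ ∃ τ : List I, τ.flatMap u = y ++ τ.flatMap v) :
    ∃ E, ∀ θ θt γ w δ (τ : List I) N (x : List Γ), G.Top θt → G.Sp θ θt γ δ → G.Gn θ w →
      γ ++ w ++ δ = τ.map Al.t ++ gad N N N ++ x.map Al.g →
      ((ca w ≤ cb w + E ∧ cb w ≤ ca w + E) ∨ (cb w ≤ cc w + E ∧ cc w ≤ cb w + E)) ∧
      (ct w = 0 → wG w = 0 → (∃ w', G.Gn θ w' ∧ ct w' = 0 ∧ wG w' = 0 ∧ w'.length ≤ E) ∧
        (x = τ.reverse.flatMap u → ca w ≤ cb w + E ∧ cb w ≤ ca w + E) ∧
        (x = y ++ τ.reverse.flatMap v → cb w ≤ cc w + E ∧ cc w ≤ cb w + E)) := by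
  obtain ⟨E₁, h₁⟩ := fin_choice G.Gn List.length
  obtain ⟨E₂, h₂⟩ := fin_choice (fun θ w => G.Gn θ w ∧ ct w = 0 ∧ wG w = 0) List.length
  refine ⟨E₁ + E₂, fun θ θt γ w δ τ N x ht hs hw e => ?_⟩
  have c1 := cnt_t (Γ := Γ) τ
  have c2 := cnt_gad (I := I) (Γ := Γ) N N N
  have c3 := cnt_g (I := I) x
  have ea := congrArg ca e
  have eb := congrArg cb e
  have ec := congrArg cc e
  simp only [ca_append, cb_append, cc_append] at ea eb ec
  constructor
  · obtain ⟨w', a1, a2⟩ := h₁ θ ⟨w, hw⟩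
    have a3 := LL_facts ((hL _).2 ⟨θt, ht, hs.plug a1⟩)
    have a4 := len_eq w'
    simp only [ca_append, cb_append, cc_append] at a3
    omega
  · intro g1 g2
    obtain ⟨w', ⟨a1, a5, a6⟩, a2⟩ := h₂ θ ⟨w, hw, g1, g2⟩
    have a3 := LL_facts ((hL _).2 ⟨θt, ht, hs.plug a1⟩)
    have a4 := len_eq w'
    have eT : (γ ++ w' ++ δ).filterMap getT = τ := by
      have := congrArg (List.filterMap getT) e
      unfold ct at g1 a5
      rw [List.length_eq_zero_iff] at g1 a5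
      simp only [List.filterMap_append, g1, a5] at this ⊢
      rw [this]
      simp [gad, List.filterMap_map, getT]
    have eG : (γ ++ w' ++ δ).filterMap getG = x := by
      have := congrArg (List.filterMap getG) e
      unfold wG at g2 a6
      rw [List.length_eq_zero_iff] at g2 a6
      simp only [List.filterMap_append, g2, a6] at this ⊢
      rw [this]
      simp [gad, List.filterMap_map, getG]
    rw [eT, eG] at a3
    simp only [ca_append, cb_append, cc_append] at a3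
    refine ⟨⟨w', a1, a5, a6, by omega⟩, fun hx => ?_, fun hx => ?_⟩
    · rcases a3 with a3 | a3
      · omega
      · exact (hno ⟨τ.reverse, hx.symm.trans a3.2⟩).elim
    · rcases a3 with a3 | a3
      · exact (hno ⟨τ.reverse, a3.2.symm.trans hx⟩).elim
      · omega

/-- cutting out the part inside the middle factor -/
lemma cut_mid {α : Type} {γ w δ p g q : List α} (e : γ ++ w ++ δ = p ++ g ++ q)
    (h1 : p.length ≤ γ.length) (h2 : γ.length + w.length ≤ p.length + g.length) :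
    ∃ σ₁ σ₂, γ = p ++ σ₁ ∧ δ = σ₂ ++ q ∧ σ₁ ++ w ++ σ₂ = g := by
  obtain ⟨σ₁, rfl⟩ : p <+: γ := List.prefix_of_prefix_length_le
    ⟨g ++ q, (List.append_assoc _ _ _).symm⟩ ⟨w ++ δ, by simpa using e⟩ h1
  have hl := congrArg List.length e
  simp only [List.length_append] at hl h2
  obtain ⟨σ₂, rfl⟩ : q <:+ δ := List.suffix_of_suffix_length_le ⟨p ++ g, rfl⟩ ⟨_, e⟩ (by omega)
  refine ⟨σ₁, σ₂, rfl, rfl, ?_⟩
  rw [← List.append_assoc, List.append_left_inj] at e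
  simpa using e

lemma gad_split (M : ℕ) : (gad (3 * M) (3 * M) (3 * M) : List (Al I Γ)) =
    gad (3 * M) M 0 ++ gad 0 M 0 ++ gad 0 M (3 * M) := by
  have : 3 * M = M + M + M := by omega
  simp only [gad, List.replicate_zero, List.append_nil, List.nil_append, List.append_assoc]
  congr 1
  simp only [← List.append_assoc]
  congr 1
  rw [this, List.replicate_add, List.replicate_add]

/-- the two special nodes -/
lemma nodes [Finite Θ] (hL : ∀ w, w ∈ LL u v y ↔ ∃ θ, G.Top θ ∧ G.Gn θ w)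
    (hno : ¬ ∃ τ : List I, τ.flatMap u = y ++ τ.flatMap v) {K : ℕ}
    (hK : ∀ θ w, G.At θ w → w.countP isB ≤ K) :
    ∃ E, ∀ M, K + 2 * E < M → ∀ τ : List I,
      (∃ θ θt σ₁ w σ₂ w', G.Top θt ∧
        G.Sp θ θt (τ.map Al.t ++ σ₁) (σ₂ ++ (τ.reverse.flatMap u).map Al.g) ∧ G.Gn θ w ∧
        σ₁ ++ w ++ σ₂ = gad (3 * M) (3 * M) (3 * M) ∧ G.Gn θ w' ∧ ct w' = 0 ∧ wG w' = 0 ∧
        w'.length ≤ E ∧ cb σ₁ = 0 ∧ 2 * M ≤ cb w + E ∧ cb w ≤ 2 * M ∧ cc w = 0) ∧
      (∃ θ θt σ₁ w σ₂ w', G.Top θt ∧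
        G.Sp θ θt (τ.map Al.t ++ σ₁) (σ₂ ++ (y ++ τ.reverse.flatMap v).map Al.g) ∧ G.Gn θ w ∧
        σ₁ ++ w ++ σ₂ = gad (3 * M) (3 * M) (3 * M) ∧ G.Gn θ w' ∧ ct w' = 0 ∧ wG w' = 0 ∧
        w'.length ≤ E ∧ M ≤ cb σ₁ ∧ cb σ₁ ≤ M + E ∧ cb σ₂ = 0 ∧ ca w = 0) := by
  obtain ⟨E, hE⟩ := occ_facts hL hno
  refine ⟨E, fun M hM τ => ?_⟩
  have hg : (gad (3 * M) (3 * M) (3 * M) : List (Al I Γ)).length = 9 * M := by
    simp [gad]; omega
  have key : ∀ x : List Γ, word τ.reverse (3 * M) (3 * M) (3 * M) x ∈ LL u v y →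
      ∃ θt θ₁ θ₂ γ δ w₁ w₂, G.Top θt ∧ G.Sp θ₁ θt γ (w₂ ++ δ) ∧ G.Sp θ₂ θt (γ ++ w₁) δ ∧
        G.Gn θ₁ w₁ ∧ G.Gn θ₂ w₂ ∧
        γ ++ w₁ ++ w₂ ++ δ = τ.map Al.t ++ gad (3 * M) (3 * M) (3 * M) ++ x.map Al.g ∧
        (cc w₁ = 0 ∧ wG w₁ = 0 ∧ ct w₂ = 0 ∧ ca w₂ = 0 ∧ ca γ + ca w₁ = 3 * M ∧
          M ≤ cb γ + cb w₁ ∧ cb γ + cb w₁ ≤ 2 * M ∧ τ.length ≤ γ.length + w₁.length ∧
          γ.length + w₁.length ≤ τ.length + 9 * M) ∧
        (cb γ ≤ M ∧ (0 < ct w₁ → ca γ = 0 ∧ cb γ = 0) ∧ (0 < cb γ → ca w₁ = 0) ∧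
          (ct w₁ = 0 → τ.length ≤ γ.length)) ∧
        (2 * M ≤ cb γ + cb w₁ + cb w₂ ∧
          (0 < wG w₂ → cc w₂ = 3 * M ∧ cb γ + cb w₁ + cb w₂ = 3 * M) ∧
          (0 < cc w₂ → cb γ + cb w₁ + cb w₂ = 3 * M) ∧
          (wG w₂ = 0 → γ.length + w₁.length + w₂.length ≤ τ.length + 9 * M)) := by
    intro x hx
    obtain ⟨θt, ht, hw⟩ := (hL _).1 hx
    obtain ⟨θ', θ₁, θ₂, γ, δ, w₁, w₂, a1, a2, a3, a4, a5, a6⟩ := hw.split isB hK
      (τ.map Al.t ++ gad (3 * M) M 0) (gad 0 M 0) (gad 0 M (3 * M) ++ x.map Al.g)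
      (by simp [word, gad_split M]) (by
        have := (cnt_gad (I := I) (Γ := Γ) 0 M 0).2.2.1
        unfold cb at this
        omega)
    have e : γ ++ w₁ ++ w₂ ++ δ = τ.map Al.t ++ gad (3 * M) (3 * M) (3 * M) ++ x.map Al.g := by
      simpa [word] using a5.symm
    simp only [gad, List.length_append, List.length_map, List.length_replicate] at a6
    have c1 := pre_cases (p := γ) ⟨w₁ ++ w₂ ++ δ, by rw [← e]; simp⟩
    have c2 := pre_cases (p := γ ++ w₁) ⟨w₂ ++ δ, by rw [← e]; simp⟩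
    have c3 := pre_cases (p := γ ++ w₁ ++ w₂) ⟨δ, e⟩
    simp only [ct_append, ca_append, cb_append, cc_append, wG_append, List.length_append]
      at c1 c2 c3
    have c4 : ct γ + ct w₁ = τ.length ∧ ca γ + ca w₁ = 3 * M ∧
        τ.length + 3 * M + (cb γ + cb w₁) = γ.length + w₁.length ∧ cc γ + cc w₁ = 0 ∧
        wG γ + wG w₁ = 0 := by
      clear c1 c3
      omega
    clear c2
    refine ⟨θt, θ₁, θ₂, γ, δ, w₁, w₂, ht, ?_, ?_, a3, a4, e, ?_, ?_, ?_⟩
    · simpa using (AG.Sp.addR a2 .refl a4).trans a1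
    · simpa using (AG.Sp.addL a2 a3 .refl).trans a1
    · clear c1
      rcases c3 with c3 | c3 | c3 | c3 | c3 <;> omega
    · clear c3
      rcases c1 with c1 | c1 | c1 | c1 | c1 <;> omega
    · clear c1
      rcases c3 with c3 | c3 | c3 | c3 | c3 <;> omega
  have c4 := cnt_t (Γ := Γ) τ
  have c7 := cnt_gad (I := I) (Γ := Γ) (3 * M) (3 * M) (3 * M)
  constructor
  · obtain ⟨θt, θ₁, θ₂, γ, δ, w₁, w₂, ht, s1, s2, g1, g2, e, l1, l2, l3⟩ :=
      key (τ.reverse.flatMap u) ⟨τ.reverse, _, _, _, Or.inl ⟨rfl, rfl⟩⟩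
    have e' := e
    rw [List.append_assoc (γ ++ w₁)] at e'
    obtain ⟨p1, p2⟩ := hE _ _ _ _ _ τ _ _ ht s1 g1 e'
    obtain ⟨q1, q2⟩ := hE _ _ _ _ _ τ _ _ ht s2 g2 e
    have b1 : wG w₂ = 0 := by clear p1 p2 q2; omega
    have b2 := (q2 (by omega) b1).2.1 rfl
    clear q1 q2
    have b3 : ct w₁ = 0 := by clear p2; omega
    obtain ⟨⟨w', r1, r2, r3, r4⟩, b4, -⟩ := p2 b3 (by omega)
    have b5 := b4 rfl
    clear p1 p2 b4
    obtain ⟨σ₁, σ₂, e1, e2, e3⟩ := cut_mid e'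
      (by simp only [List.length_map]; omega) (by simp only [List.length_map, hg]; omega)
    have c5 := congrArg cb e1
    simp only [cb_append] at c5
    refine ⟨θ₁, θt, σ₁, w₁, σ₂, w', ht, e1 ▸ e2 ▸ s1, g1, e3, r1, r2, r3, r4, ?_⟩
    omega
  · obtain ⟨θt, θ₁, θ₂, γ, δ, w₁, w₂, ht, s1, s2, g1, g2, e, l1, l2, l3⟩ :=
      key (y ++ τ.reverse.flatMap v) ⟨τ.reverse, _, _, _, Or.inr ⟨rfl, rfl⟩⟩
    have e' := e
    rw [List.append_assoc (γ ++ w₁)] at e'
    obtain ⟨p1, p2⟩ := hE _ _ _ _ _ τ _ _ ht s1 g1 e'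
    obtain ⟨q1, q2⟩ := hE _ _ _ _ _ τ _ _ ht s2 g2 e
    have b1 : ct w₁ = 0 := by clear q1 p2 q2; omega
    have b2 := (p2 b1 (by omega)).2.2 rfl
    clear p1 p2
    have b3 : wG w₂ = 0 := by clear q2; omega
    obtain ⟨⟨w', r1, r2, r3, r4⟩, -, b4⟩ := q2 (by omega) b3
    have b5 := b4 rfl
    clear q1 q2 b4
    obtain ⟨σ₁, σ₂, e1, e2, e3⟩ := cut_mid e
      (by simp only [List.length_map, List.length_append]; omega)
      (by simp only [List.length_map, List.length_append, hg]; omega)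
    have c5 := congrArg cb e1
    have c6 := congrArg cb e3
    simp only [cb_append] at c5 c6
    refine ⟨θ₂, θt, σ₁, w₂, σ₂, w', ht, e1 ▸ e2 ▸ s2, g2, e3, r1, r2, r3, r4, ?_⟩
    omega

end Pool.Agent.P.MP_067fd8_lc
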