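import Mathlib
import Pool.Agent.P.MP_067fd8_lc.TM

set_option autoImplicit false

namespace Pool.Agent.P.MP_067fd8_lc

open Turing

/-! ## String rewriting and the modified Post correspondence problem -/

/-- One rewriting step. -/
def RStep {Δ : Type} (Ru : List Δ → List Δ → Prop) (x y : List Δ) : Prop :=
  ∃ p q l r, Ru l r ∧ x = p ++ l ++ q ∧ y = p ++ r ++ q

/-- Tiles of the correspondence problem attached to a rewriting system. -/
abbrev Tile {Δ : Type} (Ru : List Δ → List Δ → Prop) : Type :=
  Option Δ ⊕ {lr : List Δ × List Δ // Ru lr.1 lr.2} ⊕ Unit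

def tileU {Δ : Type} (Ru : List Δ → List Δ → Prop) (z : List Δ) : Tile Ru → List (Option Δ)
  | .inl x => [x]
  | .inr (.inl lr) => lr.1.1.map some
  | .inr (.inr _) => z.map some ++ [none, none]

def tileV {Δ : Type} (Ru : List Δ → List Δ → Prop) : Tile Ru → List (Option Δ)
  | .inl x => [x]
  | .inr (.inl lr) => lr.1.2.map some
  | .inr (.inr _) => [none]

lemma flatMap_copyU {Δ : Type} (Ru : List Δ → List Δ → Prop) (z : List Δ) (p : List (Option Δ)) :
    (p.map Sum.inl).flatMap (tileU Ru z) = p := by
  induction p with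
  | nil => rfl
  | cons a p ih => simp [tileU, ih]

lemma flatMap_copyV {Δ : Type} (Ru : List Δ → List Δ → Prop) (p : List (Option Δ)) :
    (p.map Sum.inl).flatMap (tileV Ru) = p := by
  induction p with
  | nil => rfl
  | cons a p ih => simp [tileV, ih]

lemma mpcp_complete {Δ : Type} (Ru : List Δ → List Δ → Prop) (z x : List Δ)
    (h : Relation.ReflTransGen (RStep Ru) x z) :
    ∃ τ : List (Tile Ru), τ.flatMap (tileU Ru z) =
      (x.map some ++ [none]) ++ τ.flatMap (tileV Ru) := by
  induction h using Relation.ReflTransGen.head_induction_on with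
  | refl => exact ⟨[.inr (.inr ())], by simp [tileU, tileV]⟩
  | head hs _ ih =>
    obtain ⟨p, q, l, r, hr, rfl, rfl⟩ := hs
    obtain ⟨τ, hτ⟩ := ih
    refine ⟨(p.map some).map Sum.inl ++ [.inr (.inl ⟨(l, r), hr⟩)] ++
      (q.map some ++ [none]).map Sum.inl ++ τ, ?_⟩
    simp only [List.flatMap_append, flatMap_copyU, flatMap_copyV, hτ]
    simp [tileU, tileV]

lemma map_some_pre {Δ : Type} (l q : List Δ) (x y : List (Option Δ))
    (h : l.map some ++ x = q.map some ++ none :: y) :
    ∃ q', q = l ++ q' ∧ x = q'.map some ++ none :: y := by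
  induction l generalizing q with
  | nil => exact ⟨q, rfl, by simpa using h⟩
  | cons a l ih =>
    cases q with
    | nil => simp at h
    | cons b q =>
      simp only [List.map_cons, List.cons_append, List.cons.injEq, Option.some.injEq] at h
      obtain ⟨q', rfl, h2⟩ := ih q h.2
      exact ⟨q', by simp [h.1], h2⟩

lemma mpcp_sound {Δ : Type} (Ru : List Δ → List Δ → Prop) (z : List Δ) (τ : List (Tile Ru)) :
    ∀ p q : List Δ, τ.flatMap (tileU Ru z) =
      q.map some ++ none :: (p.map some ++ τ.flatMap (tileV Ru)) →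
      Relation.ReflTransGen (RStep Ru) (p ++ q) z := by
  induction τ with
  | nil => intro p q h; simp at h
  | cons t τ ih =>
    intro p q h
    rcases t with (_ | d) | ⟨⟨l, r⟩, hr⟩ | _
    · cases q with
      | cons b q => simp [tileU] at h
      | nil =>
        simp only [List.flatMap_cons, tileU, tileV, List.map_nil, List.nil_append,
          List.singleton_append, List.cons.injEq, true_and] at h
        simpa using ih [] p (by simpa using h)
    · cases q with
      | nil => simp [tileU] at h
      | cons b q =>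
        simp only [List.flatMap_cons, tileU, tileV, List.map_cons, List.cons_append,
          List.nil_append, List.cons.injEq, Option.some.injEq] at h
        have := ih (p ++ [d]) q (by simpa using h.2)
        simpa [h.1] using this
    · simp only [List.flatMap_cons, tileU, tileV] at h
      obtain ⟨q', rfl, h2⟩ := map_some_pre _ _ _ _ h
      have := ih (p ++ r) q' (by simpa using h2)
      exact Relation.ReflTransGen.head ⟨p, q', l, r, hr, by simp, rfl⟩ this
    · simp only [List.flatMap_cons, tileU, tileV, List.append_assoc] at h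
      obtain ⟨q', rfl, h2⟩ := map_some_pre _ _ _ _ h
      cases q' with
      | cons b q' => simp at h2
      | nil =>
        cases p with
        | cons b p => simp at h2
        | nil => simpa using Relation.ReflTransGen.refl

/-! ## Turing machines as rewriting systems -/

inductive Dl (G Q : Type) : Type
  | s (g : G) | h (q : Q) (a : G) | l | r | H

instance {G Q : Type} [Finite G] [Finite Q] : Finite (Dl G Q) := by
  refine Finite.of_surjective (α := G ⊕ (Q × G) ⊕ Fin 3)
    (fun x => match x with
      | .inl g => .s g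
      | .inr (.inl (q, a)) => .h q a
      | .inr (.inr 0) => .l
      | .inr (.inr 1) => .r
      | .inr (.inr 2) => .H) ?_
  intro x
  cases x with
  | s g => exact ⟨.inl g, rfl⟩
  | h q a => exact ⟨.inr (.inl (q, a)), rfl⟩
  | l => exact ⟨.inr (.inr 0), rfl⟩
  | r => exact ⟨.inr (.inr 1), rfl⟩
  | H => exact ⟨.inr (.inr 2), rfl⟩

section
variable {G Λ : Type} [Inhabited G] [Inhabited Λ] (M : TM0.Machine G Λ) (S : Finset Λ)

inductive TRule : List (Dl G S) → List (Dl G S) → Prop
  | write (q q' : S) (a b : G) : M q a = some (q'.1, .write b) → TRule [.h q a] [.h q' b]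
  | right (q q' : S) (a c : G) : M q a = some (q'.1, .move .right) →
      TRule [.h q a, .s c] [.s a, .h q' c]
  | left (q q' : S) (a c : G) : M q a = some (q'.1, .move .left) →
      TRule [.s c, .h q a] [.h q' c, .s a]
  | halt (q : S) (a : G) : M q a = none → TRule [.h q a] [.H]
  | bl : TRule [.l] [.l, .s default]
  | br : TRule [.r] [.s default, .r]
  | cl (c : G) : TRule [.s c, .H] [.H]
  | cr (c : G) : TRule [.H, .s c] [.H]

def cf (L : List G) (x : Dl G S) (R : List G) : List (Dl G S) :=
  .l :: (L.reverse.map .s ++ x :: (R.map .s ++ [.r]))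

def tcf (L : List G) (q : Λ) (a : G) (R : List G) : TM0.Cfg G Λ :=
  ⟨q, ⟨a, ListBlank.mk L, ListBlank.mk R⟩⟩

lemma clean (L R : List G) :
    Relation.ReflTransGen (RStep (TRule M S)) (cf S L .H R) [.l, .H, .r] := by
  induction L with
  | cons c L ih =>
    exact Relation.ReflTransGen.head ⟨.l :: L.reverse.map .s, R.map .s ++ [.r], _, _, .cl c,
      by simp [cf], by simp [cf]⟩ ih
  | nil =>
    induction R with
    | nil => exact Relation.ReflTransGen.refl
    | cons c R ih =>
      exact Relation.ReflTransGen.head ⟨[.l], R.map .s ++ [.r], _, _, .cr c,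
        by simp [cf], by simp [cf]⟩ ih

lemma mk_blank (L : List G) : ListBlank.mk (L ++ [default]) = ListBlank.mk L :=
  Quotient.sound' (Or.inr ⟨1, rfl⟩)

lemma tm_complete (hS : TM0.Supports M S) (c e : TM0.Cfg G Λ)
    (h : StateTransition.Reaches (TM0.step M) c e) (he : TM0.step M e = none) :
    ∀ L (q : S) a R, c = tcf L q.1 a R →
      Relation.ReflTransGen (RStep (TRule M S)) (cf S L (.h q a) R) [.l, .H, .r] := by
  induction h using Relation.ReflTransGen.head_induction_on with
  | refl =>
    rintro L q a R rfl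
    have : M q a = none := by simpa [TM0.step, tcf] using he
    exact Relation.ReflTransGen.head ⟨.l :: L.reverse.map .s, R.map .s ++ [.r], _, _,
      .halt q a this, by simp [cf], by simp [cf]⟩ (clean M S L R)
  | @head c c' hs _ ih =>
    rintro L q a R rfl
    simp only [TM0.step, tcf, Option.mem_def, Option.map_eq_some_iff] at hs
    obtain ⟨⟨q', st⟩, hM, rfl⟩ := hs
    have hq' : q' ∈ S := hS.2 (Option.mem_def.2 hM) q.2
    rcases st with (_ | _) | b
    · -- left
      have key : ∀ c L', ListBlank.mk L = ListBlank.mk (c :: L') →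
          Relation.ReflTransGen (RStep (TRule M S)) (cf S (c :: L') (.h q a) R) [.l, .H, .r] := by
        intro c L' hL
        refine Relation.ReflTransGen.head ⟨.l :: L'.reverse.map .s, R.map .s ++ [.r], _, _,
          .left q ⟨q', hq'⟩ a c hM, by simp [cf], ?_⟩ (ih L' ⟨q', hq'⟩ c (a :: R) ?_)
        · simp [cf]
        · simp [tcf, Tape.move, hL]
      cases L with
      | cons c L' => exact key c L' rfl
      | nil =>
        exact Relation.ReflTransGen.head ⟨[], .h q a :: (R.map .s ++ [.r]), _, _, .bl,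
          by simp [cf], by simp [cf]⟩ (key default [] (mk_blank []).symm)
    · -- right
      have key : ∀ c R', ListBlank.mk R = ListBlank.mk (c :: R') →
          Relation.ReflTransGen (RStep (TRule M S)) (cf S L (.h q a) (c :: R')) [.l, .H, .r] := by
        intro c R' hR
        refine Relation.ReflTransGen.head ⟨.l :: L.reverse.map .s, R'.map .s ++ [.r], _, _,
          .right q ⟨q', hq'⟩ a c hM, by simp [cf], ?_⟩ (ih (a :: L) ⟨q', hq'⟩ c R' ?_)
        · simp [cf]
        · simp [tcf, Tape.move, hR]
      cases R with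
      | cons c R' => exact key c R' rfl
      | nil =>
        exact Relation.ReflTransGen.head ⟨.l :: (L.reverse.map .s ++ [.h q a]), [], _, _, .br,
          by simp [cf], by simp [cf]⟩ (key default [] (mk_blank []).symm)
    · refine Relation.ReflTransGen.head ⟨.l :: L.reverse.map .s, R.map .s ++ [.r], _, _,
          .write q ⟨q', hq'⟩ a b hM, by simp [cf], ?_⟩ (ih L ⟨q', hq'⟩ b R ?_)
      · simp [cf]
      · simp [tcf, Tape.write]

lemma uniq_pos {α : Type} (P : α → Prop) {p r p' r' : List α} {x y : α}
    (h : p ++ x :: r = p' ++ y :: r') (hx : P x) (hp : ∀ z ∈ p', ¬ P z) (hr : ∀ z ∈ r', ¬ P z) :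
    p = p' ∧ x = y ∧ r = r' := by
  rcases List.append_eq_append_iff.1 h with ⟨a, rfl, h2⟩ | ⟨c, rfl, h2⟩
  · cases a with
    | nil => simpa using h2
    | cons z a =>
      simp only [List.cons_append, List.cons.injEq] at h2
      exact (hp x (by simp [h2.1]) hx).elim
  · cases c with
    | nil =>
      simp only [List.nil_append, List.cons.injEq] at h2
      simp [h2.1, h2.2]
    | cons z c =>
      simp only [List.cons_append, List.cons.injEq] at h2
      exact (hr x (by simp [h2.2]) hx).elim

def isH {G Q : Type} : Dl G Q → Prop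
  | .h _ _ => True
  | _ => False

omit [Inhabited G] [Inhabited Λ] in
lemma cf_pos {L R : List G} {q q' : S} {a a' : G} {p r : List (Dl G S)}
    (h : cf S L (.h q a) R = p ++ .h q' a' :: r) :
    p = .l :: L.reverse.map .s ∧ q' = q ∧ a' = a ∧ r = R.map .s ++ [.r] := by
  have := uniq_pos isH (p := p) (r := r) (p' := .l :: L.reverse.map .s) (r' := R.map .s ++ [.r])
    (x := .h q' a') (y := .h q a) (by rw [← h]; simp [cf]) trivial
    (by
      intro z hz
      simp only [List.mem_cons, List.mem_map] at hz
      rcases hz with rfl | ⟨_, _, rfl⟩ <;> simp [isH])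
    (by
      intro z hz
      simp only [List.mem_append, List.mem_map, List.mem_singleton] at hz
      rcases hz with ⟨_, _, rfl⟩ | rfl <;> simp [isH])
  simpa [and_assoc] using this

lemma tm_inv {x y : List (Dl G S)} (hs : RStep (TRule M S) x y)
    (hx : ∃ L, ∃ q : S, ∃ a R, x = cf S L (.h q a) R ∧
      ¬ (StateTransition.eval (TM0.step M) (tcf L q.1 a R)).Dom) :
    ∃ L, ∃ q : S, ∃ a R, y = cf S L (.h q a) R ∧
      ¬ (StateTransition.eval (TM0.step M) (tcf L q.1 a R)).Dom := by
  obtain ⟨L, q, a, R, rfl, hn⟩ := hx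
  obtain ⟨p, r, l', r', hr, hx, rfl⟩ := hs
  have adv : ∀ c', TM0.step M (tcf L q.1 a R) = some c' →
      ¬ (StateTransition.eval (TM0.step M) c').Dom := by
    intro c' hc'
    rwa [← StateTransition.reaches_eval (Relation.ReflTransGen.single (Option.mem_def.2 hc'))]
  cases hr with
  | write q₁ q' a₁ b hM =>
    obtain ⟨rfl, rfl, rfl, rfl⟩ := cf_pos S (p := p) (r := r) (q' := q₁) (a' := a₁)
      (by simpa using hx)
    refine ⟨L, q', b, R, by simp [cf], adv _ ?_⟩
    simp [TM0.step, tcf, hM, Tape.write]
  | right q₁ q' a₁ c hM =>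
    obtain ⟨rfl, rfl, rfl, h4⟩ := cf_pos S (p := p) (r := .s c :: r) (q' := q₁) (a' := a₁)
      (by simpa using hx)
    cases R with
    | nil => simp at h4
    | cons c' R =>
      simp only [List.map_cons, List.cons_append, List.cons.injEq, Dl.s.injEq] at h4
      obtain ⟨rfl, rfl⟩ := h4
      refine ⟨a₁ :: L, q', c, R, by simp [cf], adv _ ?_⟩
      simp [TM0.step, tcf, hM, Tape.move]
  | left q₁ q' a₁ c hM =>
    obtain ⟨h1, rfl, rfl, rfl⟩ := cf_pos S (p := p ++ [.s c]) (r := r) (q' := q₁) (a' := a₁)
      (by simpa using hx)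
    cases L with
    | nil =>
      have := congrArg List.getLast? h1
      simp at this
    | cons c' L =>
      have h2 : p ++ [Dl.s c] = (.l :: L.reverse.map .s) ++ [Dl.s c'] := by simpa using h1
      obtain ⟨rfl, h3⟩ := List.append_inj' h2 rfl
      simp only [List.cons.injEq, Dl.s.injEq, and_true] at h3
      subst h3
      refine ⟨L, q', c, a₁ :: R, by simp [cf], adv _ ?_⟩
      simp [TM0.step, tcf, hM, Tape.move]
  | halt q₁ a₁ hM =>
    obtain ⟨rfl, rfl, rfl, rfl⟩ := cf_pos S (p := p) (r := r) (q' := q₁) (a' := a₁)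
      (by simpa using hx)
    exfalso
    apply hn
    exact Part.dom_iff_mem.2 ⟨_, StateTransition.mem_eval.2 ⟨Relation.ReflTransGen.refl,
      by simp [TM0.step, tcf, hM]⟩⟩
  | bl =>
    obtain ⟨rfl, -, rfl⟩ := uniq_pos (· = Dl.l) (p := p) (r := r) (p' := [])
      (r' := L.reverse.map .s ++ .h q a :: (R.map .s ++ [.r])) (x := .l) (y := .l)
      (by simpa [cf] using hx.symm) rfl (by simp) (by simp; rintro _ (⟨_, _, rfl⟩ | rfl | ⟨_, _, rfl⟩ | rfl) <;> simp)
    refine ⟨L ++ [default], q, a, R, by simp [cf], ?_⟩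
    simpa [tcf, mk_blank] using hn
  | br =>
    obtain ⟨rfl, -, rfl⟩ := uniq_pos (· = Dl.r) (p := p) (r := r) (r' := [])
      (p' := .l :: (L.reverse.map .s ++ .h q a :: R.map .s)) (x := .r) (y := .r)
      (by simpa [cf] using hx.symm) rfl (by simp; rintro _ (⟨_, _, rfl⟩ | rfl | ⟨_, _, rfl⟩) <;> simp) (by simp)
    refine ⟨L, q, a, R ++ [default], by simp [cf], ?_⟩
    simpa [tcf, mk_blank] using hn
  | cl c =>
    have : Dl.H ∈ cf S L (.h q a) R := by rw [hx]; simp
    simp [cf] at this
  | cr c =>
    have : Dl.H ∈ cf S L (.h q a) R := by rw [hx]; simp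
    simp [cf] at this

lemma tm_thue (hS : TM0.Supports M S) (L : List G) (q : S) (a : G) (R : List G) :
    Relation.ReflTransGen (RStep (TRule M S)) (cf S L (.h q a) R) [.l, .H, .r] ↔
      (StateTransition.eval (TM0.step M) (tcf L q.1 a R)).Dom := by
  constructor
  · intro h
    by_contra hn
    have key : ∀ y, Relation.ReflTransGen (RStep (TRule M S)) (cf S L (.h q a) R) y →
        ∃ L, ∃ q : S, ∃ a R, y = cf S L (.h q a) R ∧
          ¬ (StateTransition.eval (TM0.step M) (tcf L q.1 a R)).Dom := by
      intro y hy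
      induction hy with
      | refl => exact ⟨L, q, a, R, rfl, hn⟩
      | tail _ hs ih => exact tm_inv M S hs ih
    obtain ⟨L', q', a', R', he, -⟩ := key _ h
    have : Dl.H ∈ cf S L' (.h q' a') R' := by rw [← he]; simp
    simp [cf] at this
  · intro h
    obtain ⟨e, he⟩ := Part.dom_iff_mem.1 h
    obtain ⟨h1, h2⟩ := StateTransition.mem_eval.1 he
    exact tm_complete M S hS _ e h1 h2 L q a R rfl

lemma TRule.len {l r : List (Dl G S)} (h : TRule M S l r) :
    l ≠ [] ∧ r ≠ [] ∧ l.length ≤ 2 ∧ r.length ≤ 2 := by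
  cases h <;> simp

end

/-- The modified Post correspondence problem with fixed tiles is not co-r.e. -/
theorem mpcp_undec : ∃ (I Γ : Type) (_ : Finite I) (_ : Finite Γ) (u v : I → List Γ)
    (y : ℕ → List Γ), (∀ t, u t ≠ []) ∧ (∀ t, v t ≠ []) ∧ (∀ x, ∃ t, u t = [x]) ∧
    (∀ (A : Type) [Primcodable A] (φ : Γ → A), Primrec fun n => (y n).map φ) ∧
    ¬ REPred fun n => ¬ ∃ τ : List I, τ.flatMap u = y n ++ τ.flatMap v := by
  obtain ⟨G, Λ, _, _, _, M, S, c₀, R, hS, hR, hre⟩ := tm0_undec
  have hfin : Finite {lr : List (Dl G S) × List (Dl G S) // TRule M S lr.1 lr.2} := by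
    have h1 := List.finite_length_le (Dl G S) 2
    exact (h1.prod h1).subset (t := {lr | TRule M S lr.1 lr.2})
      fun lr h => ⟨(TRule.len M S h).2.2.1, (TRule.len M S h).2.2.2⟩
  let q₀ : S := ⟨default, hS.1⟩
  refine ⟨Tile (TRule M S), Option (Dl G S), inferInstance, inferInstance,
    tileU (TRule M S) [.l, .H, .r], tileV (TRule M S),
    fun n => (cf S [] (.h q₀ c₀) (R n)).map some ++ [none], ?_, ?_, ?_, ?_, ?_⟩
  · rintro (x | ⟨⟨l, r⟩, hr⟩ | _)
    · simp [tileU]
    · simpa [tileU] using (TRule.len M S hr).1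
    · simp [tileU]
  · rintro (x | ⟨⟨l, r⟩, hr⟩ | _)
    · simp [tileV]
    · simpa [tileV] using (TRule.len M S hr).2.1
    · simp [tileV]
  · exact fun x => ⟨.inl x, rfl⟩
  · intro A _ φ
    have := hR A fun g => φ (some (.s g))
    refine (Primrec.list_append.comp (Primrec.const [φ (some .l), φ (some (.h q₀ c₀))])
      (Primrec.list_append.comp this (Primrec.const [φ (some .r), φ none]))).of_eq fun n => ?_
    simp [cf]
  · intro h
    apply hre
    refine h.of_eq fun n => not_congr ?_
    have e : (TM0.eval M (c₀ :: R n)).Dom ↔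
        (StateTransition.eval (TM0.step M) (tcf [] q₀.1 c₀ (R n))).Dom := Iff.rfl
    rw [e, ← tm_thue M S hS]
    constructor
    · rintro ⟨τ, hτ⟩
      simpa using mpcp_sound (TRule M S) _ τ [] (cf S [] (.h q₀ c₀) (R n)) (by simpa using hτ)
    · exact mpcp_complete _ _ _

end Pool.Agent.P.MP_067fd8_lc
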