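import Mathlib
import Pool.Agent.P.MP_067fd8_lc.Count

set_option autoImplicit false

namespace Pool.Agent.P.MP_067fd8_lc

variable {I Γ Θ : Type} {u v : I → List Γ} {y : List Γ} {G : AG Θ (Al I Γ)}

lemma bal [Finite Θ] (hL : ∀ w, w ∈ LL u v y ↔ ∃ θ, G.Top θ ∧ G.Gn θ w) (ur : I → List Γ)
    (y₀ : List Γ) (F : ℕ → ℕ → ℕ → Prop)
    (hF : ∀ w ∈ LL u v y, F (ca w) (cb w) (cc w) → wG w = wI ur w + y₀.length) (n : ℕ) :
    ∃ C, ∀ θ θt γ x δ, G.Top θt → G.Sp θ θt γ δ → G.Gn θ x →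
      F (ca (γ ++ x ++ δ)) (cb (γ ++ x ++ δ)) (cc (γ ++ x ++ δ)) → ca x ≤ n → cb x ≤ n → cc x ≤ n →
      wG x ≤ wI ur x + C ∧ wI ur x ≤ wG x + C := by
  obtain ⟨C, hC⟩ := fin_choice (κ := Θ × Fin (n + 1) × Fin (n + 1) × Fin (n + 1))
    (fun k z => G.Gn k.1 z ∧ ca z = k.2.1 ∧ cb z = k.2.2.1 ∧ cc z = k.2.2.2)
    (fun z => wG z + wI ur z)
  refine ⟨C, fun θ θt γ x δ ht hs hx hf h1 h2 h3 => ?_⟩
  obtain ⟨z, ⟨a1, a2, a3, a4⟩, a5⟩ := hC (θ, ⟨ca x, by omega⟩, ⟨cb x, by omega⟩, ⟨cc x, by omega⟩)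
    ⟨x, hx, rfl, rfl, rfl⟩
  simp only at a1 a2 a3 a4
  have b1 := hF _ ((hL _).2 ⟨θt, ht, hs.plug hx⟩) hf
  have b2 := hF _ ((hL _).2 ⟨θt, ht, hs.plug a1⟩) (by
    simpa only [ca_append, cb_append, cc_append, a2, a3, a4] using hf)
  simp only [wG_append, wI_append] at b1 b2
  omega

theorem side [Finite Θ] (hL : ∀ w, w ∈ LL u v y ↔ ∃ θ, G.Top θ ∧ G.Gn θ w) (ur : I → List Γ)
    (y₀ : List Γ) (hur : ∀ t, ur t ≠ []) (F : ℕ → ℕ → ℕ → Prop)
    (hF : ∀ w ∈ LL u v y, F (ca w) (cb w) (cc w) → wG w = wI ur w + y₀.length)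
    (items : List (Θ × List (Al I Γ) × List (Al I Γ) × List (Al I Γ))) (n : ℕ)
    (h : ∀ τ : List I, ∃ θ θt σ₁ w σ₂ w', (θ, σ₁, w, σ₂) ∈ items ∧ G.Top θt ∧
      G.Sp θ θt (τ.map Al.t ++ σ₁) (σ₂ ++ (y₀ ++ τ.reverse.flatMap ur).map Al.g) ∧ G.Gn θ w' ∧
      ct (σ₁ ++ w' ++ σ₂) = 0 ∧ wG (σ₁ ++ w' ++ σ₂) = 0 ∧ (σ₁ ++ w' ++ σ₂).length ≤ n ∧
      F (ca (σ₁ ++ w' ++ σ₂)) (cb (σ₁ ++ w' ++ σ₂)) (cc (σ₁ ++ w' ++ σ₂))) :
    ∃ C, ∀ τ, ∃ θ, G.Top θ ∧
      Rch G Al.t (fun t => (ur t).map Al.g) (y₀.map Al.g) items C τ (θ, [], []) := by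
  obtain ⟨C, hC⟩ := bal hL ur y₀ F hF n
  refine ⟨(C + n + y₀.length) + (C + n + y₀.length), fun τ => ?_⟩
  obtain ⟨θ₀, θt, σ₁, w, σ₂, w', hit, ht, hs, hw, z1, z2, z3, z4⟩ := h τ
  have eR : ∀ τs : List I, cR (fun t => (ur t).map Al.g) (y₀.map Al.g) σ₂ τs =
      σ₂ ++ (y₀ ++ τs.reverse.flatMap ur).map (Al.g : Γ → Al I Γ) := by
    intro τs; simp [cR, List.map_flatMap]
  have z5 := len_eq (σ₁ ++ w' ++ σ₂)
  simp only [ct_append, wG_append, ca_append, cb_append, cc_append] at z1 z2 z4 z5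
  have nL : ∀ τs : List I, ca (cL Al.t σ₁ τs) = ca σ₁ ∧ cb (cL Al.t σ₁ τs) = cb σ₁ ∧
      cc (cL Al.t σ₁ τs) = cc σ₁ ∧ wG (cL Al.t σ₁ τs) = 0 ∧
      wI ur (cL Al.t σ₁ τs) = (τs.reverse.flatMap ur).length := by
    intro τs
    have := cnt_t (Γ := Γ) τs
    have h2 := wI_zero ur (x := σ₁) (by omega)
    simp only [cL, ca_append, cb_append, cc_append, wG_append, wI_append, wI_t]
    omega
  have nR : ∀ τs : List I, let x := cR (fun t => (ur t).map Al.g) (y₀.map Al.g) σ₂ τs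
      ca x = ca σ₂ ∧ cb x = cb σ₂ ∧ cc x = cc σ₂ ∧ ct x = 0 ∧
      wG x = y₀.length + (τs.reverse.flatMap ur).length := by
    intro τs
    have := cnt_g (I := I) (y₀ ++ τs.reverse.flatMap ur)
    simp only [eR, ca_append, cb_append, cc_append, wG_append, ct_append, List.length_append] at *
    omega
  have hb : ∀ θ γ x δ, G.Sp θ θt γ δ → G.Gn θ x →
      γ ++ x ++ δ = cL Al.t σ₁ τ ++ w' ++ cR (fun t => (ur t).map Al.g) (y₀.map Al.g) σ₂ τ →
      wG x ≤ wI ur x + C ∧ wI ur x ≤ wG x + C := by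
    intro θ γ x δ a1 a2 e
    have n1 := nL τ
    have n2 := nR τ
    have ea := congrArg ca e
    have eb := congrArg cb e
    have ec := congrArg cc e
    simp only [ca_append, cb_append, cc_append] at ea eb ec n2
    refine hC θ θt γ x δ ht a1 a2 ?_ (by omega) (by omega) (by omega)
    convert z4 using 1 <;> simp only [ca_append, cb_append, cc_append] <;> omega
  have w0 := wI_zero ur (x := w') (by omega)
  refine ⟨θt, ht, spine _ hit τ ?_ ?_ ?_ (by rw [eR]; exact hs)⟩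
  · intro θ γ' δ' γ'' δ'' a1 a2 e1 e2 τs a3 a4
    have b := hb θ γ'' (γ' ++ w' ++ δ') δ'' a2 (a1.plug hw) (by rw [← e1, ← e2]; simp)
    have n1 := nL τ
    have n2 := nR τ
    have n3 := nL τs
    have n4 := nR τs
    rw [← e1] at n1
    rw [← e2] at n2
    simp only [ca_append, cb_append, cc_append, wG_append, wI_append, ct_append] at b n1 n2 n4
    have d0 := wI_zero ur (x := δ') (by omega)
    have l1 := len_eq δ'
    have l2 := len_eq (cR (fun t => (ur t).map Al.g) (y₀.map Al.g) σ₂ τs)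
    by_cases c : γ'.length ≤ (cL Al.t σ₁ τs).length
    · obtain ⟨l, e3⟩ := List.suffix_of_suffix_length_le ⟨_, e1⟩ (cL_suffix Al.t σ₁ a3) c
      have := congrArg (wI ur) e3
      simp only [wI_append] at this
      omega
    · obtain ⟨l, e3⟩ := List.suffix_of_suffix_length_le (cL_suffix Al.t σ₁ a3) ⟨_, e1⟩
        (le_of_not_ge c)
      obtain ⟨r, e4⟩ := List.prefix_of_prefix_length_le ⟨_, e2⟩ (cR_pre _ _ σ₂ a3) (by omega)
      have f1 := congrArg wG e4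
      have f2 := ct_le hur l
      have f3 := len_eq l
      subst e3
      simp only [ca_append, cb_append, cc_append, wG_append, wI_append, ct_append,
        List.length_append] at *
      omega
  · intro θ θ₁ θ₂ γ δ s γ'' δ'' a1 a2 a3 a4 e1 e2
    have b := hb θ₂ _ s _ ((AG.Sp.addL a1 (a2.plug hw) .refl).trans a4) a3
      (by rw [← e1, ← e2]; simp)
    have n2 := nR τ
    rw [← e2] at n2
    simp only [ca_append, cb_append, cc_append, wG_append, ct_append] at n2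
    have d0 := wI_zero ur (x := s) (by omega)
    have l1 := len_eq s
    omega
  · intro θ θ₁ θ₂ γ δ s γ'' δ'' a1 a2 a3 a4 e1 e2
    have b := hb θ₁ _ s _ ((AG.Sp.addR a1 .refl (a3.plug hw)).trans a4) a2
      (by rw [← e1, ← e2]; simp)
    have n1 := nL τ
    rw [← e1] at n1
    simp only [ca_append, cb_append, cc_append, wG_append] at n1
    have f2 := ct_le hur s
    have l1 := len_eq s
    omega

/-- the abstract form of one half of a certificate -/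
def ASide {A : Type} (G : AG Θ A) (tl : I → A) (ur : I → List A) (y₀ g : List A)
    (items : List (Θ × List A × List A × List A)) (ms : List (List (Θ × List A × List A))) : Prop :=
  (∀ it ∈ items, G.Gn it.1 it.2.2.1 ∧ it.2.1 ++ it.2.2.1 ++ it.2.2.2 = g) ∧
  (∃ m ∈ ms, ∀ st ∈ m, ∃ it ∈ items,
    G.Sp it.1 st.1 (st.2.1 ++ it.2.1) (it.2.2.2 ++ y₀ ++ st.2.2)) ∧
  (∀ m ∈ ms, ∀ t, ∃ m' ∈ ms, ∀ st' ∈ m', ∃ st ∈ m, ∃ γ δ, G.Sp st.1 st'.1 γ δ ∧
    γ ++ st.2.1 = st'.2.1 ++ [tl t] ∧ st.2.2 ++ δ = ur t ++ st'.2.2) ∧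
  (∀ m ∈ ms, ∃ θ, G.Top θ ∧ (θ, [], []) ∈ m)

lemma exists_items {A : Type} [Finite Θ] [Finite A] (g : List A)
    (Q : Θ × List A × List A × List A → Prop) : ∃ items : List (Θ × List A × List A × List A),
      ∀ it, it ∈ items ↔ it.2.1 ++ it.2.2.1 ++ it.2.2.2 = g ∧ Q it := by
  have h0 := List.finite_length_le A g.length
  have hf : {it : Θ × List A × List A × List A |
      it.2.1 ++ it.2.2.1 ++ it.2.2.2 = g ∧ Q it}.Finite := by
    refine (Set.finite_univ.prod (h0.prod (h0.prod h0))).subset fun it h => ?_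
    have := congrArg List.length h.1
    simp only [List.length_append] at this
    simp only [Set.mem_prod, Set.mem_univ, Set.mem_ofPred_eq, true_and]
    omega
  exact ⟨hf.toFinset.toList, by simp⟩

theorem abs_cert [Finite Θ] [Finite I] [Finite Γ]
    (hL : ∀ w, w ∈ LL u v y ↔ ∃ θ, G.Top θ ∧ G.Gn θ w)
    (hno : ¬ ∃ τ : List I, τ.flatMap u = y ++ τ.flatMap v) (hu : ∀ t, u t ≠ [])
    (hv : ∀ t, v t ≠ []) {K : ℕ} (hK : ∀ θ w, G.At θ w → w.countP isB ≤ K) (H : ℕ) :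
    ∃ g iU iV mU mV, ASide G Al.t (fun t => (u t).map Al.g) [] g iU mU ∧
      ASide G Al.t (fun t => (v t).map Al.g) (y.map Al.g) g iV mV ∧
      ∀ it ∈ iU, ∀ it' ∈ iV, cb it.2.1 + H < cb it'.2.1 ∧ cb it'.2.1 + H < cb (it.2.1 ++ it.2.2.1) ∧
        cb (it.2.1 ++ it.2.2.1) + H < cb (it'.2.1 ++ it'.2.2.1) := by
  obtain ⟨E, hE⟩ := nodes hL hno hK
  obtain ⟨M, hM, hM'⟩ : ∃ M, K + 2 * E < M ∧ H + 2 * E < M := ⟨K + H + 2 * E + 1, by omega, by omega⟩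
  have hE := hE M hM
  have c7 := cnt_gad (I := I) (Γ := Γ) (3 * M) (3 * M) (3 * M)
  have hg : (gad (3 * M) (3 * M) (3 * M) : List (Al I Γ)).length = 9 * M := by
    simp [gad]; omega
  obtain ⟨iU, hU⟩ := exists_items (Θ := Θ) (gad (3 * M) (3 * M) (3 * M) : List (Al I Γ))
    fun it => G.Gn it.1 it.2.2.1 ∧ cb it.2.1 = 0 ∧ 2 * M ≤ cb it.2.2.1 + E ∧ cb it.2.2.1 ≤ 2 * M
  obtain ⟨iV, hV⟩ := exists_items (Θ := Θ) (gad (3 * M) (3 * M) (3 * M) : List (Al I Γ))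
    fun it => G.Gn it.1 it.2.2.1 ∧ M ≤ cb it.2.1 ∧ cb it.2.1 ≤ M + E ∧ cb it.2.2.2 = 0
  obtain ⟨CU, hCU⟩ := side hL u [] hu (fun _ b c => b ≠ c) (by
      intro w hw hf
      rcases LL_facts hw with h | h
      · simp [wG, wI, h.2, List.length_flatMap]
      · exact (hf h.1).elim) iU (9 * M + E) (by
      intro τ
      obtain ⟨θ, θt, σ₁, w, σ₂, w', a1, a2, a3, a4, a5, a6⟩ := (hE τ).1
      refine ⟨θ, θt, σ₁, w, σ₂, w', (hU _).2 ⟨a4, a3, by simp only; omega⟩, a1, a2, a5, ?_⟩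
      have l1 := len_eq w'
      have l2 := congrArg List.length a4
      rw [← a4] at c7
      simp only [ct_append, wG_append, ca_append, cb_append, cc_append, List.length_append] at *
      omega)
  obtain ⟨CV, hCV⟩ := side hL v y hv (fun a b _ => a ≠ b) (by
      intro w hw hf
      rcases LL_facts hw with h | h
      · exact (hf h.1).elim
      · simp [wG, wI, h.2, List.length_flatMap, add_comm]) iV (9 * M + E) (by
      intro τ
      obtain ⟨θ, θt, σ₁, w, σ₂, w', a1, a2, a3, a4, a5, a6⟩ := (hE τ).2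
      refine ⟨θ, θt, σ₁, w, σ₂, w', (hV _).2 ⟨a4, a3, by simp only; omega⟩, a1, a2, a5, ?_⟩
      have l1 := len_eq w'
      have l2 := congrArg List.length a4
      rw [← a4] at c7
      simp only [ct_append, wG_append, ca_append, cb_append, cc_append, List.length_append] at *
      omega)
  obtain ⟨mU, hmU⟩ := determinise _ hCU
  obtain ⟨mV, hmV⟩ := determinise _ hCV
  refine ⟨_, iU, iV, mU, mV, ⟨fun it h => ⟨((hU _).1 h).2.1, ((hU _).1 h).1⟩, hmU⟩,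
    ⟨fun it h => ⟨((hV _).1 h).2.1, ((hV _).1 h).1⟩, hmV⟩, fun it h it' h' => ?_⟩
  obtain ⟨-, -, a1⟩ := (hU _).1 h
  obtain ⟨a2, -, a3⟩ := (hV _).1 h'
  have := congrArg cb a2
  simp only [cb_append] at this ⊢
  omega

end Pool.Agent.P.MP_067fd8_lc
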