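import Mathlib
import Pool.Agent.P.MP_067fd8_lc.Side
import Pool.Agent.P.MP_067fd8_lc.Cert

set_option autoImplicit false

namespace Pool.Agent.P.MP_067fd8_lc

open Symbol

section typed

variable {A B N σ : Type}

/-- types: entry state, short sentential form, exit state -/
abbrev TT (σ B N : Type) (H m : ℕ) : Type :=
  St σ B H × {s : List (Symbol B N) // s.length ≤ m} × St σ B H

instance TT.finite (σ B N : Type) (H m : ℕ) [Finite σ] [Finite B] [Finite N] :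
    Finite (TT σ B N H m) :=
  haveI : Finite {s : List (Symbol B N) // s.length ≤ m} :=
    (List.finite_length_le (Symbol B N) m).to_subtype
  inferInstance

variable {H m : ℕ} (M : DFA A σ) (f : A → List B) (P : Set (ContextFreeRule B N)) (S : N)

def Rn (p : St σ B H) (w : List A) (z : List B) (q : St σ B H) : Prop :=
  p.2.1 ++ w.flatMap f = z ++ q.2.1 ∧ M.evalFrom p.1 w = q.1

def TG (H m : ℕ) : AG (TT σ B N H m) A where
  At θ w := (θ.2.1.1 = [] ∧ Rn M f θ.1 w [] θ.2.2) ∨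
    ∃ b, θ.2.1.1 = [terminal b] ∧ Rn M f θ.1 w [b] θ.2.2
  Un θ θ' := θ'.1 = θ.1 ∧ θ'.2.2 = θ.2.2 ∧
    ∃ r ∈ P, θ.2.1.1 = [nonterminal r.input] ∧ θ'.2.1.1 = r.output
  Bin θ θ₁ θ₂ := θ₁.1 = θ.1 ∧ θ₁.2.2 = θ₂.1 ∧ θ₂.2.2 = θ.2.2 ∧
    ∃ e, θ₁.2.1.1 = [e] ∧ θ₂.2.1.1 ≠ [] ∧ θ.2.1.1 = e :: θ₂.2.1.1
  Top θ := θ.1.1 = M.start ∧ θ.1.2.1 = [] ∧ θ.2.1.1 = [nonterminal S] ∧ θ.2.2.1 ∈ M.accept ∧
    θ.2.2.2.1 = []

/-- forgetting the automaton states -/
def TT.ty (θ : TT σ B N H m) : Ty B N := (θ.1.2.1, θ.2.1.1, θ.2.2.2.1)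

variable {M f P S}

lemma Rn.refl (p : St σ B H) : Rn M f p [] [] p := ⟨by simp, rfl⟩

lemma Rn.trans {p q r : St σ B H} {w w' z z'} (h : Rn M f p w z q) (h' : Rn M f q w' z' r) :
    Rn M f p (w ++ w') (z ++ z') r := by
  refine ⟨?_, by rw [DFA.evalFrom_of_append, h.2, h'.2]⟩
  rw [List.flatMap_append, ← List.append_assoc, h.1, List.append_assoc, h'.1, List.append_assoc]

lemma Rn.split (hH : ∀ a, (f a).length ≤ H) {q : St σ B H} {z₂ : List B} (w : List A) :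
    ∀ {p : St σ B H} {z₁ : List B}, Rn M f p w (z₁ ++ z₂) q →
      ∃ w₁ w₂ r, w = w₁ ++ w₂ ∧ Rn M f p w₁ z₁ r ∧ Rn M f r w₂ z₂ q := by
  have base : ∀ (w : List A) {p : St σ B H} {z₁ : List B}, Rn M f p w (z₁ ++ z₂) q →
      z₁.length ≤ p.2.1.length →
      ∃ w₁ w₂ r, w = w₁ ++ w₂ ∧ Rn M f p w₁ z₁ r ∧ Rn M f r w₂ z₂ q := by
    intro w p z₁ h c
    obtain ⟨r, e⟩ : z₁ <+: p.2.1 := List.prefix_of_prefix_length_le
      ⟨z₂ ++ q.2.1, by rw [h.1]; simp⟩ ⟨_, rfl⟩ c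
    have hr : r.length ≤ H := by
      have := congrArg List.length e
      have := p.2.2
      simp only [List.length_append] at *
      omega
    refine ⟨[], w, (p.1, ⟨r, hr⟩), rfl, ⟨by simp [e], rfl⟩, ?_, h.2⟩
    have := h.1
    rw [← e] at this
    simpa using this
  induction w with
  | nil =>
    intro p z₁ h
    refine base _ h ?_
    have := congrArg List.length h.1
    simp only [List.flatMap_nil, List.length_append, List.length_nil] at this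
    omega
  | cons a w ih =>
    intro p z₁ h
    by_cases c : z₁.length ≤ p.2.1.length
    · exact base _ h c
    · obtain ⟨z', e⟩ : p.2.1 <+: z₁ := List.prefix_of_prefix_length_le ⟨_, rfl⟩
        ⟨z₂ ++ q.2.1, by rw [h.1]; simp⟩ (le_of_not_ge c)
      have h1 : Rn M f p [a] p.2.1 (M.step p.1 a, ⟨f a, hH a⟩) := ⟨by simp, rfl⟩
      have h2 : Rn M f (M.step p.1 a, ⟨f a, hH a⟩) w (z' ++ z₂) q := by
        refine ⟨?_, h.2⟩
        have := h.1
        rw [← e] at this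
        simpa using this
      obtain ⟨w₁, w₂, r, rfl, a1, a2⟩ := ih h2
      exact ⟨a :: w₁, w₂, r, rfl, e ▸ h1.trans a1, a2⟩

lemma TG.gn_sound {θ : TT σ B N H m} {w} (h : (TG M f P S H m).Gn θ w) :
    ∃ z, Y P θ.2.1.1 z ∧ Rn M f θ.1 w z θ.2.2 := by
  induction h with
  | atom h =>
    rcases h with ⟨e, h⟩ | ⟨b, e, h⟩
    · exact ⟨_, ⟨[], e ▸ D.nil⟩, h⟩
    · exact ⟨_, ⟨[], e ▸ D.nil.term⟩, h⟩
  | un h _ ih =>
    obtain ⟨e1, e2, r, hr, e3, e4⟩ := h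
    obtain ⟨z, ⟨rs, a1⟩, a2⟩ := ih
    refine ⟨z, ⟨r :: rs, ?_⟩, e1 ▸ e2 ▸ a2⟩
    rw [e3]
    exact D.nt hr (by rw [List.append_nil, ← e4]; exact a1)
  | bin h _ _ ih1 ih2 =>
    obtain ⟨e1, e2, e3, e, e4, -, e5⟩ := h
    obtain ⟨z₁, ⟨rs₁, a1⟩, a2⟩ := ih1
    obtain ⟨z₂, ⟨rs₂, b1⟩, b2⟩ := ih2
    refine ⟨z₁ ++ z₂, ⟨rs₁ ++ rs₂, ?_⟩, ?_⟩
    · rw [e5]; rw [e4] at a1; exact a1.append b1
    · rw [← e1, ← e3]; rw [e2] at a2; exact a2.trans b2

lemma TG.sp_sound {θ θ' : TT σ B N H m} {γ δ} (h : (TG M f P S H m).Sp θ θ' γ δ) :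
    ∃ γ₀ δ₀, Ctx P θ.2.1.1 θ'.2.1.1 γ₀ δ₀ ∧ Rn M f θ'.1 γ γ₀ θ.1 ∧ Rn M f θ.2.2 δ δ₀ θ'.2.2 := by
  induction h with
  | refl => exact ⟨[], [], .refl, .refl _, .refl _⟩
  | un h _ ih =>
    obtain ⟨e1, e2, r, hr, e3, e4⟩ := h
    obtain ⟨γ₀, δ₀, a1, a2, a3⟩ := ih
    refine ⟨γ₀, δ₀, ?_, e1 ▸ a2, e2 ▸ a3⟩
    rw [e3]
    exact .rule hr (e4 ▸ a1)
  | addR h _ h2 ih =>
    obtain ⟨e1, e2, e3, e, e4, e6, e5⟩ := h
    obtain ⟨γ₀, δ₀, a1, a2, a3⟩ := ih
    obtain ⟨z, b1, b2⟩ := TG.gn_sound h2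
    refine ⟨γ₀, δ₀ ++ z, ?_, e1 ▸ a2, ?_⟩
    · rw [e5]; exact .head e6 (e4 ▸ a1) b1
    · rw [← e3]; rw [e2] at a3; exact a3.trans b2
  | addL h h2 _ ih =>
    obtain ⟨e1, e2, e3, e, e4, e6, e5⟩ := h
    obtain ⟨γ₀, δ₀, a1, a2, a3⟩ := ih
    obtain ⟨z, b1, b2⟩ := TG.gn_sound h2
    refine ⟨z ++ γ₀, δ₀, ?_, ?_, e3 ▸ a3⟩
    · rw [e5]; exact .tail e6 (e4 ▸ b1) a1
    · rw [← e1]; rw [e2] at b2; exact b2.trans a2

lemma TG.genS {θ : TT σ B N H m} {w} (h : (TG M f P S H m).Gn θ w) : GenS P f θ.ty w := by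
  obtain ⟨z, a1, a2⟩ := TG.gn_sound h
  exact ⟨z, a1, a2.1⟩

lemma TG.ctxS {θ θ' : TT σ B N H m} {γ δ} (h : (TG M f P S H m).Sp θ θ' γ δ) :
    CtxS P f θ'.ty γ θ.ty δ := by
  obtain ⟨γ₀, δ₀, a1, a2, a3⟩ := TG.sp_sound h
  exact ⟨(γ₀, δ₀), a1, a2.1, a3.1⟩

lemma TG.complete (hH : ∀ a, (f a).length ≤ H) (hm : ∀ r ∈ P, r.output.length ≤ m) (n : ℕ) :
    ∀ (s : List (Symbol B N)) (hs : s.length ≤ m) rs z (p q : St σ B H) w, rs.length ≤ n →
      D P s rs z → Rn M f p w z q → (TG M f P S H m).Gn (p, ⟨s, hs⟩, q) w := by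
  induction n using Nat.strong_induction_on with
  | _ n ihn =>
  have single : ∀ (e : Symbol B N) (hs : [e].length ≤ m) rs z (p q : St σ B H) w, rs.length ≤ n →
      D P [e] rs z → Rn M f p w z q → (TG M f P S H m).Gn (p, ⟨[e], hs⟩, q) w := by
    intro e hs rs z p q w h1 h2 h3
    cases e with
    | terminal b =>
      obtain ⟨w', rfl, h4⟩ := D.term_iff.1 h2
      obtain ⟨rfl, rfl⟩ := D.nil_iff.1 h4
      exact .atom (Or.inr ⟨b, rfl, h3⟩)
    | nonterminal X =>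
      obtain ⟨r, rs', rfl, hr, rfl, h4⟩ := D.nt_iff.1 h2
      rw [List.append_nil] at h4
      exact .un (θ' := (p, ⟨r.output, hm r hr⟩, q)) ⟨rfl, rfl, r, hr, rfl, rfl⟩
        (ihn rs'.length (by simpa using h1) _ _ rs' z p q w le_rfl h4 h3)
  intro s
  induction s with
  | nil =>
    intro hs rs z p q w _ h2 h3
    obtain ⟨rfl, rfl⟩ := D.nil_iff.1 h2
    exact .atom (Or.inl ⟨rfl, h3⟩)
  | cons e s ih =>
    intro hs rs z p q w h1 h2 h3
    by_cases c : s = []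
    · subst c; exact single e hs rs z p q w h1 h2 h3
    obtain ⟨rs₁, rs₂, z₁, z₂, rfl, rfl, a1, a2⟩ := D.split (s := [e]) h2
    obtain ⟨w₁, w₂, r, rfl, b1, b2⟩ := Rn.split hH w h3
    simp only [List.length_append, List.length_cons] at h1 hs
    exact .bin (θ₁ := (p, ⟨[e], by simp; omega⟩, r)) (θ₂ := (r, ⟨s, by omega⟩, q))
      ⟨rfl, rfl, rfl, e, rfl, c, rfl⟩ (single e _ rs₁ z₁ p r w₁ (by omega) a1 b1)
      (ih _ rs₂ z₂ r q w₂ (by omega) a2 b2)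

lemma TG.lang (hH : ∀ a, (f a).length ≤ H) (hm : ∀ r ∈ P, r.output.length ≤ m) (hm1 : 1 ≤ m)
    (w : List A) : ((∃ rs, D P [nonterminal S] rs (w.flatMap f)) ∧ w ∈ M.accepts) ↔
      ∃ θ, (TG M f P S H m).Top θ ∧ (TG M f P S H m).Gn θ w := by
  constructor
  · rintro ⟨⟨rs, h1⟩, h2⟩
    exact ⟨((M.start, ⟨[], by simp⟩), ⟨[nonterminal S], hm1⟩, (M.eval w, ⟨[], by simp⟩)),
      ⟨rfl, rfl, rfl, h2, rfl⟩, TG.complete hH hm _ _ _ rs _ _ _ w le_rfl h1 ⟨by simp, rfl⟩⟩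
  · rintro ⟨θ, ⟨e1, e2, e3, e4, e5⟩, h⟩
    obtain ⟨z, a1, a2, a3⟩ := TG.gn_sound h
    rw [e2, e5] at a2
    simp only [List.nil_append, List.append_nil] at a2
    rw [e3, ← a2] at a1
    refine ⟨a1, ?_⟩
    rw [DFA.mem_accepts, DFA.eval, ← e1, a3]
    exact e4

lemma ASide.toSide {I : Type} {tl : I → A} {ur : I → List A} {y₀ g : List A} {items ms}
    (tiles : List I) (h : ASide (TG M f P S H m) tl ur y₀ g items ms) :
    Side P f S tiles tl ur y₀ g (items.map fun it => (it.1.ty, it.2))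
      (ms.map fun x => x.map fun st => (st.1.ty, st.2)) := by
  obtain ⟨h1, ⟨x, hx, h2⟩, h3, h4⟩ := h
  refine ⟨?_, ⟨_, List.mem_map_of_mem hx, ?_⟩, ?_, ?_⟩
  · simp only [List.forall_mem_map]
    exact fun it hit => ⟨TG.genS (h1 it hit).1, (h1 it hit).2⟩
  · simp only [List.forall_mem_map]
    intro st hst
    obtain ⟨it, a1, a2⟩ := h2 st hst
    exact ⟨_, List.mem_map_of_mem a1, TG.ctxS a2⟩
  · simp only [List.forall_mem_map]
    intro x hx t _
    obtain ⟨x', hx', h5⟩ := h3 x hx t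
    refine ⟨_, List.mem_map_of_mem hx', ?_⟩
    simp only [List.forall_mem_map]
    intro st' hst'
    obtain ⟨st, a1, γ, δ, a2, a3⟩ := h5 st' hst'
    exact ⟨_, List.mem_map_of_mem a1, (γ, δ), TG.ctxS a2, a3⟩
  · simp only [List.forall_mem_map]
    intro x hx
    obtain ⟨θ, ⟨e1, e2, e3, e4, e5⟩, a⟩ := h4 x hx
    refine List.mem_map.2 ⟨_, a, ?_⟩
    simp [TT.ty, e2, e3, e5]

end typed

variable {I Γ B N σ : Type} {u v : I → List Γ} {y : List Γ}

lemma cb_le {f : Al I Γ → List B} (hb : f Al.b ≠ []) (x : List (Al I Γ)) :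
    cb x ≤ (x.flatMap f).length := by
  induction x with
  | nil => simp [cb]
  | cons e x ih =>
    have h1 := cb_append [e] x
    have h2 : cb [e] ≤ (f e).length := by
      have := List.length_pos_iff.2 hb
      cases e <;> simp [cb, isB]
      omega
    simp only [List.singleton_append, List.flatMap_cons, List.length_append] at *
    omega

lemma pre_gap {f : Al I Γ → List B} (hb : f Al.b ≠ []) {p p' g : List (Al I Γ)} (h : p <+: g)
    (h' : p' <+: g) {H : ℕ} (c : cb p + H < cb p') :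
    (p.flatMap f).length + H < (p'.flatMap f).length := by
  rcases List.prefix_or_prefix_of_prefix h h' with ⟨x, rfl⟩ | ⟨x, rfl⟩
  · have := cb_le hb x
    simp only [cb_append, List.flatMap_append, List.length_append] at *
    omega
  · simp only [cb_append] at c
    omega

lemma b_ne [Finite σ] {L0 : Set (List B)} {f : Al I Γ → List B} {M : DFA (Al I Γ) σ}
    (hL : ∀ w, w ∈ LL u v y ↔ (w.flatMap f ∈ L0 ∧ w ∈ M.accepts)) : f Al.b ≠ [] := by
  intro hb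
  obtain ⟨n, k, hne, e⟩ := Finite.exists_ne_map_eq_of_infinite
    fun n : ℕ => fun s => M.evalFrom s (List.replicate (n + 1) (Al.b : Al I Γ))
  have h1 : word [] (n + 1) (n + 1) 0 [] ∈ LL u v y := ⟨[], _, _, _, Or.inl ⟨rfl, rfl⟩⟩
  have h2 : word [] (n + 1) (k + 1) 0 [] ∈ LL u v y := by
    rw [hL] at h1 ⊢
    have e' := congrFun e (M.evalFrom M.start (List.replicate (n + 1) (Al.a : Al I Γ)))
    simp only [word, gad, List.reverse_nil, List.map_nil, List.replicate_zero, List.append_nil,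
      List.nil_append, List.flatMap_append, DFA.mem_accepts, DFA.eval, DFA.evalFrom_of_append,
      List.flatMap_replicate, hb] at h1 ⊢
    rw [← e']
    simpa using h1
  have := LL_facts h2
  simp only [ca, cb, cc, word_isA, word_isB, word_isC] at this
  omega

/-- completeness of certificates -/
theorem cert_complete [Finite I] [Finite Γ] [Finite B] [Finite N] [Finite σ]
    {P : Set (ContextFreeRule B N)} (hP : P.Finite) {S : N} {L0 : Set (List B)} (hG : UG P S L0)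
    {f : Al I Γ → List B} {M : DFA (Al I Γ) σ}
    (hL : ∀ w, w ∈ LL u v y ↔ (w.flatMap f ∈ L0 ∧ w ∈ M.accepts))
    (hno : ¬ ∃ τ : List I, τ.flatMap u = y ++ τ.flatMap v) (hu : ∀ t, u t ≠ [])
    (hv : ∀ t, v t ≠ []) (tiles : List I) :
    Cert P f S tiles Al.t (fun t => (u t).map Al.g) (fun t => (v t).map Al.g) (y.map Al.g) := by
  have hb := b_ne hL
  obtain ⟨H, hH⟩ := exists_image_bound f
  obtain ⟨m, hm1, hm⟩ := exists_output_bound hP
  obtain ⟨g, iU, iV, mU, mV, h1, h2, h3⟩ := abs_cert (G := TG M f P S H m) (K := H + 1)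
    (fun w => by rw [hL, hG.1, TG.lang hH hm hm1]) hno hu hv (by
      intro θ w h
      have a1 := cb_le hb w
      have a2 := θ.2.2.2.2
      unfold cb at a1
      rcases h with ⟨-, h, -⟩ | ⟨b, -, h, -⟩
      all_goals
        have := congrArg List.length h
        simp only [List.length_append, List.length_cons, List.length_nil] at this
        omega) H
  refine ⟨g, _, _, _, _, h1.toSide tiles, h2.toSide tiles, ?_⟩
  simp only [List.forall_mem_map]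
  intro it hit it' hit'
  obtain ⟨a1, a2, a3⟩ := h3 it hit it' hit'
  have e := (h1.1 it hit).2
  have e' := (h2.1 it' hit').2
  have p1 : it.2.1 <+: g := ⟨it.2.2.1 ++ it.2.2.2, by rw [← e]; simp⟩
  have p2 : it'.2.1 <+: g := ⟨it'.2.2.1 ++ it'.2.2.2, by rw [← e']; simp⟩
  have b1 := pre_gap hb p1 p2 a1
  have b2 := pre_gap hb p2 ⟨_, e⟩ a2
  have b3 := pre_gap hb ⟨_, e⟩ ⟨_, e'⟩ a3
  have c1 := it'.1.1.2.2
  have c2 := it.1.2.2.2.2
  have c3 := it'.1.2.2.2.2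
  simp only [Crosses, TT.ty]
  omega

end Pool.Agent.P.MP_067fd8_lc
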