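import Mathlib
import Pool.Agent.P.MP_067fd8_lc.Typed
import Pool.Agent.P.MP_067fd8_lc.Thue

set_option autoImplicit false

namespace Pool.Agent.P.MP_067fd8_lc

/-- No unambiguous language generates all unambiguous languages. -/
theorem not_principal {B : Type} [Finite B] {L0 : Set (List B)} (h0 : UL L0) :
    ∃ (A : Type) (_ : Finite A) (L : Set (List A)), UL L ∧
      ∀ (f : A → List B) (σ : Type) (_ : Finite σ) (M : DFA A σ),
        ∃ w : List A, ¬ (w ∈ L ↔ (w.flatMap f ∈ L0 ∧ w ∈ M.accepts)) := by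
  classical
  by_contra hcon
  obtain ⟨N, _, S, P, hP, hG⟩ := h0.finite
  obtain ⟨I, Γ, _, _, u, v, y, hu, hv, -, hy, hre⟩ := mpcp_undec
  let _ : Primcodable B := Primcodable.ofEquiv _ (Finite.equivFin B)
  let _ : Primcodable I := Primcodable.ofEquiv _ (Finite.equivFin I)
  let _ : Primcodable (Al I Γ) := Primcodable.ofEquiv _ (Finite.equivFin (Al I Γ))
  let _ : Primcodable (Symbol B N) := Primcodable.ofEquiv _ (Finite.equivFin (Symbol B N))
  let _ : Fintype I := Fintype.ofFinite I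
  apply hre
  have hs := ((sig_Cert (A := Al I Γ) hP S (Finset.univ : Finset I).toList Al.t
    (fun t => (u t).map Al.g) (fun t => (v t).map Al.g)).comp (hy _ Al.g)).re
  refine hs.of_eq fun n => ?_
  constructor
  · rintro ⟨H, hc⟩ ⟨τ, hτ⟩
    apply hc.sound hG.2 τ (by simp)
    rw [← List.map_flatMap, ← List.map_flatMap, hτ, List.map_append]
  · intro hno
    have : ∃ (f : Al I Γ → List B) (σ : Type) (_ : Finite σ) (M : DFA (Al I Γ) σ),
        ∀ w, w ∈ LL u v (y n) ↔ (w.flatMap f ∈ L0 ∧ w ∈ M.accepts) := by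
      by_contra h2
      apply hcon
      refine ⟨Al I Γ, inferInstance, LL u v (y n), LL_unambiguous hno, fun f σ i M => ?_⟩
      by_contra h3
      exact h2 ⟨f, σ, i, M, fun w => by_contra fun h4 => h3 ⟨w, h4⟩⟩
    obtain ⟨f, σ, _, M, hL⟩ := this
    obtain ⟨H, rfl⟩ := exists_hf f
    exact ⟨H, cert_complete hP hG hL hno hu hv _⟩

end Pool.Agent.P.MP_067fd8_lc
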