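import Mathlib
import Pool.Agent.Lib.PrimrecProp.Basic
import Pool.Agent.P.MP_067fd8_lc.TM

set_option autoImplicit false

/- Self-contained copy of the files of helper99 (Basic, Closure, Gram, Abs, Count, Side, Cross, Sig, Cert, Typed, Thue) under a new namespace, so that the packed row stays untouched, followed by the version that is uniform in the grammar. -/

section

namespace Pool.Agent.P.MP_067fd8_lc.Unif

open Symbol

variable {α N : Type}

/-- Leftmost derivations, recorded by the list of rules used. -/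
inductive D (P : Set (ContextFreeRule α N)) :
    List (Symbol α N) → List (ContextFreeRule α N) → List α → Prop
  | nil : D P [] [] []
  | term {a : α} {s rs w} : D P s rs w → D P (terminal a :: s) rs (a :: w)
  | nt {r : ContextFreeRule α N} {s rs w} : r ∈ P → D P (r.output ++ s) rs w →
      D P (nonterminal r.input :: s) (r :: rs) w

variable {P : Set (ContextFreeRule α N)}

lemma D.nil_iff {rs w} : D P [] rs w ↔ rs = [] ∧ w = [] := by
  constructor
  · intro h; cases h; simp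
  · rintro ⟨rfl, rfl⟩; exact D.nil

lemma D.term_iff {a s rs w} : D P (terminal a :: s) rs w ↔ ∃ w', w = a :: w' ∧ D P s rs w' := by
  constructor
  · intro h; cases h with | term h => exact ⟨_, rfl, h⟩
  · rintro ⟨w', rfl, h⟩; exact h.term

lemma D.nt_iff {X s rs w} : D P (nonterminal X :: s) rs w ↔
    ∃ r rs', rs = r :: rs' ∧ r ∈ P ∧ r.input = X ∧ D P (r.output ++ s) rs' w := by
  constructor
  · intro h
    generalize hs : nonterminal X :: s = s0 at h
    cases h with
    | nil => cases hs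
    | term h => cases hs
    | nt hr h =>
      simp only [List.cons.injEq, nonterminal.injEq] at hs
      obtain ⟨rfl, rfl⟩ := hs
      exact ⟨_, _, rfl, hr, rfl, h⟩
  · rintro ⟨r, rs', rfl, hr, rfl, h⟩; exact D.nt hr h

lemma D.append {s t rs₁ rs₂ w₁ w₂} (h₁ : D P s rs₁ w₁) (h₂ : D P t rs₂ w₂) :
    D P (s ++ t) (rs₁ ++ rs₂) (w₁ ++ w₂) := by
  induction h₁ with
  | nil => simpa
  | term _ ih => exact ih.term
  | nt hr _ ih => rw [List.append_assoc] at ih; exact D.nt hr ih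

lemma D.split {s t rs w} (h : D P (s ++ t) rs w) :
    ∃ rs₁ rs₂ w₁ w₂, rs = rs₁ ++ rs₂ ∧ w = w₁ ++ w₂ ∧ D P s rs₁ w₁ ∧ D P t rs₂ w₂ := by
  generalize hs : s ++ t = s0 at h
  induction h generalizing s with
  | nil =>
    obtain ⟨rfl, rfl⟩ := List.append_eq_nil_iff.1 hs
    exact ⟨[], [], [], [], rfl, rfl, D.nil, D.nil⟩
  | @term a s' rs w h ih =>
    cases s with
    | nil =>
      refine ⟨[], rs, [], a :: w, rfl, rfl, D.nil, ?_⟩
      rw [List.nil_append] at hs
      rw [hs]; exact h.term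
    | cons x s =>
      simp only [List.cons_append, List.cons.injEq] at hs
      obtain ⟨rfl, rfl⟩ := hs
      obtain ⟨rs₁, rs₂, w₁, w₂, rfl, rfl, h₁, h₂⟩ := ih rfl
      exact ⟨rs₁, rs₂, a :: w₁, w₂, rfl, rfl, h₁.term, h₂⟩
  | @nt r s' rs w hr h ih =>
    cases s with
    | nil =>
      refine ⟨[], r :: rs, [], w, rfl, rfl, D.nil, ?_⟩
      rw [List.nil_append] at hs
      rw [hs]; exact D.nt hr h
    | cons x s =>
      simp only [List.cons_append, List.cons.injEq] at hs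
      obtain ⟨rfl, rfl⟩ := hs
      obtain ⟨rs₁, rs₂, w₁, w₂, rfl, rfl, h₁, h₂⟩ := ih (s := r.output ++ s) (by simp)
      exact ⟨r :: rs₁, rs₂, w₁, w₂, rfl, rfl, D.nt hr h₁, h₂⟩

lemma D.terminals (w : List α) : D P (w.map terminal) [] w := by
  induction w with
  | nil => exact D.nil
  | cons a w ih => exact ih.term

lemma D.terminals_append_iff {u : List α} {s rs w} :
    D P (u.map terminal ++ s) rs w ↔ ∃ w', w = u ++ w' ∧ D P s rs w' := by
  induction u generalizing w with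
  | nil => simp
  | cons a u ih =>
    simp only [List.map_cons, List.cons_append, D.term_iff, ih]
    constructor
    · rintro ⟨_, rfl, w', rfl, h⟩; exact ⟨w', rfl, h⟩
    · rintro ⟨w', rfl, h⟩; exact ⟨_, rfl, w', rfl, h⟩

lemma D.terminals_iff {u : List α} {rs w} : D P (u.map terminal) rs w ↔ rs = [] ∧ w = u := by
  have := D.terminals_append_iff (P := P) (u := u) (s := []) (rs := rs) (w := w)
  rw [List.append_nil] at this
  rw [this]
  simp only [D.nil_iff]
  constructor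
  · rintro ⟨_, rfl, rfl, rfl⟩; simp
  · rintro ⟨rfl, rfl⟩; exact ⟨[], by simp, rfl, rfl⟩

/-- complete derivations from the same form are incomparable, and determine the word -/
lemma D.det {s rs₁ rs₂ w₁ w₂ x y} (h₁ : D P s rs₁ w₁) (h₂ : D P s rs₂ w₂)
    (e : rs₁ ++ x = rs₂ ++ y) : rs₁ = rs₂ ∧ w₁ = w₂ := by
  induction h₁ generalizing rs₂ w₂ with
  | nil => obtain ⟨rfl, rfl⟩ := D.nil_iff.1 h₂; simp
  | term _ ih =>
    obtain ⟨w', rfl, h⟩ := D.term_iff.1 h₂
    obtain ⟨rfl, rfl⟩ := ih h e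
    simp
  | nt hr _ ih =>
    obtain ⟨r', rs', rfl, _, _, h⟩ := D.nt_iff.1 h₂
    simp only [List.cons_append, List.cons.injEq] at e
    obtain ⟨rfl, e⟩ := e
    obtain ⟨rfl, rfl⟩ := ih h e
    simp

lemma D.mem {s rs w} (h : D P s rs w) : ∀ r ∈ rs, r ∈ P := by
  induction h with
  | nil => simp
  | term _ ih => exact ih
  | nt hr _ ih => simpa using ⟨hr, ih⟩

/-- The grammar with rules `P` and start symbol `S` generates `L` unambiguously. -/
def UG (P : Set (ContextFreeRule α N)) (S : N) (L : Set (List α)) : Prop :=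
  (∀ w, w ∈ L ↔ ∃ rs, D P [nonterminal S] rs w) ∧
    ∀ w rs rs', D P [nonterminal S] rs w → D P [nonterminal S] rs' w → rs = rs'

/-- Unambiguous context-free languages. -/
def UL (L : Set (List α)) : Prop :=
  ∃ (N : Type) (S : N) (P : Set (ContextFreeRule α N)), P.Finite ∧ UG P S L

/-- the sequence form of leftmost derivations -/
def LDs (P : Set (ContextFreeRule α N)) (s : List (Symbol α N)) (w : List α) (n : ℕ)
    (rs : ℕ → ContextFreeRule α N) : Prop :=
  ∃ ss : ℕ → List (Symbol α N), ss 0 = s ∧ ss n = w.map Symbol.terminal ∧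
    ∀ i < n, rs i ∈ P ∧ ∃ (u : List α) (v : List (Symbol α N)),
      ss i = u.map Symbol.terminal ++ Symbol.nonterminal (rs i).input :: v ∧
      ss (i + 1) = u.map Symbol.terminal ++ (rs i).output ++ v

lemma LDs.toD {s w n rs} (h : LDs P s w n rs) : D P s ((List.range n).map rs) w := by
  induction n generalizing s rs with
  | zero =>
    obtain ⟨ss, rfl, h, _⟩ := h
    rw [h]; exact D.terminals w
  | succ n ih =>
    obtain ⟨ss, rfl, h1, h2⟩ := h
    obtain ⟨hr, u, v, e1, e2⟩ := h2 0 (by omega)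
    have := ih (s := ss 1) (rs := fun i => rs (i + 1))
      ⟨fun i => ss (i + 1), rfl, h1, fun i hi => h2 (i + 1) (by omega)⟩
    rw [List.range_succ_eq_map, List.map_cons, List.map_map, e1]
    rw [e2, List.append_assoc, D.terminals_append_iff] at this
    obtain ⟨w', rfl, h⟩ := this
    exact D.terminals_append_iff.2 ⟨w', rfl, D.nt hr h⟩

lemma D.toLDs {s l w} (h : D P s l w) (rs : ℕ → ContextFreeRule α N)
    (e : (List.range l.length).map rs = l) : LDs P s w l.length rs := by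
  induction h generalizing rs with
  | nil => exact ⟨fun _ => [], rfl, rfl, by simp⟩
  | @term a s l w _ ih =>
    obtain ⟨ss, h0, h1, h2⟩ := ih rs e
    refine ⟨fun i => terminal a :: ss i, by simp [h0], by simp [h1], fun i hi => ?_⟩
    obtain ⟨hr, u, v, e1, e2⟩ := h2 i hi
    exact ⟨hr, a :: u, v, by simp [e1], by simp [e2]⟩
  | @nt r s l w hr _ ih =>
    rw [List.length_cons, List.range_succ_eq_map, List.map_cons, List.map_map] at e
    simp only [List.cons.injEq] at e
    obtain ⟨ss, h0, h1, h2⟩ := ih (fun i => rs (i + 1)) e.2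
    refine ⟨fun i => Nat.casesOn i (nonterminal r.input :: s) ss, rfl, h1, fun i hi => ?_⟩
    cases i with
    | zero => exact ⟨e.1 ▸ hr, [], s, by simp [e.1], by simp [e.1, h0]⟩
    | succ i => exact h2 i (by simpa using hi)

lemma UL_iff (L : Set (List α)) : UL L ↔
    ∃ (N : Type) (S : N) (P : Finset (ContextFreeRule α N)),
      (∀ w : List α, w ∈ L ↔ ∃ (n : ℕ) (rs : ℕ → ContextFreeRule α N),
        LDs (P : Set _) [nonterminal S] w n rs) ∧
      ∀ (w : List α) (n m : ℕ) (rs rs' : ℕ → ContextFreeRule α N),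
        LDs (P : Set _) [nonterminal S] w n rs → LDs (P : Set _) [nonterminal S] w m rs' →
          n = m ∧ ∀ i < n, rs i = rs' i := by
  have key : ∀ {N : Type} (S : N) (l : List (ContextFreeRule α N)),
      (List.range l.length).map (fun i => l.getD i ⟨S, []⟩) = l := by
    intro N S l
    apply List.ext_getElem (by simp)
    intro i h1 h2
    simp [List.getD_eq_getElem?_getD, h2]
  constructor
  · rintro ⟨N, S, P, hP, h1, h2⟩
    refine ⟨N, S, hP.toFinset, ?_, ?_⟩
    · intro w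
      rw [h1, hP.coe_toFinset]
      exact ⟨fun ⟨l, h⟩ => ⟨_, _, h.toLDs _ (key S l)⟩, fun ⟨n, rs, h⟩ => ⟨_, h.toD⟩⟩
    · intro w n m rs rs' h h'
      rw [hP.coe_toFinset] at h h'
      have e := h2 w _ _ h.toD h'.toD
      have hl := congrArg List.length e
      simp only [List.length_map, List.length_range] at hl
      subst hl
      refine ⟨rfl, fun i hi => ?_⟩
      exact List.map_inj_left.1 e i (List.mem_range.2 hi)
  · rintro ⟨N, S, P, h1, h2⟩
    refine ⟨N, S, P, P.finite_toSet, ?_, ?_⟩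
    · intro w
      rw [h1]
      exact ⟨fun ⟨n, rs, h⟩ => ⟨_, h.toD⟩, fun ⟨l, h⟩ => ⟨_, _, h.toLDs _ (key S l)⟩⟩
    · intro w l l' h h'
      obtain ⟨e1, e2⟩ := h2 w _ _ _ _ (h.toLDs _ (key S l)) (h'.toLDs _ (key S l'))
      rw [← key S l, ← key S l', ← e1]
      exact List.map_congr_left fun i hi => e2 i (List.mem_range.1 hi)

/-- renaming of nonterminals in symbols -/
def smap {N' : Type} (g : N' → N) : Symbol α N' → Symbol α N
  | terminal a => terminal a
  | nonterminal X => nonterminal (g X)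

/-- renaming of nonterminals in rules -/
def rmap {N' : Type} (g : N' → N) (r : ContextFreeRule α N') : ContextFreeRule α N :=
  ⟨g r.input, r.output.map (smap g)⟩

lemma smap_inj {N' : Type} {g : N' → N} (hg : Function.Injective g) :
    Function.Injective (smap (α := α) g) := by
  intro x y h
  cases x <;> cases y <;> simp_all [smap, hg.eq_iff]

lemma rmap_inj {N' : Type} {g : N' → N} (hg : Function.Injective g) :
    Function.Injective (rmap (α := α) g) := by
  intro r r' h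
  simp only [rmap, ContextFreeRule.mk.injEq] at h
  exact ContextFreeRule.ext (hg h.1) (List.map_injective_iff.2 (smap_inj hg) h.2)

lemma D.map {N' : Type} (g : N' → N) {s rs w} (h : D (rmap g ⁻¹' P) s rs w) :
    D P (s.map (smap g)) (rs.map (rmap g)) w := by
  induction h with
  | nil => exact D.nil
  | term _ ih => exact ih.term
  | @nt r s rs w hr _ ih =>
    exact D.nt (r := rmap g r) hr (by simpa [rmap] using ih)

lemma D.lift {N' : Type} (g : N' → N) (hg : Function.Injective g)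
    (hP : ∀ r ∈ P, ∃ r', rmap g r' = r) {s rs w} (h : D P s rs w) :
    ∀ s', s'.map (smap g) = s → ∃ rs', D (rmap g ⁻¹' P) s' rs' w := by
  induction h with
  | nil => intro s' e; rw [List.map_eq_nil_iff.1 e]; exact ⟨[], D.nil⟩
  | @term a s rs w _ ih =>
    intro s' e
    obtain ⟨x, s'', rfl, e1, e2⟩ := List.map_eq_cons_iff.1 e
    obtain ⟨rs', h⟩ := ih s'' e2
    cases x with
    | terminal b => simp only [smap, terminal.injEq] at e1; subst e1; exact ⟨rs', h.term⟩
    | nonterminal X => cases e1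
  | @nt r s rs w hr _ ih =>
    intro s' e
    obtain ⟨x, s'', rfl, e1, e2⟩ := List.map_eq_cons_iff.1 e
    obtain ⟨r', rfl⟩ := hP r hr
    obtain ⟨rs', h⟩ := ih (r'.output ++ s'') (by simp [rmap, e2])
    cases x with
    | terminal b => cases e1
    | nonterminal X =>
      simp only [smap, rmap, nonterminal.injEq] at e1
      rw [hg e1]
      exact ⟨r' :: rs', D.nt hr h⟩

lemma UL.finite {L : Set (List α)} (h : UL L) :
    ∃ (N : Type) (_ : Finite N) (S : N) (P : Set (ContextFreeRule α N)), P.Finite ∧ UG P S L := by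
  obtain ⟨N, S, P, hP, h1, h2⟩ := h
  let Z : Set N := {S} ∪ ⋃ r ∈ P, ({r.input} ∪ {X | nonterminal X ∈ r.output})
  have hZ : Z.Finite := by
    refine (Set.finite_singleton _).union (hP.biUnion fun r _ => (Set.finite_singleton _).union ?_)
    exact (List.finite_toSet r.output).preimage (f := fun X => (nonterminal X : Symbol α N))
      (fun x _ y _ h => by simpa using h)
  have hg : Function.Injective (Subtype.val : Z → N) := Subtype.val_injective
  have hP' : ∀ r ∈ P, ∃ r', rmap (Subtype.val : Z → N) r' = r := by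
    intro r hr
    have h1 : r.input ∈ Z := Or.inr (Set.mem_biUnion hr (Or.inl rfl))
    have h2 : ∀ x ∈ r.output, ∃ y, smap (Subtype.val : Z → N) y = x := by
      intro x hx
      cases x with
      | terminal a => exact ⟨terminal a, rfl⟩
      | nonterminal X => exact ⟨nonterminal ⟨X, Or.inr (Set.mem_biUnion hr (Or.inr hx))⟩, rfl⟩
    obtain ⟨o, ho⟩ : ∃ o : List (Symbol α Z), o.map (smap Subtype.val) = r.output := by
      have : ∀ l : List (Symbol α N), (∀ x ∈ l, ∃ y, smap (Subtype.val : Z → N) y = x) →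
          ∃ o : List (Symbol α Z), o.map (smap Subtype.val) = l := by
        intro l
        induction l with
        | nil => exact fun _ => ⟨[], rfl⟩
        | cons x l ih =>
          intro h
          obtain ⟨y, rfl⟩ := h x (by simp)
          obtain ⟨o, rfl⟩ := ih fun z hz => h z (by simp [hz])
          exact ⟨y :: o, rfl⟩
      exact this _ h2
    exact ⟨⟨⟨r.input, h1⟩, o⟩, by simp [rmap, ho]⟩
  refine ⟨Z, hZ.to_subtype, ⟨S, Or.inl rfl⟩, rmap Subtype.val ⁻¹' P,
    hP.preimage (rmap_inj hg).injOn, fun w => ?_, fun w rs rs' h h' => ?_⟩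
  · rw [h1]
    exact ⟨fun ⟨rs, h⟩ => h.lift _ hg hP' _ rfl, fun ⟨rs, h⟩ => ⟨_, h.map _⟩⟩
  · exact List.map_injective_iff.2 (rmap_inj hg) (h2 w _ _ (h.map _) (h'.map _))

end Pool.Agent.P.MP_067fd8_lc.Unif

end

section

namespace Pool.Agent.P.MP_067fd8_lc.Unif

open Symbol

/-- states: automaton state and pending part of the image of the last letter -/
abbrev St (σ B : Type) (H : ℕ) : Type := σ × {r : List B // r.length ≤ H}

instance St.finite (σ B : Type) (H : ℕ) [Finite σ] [Finite B] : Finite (St σ B H) :=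
  haveI : Finite {r : List B // r.length ≤ H} := (List.finite_length_le B H).to_subtype
  inferInstance

instance symFinite (B N : Type) [Finite B] [Finite N] : Finite (Symbol B N) :=
  Finite.of_surjective (Sum.elim terminal nonterminal : B ⊕ N → Symbol B N) (by
    rintro (b | X)
    exacts [⟨Sum.inl b, rfl⟩, ⟨Sum.inr X, rfl⟩])

lemma finite_rules {B N : Type} [Finite B] [Finite N] (P : Set (ContextFreeRule B N)) (m : ℕ)
    (h : ∀ r ∈ P, r.output.length ≤ m) : P.Finite := by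
  refine Set.Finite.of_finite_image (f := fun r => (r.input, r.output)) ?_ ?_
  · refine (Set.finite_univ.prod (List.finite_length_le (Symbol B N) m)).subset ?_
    rintro _ ⟨r, hr, rfl⟩
    exact ⟨trivial, h r hr⟩
  · intro r _ r' _ e
    simp only [Prod.mk.injEq] at e
    exact ContextFreeRule.ext e.1 e.2

lemma exists_output_bound {B N : Type} {P : Set (ContextFreeRule B N)} (hP : P.Finite) :
    ∃ m, 1 ≤ m ∧ ∀ r ∈ P, r.output.length ≤ m := by
  obtain ⟨m, hm⟩ := (hP.image fun r => r.output.length).bddAbove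
  exact ⟨m + 1, by omega, fun r hr => (hm ⟨r, hr, rfl⟩).trans (by omega)⟩

lemma exists_image_bound {A B : Type} [Finite A] (f : A → List B) :
    ∃ H, ∀ a, (f a).length ≤ H := by
  obtain ⟨m, hm⟩ := (Set.finite_range fun a => (f a).length).bddAbove
  exact ⟨m, fun a => hm ⟨a, rfl⟩⟩

/-- nonterminals of the product grammar -/
inductive NT (σ B N : Type) (H : ℕ) : Type
  | start : NT σ B N H
  | fin : σ → NT σ B N H
  | mid : St σ B H → Symbol B N → St σ B H → NT σ B N H

instance NT.finite (σ B N : Type) (H : ℕ) [Finite σ] [Finite B] [Finite N] :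
    Finite (NT σ B N H) :=
  Finite.of_surjective (fun x : Option (σ ⊕ (St σ B H × Symbol B N × St σ B H)) =>
    (x.elim NT.start (Sum.elim NT.fin fun y => NT.mid y.1 y.2.1 y.2.2) : NT σ B N H)) (by
    rintro (_ | s | ⟨p, x, q⟩)
    exacts [⟨none, rfl⟩, ⟨some (Sum.inl s), rfl⟩, ⟨some (Sum.inr (p, x, q)), rfl⟩])

section

variable {A B N σ : Type} {H : ℕ}

/-- decorating a sentential form with states -/
inductive Lift : St σ B H → List (Symbol B N) → St σ B H → List (Symbol A (NT σ B N H)) → Prop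
  | nil (p) : Lift p [] p []
  | cons {p p₁ q x s o} : Lift p₁ s q o → Lift p (x :: s) q (nonterminal (NT.mid p x p₁) :: o)

lemma Lift.append {p q r : St σ B H} {s t : List (Symbol B N)} {o o' : List (Symbol A (NT σ B N H))}
    (h : Lift p s q o) (h' : Lift q t r o') : Lift p (s ++ t) r (o ++ o') := by
  induction h with
  | nil => exact h'
  | cons _ ih => exact (ih h').cons

lemma Lift.split {p r : St σ B H} {s t : List (Symbol B N)} {o : List (Symbol A (NT σ B N H))}
    (h : Lift p (s ++ t) r o) : ∃ q o₁ o₂, o = o₁ ++ o₂ ∧ Lift p s q o₁ ∧ Lift q t r o₂ := by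
  induction s generalizing p o with
  | nil => exact ⟨p, [], o, rfl, Lift.nil p, h⟩
  | cons x s ih =>
    cases h with
    | cons h =>
      obtain ⟨q, o₁, o₂, rfl, h₁, h₂⟩ := ih h
      exact ⟨q, _, o₂, rfl, h₁.cons, h₂⟩

lemma Lift.length {p q : St σ B H} {s : List (Symbol B N)} {o : List (Symbol A (NT σ B N H))}
    (h : Lift p s q o) : o.length = s.length := by
  induction h with
  | nil => rfl
  | cons _ ih => simp [ih]

lemma Lift.det {p q q' : St σ B H} {s : List (Symbol B N)} {o : List (Symbol A (NT σ B N H))}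
    (h : Lift p s q o) (h' : Lift p s q' o) : q = q' := by
  induction h with
  | nil => cases h'; rfl
  | cons _ ih => cases h' with | cons h' => exact ih h'

/-- forgetting the states -/
def unl : Symbol A (NT σ B N H) → Option (Symbol B N)
  | nonterminal (NT.mid _ x _) => some x
  | _ => none

lemma Lift.unl {p q : St σ B H} {s : List (Symbol B N)} {o : List (Symbol A (NT σ B N H))}
    (h : Lift p s q o) : o.filterMap unl = s := by
  induction h with
  | nil => rfl
  | cons _ ih => rw [List.filterMap_cons_some (by rfl), ih]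

/-- projection of rules -/
def proj (r : ContextFreeRule A (NT σ B N H)) : Option (ContextFreeRule B N) :=
  match r.input with
  | NT.mid _ (nonterminal X) _ => some ⟨X, r.output.filterMap unl⟩
  | _ => none

variable (M : DFA A σ) (f : A → List B) (P : Set (ContextFreeRule B N)) (S : N)

/-- the rules of the product grammar -/
inductive PR : ContextFreeRule A (NT σ B N H) → Prop
  | start (p q : St σ B H) : p.1 = M.start → p.2.1 = [] → q.2.1 = [] →
      PR ⟨NT.start, [nonterminal (NT.mid p (nonterminal S) q), nonterminal (NT.fin q.1)]⟩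
  | stop (s) : s ∈ M.accept → PR ⟨NT.fin s, []⟩
  | fskip (s e) : f e = [] → PR ⟨NT.fin s, [terminal e, nonterminal (NT.fin (M.step s e))]⟩
  | rule (p q r o) : r ∈ P → Lift p r.output q o → PR ⟨NT.mid p (nonterminal r.input) q, o⟩
  | pop (p q : St σ B H) (b) : p.2.1 = b :: q.2.1 → q.1 = p.1 → PR ⟨NT.mid p (terminal b) q, []⟩
  | read (p q : St σ B H) (a b) : p.2.1 = [] → f a = b :: q.2.1 → q.1 = M.step p.1 a →
      PR ⟨NT.mid p (terminal b) q, [terminal a]⟩
  | skip (p p₁ q : St σ B H) (e b) : p.2.1 = [] → f e = [] → p₁.1 = M.step p.1 e → p₁.2.1 = [] →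
      PR ⟨NT.mid p (terminal b) q, [terminal e, nonterminal (NT.mid p₁ (terminal b) q)]⟩

/-- reading one letter of the image -/
inductive Step (b : B) (q : St σ B H) :
    St σ B H → List A → List (ContextFreeRule A (NT σ B N H)) → Prop
  | pop (p : St σ B H) : p.2.1 = b :: q.2.1 → q.1 = p.1 →
      Step b q p [] [⟨NT.mid p (terminal b) q, []⟩]
  | read (p : St σ B H) (a) : p.2.1 = [] → f a = b :: q.2.1 → q.1 = M.step p.1 a →
      Step b q p [a] [⟨NT.mid p (terminal b) q, [terminal a]⟩]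
  | skip (p p₁ : St σ B H) (e u g) : p.2.1 = [] → f e = [] → p₁.1 = M.step p.1 e → p₁.2.1 = [] →
      Step b q p₁ u g → Step b q p (e :: u)
        (⟨NT.mid p (terminal b) q, [terminal e, nonterminal (NT.mid p₁ (terminal b) q)]⟩ :: g)

/-- reading the final erased letters -/
inductive Fin' : σ → List A → List (ContextFreeRule A (NT σ B N H)) → Prop
  | stop (s) : s ∈ M.accept → Fin' s [] [⟨NT.fin s, []⟩]
  | skip (s e u g) : f e = [] → Fin' (M.step s e) u g →
      Fin' s (e :: u) (⟨NT.fin s, [terminal e, nonterminal (NT.fin (M.step s e))]⟩ :: g)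

variable {M f P S}

lemma step_iff {b : B} {p q : St σ B H} {u g} :
    D {r | PR M f P S r} [nonterminal (NT.mid p (terminal b) q)] g u ↔ Step M f b q p u g := by
  constructor
  · intro h
    induction g generalizing p u with
    | nil => obtain ⟨_, _, h, _⟩ := D.nt_iff.1 h; cases h
    | cons r g ih =>
      obtain ⟨r', g', e, hr, hi, h⟩ := D.nt_iff.1 h
      simp only [List.cons.injEq] at e
      obtain ⟨rfl, rfl⟩ := e
      rw [List.append_nil] at h
      cases hr with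
      | start => cases hi
      | stop => cases hi
      | fskip => cases hi
      | rule => cases hi
      | pop p' q' b' h1 h2 =>
        cases hi
        obtain ⟨rfl, rfl⟩ := D.nil_iff.1 h
        exact Step.pop _ h1 h2
      | read p' q' a b' h1 h2 h3 =>
        cases hi
        obtain ⟨w', rfl, h'⟩ := D.term_iff.1 h
        obtain ⟨rfl, rfl⟩ := D.nil_iff.1 h'
        exact Step.read _ _ h1 h2 h3
      | skip p' p₁ q' e b' h1 h2 h3 h4 =>
        cases hi
        obtain ⟨w', rfl, h'⟩ := D.term_iff.1 h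
        exact Step.skip _ _ _ _ _ h1 h2 h3 h4 (ih h')
  · intro h
    induction h with
    | pop p h1 h2 => exact D.nt (r := ⟨_, _⟩) (PR.pop _ _ _ h1 h2) D.nil
    | read p a h1 h2 h3 => exact D.nt (r := ⟨_, _⟩) (PR.read _ _ _ _ h1 h2 h3) D.nil.term
    | skip p p₁ e u g h1 h2 h3 h4 _ ih =>
      exact D.nt (r := ⟨_, _⟩) (PR.skip _ _ _ _ _ h1 h2 h3 h4) ih.term

lemma fin_iff {s : σ} {u} {g : List (ContextFreeRule A (NT σ B N H))} :
    D {r | PR M f P S r} [nonterminal (NT.fin s)] g u ↔ Fin' M f s u g := by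
  constructor
  · intro h
    induction g generalizing s u with
    | nil => obtain ⟨_, _, h, _⟩ := D.nt_iff.1 h; cases h
    | cons r g ih =>
      obtain ⟨r', g', e, hr, hi, h⟩ := D.nt_iff.1 h
      simp only [List.cons.injEq] at e
      obtain ⟨rfl, rfl⟩ := e
      rw [List.append_nil] at h
      cases hr with
      | start => cases hi
      | rule => cases hi
      | pop => cases hi
      | read => cases hi
      | skip => cases hi
      | stop s' h1 =>
        cases hi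
        obtain ⟨rfl, rfl⟩ := D.nil_iff.1 h
        exact Fin'.stop _ h1
      | fskip s' e h1 =>
        cases hi
        obtain ⟨w', rfl, h'⟩ := D.term_iff.1 h
        exact Fin'.skip _ _ _ _ h1 (ih h')
  · intro h
    induction h with
    | stop s h1 => exact D.nt (r := ⟨_, _⟩) (PR.stop _ h1) D.nil
    | skip s e u g h1 _ ih => exact D.nt (r := ⟨_, _⟩) (PR.fskip _ _ h1) ih.term

lemma St.ext' {p q : St σ B H} (h1 : p.1 = q.1) (h2 : p.2.1 = q.2.1) : p = q :=
  Prod.ext h1 (Subtype.ext h2)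

lemma Step.det {b : B} {p q q' : St σ B H} {u u' x y} {g g' : List (ContextFreeRule A (NT σ B N H))}
    (h : Step M f b q p u g) (h' : Step M f b q' p u' g') (e : u ++ x = u' ++ y) :
    q = q' ∧ u = u' ∧ g = g' := by
  induction h generalizing u' g' with
  | pop p h1 h2 =>
    cases h' with
    | pop _ h3 h4 =>
      have : q = q' := St.ext' (h2.trans h4.symm) (by simpa [h1] using h3)
      subst this; simp
    | read _ _ h3 => simp [h1] at h3
    | skip _ _ _ _ _ h3 => simp [h1] at h3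
  | read p a h1 h2 h3 =>
    cases h' with
    | pop _ h4 => simp [h1] at h4
    | read _ a' h4 h5 h6 =>
      simp only [List.cons_append, List.cons.injEq] at e
      obtain ⟨rfl, _⟩ := e
      have : q = q' := St.ext' (h3.trans h6.symm) (by simpa [h2] using h5)
      subst this; simp
    | skip _ _ e' _ _ _ h4 =>
      simp only [List.cons_append, List.cons.injEq] at e
      obtain ⟨rfl, _⟩ := e
      simp [h2] at h4
  | skip p p₁ a u g h1 h2 h3 h4 _ ih =>
    cases h' with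
    | pop _ h5 => simp [h1] at h5
    | read _ a' _ h5 =>
      simp only [List.cons_append, List.cons.injEq] at e
      obtain ⟨rfl, _⟩ := e
      simp [h2] at h5
    | skip _ p₂ a' u' g' _ _ h5 h6 h7 =>
      simp only [List.cons_append, List.cons.injEq] at e
      obtain ⟨rfl, e⟩ := e
      have : p₁ = p₂ := St.ext' (h3.trans h5.symm) (h4.trans h6.symm)
      subst this
      obtain ⟨rfl, rfl, rfl⟩ := ih h7 e
      simp

lemma Fin'.det {s : σ} {u} {g g' : List (ContextFreeRule A (NT σ B N H))}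
    (h : Fin' M f s u g) (h' : Fin' M f s u g') : g = g' := by
  induction h generalizing g' with
  | stop => cases h'; rfl
  | skip _ _ _ _ _ _ ih => cases h' with | skip _ _ _ _ _ h => rw [ih h]

lemma Step.proj {b : B} {p q : St σ B H} {u} {g : List (ContextFreeRule A (NT σ B N H))}
    (h : Step M f b q p u g) : g.filterMap proj = [] ∧ g ≠ [] := by
  induction h with
  | pop => simp [Pool.Agent.P.MP_067fd8_lc.Unif.proj]
  | read => simp [Pool.Agent.P.MP_067fd8_lc.Unif.proj]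
  | skip _ _ _ _ _ _ _ _ _ _ ih =>
    refine ⟨?_, by simp⟩
    rw [List.filterMap_cons_none (by simp [Pool.Agent.P.MP_067fd8_lc.Unif.proj]), ih.1]

lemma Step.sem {b : B} {p q : St σ B H} {u} {g : List (ContextFreeRule A (NT σ B N H))}
    (h : Step M f b q p u g) :
    p.2.1 ++ u.flatMap f = b :: q.2.1 ∧ q.1 = M.evalFrom p.1 u := by
  induction h with
  | pop _ h1 h2 => simp [h1, h2]
  | read _ _ h1 h2 h3 => simp [h1, h2, h3]
  | skip _ _ _ _ _ h1 h2 h3 h4 _ ih => simpa [h1, h2, ← h3, h4] using ih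

lemma Fin'.sem {s : σ} {u} {g : List (ContextFreeRule A (NT σ B N H))}
    (h : Fin' M f s u g) : u.flatMap f = [] ∧ M.evalFrom s u ∈ M.accept := by
  induction h with
  | stop _ h => simpa using h
  | skip _ _ _ _ h1 _ ih => simpa [h1] using ih

lemma Fin'.exists (u : List A) (s : σ) (h1 : u.flatMap f = []) (h2 : M.evalFrom s u ∈ M.accept) :
    ∃ g : List (ContextFreeRule A (NT σ B N H)), Fin' M f s u g := by
  induction u generalizing s with
  | nil => exact ⟨_, Fin'.stop s h2⟩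
  | cons e u ih =>
    rw [List.flatMap_cons, List.append_eq_nil_iff] at h1
    obtain ⟨g, hg⟩ := ih (M.step s e) h1.2 h2
    exact ⟨_, Fin'.skip s e u g h1.1 hg⟩

lemma Step.exists (hH : ∀ a, (f a).length ≤ H) (b : B) (w : List A) (p : St σ B H) (z : List B)
    (h : p.2.1 ++ w.flatMap f = b :: z) :
    ∃ (u w' : List A) (q : St σ B H) (g : List (ContextFreeRule A (NT σ B N H))),
      w = u ++ w' ∧ Step M f b q p u g ∧ q.2.1 ++ w'.flatMap f = z := by
  induction w generalizing p with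
  | nil =>
    rw [List.flatMap_nil, List.append_nil] at h
    have hz : z.length ≤ H := by have := p.2.2; rw [h] at this; simp at this; omega
    exact ⟨[], [], (p.1, ⟨z, hz⟩), _, rfl, Step.pop p h rfl, by simp⟩
  | cons a w ih =>
    rcases hp : p.2.1 with _ | ⟨c, r⟩
    · rw [hp, List.nil_append, List.flatMap_cons] at h
      rcases ha : f a with _ | ⟨c, r⟩
      · obtain ⟨u, w', q, g, rfl, h1, h2⟩ := ih (M.step p.1 a, ⟨[], by simp⟩) (by simpa [ha] using h)
        exact ⟨a :: u, w', q, _, rfl, Step.skip p _ a u g hp ha rfl rfl h1, h2⟩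
      · rw [ha] at h
        simp only [List.cons_append, List.cons.injEq] at h
        obtain ⟨rfl, h⟩ := h
        have hr : r.length ≤ H := by have := hH a; rw [ha] at this; simp at this; omega
        exact ⟨[a], w, (M.step p.1 a, ⟨r, hr⟩), _, rfl, Step.read p a hp ha rfl, h⟩
    · rw [hp] at h
      simp only [List.cons_append, List.cons.injEq] at h
      obtain ⟨rfl, h⟩ := h
      have hr : r.length ≤ H := by have := p.2.2; rw [hp] at this; simp at this; omega
      exact ⟨[], a :: w, (p.1, ⟨r, hr⟩), _, rfl, Step.pop p hp rfl, h⟩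

variable (M f N) in
/-- canonical runs -/
inductive Run : St σ B H → List A → List B → St σ B H → Prop
  | nil (p) : Run p [] [] p
  | cons {p p₁ q u w b z} {g : List (ContextFreeRule A (NT σ B N H))} :
      Step M f b p₁ p u g → Run p₁ w z q → Run p (u ++ w) (b :: z) q

lemma Run.sem {p q : St σ B H} {w z} (h : Run N M f p w z q) :
    p.2.1 ++ w.flatMap f = z ++ q.2.1 ∧ q.1 = M.evalFrom p.1 w := by
  induction h with
  | nil => simp
  | cons h _ ih =>
    obtain ⟨h1, h2⟩ := h.sem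
    rw [List.flatMap_append, ← List.append_assoc, h1, M.evalFrom_of_append, ← h2]
    simpa using ih

lemma Run.exists (hH : ∀ a, (f a).length ≤ H) (z : List B) (w : List A) (p : St σ B H)
    (h : p.2.1 ++ w.flatMap f = z) :
    ∃ (w₁ w₂ : List A) (q : St σ B H),
      w = w₁ ++ w₂ ∧ Run N M f p w₁ z q ∧ q.2.1 ++ w₂.flatMap f = [] := by
  induction z generalizing w p with
  | nil => exact ⟨[], w, p, rfl, Run.nil p, h⟩
  | cons b z ih =>
    obtain ⟨u, w', q, g, rfl, h1, h2⟩ := Step.exists (N := N) (M := M) hH b w p z h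
    obtain ⟨w₁, w₂, q', rfl, h3, h4⟩ := ih w' q h2
    exact ⟨u ++ w₁, w₂, q', by simp, Run.cons h1 h3, h4⟩

lemma lift_sound (n : ℕ) : ∀ {p q : St σ B H} {s o rs w}, rs.length < n → Lift p s q o →
    D {r | PR M f P S r} o rs w → ∃ z, D P s (rs.filterMap proj) z ∧ Run N M f p w z q := by
  induction n with
  | zero => intros; omega
  | succ n ih =>
    intro p q s o rs w hn hl h
    cases hl with
    | nil =>
      obtain ⟨rfl, rfl⟩ := D.nil_iff.1 h
      exact ⟨[], D.nil, Run.nil _⟩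
    | @cons _ p₁ _ x s o hl =>
      cases x with
      | terminal b =>
        obtain ⟨g, rs', u, w', rfl, rfl, h1, h2⟩ := D.split (s := [_]) h
        rw [step_iff] at h1
        have := List.length_pos_iff.2 h1.proj.2
        obtain ⟨z, h3, h4⟩ := ih (by simp at hn; omega) hl h2
        exact ⟨b :: z, by rw [List.filterMap_append, h1.proj.1]; exact h3.term, Run.cons h1 h4⟩
      | nonterminal X =>
        obtain ⟨r', rs', rfl, hr, hi, h'⟩ := D.nt_iff.1 h
        cases hr with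
        | start => cases hi
        | stop => cases hi
        | fskip => cases hi
        | pop => cases hi
        | read => cases hi
        | skip => cases hi
        | rule p' q' r o' hr hl' =>
          cases hi
          obtain ⟨z, h3, h4⟩ := ih (by simp at hn; omega) (hl'.append hl) h'
          refine ⟨z, ?_, h4⟩
          rw [List.filterMap_cons_some (b := r) (by simp [proj, hl'.unl])]
          exact D.nt hr h3

lemma lift_complete {s rs z} (h : D P s rs z) : ∀ {p q : St σ B H} {w}, Run N M f p w z q →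
    ∃ o rs', Lift p s q o ∧ D {r | PR M f P S r} o rs' w := by
  induction h with
  | nil => intro p q w h; cases h; exact ⟨[], [], Lift.nil _, D.nil⟩
  | term _ ih =>
    intro p q w h
    cases h with
    | cons h1 h2 =>
      obtain ⟨o, rs', h3, h4⟩ := ih h2
      exact ⟨_, _, h3.cons, (step_iff.2 h1).append h4⟩
  | nt hr _ ih =>
    intro p q w h
    obtain ⟨o, rs', h3, h4⟩ := ih h
    obtain ⟨p₁, o₁, o₂, rfl, h5, h6⟩ := h3.split
    exact ⟨_, _, h6.cons, D.nt (r := ⟨_, o₁⟩) (PR.rule _ _ _ _ hr h5) h4⟩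

lemma lift_unique {s rs z} (h : D P s rs z) : ∀ {p q₁ q₂ : St σ B H} {o₁ o₂ rs₁ rs₂ w₁ w₂ x y},
    Lift p s q₁ o₁ → Lift p s q₂ o₂ → D {r | PR M f P S r} o₁ rs₁ w₁ →
    D {r | PR M f P S r} o₂ rs₂ w₂ → rs₁.filterMap proj = rs → rs₂.filterMap proj = rs →
    w₁ ++ x = w₂ ++ y → o₁ = o₂ ∧ rs₁ = rs₂ ∧ w₁ = w₂ := by
  induction h with
  | nil =>
    intro p q₁ q₂ o₁ o₂ rs₁ rs₂ w₁ w₂ x y l₁ l₂ h₁ h₂ _ _ _
    cases l₁; cases l₂
    obtain ⟨rfl, rfl⟩ := D.nil_iff.1 h₁
    obtain ⟨rfl, rfl⟩ := D.nil_iff.1 h₂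
    simp
  | term _ ih =>
    intro p q₁ q₂ o₁ o₂ rs₁ rs₂ w₁ w₂ x y l₁ l₂ h₁ h₂ e₁ e₂ e
    cases l₁ with | cons l₁ =>
    cases l₂ with | cons l₂ =>
    obtain ⟨g, rs', u, w', rfl, rfl, a1, a2⟩ := D.split (s := [_]) h₁
    obtain ⟨g', rs'', u', w'', rfl, rfl, b1, b2⟩ := D.split (s := [_]) h₂
    rw [step_iff] at a1 b1
    rw [List.append_assoc, List.append_assoc] at e
    obtain ⟨rfl, rfl, rfl⟩ := a1.det b1 e
    rw [List.filterMap_append, a1.proj.1, List.nil_append] at e₁ e₂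
    obtain ⟨rfl, rfl, rfl⟩ := ih l₁ l₂ a2 b2 e₁ e₂ (List.append_cancel_left e)
    simp
  | @nt r s rs z hr _ ih =>
    intro p q₁ q₂ o₁ o₂ rs₁ rs₂ w₁ w₂ x y l₁ l₂ h₁ h₂ e₁ e₂ e
    have key : ∀ {p₁ : St σ B H} {o rs' w},
        D {r | PR M f P S r} (nonterminal (NT.mid p (nonterminal r.input) p₁) :: o) rs' w →
        rs'.filterMap proj = r :: rs → ∃ o' rs'', rs' = ⟨NT.mid p (nonterminal r.input) p₁, o'⟩ :: rs'' ∧
          Lift p r.output p₁ o' ∧ D {r | PR M f P S r} (o' ++ o) rs'' w ∧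
          rs''.filterMap proj = rs := by
      intro p₁ o rs' w h e
      obtain ⟨r', rs'', rfl, hr', hi, h'⟩ := D.nt_iff.1 h
      clear h
      generalize hX : r.input = X at hi
      cases hr' with
      | start => cases hi
      | stop => cases hi
      | fskip => cases hi
      | pop => cases hi
      | read => cases hi
      | skip => cases hi
      | rule p' q' r₀ o' hr₀ hl' =>
        cases hi
        rw [List.filterMap_cons_some (b := r₀) (by simp [proj, hl'.unl])] at e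
        simp only [List.cons.injEq] at e
        obtain ⟨rfl, e⟩ := e
        exact ⟨o', rs'', rfl, hl', h', e⟩
    cases l₁ with | cons l₁ =>
    cases l₂ with | cons l₂ =>
    obtain ⟨o', rs', rfl, a1, a2, a3⟩ := key h₁ e₁
    obtain ⟨o'', rs'', rfl, b1, b2, b3⟩ := key h₂ e₂
    obtain ⟨c1, rfl, rfl⟩ := ih (a1.append l₁) (b1.append l₂) a2 b2 a3 b3 e
    obtain ⟨rfl, rfl⟩ := List.append_inj c1 (a1.length.trans b1.length.symm)
    obtain rfl := a1.det b1
    simp

lemma start_iff {rs w} : D {r | PR (H := H) M f P S r} [nonterminal NT.start] rs w ↔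
    ∃ (p q : St σ B H) (rs₁ rs₂ : List (ContextFreeRule A (NT σ B N H))) (w₁ w₂ : List A),
      p.1 = M.start ∧ p.2.1 = [] ∧ q.2.1 = [] ∧
      rs = ⟨NT.start, [nonterminal (NT.mid p (nonterminal S) q), nonterminal (NT.fin q.1)]⟩ ::
        (rs₁ ++ rs₂) ∧ w = w₁ ++ w₂ ∧
      D {r | PR M f P S r} [nonterminal (NT.mid p (nonterminal S) q)] rs₁ w₁ ∧
      Fin' M f q.1 w₂ rs₂ := by
  constructor
  · intro h
    obtain ⟨r', rs', rfl, hr, hi, h'⟩ := D.nt_iff.1 h
    cases hr with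
    | stop => cases hi
    | fskip => cases hi
    | pop => cases hi
    | read => cases hi
    | skip => cases hi
    | rule => cases hi
    | start p q h1 h2 h3 =>
      obtain ⟨rs₁, rs₂, w₁, w₂, rfl, rfl, a1, a2⟩ := D.split (s := [_]) h'
      exact ⟨p, q, rs₁, rs₂, w₁, w₂, h1, h2, h3, rfl, rfl, a1, fin_iff.1 a2⟩
  · rintro ⟨p, q, rs₁, rs₂, w₁, w₂, h1, h2, h3, rfl, rfl, a1, a2⟩
    exact D.nt (r := ⟨_, _⟩) (PR.start p q h1 h2 h3) (a1.append (fin_iff.2 a2))

end

theorem closure {A B σ : Type} [Finite A] [Finite B] [Finite σ] {L : Set (List B)} (hL : UL L)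
    (f : A → List B) (M : DFA A σ) : UL {w : List A | w.flatMap f ∈ L ∧ w ∈ M.accepts} := by
  obtain ⟨N, _, S, P, hP, h1, h2⟩ := hL.finite
  obtain ⟨H, hH⟩ := exists_image_bound f
  obtain ⟨m, hm1, hm⟩ := exists_output_bound hP
  have sound : ∀ {p q : St σ B H} {rs₁ rs₂ w₁ w₂}, p.2.1 = [] → q.2.1 = [] →
      D {r | PR M f P S r} [nonterminal (NT.mid p (nonterminal S) q)] rs₁ w₁ →
      Fin' (N := N) (H := H) M f q.1 w₂ rs₂ →
      D P [nonterminal S] (rs₁.filterMap proj) ((w₁ ++ w₂).flatMap f) ∧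
        M.evalFrom p.1 (w₁ ++ w₂) ∈ M.accept := by
    intro p q rs₁ rs₂ w₁ w₂ hp hq a1 a2
    obtain ⟨z, b1, b2⟩ := lift_sound _ (Nat.lt_succ_self _) (Lift.nil q).cons a1
    obtain ⟨c1, c2⟩ := b2.sem
    obtain ⟨c3, c4⟩ := a2.sem
    rw [hp, hq, List.nil_append, List.append_nil] at c1
    rw [List.flatMap_append, c1, c3, List.append_nil, M.evalFrom_of_append, ← c2]
    exact ⟨b1, c4⟩
  refine ⟨NT σ B N H, NT.start, {r | PR M f P S r}, finite_rules _ (m + 1) ?_, fun w => ?_, ?_⟩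
  · intro r hr
    cases hr with
    | rule p q r o hr hl => have := hm r hr; simp [hl.length]; omega
    | _ => simp <;> omega
  · constructor
    · rintro ⟨hw, hM⟩
      obtain ⟨rs, hrs⟩ := (h1 _).1 hw
      obtain ⟨w₁, w₂, q, rfl, a1, a2⟩ := Run.exists (N := N) (M := M) hH _ w (M.start, ⟨[], by simp⟩) rfl
      rw [List.append_eq_nil_iff] at a2
      obtain ⟨o, rs', a3, a4⟩ := lift_complete (S := S) hrs a1
      cases a3 with | cons a3 =>
      cases a3
      obtain ⟨g, hg⟩ := Fin'.exists (N := N) (H := H) (M := M) w₂ q.1 a2.2 (by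
        rw [a1.sem.2, ← M.evalFrom_of_append]; exact hM)
      exact ⟨_, start_iff.2 ⟨_, q, rs', g, w₁, w₂, rfl, rfl, a2.1, rfl, rfl, a4, hg⟩⟩
    · rintro ⟨rs, h⟩
      obtain ⟨p, q, rs₁, rs₂, w₁, w₂, a1, a2, a3, rfl, rfl, a4, a5⟩ := start_iff.1 h
      obtain ⟨b1, b2⟩ := sound a2 a3 a4 a5
      exact ⟨(h1 _).2 ⟨_, b1⟩, by rw [a1] at b2; exact b2⟩
  · intro w rs rs' h h'
    obtain ⟨p, q, rs₁, rs₂, w₁, w₂, a1, a2, a3, rfl, rfl, a4, a5⟩ := start_iff.1 h
    obtain ⟨p', q', rs₁', rs₂', w₁', w₂', b1, b2, b3, rfl, e, b4, b5⟩ := start_iff.1 h'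
    obtain rfl : p = p' := St.ext' (a1.trans b1.symm) (a2.trans b2.symm)
    have c1 := (sound a2 a3 a4 a5).1
    have c2 := (sound b2 b3 b4 b5).1
    rw [← e] at c2
    have c3 := h2 _ _ _ c1 c2
    obtain ⟨c4, rfl, rfl⟩ := lift_unique c1 (Lift.nil q).cons (Lift.nil q').cons a4 b4 rfl c3.symm e
    simp only [List.cons.injEq, nonterminal.injEq, NT.mid.injEq, true_and, and_true] at c4
    subst c4
    obtain rfl := List.append_cancel_left e
    rw [a5.det b5]

end Pool.Agent.P.MP_067fd8_lc.Unif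

end

section

namespace Pool.Agent.P.MP_067fd8_lc.Unif

open Symbol

/-- the alphabet: tile names, tile letters and three further letters -/
inductive Al (I Γ : Type) : Type
  | t : I → Al I Γ
  | g : Γ → Al I Γ
  | a : Al I Γ
  | b : Al I Γ
  | c : Al I Γ

instance Al.finite (I Γ : Type) [Finite I] [Finite Γ] : Finite (Al I Γ) :=
  Finite.of_surjective (fun x : I ⊕ Γ ⊕ Option Bool =>
    (x.elim Al.t (Sum.elim Al.g fun y => y.elim Al.a fun z => cond z Al.b Al.c) : Al I Γ)) (by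
    rintro (i | x | _ | _ | _)
    exacts [⟨Sum.inl i, rfl⟩, ⟨Sum.inr (Sum.inl x), rfl⟩, ⟨Sum.inr (Sum.inr none), rfl⟩,
      ⟨Sum.inr (Sum.inr (some true)), rfl⟩, ⟨Sum.inr (Sum.inr (some false)), rfl⟩])

variable {I Γ : Type}

def getT : Al I Γ → Option I
  | Al.t i => some i
  | _ => none

def getG : Al I Γ → Option Γ
  | Al.g x => some x
  | _ => none

def isA : Al I Γ → Bool
  | Al.a => true
  | _ => false

def isB : Al I Γ → Bool
  | Al.b => true
  | _ => false

def isC : Al I Γ → Bool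
  | Al.c => true
  | _ => false

/-- the middle part -/
def gad (i j k : ℕ) : List (Al I Γ) :=
  List.replicate i Al.a ++ List.replicate j Al.b ++ List.replicate k Al.c

/-- the shape of all words of the language -/
def word (τ : List I) (i j k : ℕ) (x : List Γ) : List (Al I Γ) :=
  τ.reverse.map Al.t ++ gad i j k ++ x.map Al.g

@[simp] lemma word_getT (τ : List I) (i j k : ℕ) (x : List Γ) :
    (word τ i j k x).filterMap getT = τ.reverse := by
  simp [word, gad, List.filterMap_map, getT]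

@[simp] lemma word_getG (τ : List I) (i j k : ℕ) (x : List Γ) :
    (word τ i j k x).filterMap getG = x := by
  simp [word, gad, List.filterMap_map, getG]

@[simp] lemma word_isA (τ : List I) (i j k : ℕ) (x : List Γ) :
    (word τ i j k x).countP isA = i := by
  simp [word, gad, List.countP_map, Function.comp_def, isA, List.countP_replicate]

@[simp] lemma word_isB (τ : List I) (i j k : ℕ) (x : List Γ) :
    (word τ i j k x).countP isB = j := by
  simp [word, gad, List.countP_map, Function.comp_def, isB, List.countP_replicate]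

@[simp] lemma word_isC (τ : List I) (i j k : ℕ) (x : List Γ) :
    (word τ i j k x).countP isC = k := by
  simp [word, gad, List.countP_map, Function.comp_def, isC, List.countP_replicate]

lemma word_inj {τ τ' : List I} {i j k i' j' k' : ℕ} {x x' : List Γ}
    (h : word τ i j k x = word τ' i' j' k' x') : τ = τ' ∧ i = i' ∧ j = j' ∧ k = k' ∧ x = x' := by
  refine ⟨?_, ?_, ?_, ?_, ?_⟩
  · simpa using congrArg (List.filterMap getT) h
  · simpa using congrArg (List.countP isA) h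
  · simpa using congrArg (List.countP isB) h
  · simpa using congrArg (List.countP isC) h
  · simpa using congrArg (List.filterMap getG) h

/-- the language attached to a correspondence instance -/
def LL (u v : I → List Γ) (y : List Γ) : Set (List (Al I Γ)) :=
  {w | ∃ τ i j k, (i = j ∧ w = word τ i j k (τ.flatMap u)) ∨
    (j = k ∧ w = word τ i j k (y ++ τ.flatMap v))}

/-- nonterminals -/
inductive NN : Type
  | S | U | V | X | C | A | Y
  deriving DecidableEq, Fintype

def Loop (u v : I → List Γ) : NN → Set (List (Al I Γ) × List (Al I Γ))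
  | NN.S => ∅
  | NN.U => Set.range fun i => ([Al.t i], (u i).map Al.g)
  | NN.V => Set.range fun i => ([Al.t i], (v i).map Al.g)
  | NN.X => {([Al.a], [Al.b])}
  | NN.C => {([Al.c], [])}
  | NN.A => {([Al.a], [])}
  | NN.Y => {([Al.b], [Al.c])}

def Exit (y : List Γ) : NN → Set (List (Symbol (Al I Γ) NN))
  | NN.S => {[nonterminal NN.U], [nonterminal NN.V]}
  | NN.U => {[nonterminal NN.X, nonterminal NN.C]}
  | NN.V => {nonterminal NN.A :: nonterminal NN.Y :: (y.map Al.g).map terminal}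
  | _ => {[]}

def lr (Z : NN) (p : List (Al I Γ) × List (Al I Γ)) : ContextFreeRule (Al I Γ) NN :=
  ⟨Z, p.1.map terminal ++ nonterminal Z :: p.2.map terminal⟩

def GP (u v : I → List Γ) (y : List Γ) : Set (ContextFreeRule (Al I Γ) NN) :=
  {r | (∃ p ∈ Loop u v r.input, r = lr r.input p) ∨ r.output ∈ Exit y r.input}

variable {u v : I → List Γ} {y : List Γ}

lemma lin_iff {Z : NN} {rs w} : D (GP u v y) [nonterminal Z] rs w ↔
    ∃ (σ : List (List (Al I Γ) × List (Al I Γ))) (β : List (Symbol (Al I Γ) NN)) (rs' : _) (w' : _),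
      (∀ p ∈ σ, p ∈ Loop u v Z) ∧ β ∈ Exit y Z ∧ rs = σ.map (lr Z) ++ ⟨Z, β⟩ :: rs' ∧
      D (GP u v y) β rs' w' ∧ w = σ.flatMap Prod.fst ++ w' ++ σ.reverse.flatMap Prod.snd := by
  constructor
  · intro h
    induction rs generalizing w with
    | nil => obtain ⟨_, _, h, _⟩ := D.nt_iff.1 h; cases h
    | cons r rs ih =>
      obtain ⟨r', rs', e, hr, hi, h'⟩ := D.nt_iff.1 h
      simp only [List.cons.injEq] at e
      obtain ⟨rfl, rfl⟩ := e
      subst hi
      rw [List.append_nil] at h'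
      rcases hr with ⟨p, hp, e⟩ | hr
      · rw [e] at h'
        obtain ⟨w', rfl, h''⟩ := D.terminals_append_iff.1 h'
        obtain ⟨rs₁, rs₂, w₁, w₂, rfl, rfl, h1, h2⟩ := D.split (s := [_]) h''
        obtain ⟨rfl, rfl⟩ := D.terminals_iff.1 h2
        rw [List.append_nil] at ih ⊢
        obtain ⟨σ, β, rs', w', a1, a2, a3, a4, rfl⟩ := ih h1
        refine ⟨p :: σ, β, rs', w', by simpa using ⟨hp, fun a b h => a1 _ h⟩, a2, ?_, a4, by simp⟩
        rw [List.map_cons, ← e, a3]; rfl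
      · exact ⟨[], r.output, rs, w, by simp, hr, rfl, h', by simp⟩
  · rintro ⟨σ, β, rs', w', a1, a2, rfl, a4, rfl⟩
    induction σ with
    | nil => exact D.nt (r := ⟨Z, β⟩) (Or.inr a2) (by simpa using a4)
    | cons p σ ih =>
      have h := ih fun q hq => a1 q (by simp [hq])
      refine D.nt (r := lr Z p) (Or.inl ⟨p, a1 p (by simp), rfl⟩) ?_
      have h2 := h.append (D.terminals (P := GP u v y) p.2)
      rw [List.append_nil, lr]
      refine D.terminals_append_iff.2 ⟨_, ?_, by simpa using h2⟩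
      simp

lemma single_iff {Z : NN} {p} (h1 : Loop u v Z = {p}) (h2 : Exit (I := I) y Z = {[]}) {rs w} :
    D (GP u v y) [nonterminal Z] rs w ↔ ∃ n, rs = List.replicate n (lr Z p) ++ [⟨Z, []⟩] ∧
      w = (List.replicate n p.1).flatten ++ (List.replicate n p.2).flatten := by
  rw [lin_iff, h1, h2]
  constructor
  · rintro ⟨σ, β, rs', w', a1, rfl, rfl, a4, rfl⟩
    obtain ⟨rfl, rfl⟩ := D.nil_iff.1 a4
    have : σ = List.replicate σ.length p := List.eq_replicate_iff.2 ⟨rfl, a1⟩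
    refine ⟨σ.length, ?_, ?_⟩ <;> rw [this] <;> simp [List.flatMap_replicate]
  · rintro ⟨n, rfl, rfl⟩
    refine ⟨List.replicate n p, [], [], [], fun q hq => (List.mem_replicate.1 hq).2, rfl, by simp,
      D.nil, by simp [List.flatMap_replicate]⟩

lemma tiles_iff {Z : NN} {u' : I → List Γ} {β}
    (h1 : Loop u v Z = Set.range fun i => ([Al.t i], (u' i).map Al.g))
    (h2 : Exit (I := I) y Z = {β}) {rs w} :
    D (GP u v y) [nonterminal Z] rs w ↔ ∃ (τ : List I) (rs' : _) (w' : _),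
      rs = τ.reverse.map (fun i => lr Z ([Al.t i], (u' i).map Al.g)) ++ ⟨Z, β⟩ :: rs' ∧
      D (GP u v y) β rs' w' ∧ w = τ.reverse.map Al.t ++ w' ++ (τ.flatMap u').map Al.g := by
  rw [lin_iff, h1, h2]
  have e1 : ∀ τ : List I, (τ.map fun i => (([Al.t i], (u' i).map Al.g) :
      List (Al I Γ) × List (Al I Γ))).flatMap Prod.fst = τ.map Al.t := by
    intro τ; induction τ <;> simp_all
  have e2 : ∀ τ : List I, (τ.map fun i => (([Al.t i], (u' i).map Al.g) :
      List (Al I Γ) × List (Al I Γ))).flatMap Prod.snd = (τ.flatMap u').map Al.g := by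
    intro τ; induction τ <;> simp_all
  constructor
  · rintro ⟨σ, β, rs', w', a1, rfl, rfl, a4, rfl⟩
    obtain ⟨τ, rfl⟩ : ∃ τ : List I, τ.map (fun i => (([Al.t i], (u' i).map Al.g) :
        List (Al I Γ) × List (Al I Γ))) = σ := by
      induction σ with
      | nil => exact ⟨[], rfl⟩
      | cons p σ ih =>
        obtain ⟨i, rfl⟩ := a1 p (by simp)
        obtain ⟨τ, rfl⟩ := ih fun q hq => a1 q (by simp [hq])
        exact ⟨i :: τ, rfl⟩
    refine ⟨τ.reverse, rs', w', by simp [Function.comp_def], a4, ?_⟩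
    rw [e1, ← List.map_reverse, e2, List.reverse_reverse]
  · rintro ⟨τ, rs', w', rfl, a4, rfl⟩
    refine ⟨τ.reverse.map fun i => ([Al.t i], (u' i).map Al.g), β, rs', w', ?_, rfl,
      by simp [Function.comp_def], a4, ?_⟩
    · intro p hp
      obtain ⟨i, _, rfl⟩ := List.mem_map.1 hp
      exact ⟨i, rfl⟩
    · rw [e1, ← List.map_reverse, e2, List.reverse_reverse]

def rsU (u : I → List Γ) (τ : List I) (i k : ℕ) : List (ContextFreeRule (Al I Γ) NN) :=
  ⟨NN.S, [nonterminal NN.U]⟩ :: (τ.reverse.map (fun i => lr NN.U ([Al.t i], (u i).map Al.g)) ++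
    ⟨NN.U, [nonterminal NN.X, nonterminal NN.C]⟩ ::
      ((List.replicate i (lr NN.X ([Al.a], [Al.b])) ++ [⟨NN.X, []⟩]) ++
        (List.replicate k (lr NN.C ([Al.c], [])) ++ [⟨NN.C, []⟩])))

def rsV (v : I → List Γ) (y : List Γ) (τ : List I) (i k : ℕ) : List (ContextFreeRule (Al I Γ) NN) :=
  ⟨NN.S, [nonterminal NN.V]⟩ :: (τ.reverse.map (fun i => lr NN.V ([Al.t i], (v i).map Al.g)) ++
    ⟨NN.V, nonterminal NN.A :: nonterminal NN.Y :: (y.map Al.g).map terminal⟩ ::
      ((List.replicate i (lr NN.A ([Al.a], [])) ++ [⟨NN.A, []⟩]) ++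
        (List.replicate k (lr NN.Y ([Al.b], [Al.c])) ++ [⟨NN.Y, []⟩])))

lemma start_iff' {rs w} : D (GP u v y) [nonterminal NN.S] rs w ↔
    (∃ τ i k, rs = rsU u τ i k ∧ w = word τ i i k (τ.flatMap u)) ∨
    (∃ τ i k, rs = rsV v y τ i k ∧ w = word τ i k k (y ++ τ.flatMap v)) := by
  have hX := fun rs w => single_iff (u := u) (v := v) (y := y) (Z := NN.X) rfl rfl (rs := rs) (w := w)
  have hC := fun rs w => single_iff (u := u) (v := v) (y := y) (Z := NN.C) rfl rfl (rs := rs) (w := w)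
  have hA := fun rs w => single_iff (u := u) (v := v) (y := y) (Z := NN.A) rfl rfl (rs := rs) (w := w)
  have hY := fun rs w => single_iff (u := u) (v := v) (y := y) (Z := NN.Y) rfl rfl (rs := rs) (w := w)
  have hU := fun rs w => tiles_iff (u := u) (v := v) (y := y) (Z := NN.U) rfl rfl (rs := rs) (w := w)
  have hV := fun rs w => tiles_iff (u := u) (v := v) (y := y) (Z := NN.V) rfl rfl (rs := rs) (w := w)
  constructor
  · intro h
    obtain ⟨σ, β, rs', w', a1, a2, rfl, a4, rfl⟩ := lin_iff.1 h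
    obtain rfl : σ = [] := List.eq_nil_iff_forall_not_mem.2 a1
    rcases a2 with rfl | rfl
    · obtain ⟨τ, rs'', w'', rfl, b1, rfl⟩ := (hU _ _).1 a4
      obtain ⟨rs₁, rs₂, w₁, w₂, rfl, rfl, c1, c2⟩ := D.split (s := [_]) b1
      obtain ⟨i, rfl, rfl⟩ := (hX _ _).1 c1
      obtain ⟨k, rfl, rfl⟩ := (hC _ _).1 c2
      exact Or.inl ⟨τ, i, k, rfl, by simp [word, gad]⟩
    · obtain ⟨τ, rs'', w'', rfl, b1, rfl⟩ := (hV _ _).1 a4
      obtain ⟨rs₁, rs₂, w₁, w₂, rfl, rfl, c1, c2⟩ := D.split (s := [_]) b1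
      obtain ⟨rs₃, rs₄, w₃, w₄, rfl, rfl, c3, c4⟩ := D.split (s := [_]) c2
      obtain ⟨rfl, rfl⟩ := D.terminals_iff.1 c4
      obtain ⟨i, rfl, rfl⟩ := (hA _ _).1 c1
      obtain ⟨k, rfl, rfl⟩ := (hY _ _).1 c3
      exact Or.inr ⟨τ, i, k, by simp [rsV], by simp [word, gad]⟩
  · rintro (⟨τ, i, k, rfl, rfl⟩ | ⟨τ, i, k, rfl, rfl⟩)
    · refine lin_iff.2 ⟨[], _, _, _, by simp, Or.inl rfl, rfl, (hU _ _).2 ⟨τ, _, _, rfl,
        ((hX _ _).2 ⟨i, rfl, rfl⟩).append ((hC _ _).2 ⟨k, rfl, rfl⟩), rfl⟩, by simp [word, gad]⟩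
    · refine lin_iff.2 ⟨[], _, _, _, by simp, Or.inr rfl, ?_, (hV _ _).2 ⟨τ, _, _, rfl,
        ((hA _ _).2 ⟨i, rfl, rfl⟩).append (((hY _ _).2 ⟨k, rfl, rfl⟩).append (D.terminals _)), rfl⟩,
        by simp [word, gad]⟩
      simp [rsV]

theorem LL_unambiguous [Finite I] (hno : ¬ ∃ τ : List I, τ.flatMap u = y ++ τ.flatMap v) :
    UL (LL u v y) := by
  refine ⟨NN, NN.S, GP u v y, ?_, fun w => ?_, fun w rs rs' h h' => ?_⟩
  · have h1 : ∀ Z, (Loop u v Z).Finite := by
      intro Z; cases Z <;> simp [Loop, Set.finite_range]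
    have h2 : ∀ Z, (Exit (I := I) y Z).Finite := by
      intro Z; cases Z <;> simp [Exit]
    refine ((Set.finite_iUnion fun Z => (h1 Z).image (lr Z)).union
      (Set.finite_iUnion fun Z => (h2 Z).image fun β => ⟨Z, β⟩)).subset ?_
    rintro r (⟨p, hp, e⟩ | hr)
    · exact Or.inl (Set.mem_iUnion.2 ⟨r.input, p, hp, e.symm⟩)
    · exact Or.inr (Set.mem_iUnion.2 ⟨r.input, r.output, hr, rfl⟩)
  · simp only [start_iff']
    constructor
    · rintro ⟨τ, i, j, k, ⟨rfl, rfl⟩ | ⟨rfl, rfl⟩⟩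
      exacts [⟨_, Or.inl ⟨τ, i, k, rfl, rfl⟩⟩, ⟨_, Or.inr ⟨τ, i, j, rfl, rfl⟩⟩]
    · rintro ⟨_, ⟨τ, i, k, rfl, rfl⟩ | ⟨τ, i, k, rfl, rfl⟩⟩
      exacts [⟨τ, i, i, k, Or.inl ⟨rfl, rfl⟩⟩, ⟨τ, i, k, k, Or.inr ⟨rfl, rfl⟩⟩]
  · rcases start_iff'.1 h with ⟨τ, i, k, rfl, rfl⟩ | ⟨τ, i, k, rfl, rfl⟩ <;>
      rcases start_iff'.1 h' with ⟨τ', i', k', rfl, e⟩ | ⟨τ', i', k', rfl, e⟩
    · obtain ⟨rfl, rfl, _, rfl, _⟩ := word_inj e; rfl
    · obtain ⟨rfl, _, _, _, e⟩ := word_inj e; exact (hno ⟨τ, e⟩).elim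
    · obtain ⟨rfl, _, _, _, e⟩ := word_inj e; exact (hno ⟨τ, e.symm⟩).elim
    · obtain ⟨rfl, rfl, rfl, _, _⟩ := word_inj e; rfl

end Pool.Agent.P.MP_067fd8_lc.Unif

end

section

namespace Pool.Agent.P.MP_067fd8_lc.Unif

/-- abstract binary grammars -/
structure AG (Θ A : Type) where
  At : Θ → List A → Prop
  Un : Θ → Θ → Prop
  Bin : Θ → Θ → Θ → Prop
  Top : Θ → Prop

variable {Θ A I : Type}

/-- generated words -/
inductive AG.Gn (G : AG Θ A) : Θ → List A → Prop
  | atom {θ w} : G.At θ w → G.Gn θ w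
  | un {θ θ' w} : G.Un θ θ' → G.Gn θ' w → G.Gn θ w
  | bin {θ θ₁ θ₂ w₁ w₂} : G.Bin θ θ₁ θ₂ → G.Gn θ₁ w₁ → G.Gn θ₂ w₂ → G.Gn θ (w₁ ++ w₂)

/-- spines: the first type occurs below the second one -/
inductive AG.Sp (G : AG Θ A) (θ₀ : Θ) : Θ → List A → List A → Prop
  | refl : G.Sp θ₀ θ₀ [] []
  | un {θ θ' γ δ} : G.Un θ θ' → G.Sp θ₀ θ' γ δ → G.Sp θ₀ θ γ δ
  | addR {θ θ₁ θ₂ γ δ w} : G.Bin θ θ₁ θ₂ → G.Sp θ₀ θ₁ γ δ → G.Gn θ₂ w → G.Sp θ₀ θ γ (δ ++ w)
  | addL {θ θ₁ θ₂ γ δ w} : G.Bin θ θ₁ θ₂ → G.Gn θ₁ w → G.Sp θ₀ θ₂ γ δ → G.Sp θ₀ θ (w ++ γ) δ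

variable {G : AG Θ A}

lemma AG.Sp.trans {θ₁ θ₂ θ₃ γ δ γ' δ'} (h : G.Sp θ₁ θ₂ γ δ) (h' : G.Sp θ₂ θ₃ γ' δ') :
    G.Sp θ₁ θ₃ (γ' ++ γ) (δ ++ δ') := by
  induction h' with
  | refl => simpa using h
  | un h1 _ ih => exact .un h1 ih
  | addR h1 _ h2 ih => rw [← List.append_assoc]; exact .addR h1 ih h2
  | addL h1 h2 _ ih => rw [List.append_assoc]; exact .addL h1 h2 ih

lemma AG.Sp.plug {θ₁ θ₂ γ δ w} (h : G.Sp θ₁ θ₂ γ δ) (hw : G.Gn θ₁ w) :
    G.Gn θ₂ (γ ++ w ++ δ) := by
  induction h with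
  | refl => simpa using hw
  | un h1 _ ih => exact .un h1 ih
  | addR h1 _ h2 ih => rw [← List.append_assoc]; exact .bin h1 ih h2
  | addL h1 h2 _ ih => simpa only [List.append_assoc] using AG.Gn.bin h1 h2 ih

/-- the lowest node containing a given heavy factor -/
lemma AG.Gn.split (p : A → Bool) {K : ℕ} (hK : ∀ θ w, G.At θ w → w.countP p ≤ K) {θ w}
    (h : G.Gn θ w) : ∀ x s z, w = x ++ s ++ z → K < s.countP p →
      ∃ θ' θ₁ θ₂ γ δ w₁ w₂, G.Sp θ' θ γ δ ∧ G.Bin θ' θ₁ θ₂ ∧ G.Gn θ₁ w₁ ∧ G.Gn θ₂ w₂ ∧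
        w = γ ++ w₁ ++ w₂ ++ δ ∧ γ.length ≤ x.length ∧ x.length ≤ γ.length + w₁.length ∧
        γ.length + w₁.length ≤ x.length + s.length ∧
        x.length + s.length ≤ γ.length + w₁.length + w₂.length := by
  induction h with
  | atom h =>
    rintro x s z rfl hs
    have := hK _ _ h
    simp only [List.countP_append] at this
    omega
  | un h1 _ ih =>
    intro x s z e hs
    obtain ⟨θ', θ₁, θ₂, γ, δ, w₁, w₂, a1, a2⟩ := ih x s z e hs
    exact ⟨θ', θ₁, θ₂, γ, δ, w₁, w₂, .un h1 a1, a2⟩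
  | @bin θ θ₁ θ₂ w₁ w₂ h1 h2 h3 ih1 ih2 =>
    intro x s z e hs
    have hl := congrArg List.length e
    simp only [List.length_append] at hl
    by_cases c1 : x.length + s.length ≤ w₁.length
    · obtain ⟨z', rfl⟩ : x ++ s <+: w₁ :=
        List.prefix_of_prefix_length_le ⟨z, e.symm⟩ ⟨w₂, rfl⟩ (by simpa using c1)
      obtain ⟨θ', θ₁, θ₂, γ, δ, v₁, v₂, a1, a2, a3, a4, a5, a6⟩ := ih1 x s z' rfl hs
      exact ⟨θ', θ₁, θ₂, γ, δ ++ w₂, v₁, v₂, .addR h1 a1 h3, a2, a3, a4, by simp [a5], a6⟩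
    · by_cases c2 : w₁.length ≤ x.length
      · obtain ⟨x', rfl⟩ : w₁ <+: x :=
          List.prefix_of_prefix_length_le ⟨w₂, rfl⟩ ⟨s ++ z, by simp [e]⟩ c2
        obtain ⟨θ', θ₁, θ₂, γ, δ, v₁, v₂, a1, a2, a3, a4, a5, a6⟩ := ih2 x' s z
          (by simpa using e) hs
        refine ⟨θ', θ₁, θ₂, w₁ ++ γ, δ, v₁, v₂, .addL h1 h2 a1, a2, a3, a4, by simp [a5], ?_⟩
        simp only [List.length_append]
        omega
      · refine ⟨θ, θ₁, θ₂, [], [], w₁, w₂, .refl, h1, h2, h3, by simp, ?_⟩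
        simp only [List.length_nil]
        omega

section spine

variable (G) (tl : I → A) (ur : I → List A) (y₀ : List A)
  (items : List (Θ × List A × List A × List A)) (C : ℕ)

/-- reachable states of the nondeterministic simulation -/
def Rch : List I → Θ × List A × List A → Prop
  | [], st => ∃ it ∈ items, G.Sp it.1 st.1 (st.2.1 ++ it.2.1) (it.2.2.2 ++ y₀ ++ st.2.2)
  | t :: τ, st' => ∃ st : Θ × List A × List A, (st.2.1.length ≤ C ∧ st.2.2.length ≤ C) ∧
      Rch τ st ∧ ∃ γ δ, G.Sp st.1 st'.1 γ δ ∧ γ ++ st.2.1 = st'.2.1 ++ [tl t] ∧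
        st.2.2 ++ δ = ur t ++ st'.2.2

def cL (σ₁ : List A) (τ : List I) : List A := τ.map tl ++ σ₁

def cR (σ₂ : List A) (τ : List I) : List A := σ₂ ++ y₀ ++ τ.reverse.flatMap ur

lemma cL_suffix (σ₁ : List A) {τ τ' : List I} (h : τ' <:+ τ) : cL tl σ₁ τ' <:+ cL tl σ₁ τ := by
  obtain ⟨x, rfl⟩ := h
  exact ⟨x.map tl, by simp [cL]⟩

lemma cR_pre (σ₂ : List A) {τ τ' : List I} (h : τ' <:+ τ) : cR ur y₀ σ₂ τ' <+: cR ur y₀ σ₂ τ := by
  obtain ⟨x, rfl⟩ := h
  exact ⟨x.reverse.flatMap ur, by simp [cR]⟩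

variable {G tl ur y₀ items}

theorem spine {θ₀ θt : Θ} {σ₁ w σ₂ : List A} (hit : (θ₀, σ₁, w, σ₂) ∈ items) (τ : List I)
    (hB : ∀ θ γ' δ' γ'' δ'', G.Sp θ₀ θ γ' δ' → G.Sp θ θt γ'' δ'' → γ'' ++ γ' = cL tl σ₁ τ →
      δ' ++ δ'' = cR ur y₀ σ₂ τ → ∀ τs, τs <:+ τ →
      (γ'.length < (cL tl σ₁ τs).length ∨ δ'.length < (cR ur y₀ σ₂ τs).length) →
      γ'.length ≤ (cL tl σ₁ τs).length + C ∧ δ'.length ≤ (cR ur y₀ σ₂ τs).length + C)
    (hR : ∀ θ θ₁ θ₂ γ δ s γ'' δ'', G.Bin θ θ₁ θ₂ → G.Sp θ₀ θ₁ γ δ → G.Gn θ₂ s →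
      G.Sp θ θt γ'' δ'' → γ'' ++ γ = cL tl σ₁ τ → δ ++ s ++ δ'' = cR ur y₀ σ₂ τ → s.length ≤ C)
    (hL : ∀ θ θ₁ θ₂ γ δ s γ'' δ'', G.Bin θ θ₁ θ₂ → G.Gn θ₁ s → G.Sp θ₀ θ₂ γ δ →
      G.Sp θ θt γ'' δ'' → γ'' ++ (s ++ γ) = cL tl σ₁ τ → δ ++ δ'' = cR ur y₀ σ₂ τ → s.length ≤ C)
    (h : G.Sp θ₀ θt (cL tl σ₁ τ) (cR ur y₀ σ₂ τ)) :
    Rch G tl ur y₀ items (C + C) τ (θt, [], []) := by
  let Cl : Θ → List A → List A → List I → Prop := fun θ γ' δ' τs =>
    ∃ st : Θ × List A × List A, (st.2.1.length ≤ C + C ∧ st.2.2.length ≤ C + C) ∧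
      Rch G tl ur y₀ items (C + C) τs st ∧ ∃ γ δ, G.Sp st.1 θ γ δ ∧
      γ' = γ ++ st.2.1 ++ cL tl σ₁ τs ∧ δ' = cR ur y₀ σ₂ τs ++ st.2.2 ++ δ
  have new : ∀ θ γ' δ', G.Sp θ₀ θ γ' δ' → ∀ τs l r, γ' = l ++ cL tl σ₁ τs →
      δ' = cR ur y₀ σ₂ τs ++ r → (∀ t τ', τs = t :: τ' → Cl θ γ' δ' τ') →
      Rch G tl ur y₀ items (C + C) τs (θ, l, r) := by
    intro θ γ' δ' hs τs l r e1 e2 hc
    cases τs with
    | nil => exact ⟨_, hit, by simpa [e1, e2, cL, cR] using hs⟩
    | cons t τ' =>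
      obtain ⟨st, a1, a2, γ, δ, a3, a4, a5⟩ := hc t τ' rfl
      refine ⟨st, a1, a2, γ, δ, a3, ?_, ?_⟩
      · apply List.append_cancel_right (bs := cL tl σ₁ τ')
        rw [← a4, e1]; simp [cL]
      · apply List.append_cancel_left (as := cR ur y₀ σ₂ τ')
        rw [← List.append_assoc, ← a5, e2]; simp [cR]
  have upd : ∀ θ γ' δ' γ'' δ'', G.Sp θ₀ θ γ' δ' → γ'' ++ γ' = cL tl σ₁ τ →
      δ' ++ δ'' = cR ur y₀ σ₂ τ →
      (∀ τs, τs <:+ τ → (cL tl σ₁ τs).length ≤ γ'.length → (cR ur y₀ σ₂ τs).length ≤ δ'.length →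
        Cl θ γ' δ' τs ∨ (γ'.length ≤ (cL tl σ₁ τs).length + (C + C) ∧
          δ'.length ≤ (cR ur y₀ σ₂ τs).length + (C + C))) →
      ∀ τs, τs <:+ τ → (cL tl σ₁ τs).length ≤ γ'.length → (cR ur y₀ σ₂ τs).length ≤ δ'.length →
        Cl θ γ' δ' τs := by
    intro θ γ' δ' γ'' δ'' hs e1 e2 hc τs
    induction τs with
    | nil =>
      intro h1 h2 h3
      rcases hc _ h1 h2 h3 with h4 | h4
      · exact h4
      obtain ⟨l, e3⟩ := List.suffix_of_suffix_length_le (cL_suffix tl σ₁ h1) ⟨_, e1⟩ h2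
      obtain ⟨r, e4⟩ := List.prefix_of_prefix_length_le (cR_pre ur y₀ σ₂ h1) ⟨_, e2⟩ h3
      have l1 := congrArg List.length e3
      have l2 := congrArg List.length e4
      simp only [List.length_append] at l1 l2
      exact ⟨(θ, l, r), ⟨by simp only; omega, by simp only; omega⟩,
        new θ γ' δ' hs _ l r e3.symm e4.symm (by simp), [], [], .refl, by simp [e3], by simp [e4]⟩
    | cons t τ' ih =>
      intro h1 h2 h3
      rcases hc _ h1 h2 h3 with h4 | h4
      · exact h4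
      obtain ⟨l, e3⟩ := List.suffix_of_suffix_length_le (cL_suffix tl σ₁ h1) ⟨_, e1⟩ h2
      obtain ⟨r, e4⟩ := List.prefix_of_prefix_length_le (cR_pre ur y₀ σ₂ h1) ⟨_, e2⟩ h3
      have l1 := congrArg List.length e3
      have l2 := congrArg List.length e4
      simp only [List.length_append] at l1 l2
      have l3 := (cL_suffix tl σ₁ (List.suffix_cons t τ')).length_le
      have l4 := (cR_pre ur y₀ σ₂ (List.suffix_cons t τ')).length_le
      have := ih ((List.suffix_cons t τ').trans h1) (by omega) (by omega)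
      exact ⟨(θ, l, r), ⟨by simp only; omega, by simp only; omega⟩,
        new θ γ' δ' hs _ l r e3.symm e4.symm (by rintro _ _ ⟨⟩; exact this), [], [], .refl,
        by simp [e3], by simp [e4]⟩
  have ext : ∀ θ θ' γ' δ' γ δ τs, Cl θ γ' δ' τs → G.Sp θ θ' γ δ → Cl θ' (γ ++ γ') (δ' ++ δ) τs := by
    rintro θ θ' γ' δ' γ δ τs ⟨st, a1, a2, γ₁, δ₁, a3, a4, a5⟩ hs
    exact ⟨st, a1, a2, γ ++ γ₁, δ₁ ++ δ, a3.trans hs, by simp [a4], by simp [a5]⟩
  have main : ∀ θ γ' δ', G.Sp θ₀ θ γ' δ' → ∀ γ'' δ'', G.Sp θ θt γ'' δ'' → γ'' ++ γ' = cL tl σ₁ τ →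
      δ' ++ δ'' = cR ur y₀ σ₂ τ → ∀ τs, τs <:+ τ → (cL tl σ₁ τs).length ≤ γ'.length →
      (cR ur y₀ σ₂ τs).length ≤ δ'.length → Cl θ γ' δ' τs := by
    intro θ γ' δ' hs
    induction hs with
    | refl =>
      intro γ'' δ'' _ e1 e2
      exact upd _ _ _ _ _ .refl e1 e2 fun τs _ _ _ => Or.inr (by simp)
    | @un θ θ' γ δ h1 h2 ih =>
      intro γ'' δ'' h3 e1 e2 τs a1 a2 a3
      have h4 : G.Sp θ' θ [] [] := .un h1 .refl
      simpa using ext _ _ _ _ _ _ _ (ih γ'' δ'' (by simpa using h4.trans h3) e1 e2 τs a1 a2 a3) h4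
    | @addR θ θ₁ θ₂ γ δ s h1 h2 h3 ih =>
      intro γ'' δ'' h4 e1 e2
      have h5 : G.Sp θ₁ θ [] s := by simpa using AG.Sp.addR h1 .refl h3
      have h6 : G.Sp θ₁ θt γ'' (s ++ δ'') := by simpa using h5.trans h4
      have e3 : δ ++ (s ++ δ'') = cR ur y₀ σ₂ τ := by simpa using e2
      refine upd _ _ _ _ _ (.addR h1 h2 h3) e1 e2 fun τs a1 a2 a3 => ?_
      by_cases c : (cR ur y₀ σ₂ τs).length ≤ δ.length
      · exact Or.inl (by simpa using ext _ _ _ _ _ _ _ (ih _ _ h6 e1 e3 τs a1 a2 c) h5)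
      · have b1 := hB _ _ _ _ _ h2 h6 e1 e3 τs a1 (Or.inr (by omega))
        have b2 := hR _ _ _ _ _ _ _ _ h1 h2 h3 h4 e1 e2
        simp only [List.length_append]
        omega
    | @addL θ θ₁ θ₂ γ δ s h1 h2 h3 ih =>
      intro γ'' δ'' h4 e1 e2
      have h5 : G.Sp θ₂ θ s [] := by simpa using AG.Sp.addL h1 h2 .refl
      have h6 : G.Sp θ₂ θt (γ'' ++ s) δ'' := by simpa using h5.trans h4
      have e3 : γ'' ++ s ++ γ = cL tl σ₁ τ := by simpa using e1
      refine upd _ _ _ _ _ (.addL h1 h2 h3) e1 e2 fun τs a1 a2 a3 => ?_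
      by_cases c : (cL tl σ₁ τs).length ≤ γ.length
      · exact Or.inl (by simpa using ext _ _ _ _ _ _ _ (ih _ _ h6 e3 e2 τs a1 c a3) h5)
      · have b1 := hB _ _ _ _ _ h3 h6 e3 e2 τs a1 (Or.inl (by omega))
        have b2 := hL _ _ _ _ _ _ _ _ h1 h2 h3 h4 e1 e2
        simp only [List.length_append]
        omega
  refine new θt _ _ h τ [] [] (by simp) (by simp) ?_
  rintro t τ' rfl
  exact main _ _ _ h [] [] .refl (by simp) (by simp) τ' (List.suffix_cons t τ')
    (cL_suffix tl σ₁ (List.suffix_cons t τ')).length_le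
    (cR_pre ur y₀ σ₂ (List.suffix_cons t τ')).length_le

/-- determinisation -/
theorem determinise [Finite Θ] [Finite A]
    (h : ∀ τ, ∃ θ, G.Top θ ∧ Rch G tl ur y₀ items C τ (θ, [], [])) :
    ∃ ms : List (List (Θ × List A × List A)),
      (∃ m ∈ ms, ∀ st ∈ m, ∃ it ∈ items,
        G.Sp it.1 st.1 (st.2.1 ++ it.2.1) (it.2.2.2 ++ y₀ ++ st.2.2)) ∧
      (∀ m ∈ ms, ∀ t, ∃ m' ∈ ms, ∀ st' ∈ m', ∃ st ∈ m, ∃ γ δ, G.Sp st.1 st'.1 γ δ ∧
        γ ++ st.2.1 = st'.2.1 ++ [tl t] ∧ st.2.2 ++ δ = ur t ++ st'.2.2) ∧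
      (∀ m ∈ ms, ∃ θ, G.Top θ ∧ (θ, [], []) ∈ m) := by
  classical
  have hf : {st : Θ × List A × List A | st.2.1.length ≤ C ∧ st.2.2.length ≤ C}.Finite :=
    (Set.finite_univ.prod ((List.finite_length_le A C).prod (List.finite_length_le A C))).subset
      fun st h => ⟨trivial, h⟩
  let Stl := hf.toFinset.toList
  have hS : ∀ st, st ∈ Stl ↔ st.2.1.length ≤ C ∧ st.2.2.length ≤ C := by simp [Stl]
  let m : List I → List (Θ × List A × List A) := fun τ =>
    Stl.filter fun st => Rch G tl ur y₀ items C τ st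
  have hm : ∀ τ st, st ∈ m τ ↔ (st.2.1.length ≤ C ∧ st.2.2.length ≤ C) ∧
      Rch G tl ur y₀ items C τ st := by simp [m, hS]
  let ms := Stl.sublists.filter fun x => ∃ τ, x = m τ
  have hms : ∀ x, x ∈ ms ↔ ∃ τ, x = m τ := by
    intro x
    simp only [ms, List.mem_filter, List.mem_sublists, decide_eq_true_eq]
    exact ⟨fun h => h.2, fun ⟨τ, h⟩ => ⟨h ▸ List.filter_sublist, τ, h⟩⟩
  refine ⟨ms, ⟨m [], (hms _).2 ⟨_, rfl⟩, fun st hst => ((hm _ _).1 hst).2⟩, ?_, ?_⟩
  · intro x hx t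
    obtain ⟨τ, rfl⟩ := (hms _).1 hx
    refine ⟨m (t :: τ), (hms _).2 ⟨_, rfl⟩, fun st' hst => ?_⟩
    obtain ⟨st, a1, a2, a3⟩ := ((hm _ _).1 hst).2
    exact ⟨st, (hm _ _).2 ⟨a1, a2⟩, a3⟩
  · intro x hx
    obtain ⟨τ, rfl⟩ := (hms _).1 hx
    obtain ⟨θ, a1, a2⟩ := h τ
    exact ⟨θ, a1, (hm _ _).2 ⟨by simp, a2⟩⟩

end spine

end Pool.Agent.P.MP_067fd8_lc.Unif

end

section

namespace Pool.Agent.P.MP_067fd8_lc.Unif

lemma fin_choice {κ β : Type} [Finite κ] (R : κ → β → Prop) (μ : β → ℕ) :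
    ∃ E, ∀ k, (∃ w, R k w) → ∃ w, R k w ∧ μ w ≤ E := by
  classical
  obtain ⟨E, hE⟩ := (Set.finite_range fun k => if h : ∃ w, R k w then μ h.choose else 0).bddAbove
  refine ⟨E, fun k h => ⟨h.choose, h.choose_spec, ?_⟩⟩
  have := hE ⟨k, rfl⟩
  simpa [h] using this

variable {I Γ Θ : Type}

def ca (x : List (Al I Γ)) : ℕ := x.countP isA
def cb (x : List (Al I Γ)) : ℕ := x.countP isB
def cc (x : List (Al I Γ)) : ℕ := x.countP isC
def ct (x : List (Al I Γ)) : ℕ := (x.filterMap getT).length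
def wG (x : List (Al I Γ)) : ℕ := (x.filterMap getG).length
def wI (ur : I → List Γ) (x : List (Al I Γ)) : ℕ := ((x.filterMap getT).flatMap ur).length

@[simp] lemma ca_append (x y : List (Al I Γ)) : ca (x ++ y) = ca x + ca y := by simp [ca]
@[simp] lemma cb_append (x y : List (Al I Γ)) : cb (x ++ y) = cb x + cb y := by simp [cb]
@[simp] lemma cc_append (x y : List (Al I Γ)) : cc (x ++ y) = cc x + cc y := by simp [cc]
@[simp] lemma ct_append (x y : List (Al I Γ)) : ct (x ++ y) = ct x + ct y := by simp [ct]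
@[simp] lemma wG_append (x y : List (Al I Γ)) : wG (x ++ y) = wG x + wG y := by simp [wG]
@[simp] lemma wI_append (ur : I → List Γ) (x y : List (Al I Γ)) :
    wI ur (x ++ y) = wI ur x + wI ur y := by simp [wI]

lemma len_eq (x : List (Al I Γ)) : x.length = ct x + wG x + ca x + cb x + cc x := by
  induction x with
  | nil => rfl
  | cons e x ih =>
    have := ct_append [e] x
    have := wG_append [e] x
    have := ca_append [e] x
    have := cb_append [e] x
    have := cc_append [e] x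
    have : 1 = ct [e] + wG [e] + ca [e] + cb [e] + cc [e] := by cases e <;> rfl
    simp only [List.singleton_append, List.length_cons] at *
    omega

lemma ct_le {ur : I → List Γ} (h : ∀ t, ur t ≠ []) (x : List (Al I Γ)) : ct x ≤ wI ur x := by
  unfold ct wI
  induction x.filterMap getT with
  | nil => simp
  | cons t l ih =>
    have := List.length_pos_iff.2 (h t)
    simp only [List.length_cons, List.flatMap_cons, List.length_append]
    omega

lemma wI_zero (ur : I → List Γ) {x : List (Al I Γ)} (h : ct x = 0) : wI ur x = 0 := by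
  unfold ct at h
  simp [wI, List.length_eq_zero_iff.1 h]

lemma cnt_t (τ : List I) : ct (τ.map (Al.t : I → Al I Γ)) = τ.length ∧
    ca (τ.map (Al.t : I → Al I Γ)) = 0 ∧ cb (τ.map (Al.t : I → Al I Γ)) = 0 ∧
    cc (τ.map (Al.t : I → Al I Γ)) = 0 ∧ wG (τ.map (Al.t : I → Al I Γ)) = 0 := by
  simp [ct, ca, cb, cc, wG, List.filterMap_map, getT, getG, isA, isB, isC, Function.comp_def]

lemma cnt_g (x : List Γ) : ct (x.map (Al.g : Γ → Al I Γ)) = 0 ∧
    ca (x.map (Al.g : Γ → Al I Γ)) = 0 ∧ cb (x.map (Al.g : Γ → Al I Γ)) = 0 ∧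
    cc (x.map (Al.g : Γ → Al I Γ)) = 0 ∧ wG (x.map (Al.g : Γ → Al I Γ)) = x.length := by
  simp [ct, ca, cb, cc, wG, List.filterMap_map, getT, getG, isA, isB, isC, Function.comp_def]

lemma cnt_gad (i j k : ℕ) : ct (gad i j k : List (Al I Γ)) = 0 ∧
    ca (gad i j k : List (Al I Γ)) = i ∧ cb (gad i j k : List (Al I Γ)) = j ∧
    cc (gad i j k : List (Al I Γ)) = k ∧ wG (gad i j k : List (Al I Γ)) = 0 := by
  simp [ct, ca, cb, cc, wG, gad, getT, getG, isA, isB, isC, List.countP_replicate]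

lemma wI_t (ur : I → List Γ) (τ : List I) :
    wI ur (τ.map Al.t) = (τ.reverse.flatMap ur).length := by
  simp [wI, List.filterMap_map, getT, List.length_flatMap]

lemma pre_counts {p : List (Al I Γ)} {τ : List I} {i j k : ℕ} {x : List Γ}
    (h : p <+: τ.map Al.t ++ gad i j k ++ x.map Al.g) :
    ct p = min p.length τ.length ∧ ca p = min (p.length - τ.length) i ∧
      cb p = min (p.length - τ.length - i) j ∧ cc p = min (p.length - τ.length - i - j) k ∧
      wG p = min (p.length - τ.length - i - j - k) x.length := by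
  rw [List.prefix_iff_eq_take] at h
  generalize p.length = n at h
  have : p = (τ.take n).map Al.t ++ gad (min (n - τ.length) i) (min (n - τ.length - i) j)
      (min (n - τ.length - i - j) k) ++ (x.take (n - τ.length - i - j - k)).map Al.g := by
    rw [h]
    simp [gad, List.take_append, List.take_replicate, Nat.sub_sub]
  subst this
  have h1 := cnt_t (Γ := Γ) (τ.take n)
  have h2 := cnt_gad (I := I) (Γ := Γ) (min (n - τ.length) i) (min (n - τ.length - i) j)
      (min (n - τ.length - i - j) k)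
  have h3 := cnt_g (I := I) (x.take (n - τ.length - i - j - k))
  simp only [ct_append, ca_append, cb_append, cc_append, wG_append, List.length_take] at *
  omega

lemma pre_cases {p : List (Al I Γ)} {τ : List I} {i j k : ℕ} {x : List Γ}
    (h : p <+: τ.map Al.t ++ gad i j k ++ x.map Al.g) :
    (p.length ≤ τ.length ∧ ct p = p.length ∧ ca p = 0 ∧ cb p = 0 ∧ cc p = 0 ∧ wG p = 0) ∨
    (ct p = τ.length ∧ τ.length + ca p = p.length ∧ ca p ≤ i ∧ cb p = 0 ∧ cc p = 0 ∧ wG p = 0) ∨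
    (ct p = τ.length ∧ ca p = i ∧ τ.length + i + cb p = p.length ∧ cb p ≤ j ∧ cc p = 0 ∧
      wG p = 0) ∨
    (ct p = τ.length ∧ ca p = i ∧ cb p = j ∧ τ.length + i + j + cc p = p.length ∧ cc p ≤ k ∧
      wG p = 0) ∨
    (ct p = τ.length ∧ ca p = i ∧ cb p = j ∧ cc p = k ∧
      τ.length + i + j + k + wG p = p.length) := by
  obtain ⟨h1, h2, h3, h4, h5⟩ := pre_counts h
  have h6 := len_eq p
  by_cases c1 : p.length ≤ τ.length
  · left; omega
  by_cases c2 : p.length ≤ τ.length + i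
  · right; left; omega
  by_cases c3 : p.length ≤ τ.length + i + j
  · right; right; left; omega
  by_cases c4 : p.length ≤ τ.length + i + j + k
  · right; right; right; left; omega
  · right; right; right; right; omega

variable {u v : I → List Γ} {y : List Γ} {G : AG Θ (Al I Γ)}

lemma LL_facts {w : List (Al I Γ)} (h : w ∈ LL u v y) :
    (ca w = cb w ∧ w.filterMap getG = (w.filterMap getT).reverse.flatMap u) ∨
    (cb w = cc w ∧ w.filterMap getG = y ++ (w.filterMap getT).reverse.flatMap v) := by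
  obtain ⟨τ, i, j, k, ⟨rfl, rfl⟩ | ⟨rfl, rfl⟩⟩ := h
  · left; simp [ca, cb]
  · right; simp [cb, cc]

lemma occ_facts [Finite Θ] (hL : ∀ w, w ∈ LL u v y ↔ ∃ θ, G.Top θ ∧ G.Gn θ w)
    (hno : ¬ ∃ τ : List I, τ.flatMap u = y ++ τ.flatMap v) :
    ∃ E, ∀ θ θt γ w δ (τ : List I) N (x : List Γ), G.Top θt → G.Sp θ θt γ δ → G.Gn θ w →
      γ ++ w ++ δ = τ.map Al.t ++ gad N N N ++ x.map Al.g →
      ((ca w ≤ cb w + E ∧ cb w ≤ ca w + E) ∨ (cb w ≤ cc w + E ∧ cc w ≤ cb w + E)) ∧
      (ct w = 0 → wG w = 0 → (∃ w', G.Gn θ w' ∧ ct w' = 0 ∧ wG w' = 0 ∧ w'.length ≤ E) ∧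
        (x = τ.reverse.flatMap u → ca w ≤ cb w + E ∧ cb w ≤ ca w + E) ∧
        (x = y ++ τ.reverse.flatMap v → cb w ≤ cc w + E ∧ cc w ≤ cb w + E)) := by
  obtain ⟨E₁, h₁⟩ := fin_choice G.Gn List.length
  obtain ⟨E₂, h₂⟩ := fin_choice (fun θ w => G.Gn θ w ∧ ct w = 0 ∧ wG w = 0) List.length
  refine ⟨E₁ + E₂, fun θ θt γ w δ τ N x ht hs hw e => ?_⟩
  have c1 := cnt_t (Γ := Γ) τ
  have c2 := cnt_gad (I := I) (Γ := Γ) N N N
  have c3 := cnt_g (I := I) x
  have ea := congrArg ca e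
  have eb := congrArg cb e
  have ec := congrArg cc e
  simp only [ca_append, cb_append, cc_append] at ea eb ec
  constructor
  · obtain ⟨w', a1, a2⟩ := h₁ θ ⟨w, hw⟩
    have a3 := LL_facts ((hL _).2 ⟨θt, ht, hs.plug a1⟩)
    have a4 := len_eq w'
    simp only [ca_append, cb_append, cc_append] at a3
    omega
  · intro g1 g2
    obtain ⟨w', ⟨a1, a5, a6⟩, a2⟩ := h₂ θ ⟨w, hw, g1, g2⟩
    have a3 := LL_facts ((hL _).2 ⟨θt, ht, hs.plug a1⟩)
    have a4 := len_eq w'
    have eT : (γ ++ w' ++ δ).filterMap getT = τ := by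
      have := congrArg (List.filterMap getT) e
      unfold ct at g1 a5
      rw [List.length_eq_zero_iff] at g1 a5
      simp only [List.filterMap_append, g1, a5] at this ⊢
      rw [this]
      simp [gad, List.filterMap_map, getT]
    have eG : (γ ++ w' ++ δ).filterMap getG = x := by
      have := congrArg (List.filterMap getG) e
      unfold wG at g2 a6
      rw [List.length_eq_zero_iff] at g2 a6
      simp only [List.filterMap_append, g2, a6] at this ⊢
      rw [this]
      simp [gad, List.filterMap_map, getG]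
    rw [eT, eG] at a3
    simp only [ca_append, cb_append, cc_append] at a3
    refine ⟨⟨w', a1, a5, a6, by omega⟩, fun hx => ?_, fun hx => ?_⟩
    · rcases a3 with a3 | a3
      · omega
      · exact (hno ⟨τ.reverse, hx.symm.trans a3.2⟩).elim
    · rcases a3 with a3 | a3
      · exact (hno ⟨τ.reverse, a3.2.symm.trans hx⟩).elim
      · omega

/-- cutting out the part inside the middle factor -/
lemma cut_mid {α : Type} {γ w δ p g q : List α} (e : γ ++ w ++ δ = p ++ g ++ q)
    (h1 : p.length ≤ γ.length) (h2 : γ.length + w.length ≤ p.length + g.length) :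
    ∃ σ₁ σ₂, γ = p ++ σ₁ ∧ δ = σ₂ ++ q ∧ σ₁ ++ w ++ σ₂ = g := by
  obtain ⟨σ₁, rfl⟩ : p <+: γ := List.prefix_of_prefix_length_le
    ⟨g ++ q, (List.append_assoc _ _ _).symm⟩ ⟨w ++ δ, by simpa using e⟩ h1
  have hl := congrArg List.length e
  simp only [List.length_append] at hl h2
  obtain ⟨σ₂, rfl⟩ : q <:+ δ := List.suffix_of_suffix_length_le ⟨p ++ g, rfl⟩ ⟨_, e⟩ (by omega)
  refine ⟨σ₁, σ₂, rfl, rfl, ?_⟩
  rw [← List.append_assoc, List.append_left_inj] at e
  simpa using e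

lemma gad_split (M : ℕ) : (gad (3 * M) (3 * M) (3 * M) : List (Al I Γ)) =
    gad (3 * M) M 0 ++ gad 0 M 0 ++ gad 0 M (3 * M) := by
  have : 3 * M = M + M + M := by omega
  simp only [gad, List.replicate_zero, List.append_nil, List.nil_append, List.append_assoc]
  congr 1
  simp only [← List.append_assoc]
  congr 1
  rw [this, List.replicate_add, List.replicate_add]

/-- the two special nodes -/
lemma nodes [Finite Θ] (hL : ∀ w, w ∈ LL u v y ↔ ∃ θ, G.Top θ ∧ G.Gn θ w)
    (hno : ¬ ∃ τ : List I, τ.flatMap u = y ++ τ.flatMap v) {K : ℕ}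
    (hK : ∀ θ w, G.At θ w → w.countP isB ≤ K) :
    ∃ E, ∀ M, K + 2 * E < M → ∀ τ : List I,
      (∃ θ θt σ₁ w σ₂ w', G.Top θt ∧
        G.Sp θ θt (τ.map Al.t ++ σ₁) (σ₂ ++ (τ.reverse.flatMap u).map Al.g) ∧ G.Gn θ w ∧
        σ₁ ++ w ++ σ₂ = gad (3 * M) (3 * M) (3 * M) ∧ G.Gn θ w' ∧ ct w' = 0 ∧ wG w' = 0 ∧
        w'.length ≤ E ∧ cb σ₁ = 0 ∧ 2 * M ≤ cb w + E ∧ cb w ≤ 2 * M ∧ cc w = 0) ∧
      (∃ θ θt σ₁ w σ₂ w', G.Top θt ∧
        G.Sp θ θt (τ.map Al.t ++ σ₁) (σ₂ ++ (y ++ τ.reverse.flatMap v).map Al.g) ∧ G.Gn θ w ∧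
        σ₁ ++ w ++ σ₂ = gad (3 * M) (3 * M) (3 * M) ∧ G.Gn θ w' ∧ ct w' = 0 ∧ wG w' = 0 ∧
        w'.length ≤ E ∧ M ≤ cb σ₁ ∧ cb σ₁ ≤ M + E ∧ cb σ₂ = 0 ∧ ca w = 0) := by
  obtain ⟨E, hE⟩ := occ_facts hL hno
  refine ⟨E, fun M hM τ => ?_⟩
  have hg : (gad (3 * M) (3 * M) (3 * M) : List (Al I Γ)).length = 9 * M := by
    simp [gad]; omega
  have key : ∀ x : List Γ, word τ.reverse (3 * M) (3 * M) (3 * M) x ∈ LL u v y →
      ∃ θt θ₁ θ₂ γ δ w₁ w₂, G.Top θt ∧ G.Sp θ₁ θt γ (w₂ ++ δ) ∧ G.Sp θ₂ θt (γ ++ w₁) δ ∧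
        G.Gn θ₁ w₁ ∧ G.Gn θ₂ w₂ ∧
        γ ++ w₁ ++ w₂ ++ δ = τ.map Al.t ++ gad (3 * M) (3 * M) (3 * M) ++ x.map Al.g ∧
        (cc w₁ = 0 ∧ wG w₁ = 0 ∧ ct w₂ = 0 ∧ ca w₂ = 0 ∧ ca γ + ca w₁ = 3 * M ∧
          M ≤ cb γ + cb w₁ ∧ cb γ + cb w₁ ≤ 2 * M ∧ τ.length ≤ γ.length + w₁.length ∧
          γ.length + w₁.length ≤ τ.length + 9 * M) ∧
        (cb γ ≤ M ∧ (0 < ct w₁ → ca γ = 0 ∧ cb γ = 0) ∧ (0 < cb γ → ca w₁ = 0) ∧
          (ct w₁ = 0 → τ.length ≤ γ.length)) ∧
        (2 * M ≤ cb γ + cb w₁ + cb w₂ ∧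
          (0 < wG w₂ → cc w₂ = 3 * M ∧ cb γ + cb w₁ + cb w₂ = 3 * M) ∧
          (0 < cc w₂ → cb γ + cb w₁ + cb w₂ = 3 * M) ∧
          (wG w₂ = 0 → γ.length + w₁.length + w₂.length ≤ τ.length + 9 * M)) := by
    intro x hx
    obtain ⟨θt, ht, hw⟩ := (hL _).1 hx
    obtain ⟨θ', θ₁, θ₂, γ, δ, w₁, w₂, a1, a2, a3, a4, a5, a6⟩ := hw.split isB hK
      (τ.map Al.t ++ gad (3 * M) M 0) (gad 0 M 0) (gad 0 M (3 * M) ++ x.map Al.g)
      (by simp [word, gad_split M]) (by
        have := (cnt_gad (I := I) (Γ := Γ) 0 M 0).2.2.1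
        unfold cb at this
        omega)
    have e : γ ++ w₁ ++ w₂ ++ δ = τ.map Al.t ++ gad (3 * M) (3 * M) (3 * M) ++ x.map Al.g := by
      simpa [word] using a5.symm
    simp only [gad, List.length_append, List.length_map, List.length_replicate] at a6
    have c1 := pre_cases (p := γ) ⟨w₁ ++ w₂ ++ δ, by rw [← e]; simp⟩
    have c2 := pre_cases (p := γ ++ w₁) ⟨w₂ ++ δ, by rw [← e]; simp⟩
    have c3 := pre_cases (p := γ ++ w₁ ++ w₂) ⟨δ, e⟩
    simp only [ct_append, ca_append, cb_append, cc_append, wG_append, List.length_append]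
      at c1 c2 c3
    have c4 : ct γ + ct w₁ = τ.length ∧ ca γ + ca w₁ = 3 * M ∧
        τ.length + 3 * M + (cb γ + cb w₁) = γ.length + w₁.length ∧ cc γ + cc w₁ = 0 ∧
        wG γ + wG w₁ = 0 := by
      clear c1 c3
      omega
    clear c2
    refine ⟨θt, θ₁, θ₂, γ, δ, w₁, w₂, ht, ?_, ?_, a3, a4, e, ?_, ?_, ?_⟩
    · simpa using (AG.Sp.addR a2 .refl a4).trans a1
    · simpa using (AG.Sp.addL a2 a3 .refl).trans a1
    · clear c1
      rcases c3 with c3 | c3 | c3 | c3 | c3 <;> omega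
    · clear c3
      rcases c1 with c1 | c1 | c1 | c1 | c1 <;> omega
    · clear c1
      rcases c3 with c3 | c3 | c3 | c3 | c3 <;> omega
  have c4 := cnt_t (Γ := Γ) τ
  have c7 := cnt_gad (I := I) (Γ := Γ) (3 * M) (3 * M) (3 * M)
  constructor
  · obtain ⟨θt, θ₁, θ₂, γ, δ, w₁, w₂, ht, s1, s2, g1, g2, e, l1, l2, l3⟩ :=
      key (τ.reverse.flatMap u) ⟨τ.reverse, _, _, _, Or.inl ⟨rfl, rfl⟩⟩
    have e' := e
    rw [List.append_assoc (γ ++ w₁)] at e'
    obtain ⟨p1, p2⟩ := hE _ _ _ _ _ τ _ _ ht s1 g1 e'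
    obtain ⟨q1, q2⟩ := hE _ _ _ _ _ τ _ _ ht s2 g2 e
    have b1 : wG w₂ = 0 := by clear p1 p2 q2; omega
    have b2 := (q2 (by omega) b1).2.1 rfl
    clear q1 q2
    have b3 : ct w₁ = 0 := by clear p2; omega
    obtain ⟨⟨w', r1, r2, r3, r4⟩, b4, -⟩ := p2 b3 (by omega)
    have b5 := b4 rfl
    clear p1 p2 b4
    obtain ⟨σ₁, σ₂, e1, e2, e3⟩ := cut_mid e'
      (by simp only [List.length_map]; omega) (by simp only [List.length_map, hg]; omega)
    have c5 := congrArg cb e1
    simp only [cb_append] at c5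
    refine ⟨θ₁, θt, σ₁, w₁, σ₂, w', ht, e1 ▸ e2 ▸ s1, g1, e3, r1, r2, r3, r4, ?_⟩
    omega
  · obtain ⟨θt, θ₁, θ₂, γ, δ, w₁, w₂, ht, s1, s2, g1, g2, e, l1, l2, l3⟩ :=
      key (y ++ τ.reverse.flatMap v) ⟨τ.reverse, _, _, _, Or.inr ⟨rfl, rfl⟩⟩
    have e' := e
    rw [List.append_assoc (γ ++ w₁)] at e'
    obtain ⟨p1, p2⟩ := hE _ _ _ _ _ τ _ _ ht s1 g1 e'
    obtain ⟨q1, q2⟩ := hE _ _ _ _ _ τ _ _ ht s2 g2 e
    have b1 : ct w₁ = 0 := by clear q1 p2 q2; omega
    have b2 := (p2 b1 (by omega)).2.2 rfl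
    clear p1 p2
    have b3 : wG w₂ = 0 := by clear q2; omega
    obtain ⟨⟨w', r1, r2, r3, r4⟩, -, b4⟩ := q2 (by omega) b3
    have b5 := b4 rfl
    clear q1 q2 b4
    obtain ⟨σ₁, σ₂, e1, e2, e3⟩ := cut_mid e
      (by simp only [List.length_map, List.length_append]; omega)
      (by simp only [List.length_map, List.length_append, hg]; omega)
    have c5 := congrArg cb e1
    have c6 := congrArg cb e3
    simp only [cb_append] at c5 c6
    refine ⟨θ₂, θt, σ₁, w₂, σ₂, w', ht, e1 ▸ e2 ▸ s2, g2, e3, r1, r2, r3, r4, ?_⟩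
    omega

end Pool.Agent.P.MP_067fd8_lc.Unif

end

section

namespace Pool.Agent.P.MP_067fd8_lc.Unif

variable {I Γ Θ : Type} {u v : I → List Γ} {y : List Γ} {G : AG Θ (Al I Γ)}

lemma bal [Finite Θ] (hL : ∀ w, w ∈ LL u v y ↔ ∃ θ, G.Top θ ∧ G.Gn θ w) (ur : I → List Γ)
    (y₀ : List Γ) (F : ℕ → ℕ → ℕ → Prop)
    (hF : ∀ w ∈ LL u v y, F (ca w) (cb w) (cc w) → wG w = wI ur w + y₀.length) (n : ℕ) :
    ∃ C, ∀ θ θt γ x δ, G.Top θt → G.Sp θ θt γ δ → G.Gn θ x →
      F (ca (γ ++ x ++ δ)) (cb (γ ++ x ++ δ)) (cc (γ ++ x ++ δ)) → ca x ≤ n → cb x ≤ n → cc x ≤ n →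
      wG x ≤ wI ur x + C ∧ wI ur x ≤ wG x + C := by
  obtain ⟨C, hC⟩ := fin_choice (κ := Θ × Fin (n + 1) × Fin (n + 1) × Fin (n + 1))
    (fun k z => G.Gn k.1 z ∧ ca z = k.2.1 ∧ cb z = k.2.2.1 ∧ cc z = k.2.2.2)
    (fun z => wG z + wI ur z)
  refine ⟨C, fun θ θt γ x δ ht hs hx hf h1 h2 h3 => ?_⟩
  obtain ⟨z, ⟨a1, a2, a3, a4⟩, a5⟩ := hC (θ, ⟨ca x, by omega⟩, ⟨cb x, by omega⟩, ⟨cc x, by omega⟩)
    ⟨x, hx, rfl, rfl, rfl⟩
  simp only at a1 a2 a3 a4
  have b1 := hF _ ((hL _).2 ⟨θt, ht, hs.plug hx⟩) hf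
  have b2 := hF _ ((hL _).2 ⟨θt, ht, hs.plug a1⟩) (by
    simpa only [ca_append, cb_append, cc_append, a2, a3, a4] using hf)
  simp only [wG_append, wI_append] at b1 b2
  omega

theorem side [Finite Θ] (hL : ∀ w, w ∈ LL u v y ↔ ∃ θ, G.Top θ ∧ G.Gn θ w) (ur : I → List Γ)
    (y₀ : List Γ) (hur : ∀ t, ur t ≠ []) (F : ℕ → ℕ → ℕ → Prop)
    (hF : ∀ w ∈ LL u v y, F (ca w) (cb w) (cc w) → wG w = wI ur w + y₀.length)
    (items : List (Θ × List (Al I Γ) × List (Al I Γ) × List (Al I Γ))) (n : ℕ)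
    (h : ∀ τ : List I, ∃ θ θt σ₁ w σ₂ w', (θ, σ₁, w, σ₂) ∈ items ∧ G.Top θt ∧
      G.Sp θ θt (τ.map Al.t ++ σ₁) (σ₂ ++ (y₀ ++ τ.reverse.flatMap ur).map Al.g) ∧ G.Gn θ w' ∧
      ct (σ₁ ++ w' ++ σ₂) = 0 ∧ wG (σ₁ ++ w' ++ σ₂) = 0 ∧ (σ₁ ++ w' ++ σ₂).length ≤ n ∧
      F (ca (σ₁ ++ w' ++ σ₂)) (cb (σ₁ ++ w' ++ σ₂)) (cc (σ₁ ++ w' ++ σ₂))) :
    ∃ C, ∀ τ, ∃ θ, G.Top θ ∧
      Rch G Al.t (fun t => (ur t).map Al.g) (y₀.map Al.g) items C τ (θ, [], []) := by
  obtain ⟨C, hC⟩ := bal hL ur y₀ F hF n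
  refine ⟨(C + n + y₀.length) + (C + n + y₀.length), fun τ => ?_⟩
  obtain ⟨θ₀, θt, σ₁, w, σ₂, w', hit, ht, hs, hw, z1, z2, z3, z4⟩ := h τ
  have eR : ∀ τs : List I, cR (fun t => (ur t).map Al.g) (y₀.map Al.g) σ₂ τs =
      σ₂ ++ (y₀ ++ τs.reverse.flatMap ur).map (Al.g : Γ → Al I Γ) := by
    intro τs; simp [cR, List.map_flatMap]
  have z5 := len_eq (σ₁ ++ w' ++ σ₂)
  simp only [ct_append, wG_append, ca_append, cb_append, cc_append] at z1 z2 z4 z5
  have nL : ∀ τs : List I, ca (cL Al.t σ₁ τs) = ca σ₁ ∧ cb (cL Al.t σ₁ τs) = cb σ₁ ∧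
      cc (cL Al.t σ₁ τs) = cc σ₁ ∧ wG (cL Al.t σ₁ τs) = 0 ∧
      wI ur (cL Al.t σ₁ τs) = (τs.reverse.flatMap ur).length := by
    intro τs
    have := cnt_t (Γ := Γ) τs
    have h2 := wI_zero ur (x := σ₁) (by omega)
    simp only [cL, ca_append, cb_append, cc_append, wG_append, wI_append, wI_t]
    omega
  have nR : ∀ τs : List I, let x := cR (fun t => (ur t).map Al.g) (y₀.map Al.g) σ₂ τs
      ca x = ca σ₂ ∧ cb x = cb σ₂ ∧ cc x = cc σ₂ ∧ ct x = 0 ∧
      wG x = y₀.length + (τs.reverse.flatMap ur).length := by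
    intro τs
    have := cnt_g (I := I) (y₀ ++ τs.reverse.flatMap ur)
    simp only [eR, ca_append, cb_append, cc_append, wG_append, ct_append, List.length_append] at *
    omega
  have hb : ∀ θ γ x δ, G.Sp θ θt γ δ → G.Gn θ x →
      γ ++ x ++ δ = cL Al.t σ₁ τ ++ w' ++ cR (fun t => (ur t).map Al.g) (y₀.map Al.g) σ₂ τ →
      wG x ≤ wI ur x + C ∧ wI ur x ≤ wG x + C := by
    intro θ γ x δ a1 a2 e
    have n1 := nL τ
    have n2 := nR τ
    have ea := congrArg ca e
    have eb := congrArg cb e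
    have ec := congrArg cc e
    simp only [ca_append, cb_append, cc_append] at ea eb ec n2
    refine hC θ θt γ x δ ht a1 a2 ?_ (by omega) (by omega) (by omega)
    convert z4 using 1 <;> simp only [ca_append, cb_append, cc_append] <;> omega
  have w0 := wI_zero ur (x := w') (by omega)
  refine ⟨θt, ht, spine _ hit τ ?_ ?_ ?_ (by rw [eR]; exact hs)⟩
  · intro θ γ' δ' γ'' δ'' a1 a2 e1 e2 τs a3 a4
    have b := hb θ γ'' (γ' ++ w' ++ δ') δ'' a2 (a1.plug hw) (by rw [← e1, ← e2]; simp)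
    have n1 := nL τ
    have n2 := nR τ
    have n3 := nL τs
    have n4 := nR τs
    rw [← e1] at n1
    rw [← e2] at n2
    simp only [ca_append, cb_append, cc_append, wG_append, wI_append, ct_append] at b n1 n2 n4
    have d0 := wI_zero ur (x := δ') (by omega)
    have l1 := len_eq δ'
    have l2 := len_eq (cR (fun t => (ur t).map Al.g) (y₀.map Al.g) σ₂ τs)
    by_cases c : γ'.length ≤ (cL Al.t σ₁ τs).length
    · obtain ⟨l, e3⟩ := List.suffix_of_suffix_length_le ⟨_, e1⟩ (cL_suffix Al.t σ₁ a3) c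
      have := congrArg (wI ur) e3
      simp only [wI_append] at this
      omega
    · obtain ⟨l, e3⟩ := List.suffix_of_suffix_length_le (cL_suffix Al.t σ₁ a3) ⟨_, e1⟩
        (le_of_not_ge c)
      obtain ⟨r, e4⟩ := List.prefix_of_prefix_length_le ⟨_, e2⟩ (cR_pre _ _ σ₂ a3) (by omega)
      have f1 := congrArg wG e4
      have f2 := ct_le hur l
      have f3 := len_eq l
      subst e3
      simp only [ca_append, cb_append, cc_append, wG_append, wI_append, ct_append,
        List.length_append] at *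
      omega
  · intro θ θ₁ θ₂ γ δ s γ'' δ'' a1 a2 a3 a4 e1 e2
    have b := hb θ₂ _ s _ ((AG.Sp.addL a1 (a2.plug hw) .refl).trans a4) a3
      (by rw [← e1, ← e2]; simp)
    have n2 := nR τ
    rw [← e2] at n2
    simp only [ca_append, cb_append, cc_append, wG_append, ct_append] at n2
    have d0 := wI_zero ur (x := s) (by omega)
    have l1 := len_eq s
    omega
  · intro θ θ₁ θ₂ γ δ s γ'' δ'' a1 a2 a3 a4 e1 e2
    have b := hb θ₁ _ s _ ((AG.Sp.addR a1 .refl (a3.plug hw)).trans a4) a2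
      (by rw [← e1, ← e2]; simp)
    have n1 := nL τ
    rw [← e1] at n1
    simp only [ca_append, cb_append, cc_append, wG_append] at n1
    have f2 := ct_le hur s
    have l1 := len_eq s
    omega

/-- the abstract form of one half of a certificate -/
def ASide {A : Type} (G : AG Θ A) (tl : I → A) (ur : I → List A) (y₀ g : List A)
    (items : List (Θ × List A × List A × List A)) (ms : List (List (Θ × List A × List A))) : Prop :=
  (∀ it ∈ items, G.Gn it.1 it.2.2.1 ∧ it.2.1 ++ it.2.2.1 ++ it.2.2.2 = g) ∧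
  (∃ m ∈ ms, ∀ st ∈ m, ∃ it ∈ items,
    G.Sp it.1 st.1 (st.2.1 ++ it.2.1) (it.2.2.2 ++ y₀ ++ st.2.2)) ∧
  (∀ m ∈ ms, ∀ t, ∃ m' ∈ ms, ∀ st' ∈ m', ∃ st ∈ m, ∃ γ δ, G.Sp st.1 st'.1 γ δ ∧
    γ ++ st.2.1 = st'.2.1 ++ [tl t] ∧ st.2.2 ++ δ = ur t ++ st'.2.2) ∧
  (∀ m ∈ ms, ∃ θ, G.Top θ ∧ (θ, [], []) ∈ m)

lemma exists_items {A : Type} [Finite Θ] [Finite A] (g : List A)
    (Q : Θ × List A × List A × List A → Prop) : ∃ items : List (Θ × List A × List A × List A),
      ∀ it, it ∈ items ↔ it.2.1 ++ it.2.2.1 ++ it.2.2.2 = g ∧ Q it := by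
  have h0 := List.finite_length_le A g.length
  have hf : {it : Θ × List A × List A × List A |
      it.2.1 ++ it.2.2.1 ++ it.2.2.2 = g ∧ Q it}.Finite := by
    refine (Set.finite_univ.prod (h0.prod (h0.prod h0))).subset fun it h => ?_
    have := congrArg List.length h.1
    simp only [List.length_append] at this
    simp only [Set.mem_prod, Set.mem_univ, Set.mem_ofPred_eq, true_and]
    omega
  exact ⟨hf.toFinset.toList, by simp⟩

theorem abs_cert [Finite Θ] [Finite I] [Finite Γ]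
    (hL : ∀ w, w ∈ LL u v y ↔ ∃ θ, G.Top θ ∧ G.Gn θ w)
    (hno : ¬ ∃ τ : List I, τ.flatMap u = y ++ τ.flatMap v) (hu : ∀ t, u t ≠ [])
    (hv : ∀ t, v t ≠ []) {K : ℕ} (hK : ∀ θ w, G.At θ w → w.countP isB ≤ K) (H : ℕ) :
    ∃ g iU iV mU mV, ASide G Al.t (fun t => (u t).map Al.g) [] g iU mU ∧
      ASide G Al.t (fun t => (v t).map Al.g) (y.map Al.g) g iV mV ∧
      ∀ it ∈ iU, ∀ it' ∈ iV, cb it.2.1 + H < cb it'.2.1 ∧ cb it'.2.1 + H < cb (it.2.1 ++ it.2.2.1) ∧
        cb (it.2.1 ++ it.2.2.1) + H < cb (it'.2.1 ++ it'.2.2.1) := by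
  obtain ⟨E, hE⟩ := nodes hL hno hK
  obtain ⟨M, hM, hM'⟩ : ∃ M, K + 2 * E < M ∧ H + 2 * E < M := ⟨K + H + 2 * E + 1, by omega, by omega⟩
  have hE := hE M hM
  have c7 := cnt_gad (I := I) (Γ := Γ) (3 * M) (3 * M) (3 * M)
  have hg : (gad (3 * M) (3 * M) (3 * M) : List (Al I Γ)).length = 9 * M := by
    simp [gad]; omega
  obtain ⟨iU, hU⟩ := exists_items (Θ := Θ) (gad (3 * M) (3 * M) (3 * M) : List (Al I Γ))
    fun it => G.Gn it.1 it.2.2.1 ∧ cb it.2.1 = 0 ∧ 2 * M ≤ cb it.2.2.1 + E ∧ cb it.2.2.1 ≤ 2 * M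
  obtain ⟨iV, hV⟩ := exists_items (Θ := Θ) (gad (3 * M) (3 * M) (3 * M) : List (Al I Γ))
    fun it => G.Gn it.1 it.2.2.1 ∧ M ≤ cb it.2.1 ∧ cb it.2.1 ≤ M + E ∧ cb it.2.2.2 = 0
  obtain ⟨CU, hCU⟩ := side hL u [] hu (fun _ b c => b ≠ c) (by
      intro w hw hf
      rcases LL_facts hw with h | h
      · simp [wG, wI, h.2, List.length_flatMap]
      · exact (hf h.1).elim) iU (9 * M + E) (by
      intro τ
      obtain ⟨θ, θt, σ₁, w, σ₂, w', a1, a2, a3, a4, a5, a6⟩ := (hE τ).1
      refine ⟨θ, θt, σ₁, w, σ₂, w', (hU _).2 ⟨a4, a3, by simp only; omega⟩, a1, a2, a5, ?_⟩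
      have l1 := len_eq w'
      have l2 := congrArg List.length a4
      rw [← a4] at c7
      simp only [ct_append, wG_append, ca_append, cb_append, cc_append, List.length_append] at *
      omega)
  obtain ⟨CV, hCV⟩ := side hL v y hv (fun a b _ => a ≠ b) (by
      intro w hw hf
      rcases LL_facts hw with h | h
      · exact (hf h.1).elim
      · simp [wG, wI, h.2, List.length_flatMap, add_comm]) iV (9 * M + E) (by
      intro τ
      obtain ⟨θ, θt, σ₁, w, σ₂, w', a1, a2, a3, a4, a5, a6⟩ := (hE τ).2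
      refine ⟨θ, θt, σ₁, w, σ₂, w', (hV _).2 ⟨a4, a3, by simp only; omega⟩, a1, a2, a5, ?_⟩
      have l1 := len_eq w'
      have l2 := congrArg List.length a4
      rw [← a4] at c7
      simp only [ct_append, wG_append, ca_append, cb_append, cc_append, List.length_append] at *
      omega)
  obtain ⟨mU, hmU⟩ := determinise _ hCU
  obtain ⟨mV, hmV⟩ := determinise _ hCV
  refine ⟨_, iU, iV, mU, mV, ⟨fun it h => ⟨((hU _).1 h).2.1, ((hU _).1 h).1⟩, hmU⟩,
    ⟨fun it h => ⟨((hV _).1 h).2.1, ((hV _).1 h).1⟩, hmV⟩, fun it h it' h' => ?_⟩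
  obtain ⟨-, -, a1⟩ := (hU _).1 h
  obtain ⟨a2, -, a3⟩ := (hV _).1 h'
  have := congrArg cb a2
  simp only [cb_append] at this ⊢
  omega

end Pool.Agent.P.MP_067fd8_lc.Unif

end

section

namespace Pool.Agent.P.MP_067fd8_lc.Unif

open Symbol

variable {B N : Type}

/-- the sentential form derives the word -/
def Y (P : Set (ContextFreeRule B N)) (s : List (Symbol B N)) (z : List B) : Prop :=
  ∃ rs, D P s rs z

/-- contexts: the form `s` occurs as a node (a symbol, or a final segment of a right-hand side)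
below the second form -/
inductive Ctx (P : Set (ContextFreeRule B N)) (s : List (Symbol B N)) :
    List (Symbol B N) → List B → List B → Prop
  | refl : Ctx P s s [] []
  | head {e s₂ γ δ z} : s₂ ≠ [] → Ctx P s [e] γ δ → Y P s₂ z → Ctx P s (e :: s₂) γ (δ ++ z)
  | tail {e s₂ γ δ z} : s₂ ≠ [] → Y P [e] z → Ctx P s s₂ γ δ → Ctx P s (e :: s₂) (z ++ γ) δ
  | rule {r γ δ} : r ∈ P → Ctx P s r.output γ δ → Ctx P s [nonterminal r.input] γ δ

variable {P : Set (ContextFreeRule B N)}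

lemma Ctx.trans {s₁ s₂ s₃ γ δ γ' δ'} (h : Ctx P s₁ s₂ γ δ) (h' : Ctx P s₂ s₃ γ' δ') :
    Ctx P s₁ s₃ (γ' ++ γ) (δ ++ δ') := by
  induction h' with
  | refl => simpa using h
  | head h1 _ h2 ih => rw [← List.append_assoc]; exact Ctx.head h1 ih h2
  | tail h1 h2 _ ih => rw [List.append_assoc]; exact Ctx.tail h1 h2 ih
  | rule hr _ ih => exact Ctx.rule hr ih

/-- nodes of a derivation, with their spans -/
inductive Node (P : Set (ContextFreeRule B N)) :
    List (Symbol B N) → List (ContextFreeRule B N) → List B → ℕ → ℕ → Prop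
  | refl {s rs w} : D P s rs w → Node P s rs w 0 w.length
  | head {e s₂ rs₁ rs₂ w₁ w₂ i j} : s₂ ≠ [] → Node P [e] rs₁ w₁ i j → D P s₂ rs₂ w₂ →
      Node P (e :: s₂) (rs₁ ++ rs₂) (w₁ ++ w₂) i j
  | tail {e s₂ rs₁ rs₂ w₁ w₂ i j} : s₂ ≠ [] → D P [e] rs₁ w₁ → Node P s₂ rs₂ w₂ i j →
      Node P (e :: s₂) (rs₁ ++ rs₂) (w₁ ++ w₂) (w₁.length + i) (w₁.length + j)
  | rule {r rs w i j} : r ∈ P → Node P r.output rs w i j →
      Node P [nonterminal r.input] (r :: rs) w i j

lemma Node.toD {s rs w i j} (h : Node P s rs w i j) : D P s rs w ∧ j ≤ w.length := by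
  induction h with
  | refl h => exact ⟨h, le_rfl⟩
  | head _ _ h ih => exact ⟨ih.1.append h, by simp; omega⟩
  | tail _ h _ ih => exact ⟨h.append ih.1, by simp; omega⟩
  | rule hr _ ih => exact ⟨D.nt hr (by simpa using ih.1), ih.2⟩

lemma Node.inv {s rs w i j} (h : Node P s rs w i j) :
    i = 0 ∧ j = w.length ∨
    (∃ e s₂ rs₁ rs₂ w₁ w₂, s = e :: s₂ ∧ rs = rs₁ ++ rs₂ ∧ w = w₁ ++ w₂ ∧ s₂ ≠ [] ∧
      Node P [e] rs₁ w₁ i j) ∨
    (∃ e s₂ rs₁ rs₂ w₁ w₂ i' j', s = e :: s₂ ∧ rs = rs₁ ++ rs₂ ∧ w = w₁ ++ w₂ ∧ s₂ ≠ [] ∧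
      D P [e] rs₁ w₁ ∧ Node P s₂ rs₂ w₂ i' j' ∧ i = w₁.length + i' ∧ j = w₁.length + j') ∨
    (∃ r rs', s = [nonterminal r.input] ∧ rs = r :: rs' ∧ Node P r.output rs' w i j) := by
  cases h with
  | refl => exact Or.inl ⟨rfl, rfl⟩
  | head h1 h2 _ => exact Or.inr (Or.inl ⟨_, _, _, _, _, _, rfl, rfl, rfl, h1, h2⟩)
  | tail h1 h2 h3 =>
    exact Or.inr (Or.inr (Or.inl ⟨_, _, _, _, _, _, _, _, rfl, rfl, rfl, h1, h2, h3, rfl, rfl⟩))
  | rule _ h => exact Or.inr (Or.inr (Or.inr ⟨_, _, rfl, rfl, h⟩))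

lemma Node.no_cross {s rs w i j} (h : Node P s rs w i j) :
    ∀ {i' j'}, Node P s rs w i' j' → ¬ (i < i' ∧ i' < j ∧ j < j') := by
  induction h with
  | refl _ => intro i' j' h'; have := h'.toD.2; omega
  | head h1 h2 h3 ih =>
    intro i' j' h'
    rcases h'.inv with ⟨rfl, _⟩ | ⟨e, s₂, rs₁, rs₂, w₁, w₂, e1, e2, e3, _, a⟩ |
      ⟨e, s₂, rs₁, rs₂, w₁, w₂, i'', j'', e1, e2, e3, _, a, b, rfl, rfl⟩ | ⟨r, rs', e1, _⟩
    · omega
    · cases e1
      obtain ⟨rfl, rfl⟩ := h2.toD.1.det a.toD.1 e2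
      exact ih a
    · cases e1
      obtain ⟨rfl, rfl⟩ := h2.toD.1.det a e2
      have := h2.toD.2
      omega
    · simp [h1] at e1
  | tail h1 h2 h3 ih =>
    intro i' j' h'
    rcases h'.inv with ⟨rfl, _⟩ | ⟨e, s₂, rs₁, rs₂, w₁, w₂, e1, e2, e3, _, a⟩ |
      ⟨e, s₂, rs₁, rs₂, w₁, w₂, i'', j'', e1, e2, e3, _, a, b, rfl, rfl⟩ | ⟨r, rs', e1, _⟩
    · omega
    · cases e1
      obtain ⟨rfl, rfl⟩ := h2.det a.toD.1 e2
      have := a.toD.2
      omega
    · cases e1
      obtain ⟨rfl, rfl⟩ := h2.det a e2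
      obtain rfl := List.append_cancel_left e2
      obtain rfl := List.append_cancel_left e3
      have := ih b
      omega
    · simp [h1] at e1
  | rule hr h ih =>
    intro i' j' h'
    rcases h'.inv with ⟨rfl, _⟩ | ⟨e, s₂, rs₁, rs₂, w₁, w₂, e1, _, _, h1, _⟩ |
      ⟨e, s₂, rs₁, rs₂, w₁, w₂, i'', j'', e1, _, _, h1, _⟩ | ⟨r, rs', _, e2, a⟩
    · omega
    · cases e1; exact (h1 rfl).elim
    · cases e1; exact (h1 rfl).elim
    · cases e2; exact ih a

lemma Ctx.node {s s' γ δ z} (h : Ctx P s s' γ δ) (hz : Y P s z) :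
    ∃ rs, Node P s' rs (γ ++ z ++ δ) γ.length (γ.length + z.length) := by
  induction h with
  | refl => obtain ⟨rs, h⟩ := hz; exact ⟨rs, by simpa using Node.refl h⟩
  | head h1 _ h2 ih =>
    obtain ⟨rs, h⟩ := ih
    obtain ⟨rs', h'⟩ := h2
    exact ⟨_, by simpa using Node.head h1 h h'⟩
  | tail h1 h2 _ ih =>
    obtain ⟨rs, h⟩ := ih
    obtain ⟨rs', h'⟩ := h2
    exact ⟨_, by simpa [add_assoc] using Node.tail h1 h' h⟩
  | rule hr _ ih =>
    obtain ⟨rs, h⟩ := ih
    exact ⟨_, Node.rule hr h⟩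

lemma Ctx.plug {s s' γ δ z} (h : Ctx P s s' γ δ) (hz : Y P s z) : Y P s' (γ ++ z ++ δ) := by
  obtain ⟨rs, h⟩ := h.node hz
  exact ⟨rs, h.toD.1⟩

/-- In an unambiguous grammar two nodes over the same word do not cross. -/
theorem no_cross {S : N} (hU : ∀ w rs rs', D P [nonterminal S] rs w → D P [nonterminal S] rs' w →
      rs = rs') {s s' γ δ z γ' δ' z'}
    (h : Ctx P s [nonterminal S] γ δ) (hz : Y P s z) (h' : Ctx P s' [nonterminal S] γ' δ')
    (hz' : Y P s' z') (e : γ ++ z ++ δ = γ' ++ z' ++ δ') :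
    ¬ (γ.length < γ'.length ∧ γ'.length < γ.length + z.length ∧
      γ.length + z.length < γ'.length + z'.length) := by
  obtain ⟨rs, a⟩ := h.node hz
  obtain ⟨rs', a'⟩ := h'.node hz'
  rw [← e] at a'
  obtain rfl := hU _ _ _ a.toD.1 a'.toD.1
  exact a.no_cross a'

end Pool.Agent.P.MP_067fd8_lc.Unif

end

section

namespace Pool.Agent.P.MP_067fd8_lc.Unif

open Pool.Agent.Lib.PrimrecProp

variable {α β : Type} [Primcodable α] [Primcodable β]

/-- `P` is the projection of a primitive recursive predicate. -/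
def Sig (P : α → Prop) : Prop :=
  ∃ (τ : Type) (_ : Primcodable τ) (R : α × τ → Prop), PrimrecPred R ∧ ∀ a, P a ↔ ∃ t, R (a, t)

lemma Sig.of_eq {P Q : α → Prop} (h : Sig P) (e : ∀ a, P a ↔ Q a) : Sig Q := by
  obtain ⟨τ, i, R, hR, h⟩ := h
  exact ⟨τ, i, R, hR, fun a => (e a).symm.trans (h a)⟩

lemma Sig.of_primrec {P : α → Prop} (h : PrimrecPred P) : Sig P :=
  ⟨Unit, inferInstance, fun x => P x.1, h.comp Primrec.fst, fun a => by simp⟩

lemma Sig.comp {P : β → Prop} (h : Sig P) {f : α → β} (hf : Primrec f) :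
    Sig fun a => P (f a) := by
  obtain ⟨τ, i, R, hR, h⟩ := h
  exact ⟨τ, i, fun x => R (f x.1, x.2), hR.comp ((hf.comp Primrec.fst).pair Primrec.snd),
    fun a => h (f a)⟩

lemma Sig.and {P Q : α → Prop} (hP : Sig P) (hQ : Sig Q) : Sig fun a => P a ∧ Q a := by
  obtain ⟨τ, i, R, hR, h⟩ := hP
  obtain ⟨τ', i', R', hR', h'⟩ := hQ
  refine ⟨τ × τ', inferInstance, fun x => R (x.1, x.2.1) ∧ R' (x.1, x.2.2),
    (hR.comp (Primrec.fst.pair (Primrec.fst.comp Primrec.snd))).and
      (hR'.comp (Primrec.fst.pair (Primrec.snd.comp Primrec.snd))), fun a => ?_⟩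
  simp [h, h']

lemma Sig.or {P Q : α → Prop} (hP : Sig P) (hQ : Sig Q) : Sig fun a => P a ∨ Q a := by
  obtain ⟨τ, i, R, hR, h⟩ := hP
  obtain ⟨τ', i', R', hR', h'⟩ := hQ
  have h1 : PrimrecRel fun (t : τ) (x : α) => R (x, t) := hR.comp (Primrec.snd.pair Primrec.fst)
  have h2 : PrimrecRel fun (t : τ') (x : α) => R' (x, t) := hR'.comp (Primrec.snd.pair Primrec.fst)
  refine ⟨List τ × List τ', inferInstance,
    fun x => (∃ t ∈ x.2.1, R (x.1, t)) ∨ (∃ t ∈ x.2.2, R' (x.1, t)),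
    (h1.exists_mem_list.comp (Primrec.fst.comp Primrec.snd) Primrec.fst).or
      (h2.exists_mem_list.comp (Primrec.snd.comp Primrec.snd) Primrec.fst), fun a => ?_⟩
  simp only [h, h']
  constructor
  · rintro (⟨t, ht⟩ | ⟨t, ht⟩)
    exacts [⟨([t], []), Or.inl ⟨t, by simp, ht⟩⟩, ⟨([], [t]), Or.inr ⟨t, by simp, ht⟩⟩]
  · rintro ⟨_, ⟨t, _, ht⟩ | ⟨t, _, ht⟩⟩
    exacts [Or.inl ⟨t, ht⟩, Or.inr ⟨t, ht⟩]

lemma Sig.ex {P : α → β → Prop} (hP : Sig fun x : α × β => P x.1 x.2) :
    Sig fun a => ∃ b, P a b := by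
  obtain ⟨τ, i, R, hR, h⟩ := hP
  refine ⟨β × τ, inferInstance, fun x => R ((x.1, x.2.1), x.2.2),
    hR.comp ((Primrec.fst.pair (Primrec.fst.comp Primrec.snd)).pair
      (Primrec.snd.comp Primrec.snd)), fun a => ?_⟩
  have : ∀ b, P a b ↔ ∃ t, R ((a, b), t) := fun b => h (a, b)
  simp [this]

lemma Sig.all_mem {P : α → β → Prop} {l : α → List β} (hl : Primrec l)
    (hP : Sig fun x : α × β => P x.1 x.2) : Sig fun a => ∀ b ∈ l a, P a b := by
  obtain ⟨τ, i, R, hR, h⟩ := hP
  have h1 : PrimrecRel fun (t : τ) (x : α × β) => R (x, t) :=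
    hR.comp (Primrec.snd.pair Primrec.fst)
  have h2 : PrimrecRel fun (b : β) (x : α × List τ) => ∃ t ∈ x.2, R ((x.1, b), t) :=
    h1.exists_mem_list.comp (Primrec.snd.comp Primrec.snd)
      ((Primrec.fst.comp Primrec.snd).pair Primrec.fst)
  refine ⟨List τ, inferInstance, fun x => ∀ b ∈ l x.1, ∃ t ∈ x.2, R ((x.1, b), t),
    h2.forall_mem_list.comp (hl.comp Primrec.fst) Primrec.id, fun a => ?_⟩
  have h' : ∀ b, P a b ↔ ∃ t, R ((a, b), t) := fun b => h (a, b)
  simp only [h']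
  constructor
  · intro H
    choose f hf using H
    exact ⟨(l a).attach.map fun b => f b.1 b.2, fun b hb =>
      ⟨f b hb, List.mem_map.2 ⟨⟨b, hb⟩, List.mem_attach _ _, rfl⟩, hf b hb⟩⟩
  · rintro ⟨ts, H⟩ b hb
    obtain ⟨t, -, ht⟩ := H b hb
    exact ⟨t, ht⟩

lemma Sig.eq {f g : α → β} (hf : Primrec f) (hg : Primrec g) : Sig fun a => f a = g a :=
  Sig.of_primrec (Primrec.eq.comp hf hg)

lemma Sig.ne {f g : α → β} (hf : Primrec f) (hg : Primrec g) : Sig fun a => f a ≠ g a :=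
  Sig.of_primrec (Primrec.eq.comp hf hg).not

lemma Sig.lt {f g : α → ℕ} (hf : Primrec f) (hg : Primrec g) : Sig fun a => f a < g a :=
  Sig.of_primrec (Primrec.nat_lt.comp hf hg)

lemma Sig.mem {f : α → β} {l : α → List β} (hf : Primrec f) (hl : Primrec l) :
    Sig fun a => f a ∈ l a :=
  Sig.of_primrec ((((Primrec.eq (α := β)).exists_mem_list).comp hl hf).of_eq (by simp))

lemma Sig.ex_mem {P : α → β → Prop} {l : α → List β} (hl : Primrec l)
    (hP : Sig fun x : α × β => P x.1 x.2) : Sig fun a => ∃ b ∈ l a, P a b :=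
  Sig.ex ((Sig.mem Primrec.snd (hl.comp Primrec.fst)).and hP)

lemma Sig.rtg {R : α → α → Prop} (hR : Sig fun x : α × α => R x.1 x.2) :
    Sig fun x : α × α => Relation.ReflTransGen R x.1 x.2 := by
  have h : Sig fun x : α × α => ∃ l : List α, (x.1 :: l)[l.length]? = some x.2 ∧
      ∀ i ∈ List.range l.length, ∃ p : α × α, (x.1 :: l)[i]? = some p.1 ∧ l[i]? = some p.2 ∧
        R p.1 p.2 := by
    refine Sig.ex (Sig.and (Sig.eq (by fun_prop) (by fun_prop)) (Sig.all_mem (by fun_prop) ?_))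
    refine Sig.ex (Sig.and (Sig.eq (by fun_prop) (by fun_prop))
      (Sig.and (Sig.eq (by fun_prop) (by fun_prop)) (hR.comp Primrec.snd)))
  refine h.of_eq ?_
  rintro ⟨a, b⟩
  simp only [List.mem_range]
  constructor
  · rintro ⟨l, h1, h2⟩
    induction l generalizing a with
    | nil => simp at h1; subst h1; rfl
    | cons c l ih =>
      obtain ⟨p, e1, e2, hp⟩ := h2 0 (by simp)
      simp only [List.getElem?_cons_zero, Option.some.injEq] at e1 e2
      subst e1 e2
      refine Relation.ReflTransGen.head hp (ih _ (by simpa using h1) fun i hi => ?_)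
      simpa using h2 (i + 1) (by simpa using hi)
  · intro h
    induction h using Relation.ReflTransGen.head_induction_on with
    | refl => exact ⟨[], by simp, by simp⟩
    | @head a c hac _ ih =>
      obtain ⟨l, h1, h2⟩ := ih
      refine ⟨c :: l, by simpa using h1, fun i hi => ?_⟩
      cases i with
      | zero => exact ⟨(a, c), by simp, by simp, hac⟩
      | succ i => simpa using h2 i (by simpa using hi)

lemma Sig.re {P : α → Prop} (h : Sig P) : REPred P := by
  classical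
  obtain ⟨τ, i, R, hR, h⟩ := h
  have h1 : Primrec fun x : α × ℕ => ((Encodable.decode (α := τ) x.2).casesOn false
      (fun t => decide (R (x.1, t))) : Bool) :=
    Primrec.option_casesOn (Primrec.decode.comp Primrec.snd) (Primrec.const false)
      (hR.comp ((Primrec.fst.comp Primrec.fst).pair Primrec.snd)).decide
  have h2 : Partrec fun a : α => Nat.rfind fun n => Part.some
      ((Encodable.decode (α := τ) n).casesOn false (fun t => decide (R (a, t))) : Bool) :=
    Partrec.rfind h1.to_comp.partrec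
  refine h2.dom_re.of_eq fun a => ?_
  rw [h, Nat.rfind_dom]
  simp only [Part.mem_some_iff, Part.some_dom, implies_true, and_true]
  constructor
  · rintro ⟨n, hn⟩
    cases e : Encodable.decode (α := τ) n with
    | none => simp [e] at hn
    | some t => exact ⟨t, by simpa [e] using hn⟩
  · rintro ⟨t, ht⟩
    exact ⟨Encodable.encode t, by simp [ht]⟩

end Pool.Agent.P.MP_067fd8_lc.Unif

end

section

namespace Pool.Agent.P.MP_067fd8_lc.Unif

open Symbol

/-- a sentential form with the pending words on both sides -/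
abbrev Ty (B N : Type) : Type := List B × List (Symbol B N) × List B

section defs

variable {A B N I : Type} (P : Set (ContextFreeRule B N)) (h : A → List B)

def GenS (θ : Ty B N) (w : List A) : Prop :=
  ∃ z, Y P θ.2.1 z ∧ θ.1 ++ w.flatMap h = z ++ θ.2.2

def CtxS (θ' : Ty B N) (γ : List A) (θ : Ty B N) (δ : List A) : Prop :=
  ∃ γδ : List B × List B, Ctx P θ.2.1 θ'.2.1 γδ.1 γδ.2 ∧ θ'.1 ++ γ.flatMap h = γδ.1 ++ θ.1 ∧
    θ.2.2 ++ δ.flatMap h = γδ.2 ++ θ'.2.2

def Side (S : N) (tiles : List I) (tl : I → A) (ur : I → List A) (y₀ g : List A)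
    (items : List (Ty B N × List A × List A × List A))
    (ms : List (List (Ty B N × List A × List A))) : Prop :=
  (∀ it ∈ items, GenS P h it.1 it.2.2.1 ∧ it.2.1 ++ it.2.2.1 ++ it.2.2.2 = g) ∧
  (∃ m ∈ ms, ∀ st ∈ m, ∃ it ∈ items,
    CtxS P h st.1 (st.2.1 ++ it.2.1) it.1 (it.2.2.2 ++ y₀ ++ st.2.2)) ∧
  (∀ m ∈ ms, ∀ t ∈ tiles, ∃ m' ∈ ms, ∀ st' ∈ m', ∃ st ∈ m, ∃ γδ : List A × List A,
    CtxS P h st'.1 γδ.1 st.1 γδ.2 ∧ γδ.1 ++ st.2.1 = st'.2.1 ++ [tl t] ∧
      st.2.2 ++ γδ.2 = ur t ++ st'.2.2) ∧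
  (∀ m ∈ ms, (([], [nonterminal S], []), [], []) ∈ m)

def Crosses (it it' : Ty B N × List A × List A × List A) : Prop :=
  (it.2.1.flatMap h).length + it'.1.1.length < (it'.2.1.flatMap h).length + it.1.1.length ∧
  (it'.2.1.flatMap h).length + it.1.2.2.length
    < ((it.2.1 ++ it.2.2.1).flatMap h).length + it'.1.1.length ∧
  ((it.2.1 ++ it.2.2.1).flatMap h).length + it'.1.2.2.length
    < ((it'.2.1 ++ it'.2.2.1).flatMap h).length + it.1.2.2.length

def Cert (S : N) (tiles : List I) (tl : I → A) (ur vr : I → List A) (y₀ : List A) : Prop :=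
  ∃ g : List A, ∃ iU : List (Ty B N × List A × List A × List A),
    ∃ iV : List (Ty B N × List A × List A × List A),
    ∃ mU : List (List (Ty B N × List A × List A)), ∃ mV : List (List (Ty B N × List A × List A)),
      Side P h S tiles tl ur [] g iU mU ∧ Side P h S tiles tl vr y₀ g iV mV ∧
      ∀ it ∈ iU, ∀ it' ∈ iV, Crosses h it it'

variable {P h}

lemma CtxS.refl (θ : Ty B N) : CtxS P h θ [] θ [] := ⟨([], []), Ctx.refl, by simp, by simp⟩

lemma CtxS.trans {θ₁ θ₂ θ₃ : Ty B N} {γ δ γ' δ' : List A} (h₁ : CtxS P h θ₂ γ θ₁ δ)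
    (h₂ : CtxS P h θ₃ γ' θ₂ δ') : CtxS P h θ₃ (γ' ++ γ) θ₁ (δ ++ δ') := by
  obtain ⟨⟨γ₀, δ₀⟩, a1, a2, a3⟩ := h₁
  obtain ⟨⟨γ₁, δ₁⟩, b1, b2, b3⟩ := h₂
  refine ⟨(γ₁ ++ γ₀, δ₀ ++ δ₁), a1.trans b1, ?_, ?_⟩
  · simp only at a2 b2 ⊢
    rw [List.flatMap_append, ← List.append_assoc, b2, List.append_assoc, a2, List.append_assoc]
  · simp only at a3 b3 ⊢
    rw [List.flatMap_append, ← List.append_assoc, a3, List.append_assoc, b3, List.append_assoc]

lemma CtxS.plug {θ θ' : Ty B N} {γ δ w : List A} (h₁ : CtxS P h θ' γ θ δ) (h₂ : GenS P h θ w) :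
    GenS P h θ' (γ ++ w ++ δ) := by
  obtain ⟨⟨γ₀, δ₀⟩, a1, a2, a3⟩ := h₁
  obtain ⟨z, b1, b2⟩ := h₂
  refine ⟨_, a1.plug b1, ?_⟩
  simp only at a2 a3 ⊢
  rw [List.flatMap_append, List.flatMap_append, ← List.append_assoc, ← List.append_assoc, a2,
    List.append_assoc γ₀, b2]
  simp [a3]

lemma Side.sound {S : N} {tiles : List I} {tl : I → A} {ur : I → List A} {y₀ g : List A}
    {items ms} (hs : Side P h S tiles tl ur y₀ g items ms) (τ : List I) (hτ : ∀ t ∈ τ, t ∈ tiles) :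
    ∃ it ∈ items, CtxS P h ([], [nonterminal S], []) (τ.reverse.map tl ++ it.2.1) it.1
      (it.2.2.2 ++ y₀ ++ τ.flatMap ur) := by
  obtain ⟨_, h2, h3, h4⟩ := hs
  have key : ∃ m ∈ ms, ∀ st ∈ m, ∃ it ∈ items, CtxS P h st.1 (st.2.1 ++ τ.reverse.map tl ++ it.2.1)
      it.1 (it.2.2.2 ++ y₀ ++ τ.flatMap ur ++ st.2.2) := by
    induction τ using List.reverseRecOn with
    | nil => simpa using h2
    | append_singleton τ t ih =>
      obtain ⟨m, hm, ih⟩ := ih fun t ht => hτ t (by simp [ht])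
      obtain ⟨m', hm', h5⟩ := h3 m hm t (hτ t (by simp))
      refine ⟨m', hm', fun st' hst' => ?_⟩
      obtain ⟨st, hst, ⟨γ, δ⟩, a1, a2, a3⟩ := h5 st' hst'
      obtain ⟨it, hit, a4⟩ := ih st hst
      refine ⟨it, hit, ?_⟩
      have := a4.trans a1
      simp only at a2 a3 this
      convert this using 1
      · rw [← List.append_assoc, ← List.append_assoc, a2]; simp
      · rw [List.append_assoc _ st.2.2, a3]; simp
  obtain ⟨m, hm, h5⟩ := key
  simpa using h5 _ (h4 m hm)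

theorem Cert.sound {S : N} (hU : ∀ w rs rs', D P [nonterminal S] rs w →
      D P [nonterminal S] rs' w → rs = rs') {tiles : List I} {tl : I → A} {ur vr : I → List A}
    {y₀ : List A} (hc : Cert P h S tiles tl ur vr y₀) (τ : List I) (hτ : ∀ t ∈ τ, t ∈ tiles) :
    τ.flatMap ur ≠ y₀ ++ τ.flatMap vr := by
  intro e
  obtain ⟨g, iU, iV, mU, mV, h1, h2, h3⟩ := hc
  obtain ⟨it, hit, ⟨γ, δ⟩, a1, a2, a3⟩ := h1.sound τ hτ
  obtain ⟨it', hit', ⟨γ', δ'⟩, b1, b2, b3⟩ := h2.sound τ hτ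
  obtain ⟨⟨z, a4, a5⟩, a6⟩ := h1.1 it hit
  obtain ⟨⟨z', b4, b5⟩, b6⟩ := h2.1 it' hit'
  obtain ⟨c1, c2, c3⟩ := h3 it hit it' hit'
  simp only [List.nil_append, List.append_nil] at a1 a2 a3 b1 b2 b3
  have w1 : γ ++ z ++ δ = (τ.reverse.map tl ++ g ++ τ.flatMap ur).flatMap h := by
    rw [← a3, ← List.append_assoc, List.append_assoc γ, ← a5, ← List.append_assoc, ← a2, ← a6]
    simp
  have w2 : γ' ++ z' ++ δ' = (τ.reverse.map tl ++ g ++ τ.flatMap ur).flatMap h := by
    rw [← b3, ← List.append_assoc, List.append_assoc γ', ← b5, ← List.append_assoc, ← b2, ← b6, e]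
    simp
  refine no_cross hU a1 a4 b1 b4 (w1.trans w2.symm) ?_
  have l1 := congrArg List.length a2
  have l2 := congrArg List.length b2
  have l3 := congrArg List.length a5
  have l4 := congrArg List.length b5
  simp only [List.flatMap_append, List.length_append] at l1 l2 l3 l4 c1 c2 c3
  omega

end defs

section sig

open Pool.Agent.Lib.PrimrecProp

variable {A B N I : Type} [Primcodable A] [Primcodable B] [Primcodable (Symbol B N)] [Primcodable I]
variable {P : Set (ContextFreeRule B N)}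

omit [Primcodable B] in
lemma sig_rule (hP : P.Finite) : Sig fun x : Symbol B N × List (Symbol B N) =>
    ∃ r ∈ P, x.1 = nonterminal r.input ∧ x.2 = r.output := by
  refine (Sig.mem (f := id) (l := fun _ => hP.toFinset.toList.map
    fun r => ((nonterminal r.input : Symbol B N), r.output)) Primrec.id (Primrec.const _)).of_eq ?_
  rintro ⟨x, o⟩
  simp only [id, List.mem_map, Finset.mem_toList, Set.Finite.mem_toFinset, Prod.mk.injEq]
  exact exists_congr fun r => and_congr_right fun _ => ⟨fun h => ⟨h.1.symm, h.2.symm⟩,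
    fun h => ⟨h.1.symm, h.2.symm⟩⟩

lemma sig_Y [Finite B] (hP : P.Finite) :
    Sig fun x : List (Symbol B N) × List B => Y P x.1 x.2 := by
  have hT : Primrec (terminal : B → Symbol B N) := Primrec.dom_finite _
  let R : List (Symbol B N) × List B → List (Symbol B N) × List B → Prop := fun x y =>
    (∃ b, x.1 = terminal b :: y.1 ∧ x.2 = b :: y.2) ∨
    (∃ q : (Symbol B N × List (Symbol B N)) × List (Symbol B N),
      (∃ r ∈ P, q.1.1 = nonterminal r.input ∧ q.1.2 = r.output) ∧ x.1 = q.1.1 :: q.2 ∧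
        y.1 = q.1.2 ++ q.2 ∧ x.2 = y.2)
  have hR : Sig fun x : (List (Symbol B N) × List B) × (List (Symbol B N) × List B) =>
      R x.1 x.2 := by
    refine Sig.or (Sig.ex (Sig.and (Sig.eq (by fun_prop) (by fun_prop))
      (Sig.eq (by fun_prop) (by fun_prop)))) (Sig.ex (Sig.and ?_ (Sig.and
      (Sig.eq (by fun_prop) (by fun_prop)) (Sig.and (Sig.eq (by fun_prop) (by fun_prop))
      (Sig.eq (by fun_prop) (by fun_prop))))))
    exact (sig_rule hP).comp (Primrec.fst.comp Primrec.snd)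
  refine ((Sig.rtg hR).comp (f := fun x => (x, ([], []))) (by fun_prop)).of_eq ?_
  intro x
  simp only
  constructor
  · intro h
    induction h using Relation.ReflTransGen.head_induction_on with
    | refl => exact ⟨[], D.nil⟩
    | head h _ ih =>
      obtain ⟨rs, ih⟩ := ih
      rcases h with ⟨b, h1, h2⟩ | ⟨q, ⟨r, hr, h1, h2⟩, h3, h4, h5⟩
      · exact ⟨rs, by rw [h1, h2]; exact ih.term⟩
      · exact ⟨r :: rs, by rw [h3, h1, h5]; exact D.nt hr (by rw [← h2, ← h4]; exact ih)⟩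
  · obtain ⟨s, z⟩ := x
    rintro ⟨rs, h⟩
    simp only at h
    induction h with
    | nil => rfl
    | term _ ih =>
      refine Relation.ReflTransGen.head ?_ ih
      exact Or.inl ⟨_, rfl, rfl⟩
    | @nt r s rs w hr _ ih =>
      refine Relation.ReflTransGen.head ?_ ih
      exact Or.inr ⟨((nonterminal r.input, r.output), s), ⟨r, hr, rfl, rfl⟩, rfl, rfl, rfl⟩

lemma sig_Ctx [Finite B] (hP : P.Finite) :
    Sig fun x : List (Symbol B N) × List (Symbol B N) × List B × List B =>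
      Ctx P x.1 x.2.1 x.2.2.1 x.2.2.2 := by
  let R : List (Symbol B N) × List B × List B → List (Symbol B N) × List B × List B → Prop :=
    fun x y =>
    (∃ q : Symbol B N × List (Symbol B N) × List B, q.2.1 ≠ [] ∧ x.1 = q.1 :: q.2.1 ∧ y.1 = [q.1] ∧
      x.2.1 = y.2.1 ∧ x.2.2 = y.2.2 ++ q.2.2 ∧ Y P q.2.1 q.2.2) ∨
    (∃ q : Symbol B N × List B, y.1 ≠ [] ∧ x.1 = q.1 :: y.1 ∧
      x.2.1 = q.2 ++ y.2.1 ∧ x.2.2 = y.2.2 ∧ Y P [q.1] q.2) ∨
    (∃ e : Symbol B N, x.1 = [e] ∧ x.2 = y.2 ∧ ∃ r ∈ P, e = nonterminal r.input ∧ y.1 = r.output)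
  have hR : Sig fun x : (List (Symbol B N) × List B × List B) ×
      (List (Symbol B N) × List B × List B) => R x.1 x.2 := by
    refine Sig.or (Sig.ex (Sig.and (Sig.ne (by fun_prop) (by fun_prop))
      (Sig.and (Sig.eq (by fun_prop) (by fun_prop)) (Sig.and (Sig.eq (by fun_prop) (by fun_prop))
      (Sig.and (Sig.eq (by fun_prop) (by fun_prop)) (Sig.and (Sig.eq (by fun_prop) (by fun_prop))
      ?_)))))) (Sig.or (Sig.ex (Sig.and (Sig.ne (by fun_prop) (by fun_prop))
      (Sig.and (Sig.eq (by fun_prop) (by fun_prop)) (Sig.and (Sig.eq (by fun_prop) (by fun_prop))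
      (Sig.and (Sig.eq (by fun_prop) (by fun_prop)) ?_)))))
      (Sig.ex (Sig.and (Sig.eq (by fun_prop) (by fun_prop))
      (Sig.and (Sig.eq (by fun_prop) (by fun_prop)) ?_))))
    · exact (sig_Y hP).comp (Primrec.snd.comp Primrec.snd)
    · exact (sig_Y hP).comp (f := fun x : ((List (Symbol B N) × List B × List B) ×
        (List (Symbol B N) × List B × List B)) × Symbol B N × List B => ([x.2.1], x.2.2))
        (by fun_prop)
    · exact (sig_rule hP).comp (f := fun x : ((List (Symbol B N) × List B × List B) ×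
        (List (Symbol B N) × List B × List B)) × Symbol B N => (x.2, x.1.2.1)) (by fun_prop)
  refine ((Sig.rtg hR).comp (f := fun x : List (Symbol B N) × List (Symbol B N) × List B × List B =>
    (x.2, (x.1, [], []))) (by fun_prop)).of_eq ?_
  rintro ⟨s, x⟩
  simp only
  constructor
  · intro h
    induction h using Relation.ReflTransGen.head_induction_on with
    | refl => exact Ctx.refl
    | head h _ ih =>
      rcases h with ⟨q, h1, h2, h3, h4, h5, h6⟩ | ⟨q, h1, h2, h3, h4, h5⟩ | ⟨e, h1, h2, r, hr, h3, h4⟩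
      · rw [h2, h4, h5]; rw [h3] at ih; exact Ctx.head h1 ih h6
      · rw [h2, h3, h4]; exact Ctx.tail h1 h5 ih
      · rw [h1, h2, h3]; rw [h4] at ih; exact Ctx.rule hr ih
  · obtain ⟨s', γ, δ⟩ := x
    intro h
    simp only at h
    induction h with
    | refl => rfl
    | @head e s₂ γ δ z h1 _ h2 ih =>
      refine Relation.ReflTransGen.head ?_ ih
      exact Or.inl ⟨(e, s₂, z), h1, rfl, rfl, rfl, rfl, h2⟩
    | @tail e s₂ γ δ z h1 h2 _ ih =>
      refine Relation.ReflTransGen.head ?_ ih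
      exact Or.inr (Or.inl ⟨(e, z), h1, rfl, rfl, rfl, h2⟩)
    | rule hr _ ih =>
      refine Relation.ReflTransGen.head ?_ ih
      exact Or.inr (Or.inr ⟨_, rfl, rfl, _, hr, rfl, rfl⟩)

/-- the morphism coded by a list of words -/
def hf {A B : Type} [Encodable A] (H : List (List B)) (a : A) : List B :=
  H.getD (Encodable.encode a) []

@[fun_prop] lemma p_hf {α : Type} [Primcodable α] {f : α → List (List B)} {g : α → A}
    (hf' : Primrec f) (hg : Primrec g) : Primrec fun x => (hf (f x) (g x) : List B) :=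
  (Primrec.list_getD []).comp hf' (Primrec.encode.comp hg)

omit [Primcodable B] in
lemma exists_hf [Finite A] (f : A → List B) : ∃ H : List (List B), hf H = f := by
  obtain ⟨n, hn⟩ := (Set.finite_range (Encodable.encode : A → ℕ)).bddAbove
  refine ⟨(List.range (n + 1)).map fun i => (Encodable.decode (α := A) i).elim [] f, ?_⟩
  ext1 a
  have : Encodable.encode a < n + 1 := Nat.lt_succ_of_le (hn ⟨a, rfl⟩)
  simp [hf, List.getD_eq_getElem?_getD, this]

variable {α : Type} [Primcodable α]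

lemma sig_GenS [Finite B] (hP : P.Finite) {H : α → List (List B)} {θ : α → Ty B N}
    {w : α → List A} (hH : Primrec H) (hθ : Primrec θ) (hw : Primrec w) :
    Sig fun x => GenS P (hf (H x)) (θ x) (w x) := by
  refine Sig.ex (Sig.and ?_ (Sig.eq (by fun_prop) (by fun_prop)))
  exact (sig_Y hP).comp (f := fun x : α × List B => ((θ x.1).2.1, x.2)) (by fun_prop)

lemma sig_CtxS [Finite B] (hP : P.Finite) {H : α → List (List B)} {θ θ' : α → Ty B N}
    {γ δ : α → List A} (hH : Primrec H) (hθ' : Primrec θ') (hγ : Primrec γ) (hθ : Primrec θ)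
    (hδ : Primrec δ) : Sig fun x => CtxS P (hf (H x)) (θ' x) (γ x) (θ x) (δ x) := by
  refine Sig.ex (Sig.and ?_ (Sig.and (Sig.eq (by fun_prop) (by fun_prop))
    (Sig.eq (by fun_prop) (by fun_prop))))
  exact (sig_Ctx hP).comp (f := fun x : α × List B × List B => ((θ x.1).2.1, (θ' x.1).2.1, x.2))
    (by fun_prop)

lemma sig_Side [Finite B] [Finite I] (hP : P.Finite) (S : N) (tiles : List I) (tl : I → A)
    (ur : I → List A) {H : α → List (List B)} {y₀ g : α → List A}
    {items : α → List (Ty B N × List A × List A × List A)}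
    {ms : α → List (List (Ty B N × List A × List A))} (hH : Primrec H) (hy : Primrec y₀)
    (hg : Primrec g) (hi : Primrec items) (hm : Primrec ms) :
    Sig fun x => Side P (hf (H x)) S tiles tl ur (y₀ x) (g x) (items x) (ms x) := by
  have h1 : Primrec tl := Primrec.dom_finite _
  have h2 : Primrec ur := Primrec.dom_finite _
  refine Sig.and (Sig.all_mem hi (Sig.and (sig_GenS hP (by fun_prop) (by fun_prop) (by fun_prop))
    (Sig.eq (by fun_prop) (by fun_prop)))) (Sig.and ?_ (Sig.and ?_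
    (Sig.all_mem hm (Sig.mem (by fun_prop) (by fun_prop)))))
  · exact Sig.ex_mem hm (Sig.all_mem (by fun_prop) (Sig.ex_mem (by fun_prop)
      (sig_CtxS hP (by fun_prop) (by fun_prop) (by fun_prop) (by fun_prop) (by fun_prop))))
  · refine Sig.all_mem hm (Sig.all_mem (by fun_prop) (Sig.ex_mem (by fun_prop)
      (Sig.all_mem (by fun_prop) (Sig.ex_mem (by fun_prop) (Sig.ex (Sig.and
      (sig_CtxS hP (by fun_prop) (by fun_prop) (by fun_prop) (by fun_prop) (by fun_prop))
      (Sig.and (Sig.eq (by fun_prop) (by fun_prop)) (Sig.eq (by fun_prop) (by fun_prop)))))))))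

theorem sig_Cert [Finite B] [Finite I] (hP : P.Finite) (S : N) (tiles : List I) (tl : I → A)
    (ur vr : I → List A) :
    Sig fun y₀ : List A => ∃ H : List (List B), Cert P (hf H) S tiles tl ur vr y₀ := by
  refine Sig.ex (Sig.ex (Sig.ex (Sig.ex (Sig.ex (Sig.ex (Sig.and
    (sig_Side hP S tiles tl ur (by fun_prop) (by fun_prop) (by fun_prop) (by fun_prop) (by fun_prop))
    (Sig.and (sig_Side hP S tiles tl vr (by fun_prop) (by fun_prop) (by fun_prop) (by fun_prop)
    (by fun_prop)) (Sig.all_mem (by fun_prop) (Sig.all_mem (by fun_prop) ?_)))))))))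
  exact Sig.and (Sig.lt (by fun_prop) (by fun_prop)) (Sig.and (Sig.lt (by fun_prop) (by fun_prop))
    (Sig.lt (by fun_prop) (by fun_prop)))

end sig

end Pool.Agent.P.MP_067fd8_lc.Unif

end

section

namespace Pool.Agent.P.MP_067fd8_lc.Unif

open Symbol

section typed

variable {A B N σ : Type}

/-- types: entry state, short sentential form, exit state -/
abbrev TT (σ B N : Type) (H m : ℕ) : Type :=
  St σ B H × {s : List (Symbol B N) // s.length ≤ m} × St σ B H

instance TT.finite (σ B N : Type) (H m : ℕ) [Finite σ] [Finite B] [Finite N] :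
    Finite (TT σ B N H m) :=
  haveI : Finite {s : List (Symbol B N) // s.length ≤ m} :=
    (List.finite_length_le (Symbol B N) m).to_subtype
  inferInstance

variable {H m : ℕ} (M : DFA A σ) (f : A → List B) (P : Set (ContextFreeRule B N)) (S : N)

def Rn (p : St σ B H) (w : List A) (z : List B) (q : St σ B H) : Prop :=
  p.2.1 ++ w.flatMap f = z ++ q.2.1 ∧ M.evalFrom p.1 w = q.1

def TG (H m : ℕ) : AG (TT σ B N H m) A where
  At θ w := (θ.2.1.1 = [] ∧ Rn M f θ.1 w [] θ.2.2) ∨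
    ∃ b, θ.2.1.1 = [terminal b] ∧ Rn M f θ.1 w [b] θ.2.2
  Un θ θ' := θ'.1 = θ.1 ∧ θ'.2.2 = θ.2.2 ∧
    ∃ r ∈ P, θ.2.1.1 = [nonterminal r.input] ∧ θ'.2.1.1 = r.output
  Bin θ θ₁ θ₂ := θ₁.1 = θ.1 ∧ θ₁.2.2 = θ₂.1 ∧ θ₂.2.2 = θ.2.2 ∧
    ∃ e, θ₁.2.1.1 = [e] ∧ θ₂.2.1.1 ≠ [] ∧ θ.2.1.1 = e :: θ₂.2.1.1
  Top θ := θ.1.1 = M.start ∧ θ.1.2.1 = [] ∧ θ.2.1.1 = [nonterminal S] ∧ θ.2.2.1 ∈ M.accept ∧
    θ.2.2.2.1 = []

/-- forgetting the automaton states -/
def TT.ty (θ : TT σ B N H m) : Ty B N := (θ.1.2.1, θ.2.1.1, θ.2.2.2.1)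

variable {M f P S}

lemma Rn.refl (p : St σ B H) : Rn M f p [] [] p := ⟨by simp, rfl⟩

lemma Rn.trans {p q r : St σ B H} {w w' z z'} (h : Rn M f p w z q) (h' : Rn M f q w' z' r) :
    Rn M f p (w ++ w') (z ++ z') r := by
  refine ⟨?_, by rw [DFA.evalFrom_of_append, h.2, h'.2]⟩
  rw [List.flatMap_append, ← List.append_assoc, h.1, List.append_assoc, h'.1, List.append_assoc]

lemma Rn.split (hH : ∀ a, (f a).length ≤ H) {q : St σ B H} {z₂ : List B} (w : List A) :
    ∀ {p : St σ B H} {z₁ : List B}, Rn M f p w (z₁ ++ z₂) q →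
      ∃ w₁ w₂ r, w = w₁ ++ w₂ ∧ Rn M f p w₁ z₁ r ∧ Rn M f r w₂ z₂ q := by
  have base : ∀ (w : List A) {p : St σ B H} {z₁ : List B}, Rn M f p w (z₁ ++ z₂) q →
      z₁.length ≤ p.2.1.length →
      ∃ w₁ w₂ r, w = w₁ ++ w₂ ∧ Rn M f p w₁ z₁ r ∧ Rn M f r w₂ z₂ q := by
    intro w p z₁ h c
    obtain ⟨r, e⟩ : z₁ <+: p.2.1 := List.prefix_of_prefix_length_le
      ⟨z₂ ++ q.2.1, by rw [h.1]; simp⟩ ⟨_, rfl⟩ c
    have hr : r.length ≤ H := by
      have := congrArg List.length e
      have := p.2.2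
      simp only [List.length_append] at *
      omega
    refine ⟨[], w, (p.1, ⟨r, hr⟩), rfl, ⟨by simp [e], rfl⟩, ?_, h.2⟩
    have := h.1
    rw [← e] at this
    simpa using this
  induction w with
  | nil =>
    intro p z₁ h
    refine base _ h ?_
    have := congrArg List.length h.1
    simp only [List.flatMap_nil, List.length_append, List.length_nil] at this
    omega
  | cons a w ih =>
    intro p z₁ h
    by_cases c : z₁.length ≤ p.2.1.length
    · exact base _ h c
    · obtain ⟨z', e⟩ : p.2.1 <+: z₁ := List.prefix_of_prefix_length_le ⟨_, rfl⟩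
        ⟨z₂ ++ q.2.1, by rw [h.1]; simp⟩ (le_of_not_ge c)
      have h1 : Rn M f p [a] p.2.1 (M.step p.1 a, ⟨f a, hH a⟩) := ⟨by simp, rfl⟩
      have h2 : Rn M f (M.step p.1 a, ⟨f a, hH a⟩) w (z' ++ z₂) q := by
        refine ⟨?_, h.2⟩
        have := h.1
        rw [← e] at this
        simpa using this
      obtain ⟨w₁, w₂, r, rfl, a1, a2⟩ := ih h2
      exact ⟨a :: w₁, w₂, r, rfl, e ▸ h1.trans a1, a2⟩

lemma TG.gn_sound {θ : TT σ B N H m} {w} (h : (TG M f P S H m).Gn θ w) :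
    ∃ z, Y P θ.2.1.1 z ∧ Rn M f θ.1 w z θ.2.2 := by
  induction h with
  | atom h =>
    rcases h with ⟨e, h⟩ | ⟨b, e, h⟩
    · exact ⟨_, ⟨[], e ▸ D.nil⟩, h⟩
    · exact ⟨_, ⟨[], e ▸ D.nil.term⟩, h⟩
  | un h _ ih =>
    obtain ⟨e1, e2, r, hr, e3, e4⟩ := h
    obtain ⟨z, ⟨rs, a1⟩, a2⟩ := ih
    refine ⟨z, ⟨r :: rs, ?_⟩, e1 ▸ e2 ▸ a2⟩
    rw [e3]
    exact D.nt hr (by rw [List.append_nil, ← e4]; exact a1)
  | bin h _ _ ih1 ih2 =>
    obtain ⟨e1, e2, e3, e, e4, -, e5⟩ := h
    obtain ⟨z₁, ⟨rs₁, a1⟩, a2⟩ := ih1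
    obtain ⟨z₂, ⟨rs₂, b1⟩, b2⟩ := ih2
    refine ⟨z₁ ++ z₂, ⟨rs₁ ++ rs₂, ?_⟩, ?_⟩
    · rw [e5]; rw [e4] at a1; exact a1.append b1
    · rw [← e1, ← e3]; rw [e2] at a2; exact a2.trans b2

lemma TG.sp_sound {θ θ' : TT σ B N H m} {γ δ} (h : (TG M f P S H m).Sp θ θ' γ δ) :
    ∃ γ₀ δ₀, Ctx P θ.2.1.1 θ'.2.1.1 γ₀ δ₀ ∧ Rn M f θ'.1 γ γ₀ θ.1 ∧ Rn M f θ.2.2 δ δ₀ θ'.2.2 := by
  induction h with
  | refl => exact ⟨[], [], .refl, .refl _, .refl _⟩
  | un h _ ih =>
    obtain ⟨e1, e2, r, hr, e3, e4⟩ := h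
    obtain ⟨γ₀, δ₀, a1, a2, a3⟩ := ih
    refine ⟨γ₀, δ₀, ?_, e1 ▸ a2, e2 ▸ a3⟩
    rw [e3]
    exact .rule hr (e4 ▸ a1)
  | addR h _ h2 ih =>
    obtain ⟨e1, e2, e3, e, e4, e6, e5⟩ := h
    obtain ⟨γ₀, δ₀, a1, a2, a3⟩ := ih
    obtain ⟨z, b1, b2⟩ := TG.gn_sound h2
    refine ⟨γ₀, δ₀ ++ z, ?_, e1 ▸ a2, ?_⟩
    · rw [e5]; exact .head e6 (e4 ▸ a1) b1
    · rw [← e3]; rw [e2] at a3; exact a3.trans b2
  | addL h h2 _ ih =>
    obtain ⟨e1, e2, e3, e, e4, e6, e5⟩ := h
    obtain ⟨γ₀, δ₀, a1, a2, a3⟩ := ih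
    obtain ⟨z, b1, b2⟩ := TG.gn_sound h2
    refine ⟨z ++ γ₀, δ₀, ?_, ?_, e3 ▸ a3⟩
    · rw [e5]; exact .tail e6 (e4 ▸ b1) a1
    · rw [← e1]; rw [e2] at b2; exact b2.trans a2

lemma TG.genS {θ : TT σ B N H m} {w} (h : (TG M f P S H m).Gn θ w) : GenS P f θ.ty w := by
  obtain ⟨z, a1, a2⟩ := TG.gn_sound h
  exact ⟨z, a1, a2.1⟩

lemma TG.ctxS {θ θ' : TT σ B N H m} {γ δ} (h : (TG M f P S H m).Sp θ θ' γ δ) :
    CtxS P f θ'.ty γ θ.ty δ := by
  obtain ⟨γ₀, δ₀, a1, a2, a3⟩ := TG.sp_sound h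
  exact ⟨(γ₀, δ₀), a1, a2.1, a3.1⟩

lemma TG.complete (hH : ∀ a, (f a).length ≤ H) (hm : ∀ r ∈ P, r.output.length ≤ m) (n : ℕ) :
    ∀ (s : List (Symbol B N)) (hs : s.length ≤ m) rs z (p q : St σ B H) w, rs.length ≤ n →
      D P s rs z → Rn M f p w z q → (TG M f P S H m).Gn (p, ⟨s, hs⟩, q) w := by
  induction n using Nat.strong_induction_on with
  | _ n ihn =>
  have single : ∀ (e : Symbol B N) (hs : [e].length ≤ m) rs z (p q : St σ B H) w, rs.length ≤ n →
      D P [e] rs z → Rn M f p w z q → (TG M f P S H m).Gn (p, ⟨[e], hs⟩, q) w := by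
    intro e hs rs z p q w h1 h2 h3
    cases e with
    | terminal b =>
      obtain ⟨w', rfl, h4⟩ := D.term_iff.1 h2
      obtain ⟨rfl, rfl⟩ := D.nil_iff.1 h4
      exact .atom (Or.inr ⟨b, rfl, h3⟩)
    | nonterminal X =>
      obtain ⟨r, rs', rfl, hr, rfl, h4⟩ := D.nt_iff.1 h2
      rw [List.append_nil] at h4
      exact .un (θ' := (p, ⟨r.output, hm r hr⟩, q)) ⟨rfl, rfl, r, hr, rfl, rfl⟩
        (ihn rs'.length (by simpa using h1) _ _ rs' z p q w le_rfl h4 h3)
  intro s
  induction s with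
  | nil =>
    intro hs rs z p q w _ h2 h3
    obtain ⟨rfl, rfl⟩ := D.nil_iff.1 h2
    exact .atom (Or.inl ⟨rfl, h3⟩)
  | cons e s ih =>
    intro hs rs z p q w h1 h2 h3
    by_cases c : s = []
    · subst c; exact single e hs rs z p q w h1 h2 h3
    obtain ⟨rs₁, rs₂, z₁, z₂, rfl, rfl, a1, a2⟩ := D.split (s := [e]) h2
    obtain ⟨w₁, w₂, r, rfl, b1, b2⟩ := Rn.split hH w h3
    simp only [List.length_append, List.length_cons] at h1 hs
    exact .bin (θ₁ := (p, ⟨[e], by simp; omega⟩, r)) (θ₂ := (r, ⟨s, by omega⟩, q))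
      ⟨rfl, rfl, rfl, e, rfl, c, rfl⟩ (single e _ rs₁ z₁ p r w₁ (by omega) a1 b1)
      (ih _ rs₂ z₂ r q w₂ (by omega) a2 b2)

lemma TG.lang (hH : ∀ a, (f a).length ≤ H) (hm : ∀ r ∈ P, r.output.length ≤ m) (hm1 : 1 ≤ m)
    (w : List A) : ((∃ rs, D P [nonterminal S] rs (w.flatMap f)) ∧ w ∈ M.accepts) ↔
      ∃ θ, (TG M f P S H m).Top θ ∧ (TG M f P S H m).Gn θ w := by
  constructor
  · rintro ⟨⟨rs, h1⟩, h2⟩
    exact ⟨((M.start, ⟨[], by simp⟩), ⟨[nonterminal S], hm1⟩, (M.eval w, ⟨[], by simp⟩)),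
      ⟨rfl, rfl, rfl, h2, rfl⟩, TG.complete hH hm _ _ _ rs _ _ _ w le_rfl h1 ⟨by simp, rfl⟩⟩
  · rintro ⟨θ, ⟨e1, e2, e3, e4, e5⟩, h⟩
    obtain ⟨z, a1, a2, a3⟩ := TG.gn_sound h
    rw [e2, e5] at a2
    simp only [List.nil_append, List.append_nil] at a2
    rw [e3, ← a2] at a1
    refine ⟨a1, ?_⟩
    rw [DFA.mem_accepts, DFA.eval, ← e1, a3]
    exact e4

lemma ASide.toSide {I : Type} {tl : I → A} {ur : I → List A} {y₀ g : List A} {items ms}
    (tiles : List I) (h : ASide (TG M f P S H m) tl ur y₀ g items ms) :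
    Side P f S tiles tl ur y₀ g (items.map fun it => (it.1.ty, it.2))
      (ms.map fun x => x.map fun st => (st.1.ty, st.2)) := by
  obtain ⟨h1, ⟨x, hx, h2⟩, h3, h4⟩ := h
  refine ⟨?_, ⟨_, List.mem_map_of_mem hx, ?_⟩, ?_, ?_⟩
  · simp only [List.forall_mem_map]
    exact fun it hit => ⟨TG.genS (h1 it hit).1, (h1 it hit).2⟩
  · simp only [List.forall_mem_map]
    intro st hst
    obtain ⟨it, a1, a2⟩ := h2 st hst
    exact ⟨_, List.mem_map_of_mem a1, TG.ctxS a2⟩
  · simp only [List.forall_mem_map]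
    intro x hx t _
    obtain ⟨x', hx', h5⟩ := h3 x hx t
    refine ⟨_, List.mem_map_of_mem hx', ?_⟩
    simp only [List.forall_mem_map]
    intro st' hst'
    obtain ⟨st, a1, γ, δ, a2, a3⟩ := h5 st' hst'
    exact ⟨_, List.mem_map_of_mem a1, (γ, δ), TG.ctxS a2, a3⟩
  · simp only [List.forall_mem_map]
    intro x hx
    obtain ⟨θ, ⟨e1, e2, e3, e4, e5⟩, a⟩ := h4 x hx
    refine List.mem_map.2 ⟨_, a, ?_⟩
    simp [TT.ty, e2, e3, e5]

end typed

variable {I Γ B N σ : Type} {u v : I → List Γ} {y : List Γ}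

lemma cb_le {f : Al I Γ → List B} (hb : f Al.b ≠ []) (x : List (Al I Γ)) :
    cb x ≤ (x.flatMap f).length := by
  induction x with
  | nil => simp [cb]
  | cons e x ih =>
    have h1 := cb_append [e] x
    have h2 : cb [e] ≤ (f e).length := by
      have := List.length_pos_iff.2 hb
      cases e <;> simp [cb, isB]
      omega
    simp only [List.singleton_append, List.flatMap_cons, List.length_append] at *
    omega

lemma pre_gap {f : Al I Γ → List B} (hb : f Al.b ≠ []) {p p' g : List (Al I Γ)} (h : p <+: g)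
    (h' : p' <+: g) {H : ℕ} (c : cb p + H < cb p') :
    (p.flatMap f).length + H < (p'.flatMap f).length := by
  rcases List.prefix_or_prefix_of_prefix h h' with ⟨x, rfl⟩ | ⟨x, rfl⟩
  · have := cb_le hb x
    simp only [cb_append, List.flatMap_append, List.length_append] at *
    omega
  · simp only [cb_append] at c
    omega

lemma b_ne [Finite σ] {L0 : Set (List B)} {f : Al I Γ → List B} {M : DFA (Al I Γ) σ}
    (hL : ∀ w, w ∈ LL u v y ↔ (w.flatMap f ∈ L0 ∧ w ∈ M.accepts)) : f Al.b ≠ [] := by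
  intro hb
  obtain ⟨n, k, hne, e⟩ := Finite.exists_ne_map_eq_of_infinite
    fun n : ℕ => fun s => M.evalFrom s (List.replicate (n + 1) (Al.b : Al I Γ))
  have h1 : word [] (n + 1) (n + 1) 0 [] ∈ LL u v y := ⟨[], _, _, _, Or.inl ⟨rfl, rfl⟩⟩
  have h2 : word [] (n + 1) (k + 1) 0 [] ∈ LL u v y := by
    rw [hL] at h1 ⊢
    have e' := congrFun e (M.evalFrom M.start (List.replicate (n + 1) (Al.a : Al I Γ)))
    simp only [word, gad, List.reverse_nil, List.map_nil, List.replicate_zero, List.append_nil,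
      List.nil_append, List.flatMap_append, DFA.mem_accepts, DFA.eval, DFA.evalFrom_of_append,
      List.flatMap_replicate, hb] at h1 ⊢
    rw [← e']
    simpa using h1
  have := LL_facts h2
  simp only [ca, cb, cc, word_isA, word_isB, word_isC] at this
  omega

/-- completeness of certificates -/
theorem cert_complete [Finite I] [Finite Γ] [Finite B] [Finite N] [Finite σ]
    {P : Set (ContextFreeRule B N)} (hP : P.Finite) {S : N} {L0 : Set (List B)} (hG : UG P S L0)
    {f : Al I Γ → List B} {M : DFA (Al I Γ) σ}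
    (hL : ∀ w, w ∈ LL u v y ↔ (w.flatMap f ∈ L0 ∧ w ∈ M.accepts))
    (hno : ¬ ∃ τ : List I, τ.flatMap u = y ++ τ.flatMap v) (hu : ∀ t, u t ≠ [])
    (hv : ∀ t, v t ≠ []) (tiles : List I) :
    Cert P f S tiles Al.t (fun t => (u t).map Al.g) (fun t => (v t).map Al.g) (y.map Al.g) := by
  have hb := b_ne hL
  obtain ⟨H, hH⟩ := exists_image_bound f
  obtain ⟨m, hm1, hm⟩ := exists_output_bound hP
  obtain ⟨g, iU, iV, mU, mV, h1, h2, h3⟩ := abs_cert (G := TG M f P S H m) (K := H + 1)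
    (fun w => by rw [hL, hG.1, TG.lang hH hm hm1]) hno hu hv (by
      intro θ w h
      have a1 := cb_le hb w
      have a2 := θ.2.2.2.2
      unfold cb at a1
      rcases h with ⟨-, h, -⟩ | ⟨b, -, h, -⟩
      all_goals
        have := congrArg List.length h
        simp only [List.length_append, List.length_cons, List.length_nil] at this
        omega) H
  refine ⟨g, _, _, _, _, h1.toSide tiles, h2.toSide tiles, ?_⟩
  simp only [List.forall_mem_map]
  intro it hit it' hit'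
  obtain ⟨a1, a2, a3⟩ := h3 it hit it' hit'
  have e := (h1.1 it hit).2
  have e' := (h2.1 it' hit').2
  have p1 : it.2.1 <+: g := ⟨it.2.2.1 ++ it.2.2.2, by rw [← e]; simp⟩
  have p2 : it'.2.1 <+: g := ⟨it'.2.2.1 ++ it'.2.2.2, by rw [← e']; simp⟩
  have b1 := pre_gap hb p1 p2 a1
  have b2 := pre_gap hb p2 ⟨_, e⟩ a2
  have b3 := pre_gap hb ⟨_, e⟩ ⟨_, e'⟩ a3
  have c1 := it'.1.1.2.2
  have c2 := it.1.2.2.2.2
  have c3 := it'.1.2.2.2.2
  simp only [Crosses, TT.ty]
  omega

end Pool.Agent.P.MP_067fd8_lc.Unif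

end

section

namespace Pool.Agent.P.MP_067fd8_lc.Unif

open Turing

/-! ## String rewriting and the modified Post correspondence problem -/

/-- One rewriting step. -/
def RStep {Δ : Type} (Ru : List Δ → List Δ → Prop) (x y : List Δ) : Prop :=
  ∃ p q l r, Ru l r ∧ x = p ++ l ++ q ∧ y = p ++ r ++ q

/-- Tiles of the correspondence problem attached to a rewriting system. -/
abbrev Tile {Δ : Type} (Ru : List Δ → List Δ → Prop) : Type :=
  Option Δ ⊕ {lr : List Δ × List Δ // Ru lr.1 lr.2} ⊕ Unit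

def tileU {Δ : Type} (Ru : List Δ → List Δ → Prop) (z : List Δ) : Tile Ru → List (Option Δ)
  | .inl x => [x]
  | .inr (.inl lr) => lr.1.1.map some
  | .inr (.inr _) => z.map some ++ [none, none]

def tileV {Δ : Type} (Ru : List Δ → List Δ → Prop) : Tile Ru → List (Option Δ)
  | .inl x => [x]
  | .inr (.inl lr) => lr.1.2.map some
  | .inr (.inr _) => [none]

lemma flatMap_copyU {Δ : Type} (Ru : List Δ → List Δ → Prop) (z : List Δ) (p : List (Option Δ)) :
    (p.map Sum.inl).flatMap (tileU Ru z) = p := by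
  induction p with
  | nil => rfl
  | cons a p ih => simp [tileU, ih]

lemma flatMap_copyV {Δ : Type} (Ru : List Δ → List Δ → Prop) (p : List (Option Δ)) :
    (p.map Sum.inl).flatMap (tileV Ru) = p := by
  induction p with
  | nil => rfl
  | cons a p ih => simp [tileV, ih]

lemma mpcp_complete {Δ : Type} (Ru : List Δ → List Δ → Prop) (z x : List Δ)
    (h : Relation.ReflTransGen (RStep Ru) x z) :
    ∃ τ : List (Tile Ru), τ.flatMap (tileU Ru z) =
      (x.map some ++ [none]) ++ τ.flatMap (tileV Ru) := by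
  induction h using Relation.ReflTransGen.head_induction_on with
  | refl => exact ⟨[.inr (.inr ())], by simp [tileU, tileV]⟩
  | head hs _ ih =>
    obtain ⟨p, q, l, r, hr, rfl, rfl⟩ := hs
    obtain ⟨τ, hτ⟩ := ih
    refine ⟨(p.map some).map Sum.inl ++ [.inr (.inl ⟨(l, r), hr⟩)] ++
      (q.map some ++ [none]).map Sum.inl ++ τ, ?_⟩
    simp only [List.flatMap_append, flatMap_copyU, flatMap_copyV, hτ]
    simp [tileU, tileV]

lemma map_some_pre {Δ : Type} (l q : List Δ) (x y : List (Option Δ))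
    (h : l.map some ++ x = q.map some ++ none :: y) :
    ∃ q', q = l ++ q' ∧ x = q'.map some ++ none :: y := by
  induction l generalizing q with
  | nil => exact ⟨q, rfl, by simpa using h⟩
  | cons a l ih =>
    cases q with
    | nil => simp at h
    | cons b q =>
      simp only [List.map_cons, List.cons_append, List.cons.injEq, Option.some.injEq] at h
      obtain ⟨q', rfl, h2⟩ := ih q h.2
      exact ⟨q', by simp [h.1], h2⟩

lemma mpcp_sound {Δ : Type} (Ru : List Δ → List Δ → Prop) (z : List Δ) (τ : List (Tile Ru)) :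
    ∀ p q : List Δ, τ.flatMap (tileU Ru z) =
      q.map some ++ none :: (p.map some ++ τ.flatMap (tileV Ru)) →
      Relation.ReflTransGen (RStep Ru) (p ++ q) z := by
  induction τ with
  | nil => intro p q h; simp at h
  | cons t τ ih =>
    intro p q h
    rcases t with (_ | d) | ⟨⟨l, r⟩, hr⟩ | _
    · cases q with
      | cons b q => simp [tileU] at h
      | nil =>
        simp only [List.flatMap_cons, tileU, tileV, List.map_nil, List.nil_append,
          List.singleton_append, List.cons.injEq, true_and] at h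
        simpa using ih [] p (by simpa using h)
    · cases q with
      | nil => simp [tileU] at h
      | cons b q =>
        simp only [List.flatMap_cons, tileU, tileV, List.map_cons, List.cons_append,
          List.nil_append, List.cons.injEq, Option.some.injEq] at h
        have := ih (p ++ [d]) q (by simpa using h.2)
        simpa [h.1] using this
    · simp only [List.flatMap_cons, tileU, tileV] at h
      obtain ⟨q', rfl, h2⟩ := map_some_pre _ _ _ _ h
      have := ih (p ++ r) q' (by simpa using h2)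
      exact Relation.ReflTransGen.head ⟨p, q', l, r, hr, by simp, rfl⟩ this
    · simp only [List.flatMap_cons, tileU, tileV, List.append_assoc] at h
      obtain ⟨q', rfl, h2⟩ := map_some_pre _ _ _ _ h
      cases q' with
      | cons b q' => simp at h2
      | nil =>
        cases p with
        | cons b p => simp at h2
        | nil => simpa using Relation.ReflTransGen.refl

/-! ## Turing machines as rewriting systems -/

inductive Dl (G Q : Type) : Type
  | s (g : G) | h (q : Q) (a : G) | l | r | H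

instance {G Q : Type} [Finite G] [Finite Q] : Finite (Dl G Q) := by
  refine Finite.of_surjective (α := G ⊕ (Q × G) ⊕ Fin 3)
    (fun x => match x with
      | .inl g => .s g
      | .inr (.inl (q, a)) => .h q a
      | .inr (.inr 0) => .l
      | .inr (.inr 1) => .r
      | .inr (.inr 2) => .H) ?_
  intro x
  cases x with
  | s g => exact ⟨.inl g, rfl⟩
  | h q a => exact ⟨.inr (.inl (q, a)), rfl⟩
  | l => exact ⟨.inr (.inr 0), rfl⟩
  | r => exact ⟨.inr (.inr 1), rfl⟩
  | H => exact ⟨.inr (.inr 2), rfl⟩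

section
variable {G Λ : Type} [Inhabited G] [Inhabited Λ] (M : TM0.Machine G Λ) (S : Finset Λ)

inductive TRule : List (Dl G S) → List (Dl G S) → Prop
  | write (q q' : S) (a b : G) : M q a = some (q'.1, .write b) → TRule [.h q a] [.h q' b]
  | right (q q' : S) (a c : G) : M q a = some (q'.1, .move .right) →
      TRule [.h q a, .s c] [.s a, .h q' c]
  | left (q q' : S) (a c : G) : M q a = some (q'.1, .move .left) →
      TRule [.s c, .h q a] [.h q' c, .s a]
  | halt (q : S) (a : G) : M q a = none → TRule [.h q a] [.H]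
  | bl : TRule [.l] [.l, .s default]
  | br : TRule [.r] [.s default, .r]
  | cl (c : G) : TRule [.s c, .H] [.H]
  | cr (c : G) : TRule [.H, .s c] [.H]

def cf (L : List G) (x : Dl G S) (R : List G) : List (Dl G S) :=
  .l :: (L.reverse.map .s ++ x :: (R.map .s ++ [.r]))

def tcf (L : List G) (q : Λ) (a : G) (R : List G) : TM0.Cfg G Λ :=
  ⟨q, ⟨a, ListBlank.mk L, ListBlank.mk R⟩⟩

lemma clean (L R : List G) :
    Relation.ReflTransGen (RStep (TRule M S)) (cf S L .H R) [.l, .H, .r] := by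
  induction L with
  | cons c L ih =>
    exact Relation.ReflTransGen.head ⟨.l :: L.reverse.map .s, R.map .s ++ [.r], _, _, .cl c,
      by simp [cf], by simp [cf]⟩ ih
  | nil =>
    induction R with
    | nil => exact Relation.ReflTransGen.refl
    | cons c R ih =>
      exact Relation.ReflTransGen.head ⟨[.l], R.map .s ++ [.r], _, _, .cr c,
        by simp [cf], by simp [cf]⟩ ih

lemma mk_blank (L : List G) : ListBlank.mk (L ++ [default]) = ListBlank.mk L :=
  Quotient.sound' (Or.inr ⟨1, rfl⟩)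

lemma tm_complete (hS : TM0.Supports M S) (c e : TM0.Cfg G Λ)
    (h : StateTransition.Reaches (TM0.step M) c e) (he : TM0.step M e = none) :
    ∀ L (q : S) a R, c = tcf L q.1 a R →
      Relation.ReflTransGen (RStep (TRule M S)) (cf S L (.h q a) R) [.l, .H, .r] := by
  induction h using Relation.ReflTransGen.head_induction_on with
  | refl =>
    rintro L q a R rfl
    have : M q a = none := by simpa [TM0.step, tcf] using he
    exact Relation.ReflTransGen.head ⟨.l :: L.reverse.map .s, R.map .s ++ [.r], _, _,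
      .halt q a this, by simp [cf], by simp [cf]⟩ (clean M S L R)
  | @head c c' hs _ ih =>
    rintro L q a R rfl
    simp only [TM0.step, tcf, Option.mem_def, Option.map_eq_some_iff] at hs
    obtain ⟨⟨q', st⟩, hM, rfl⟩ := hs
    have hq' : q' ∈ S := hS.2 (Option.mem_def.2 hM) q.2
    rcases st with (_ | _) | b
    · -- left
      have key : ∀ c L', ListBlank.mk L = ListBlank.mk (c :: L') →
          Relation.ReflTransGen (RStep (TRule M S)) (cf S (c :: L') (.h q a) R) [.l, .H, .r] := by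
        intro c L' hL
        refine Relation.ReflTransGen.head ⟨.l :: L'.reverse.map .s, R.map .s ++ [.r], _, _,
          .left q ⟨q', hq'⟩ a c hM, by simp [cf], ?_⟩ (ih L' ⟨q', hq'⟩ c (a :: R) ?_)
        · simp [cf]
        · simp [tcf, Tape.move, hL]
      cases L with
      | cons c L' => exact key c L' rfl
      | nil =>
        exact Relation.ReflTransGen.head ⟨[], .h q a :: (R.map .s ++ [.r]), _, _, .bl,
          by simp [cf], by simp [cf]⟩ (key default [] (mk_blank []).symm)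
    · -- right
      have key : ∀ c R', ListBlank.mk R = ListBlank.mk (c :: R') →
          Relation.ReflTransGen (RStep (TRule M S)) (cf S L (.h q a) (c :: R')) [.l, .H, .r] := by
        intro c R' hR
        refine Relation.ReflTransGen.head ⟨.l :: L.reverse.map .s, R'.map .s ++ [.r], _, _,
          .right q ⟨q', hq'⟩ a c hM, by simp [cf], ?_⟩ (ih (a :: L) ⟨q', hq'⟩ c R' ?_)
        · simp [cf]
        · simp [tcf, Tape.move, hR]
      cases R with
      | cons c R' => exact key c R' rfl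
      | nil =>
        exact Relation.ReflTransGen.head ⟨.l :: (L.reverse.map .s ++ [.h q a]), [], _, _, .br,
          by simp [cf], by simp [cf]⟩ (key default [] (mk_blank []).symm)
    · refine Relation.ReflTransGen.head ⟨.l :: L.reverse.map .s, R.map .s ++ [.r], _, _,
          .write q ⟨q', hq'⟩ a b hM, by simp [cf], ?_⟩ (ih L ⟨q', hq'⟩ b R ?_)
      · simp [cf]
      · simp [tcf, Tape.write]

lemma uniq_pos {α : Type} (P : α → Prop) {p r p' r' : List α} {x y : α}
    (h : p ++ x :: r = p' ++ y :: r') (hx : P x) (hp : ∀ z ∈ p', ¬ P z) (hr : ∀ z ∈ r', ¬ P z) :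
    p = p' ∧ x = y ∧ r = r' := by
  rcases List.append_eq_append_iff.1 h with ⟨a, rfl, h2⟩ | ⟨c, rfl, h2⟩
  · cases a with
    | nil => simpa using h2
    | cons z a =>
      simp only [List.cons_append, List.cons.injEq] at h2
      exact (hp x (by simp [h2.1]) hx).elim
  · cases c with
    | nil =>
      simp only [List.nil_append, List.cons.injEq] at h2
      simp [h2.1, h2.2]
    | cons z c =>
      simp only [List.cons_append, List.cons.injEq] at h2
      exact (hr x (by simp [h2.2]) hx).elim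

def isH {G Q : Type} : Dl G Q → Prop
  | .h _ _ => True
  | _ => False

omit [Inhabited G] [Inhabited Λ] in
lemma cf_pos {L R : List G} {q q' : S} {a a' : G} {p r : List (Dl G S)}
    (h : cf S L (.h q a) R = p ++ .h q' a' :: r) :
    p = .l :: L.reverse.map .s ∧ q' = q ∧ a' = a ∧ r = R.map .s ++ [.r] := by
  have := uniq_pos isH (p := p) (r := r) (p' := .l :: L.reverse.map .s) (r' := R.map .s ++ [.r])
    (x := .h q' a') (y := .h q a) (by rw [← h]; simp [cf]) trivial
    (by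
      intro z hz
      simp only [List.mem_cons, List.mem_map] at hz
      rcases hz with rfl | ⟨_, _, rfl⟩ <;> simp [isH])
    (by
      intro z hz
      simp only [List.mem_append, List.mem_map, List.mem_singleton] at hz
      rcases hz with ⟨_, _, rfl⟩ | rfl <;> simp [isH])
  simpa [and_assoc] using this

lemma tm_inv {x y : List (Dl G S)} (hs : RStep (TRule M S) x y)
    (hx : ∃ L, ∃ q : S, ∃ a R, x = cf S L (.h q a) R ∧
      ¬ (StateTransition.eval (TM0.step M) (tcf L q.1 a R)).Dom) :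
    ∃ L, ∃ q : S, ∃ a R, y = cf S L (.h q a) R ∧
      ¬ (StateTransition.eval (TM0.step M) (tcf L q.1 a R)).Dom := by
  obtain ⟨L, q, a, R, rfl, hn⟩ := hx
  obtain ⟨p, r, l', r', hr, hx, rfl⟩ := hs
  have adv : ∀ c', TM0.step M (tcf L q.1 a R) = some c' →
      ¬ (StateTransition.eval (TM0.step M) c').Dom := by
    intro c' hc'
    rwa [← StateTransition.reaches_eval (Relation.ReflTransGen.single (Option.mem_def.2 hc'))]
  cases hr with
  | write q₁ q' a₁ b hM =>
    obtain ⟨rfl, rfl, rfl, rfl⟩ := cf_pos S (p := p) (r := r) (q' := q₁) (a' := a₁)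
      (by simpa using hx)
    refine ⟨L, q', b, R, by simp [cf], adv _ ?_⟩
    simp [TM0.step, tcf, hM, Tape.write]
  | right q₁ q' a₁ c hM =>
    obtain ⟨rfl, rfl, rfl, h4⟩ := cf_pos S (p := p) (r := .s c :: r) (q' := q₁) (a' := a₁)
      (by simpa using hx)
    cases R with
    | nil => simp at h4
    | cons c' R =>
      simp only [List.map_cons, List.cons_append, List.cons.injEq, Dl.s.injEq] at h4
      obtain ⟨rfl, rfl⟩ := h4
      refine ⟨a₁ :: L, q', c, R, by simp [cf], adv _ ?_⟩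
      simp [TM0.step, tcf, hM, Tape.move]
  | left q₁ q' a₁ c hM =>
    obtain ⟨h1, rfl, rfl, rfl⟩ := cf_pos S (p := p ++ [.s c]) (r := r) (q' := q₁) (a' := a₁)
      (by simpa using hx)
    cases L with
    | nil =>
      have := congrArg List.getLast? h1
      simp at this
    | cons c' L =>
      have h2 : p ++ [Dl.s c] = (.l :: L.reverse.map .s) ++ [Dl.s c'] := by simpa using h1
      obtain ⟨rfl, h3⟩ := List.append_inj' h2 rfl
      simp only [List.cons.injEq, Dl.s.injEq, and_true] at h3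
      subst h3
      refine ⟨L, q', c, a₁ :: R, by simp [cf], adv _ ?_⟩
      simp [TM0.step, tcf, hM, Tape.move]
  | halt q₁ a₁ hM =>
    obtain ⟨rfl, rfl, rfl, rfl⟩ := cf_pos S (p := p) (r := r) (q' := q₁) (a' := a₁)
      (by simpa using hx)
    exfalso
    apply hn
    exact Part.dom_iff_mem.2 ⟨_, StateTransition.mem_eval.2 ⟨Relation.ReflTransGen.refl,
      by simp [TM0.step, tcf, hM]⟩⟩
  | bl =>
    obtain ⟨rfl, -, rfl⟩ := uniq_pos (· = Dl.l) (p := p) (r := r) (p' := [])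
      (r' := L.reverse.map .s ++ .h q a :: (R.map .s ++ [.r])) (x := .l) (y := .l)
      (by simpa [cf] using hx.symm) rfl (by simp) (by simp; rintro _ (⟨_, _, rfl⟩ | rfl | ⟨_, _, rfl⟩ | rfl) <;> simp)
    refine ⟨L ++ [default], q, a, R, by simp [cf], ?_⟩
    simpa [tcf, mk_blank] using hn
  | br =>
    obtain ⟨rfl, -, rfl⟩ := uniq_pos (· = Dl.r) (p := p) (r := r) (r' := [])
      (p' := .l :: (L.reverse.map .s ++ .h q a :: R.map .s)) (x := .r) (y := .r)
      (by simpa [cf] using hx.symm) rfl (by simp; rintro _ (⟨_, _, rfl⟩ | rfl | ⟨_, _, rfl⟩) <;> simp) (by simp)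
    refine ⟨L, q, a, R ++ [default], by simp [cf], ?_⟩
    simpa [tcf, mk_blank] using hn
  | cl c =>
    have : Dl.H ∈ cf S L (.h q a) R := by rw [hx]; simp
    simp [cf] at this
  | cr c =>
    have : Dl.H ∈ cf S L (.h q a) R := by rw [hx]; simp
    simp [cf] at this

lemma tm_thue (hS : TM0.Supports M S) (L : List G) (q : S) (a : G) (R : List G) :
    Relation.ReflTransGen (RStep (TRule M S)) (cf S L (.h q a) R) [.l, .H, .r] ↔
      (StateTransition.eval (TM0.step M) (tcf L q.1 a R)).Dom := by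
  constructor
  · intro h
    by_contra hn
    have key : ∀ y, Relation.ReflTransGen (RStep (TRule M S)) (cf S L (.h q a) R) y →
        ∃ L, ∃ q : S, ∃ a R, y = cf S L (.h q a) R ∧
          ¬ (StateTransition.eval (TM0.step M) (tcf L q.1 a R)).Dom := by
      intro y hy
      induction hy with
      | refl => exact ⟨L, q, a, R, rfl, hn⟩
      | tail _ hs ih => exact tm_inv M S hs ih
    obtain ⟨L', q', a', R', he, -⟩ := key _ h
    have : Dl.H ∈ cf S L' (.h q' a') R' := by rw [← he]; simp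
    simp [cf] at this
  · intro h
    obtain ⟨e, he⟩ := Part.dom_iff_mem.1 h
    obtain ⟨h1, h2⟩ := StateTransition.mem_eval.1 he
    exact tm_complete M S hS _ e h1 h2 L q a R rfl

lemma TRule.len {l r : List (Dl G S)} (h : TRule M S l r) :
    l ≠ [] ∧ r ≠ [] ∧ l.length ≤ 2 ∧ r.length ≤ 2 := by
  cases h <;> simp

end

/-- The modified Post correspondence problem with fixed tiles is not co-r.e. -/
theorem mpcp_undec : ∃ (I Γ : Type) (_ : Finite I) (_ : Finite Γ) (u v : I → List Γ)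
    (y : ℕ → List Γ), (∀ t, u t ≠ []) ∧ (∀ t, v t ≠ []) ∧ (∀ x, ∃ t, u t = [x]) ∧
    (∀ (A : Type) [Primcodable A] (φ : Γ → A), Primrec fun n => (y n).map φ) ∧
    ¬ REPred fun n => ¬ ∃ τ : List I, τ.flatMap u = y n ++ τ.flatMap v := by
  obtain ⟨G, Λ, _, _, _, M, S, c₀, R, hS, hR, hre⟩ := tm0_undec
  have hfin : Finite {lr : List (Dl G S) × List (Dl G S) // TRule M S lr.1 lr.2} := by
    have h1 := List.finite_length_le (Dl G S) 2
    exact (h1.prod h1).subset (t := {lr | TRule M S lr.1 lr.2})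
      fun lr h => ⟨(TRule.len M S h).2.2.1, (TRule.len M S h).2.2.2⟩
  let q₀ : S := ⟨default, hS.1⟩
  refine ⟨Tile (TRule M S), Option (Dl G S), inferInstance, inferInstance,
    tileU (TRule M S) [.l, .H, .r], tileV (TRule M S),
    fun n => (cf S [] (.h q₀ c₀) (R n)).map some ++ [none], ?_, ?_, ?_, ?_, ?_⟩
  · rintro (x | ⟨⟨l, r⟩, hr⟩ | _)
    · simp [tileU]
    · simpa [tileU] using (TRule.len M S hr).1
    · simp [tileU]
  · rintro (x | ⟨⟨l, r⟩, hr⟩ | _)
    · simp [tileV]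
    · simpa [tileV] using (TRule.len M S hr).2.1
    · simp [tileV]
  · exact fun x => ⟨.inl x, rfl⟩
  · intro A _ φ
    have := hR A fun g => φ (some (.s g))
    refine (Primrec.list_append.comp (Primrec.const [φ (some .l), φ (some (.h q₀ c₀))])
      (Primrec.list_append.comp this (Primrec.const [φ (some .r), φ none]))).of_eq fun n => ?_
    simp [cf]
  · intro h
    apply hre
    refine h.of_eq fun n => not_congr ?_
    have e : (TM0.eval M (c₀ :: R n)).Dom ↔
        (StateTransition.eval (TM0.step M) (tcf [] q₀.1 c₀ (R n))).Dom := Iff.rfl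
    rw [e, ← tm_thue M S hS]
    constructor
    · rintro ⟨τ, hτ⟩
      simpa using mpcp_sound (TRule M S) _ τ [] (cf S [] (.h q₀ c₀) (R n)) (by simpa using hτ)
    · exact mpcp_complete _ _ _

end Pool.Agent.P.MP_067fd8_lc.Unif

end

section

namespace Pool.Agent.P.MP_067fd8_lc.Unif

open Symbol

section gen

variable {α ρ : Type} [Primcodable α] [Primcodable ρ]

lemma Sig.of_re {p : α → Prop} (h : REPred p) : Sig p := by
  obtain ⟨c, hc⟩ := Nat.Partrec.Code.exists_code.1 h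
  refine ⟨ℕ, inferInstance,
    fun x => (Nat.Partrec.Code.evaln x.2 c (Encodable.encode x.1)).isSome = true, ?_, fun a => ?_⟩
  · refine Primrec.eq.comp (Primrec.option_isSome.comp
      (Nat.Partrec.Code.primrec_evaln.comp (((Primrec.snd.pair (Primrec.const c))).pair
        (Primrec.encode.comp Primrec.fst)))) (Primrec.const true)
  · have e : p a ↔ ∃ x, x ∈ c.eval (Encodable.encode a) := by
      rw [hc]
      simp [Part.mem_assert_iff]
    rw [e]
    simp only [Nat.Partrec.Code.evaln_complete, Option.isSome_iff_exists]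
    exact ⟨fun ⟨x, k, hk⟩ => ⟨k, x, hk⟩, fun ⟨k, x, hk⟩ => ⟨x, k, hk⟩⟩

lemma Sig.rtgP {R : ρ → α → α → Prop} (hR : Sig fun x : ρ × α × α => R x.1 x.2.1 x.2.2) :
    Sig fun x : ρ × α × α => Relation.ReflTransGen (R x.1) x.2.1 x.2.2 := by
  let R' : ρ × α → ρ × α → Prop := fun x y => y.1 = x.1 ∧ R x.1 x.2 y.2
  have h1 : Sig fun x : (ρ × α) × (ρ × α) => R' x.1 x.2 :=
    Sig.and (Sig.eq (by fun_prop) (by fun_prop))
      (hR.comp (f := fun x : (ρ × α) × (ρ × α) => (x.1.1, x.1.2, x.2.2)) (by fun_prop))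
  refine ((Sig.rtg h1).comp (f := fun x : ρ × α × α => ((x.1, x.2.1), (x.1, x.2.2)))
    (by fun_prop)).of_eq ?_
  rintro ⟨l, a, b⟩
  simp only
  constructor
  · intro h
    have key : ∀ y : ρ × α, Relation.ReflTransGen R' (l, a) y →
        y.1 = l ∧ Relation.ReflTransGen (R l) a y.2 := by
      intro y hy
      induction hy with
      | refl => exact ⟨rfl, Relation.ReflTransGen.refl⟩
      | tail _ h2 ih => exact ⟨h2.1.trans ih.1, ih.2.tail (ih.1 ▸ h2.2)⟩
    exact (key _ h).2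
  · intro h
    induction h with
    | refl => exact Relation.ReflTransGen.refl
    | tail _ h2 ih => exact ih.tail ⟨rfl, h2⟩

end gen

/-- the rule set coded by a list -/
def PL {B N : Type} (l : List (Symbol B N × List (Symbol B N))) : Set (ContextFreeRule B N) :=
  {r | (nonterminal r.input, r.output) ∈ l}

section sig

open Pool.Agent.Lib.PrimrecProp

variable {A B N I : Type} [Primcodable A] [Primcodable B] [Primcodable N]
  [Primcodable (Symbol B N)] [Primcodable I]

omit [Primcodable B] in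
lemma sigU_rule (hN : Primrec (nonterminal : N → Symbol B N)) :
    Sig fun x : List (Symbol B N × List (Symbol B N)) × Symbol B N × List (Symbol B N) =>
      ∃ r ∈ PL x.1, x.2.1 = nonterminal r.input ∧ x.2.2 = r.output := by
  have h : Sig fun x : List (Symbol B N × List (Symbol B N)) × Symbol B N × List (Symbol B N) =>
      x.2 ∈ x.1 ∧ ∃ X : N, x.2.1 = nonterminal X :=
    Sig.and (Sig.mem (by fun_prop) (by fun_prop))
      (Sig.ex (Sig.eq (by fun_prop) (hN.comp Primrec.snd)))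
  refine h.of_eq ?_
  rintro ⟨l, x, o⟩
  simp only
  constructor
  · rintro ⟨h1, X, rfl⟩
    exact ⟨⟨X, o⟩, h1, rfl, rfl⟩
  · rintro ⟨r, hr, rfl, rfl⟩
    exact ⟨hr, _, rfl⟩

lemma sigU_Y (hT : Primrec (terminal : B → Symbol B N))
    (hN : Primrec (nonterminal : N → Symbol B N)) :
    Sig fun x : List (Symbol B N × List (Symbol B N)) × List (Symbol B N) × List B =>
      Y (PL x.1) x.2.1 x.2.2 := by
  let R : List (Symbol B N × List (Symbol B N)) → List (Symbol B N) × List B →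
      List (Symbol B N) × List B → Prop := fun l x y =>
    (∃ b, x.1 = terminal b :: y.1 ∧ x.2 = b :: y.2) ∨
    (∃ q : (Symbol B N × List (Symbol B N)) × List (Symbol B N),
      (∃ r ∈ PL l, q.1.1 = nonterminal r.input ∧ q.1.2 = r.output) ∧ x.1 = q.1.1 :: q.2 ∧
        y.1 = q.1.2 ++ q.2 ∧ x.2 = y.2)
  have hR : Sig fun x : List (Symbol B N × List (Symbol B N)) × (List (Symbol B N) × List B) ×
      (List (Symbol B N) × List B) => R x.1 x.2.1 x.2.2 := by
    refine Sig.or (Sig.ex (Sig.and (Sig.eq (by fun_prop) (by fun_prop))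
      (Sig.eq (by fun_prop) (by fun_prop)))) (Sig.ex (Sig.and ?_ (Sig.and
      (Sig.eq (by fun_prop) (by fun_prop)) (Sig.and (Sig.eq (by fun_prop) (by fun_prop))
      (Sig.eq (by fun_prop) (by fun_prop))))))
    exact (sigU_rule hN).comp (f := fun x : (List (Symbol B N × List (Symbol B N)) ×
      (List (Symbol B N) × List B) × (List (Symbol B N) × List B)) ×
      (Symbol B N × List (Symbol B N)) × List (Symbol B N) => (x.1.1, x.2.1)) (by fun_prop)
  refine ((Sig.rtgP hR).comp (f := fun x : List (Symbol B N × List (Symbol B N)) ×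
    List (Symbol B N) × List B => (x.1, x.2, ([], []))) (by fun_prop)).of_eq ?_
  rintro ⟨l, x⟩
  simp only
  constructor
  · intro h
    induction h using Relation.ReflTransGen.head_induction_on with
    | refl => exact ⟨[], D.nil⟩
    | head h _ ih =>
      obtain ⟨rs, ih⟩ := ih
      rcases h with ⟨b, h1, h2⟩ | ⟨q, ⟨r, hr, h1, h2⟩, h3, h4, h5⟩
      · exact ⟨rs, by rw [h1, h2]; exact ih.term⟩
      · exact ⟨r :: rs, by rw [h3, h1, h5]; exact D.nt hr (by rw [← h2, ← h4]; exact ih)⟩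
  · obtain ⟨s, z⟩ := x
    rintro ⟨rs, h⟩
    simp only at h
    induction h with
    | nil => rfl
    | term _ ih =>
      refine Relation.ReflTransGen.head ?_ ih
      exact Or.inl ⟨_, rfl, rfl⟩
    | @nt r s rs w hr _ ih =>
      refine Relation.ReflTransGen.head ?_ ih
      exact Or.inr ⟨((nonterminal r.input, r.output), s), ⟨r, hr, rfl, rfl⟩, rfl, rfl, rfl⟩

lemma sigU_Ctx (hT : Primrec (terminal : B → Symbol B N))
    (hN : Primrec (nonterminal : N → Symbol B N)) :
    Sig fun x : List (Symbol B N × List (Symbol B N)) × List (Symbol B N) × List (Symbol B N) ×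
      List B × List B => Ctx (PL x.1) x.2.1 x.2.2.1 x.2.2.2.1 x.2.2.2.2 := by
  let R : List (Symbol B N × List (Symbol B N)) → List (Symbol B N) × List B × List B →
      List (Symbol B N) × List B × List B → Prop :=
    fun l x y =>
    (∃ q : Symbol B N × List (Symbol B N) × List B, q.2.1 ≠ [] ∧ x.1 = q.1 :: q.2.1 ∧ y.1 = [q.1] ∧
      x.2.1 = y.2.1 ∧ x.2.2 = y.2.2 ++ q.2.2 ∧ Y (PL l) q.2.1 q.2.2) ∨
    (∃ q : Symbol B N × List B, y.1 ≠ [] ∧ x.1 = q.1 :: y.1 ∧
      x.2.1 = q.2 ++ y.2.1 ∧ x.2.2 = y.2.2 ∧ Y (PL l) [q.1] q.2) ∨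
    (∃ e : Symbol B N, x.1 = [e] ∧ x.2 = y.2 ∧
      ∃ r ∈ PL l, e = nonterminal r.input ∧ y.1 = r.output)
  have hR : Sig fun x : List (Symbol B N × List (Symbol B N)) ×
      (List (Symbol B N) × List B × List B) ×
      (List (Symbol B N) × List B × List B) => R x.1 x.2.1 x.2.2 := by
    refine Sig.or (Sig.ex (Sig.and (Sig.ne (by fun_prop) (by fun_prop))
      (Sig.and (Sig.eq (by fun_prop) (by fun_prop)) (Sig.and (Sig.eq (by fun_prop) (by fun_prop))
      (Sig.and (Sig.eq (by fun_prop) (by fun_prop)) (Sig.and (Sig.eq (by fun_prop) (by fun_prop))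
      ?_)))))) (Sig.or (Sig.ex (Sig.and (Sig.ne (by fun_prop) (by fun_prop))
      (Sig.and (Sig.eq (by fun_prop) (by fun_prop)) (Sig.and (Sig.eq (by fun_prop) (by fun_prop))
      (Sig.and (Sig.eq (by fun_prop) (by fun_prop)) ?_)))))
      (Sig.ex (Sig.and (Sig.eq (by fun_prop) (by fun_prop))
      (Sig.and (Sig.eq (by fun_prop) (by fun_prop)) ?_))))
    · exact (sigU_Y hT hN).comp (f := fun x : (List (Symbol B N × List (Symbol B N)) ×
        (List (Symbol B N) × List B × List B) × (List (Symbol B N) × List B × List B)) ×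
        Symbol B N × List (Symbol B N) × List B => (x.1.1, x.2.2)) (by fun_prop)
    · exact (sigU_Y hT hN).comp (f := fun x : (List (Symbol B N × List (Symbol B N)) ×
        (List (Symbol B N) × List B × List B) × (List (Symbol B N) × List B × List B)) ×
        Symbol B N × List B => (x.1.1, [x.2.1], x.2.2)) (by fun_prop)
    · exact (sigU_rule hN).comp (f := fun x : (List (Symbol B N × List (Symbol B N)) ×
        (List (Symbol B N) × List B × List B) × (List (Symbol B N) × List B × List B)) ×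
        Symbol B N => (x.1.1, x.2, x.1.2.2.1)) (by fun_prop)
  refine ((Sig.rtgP hR).comp (f := fun x : List (Symbol B N × List (Symbol B N)) ×
    List (Symbol B N) × List (Symbol B N) × List B × List B =>
    (x.1, x.2.2, (x.2.1, [], []))) (by fun_prop)).of_eq ?_
  rintro ⟨l, s, x⟩
  simp only
  constructor
  · intro h
    induction h using Relation.ReflTransGen.head_induction_on with
    | refl => exact Ctx.refl
    | head h _ ih =>
      rcases h with ⟨q, h1, h2, h3, h4, h5, h6⟩ | ⟨q, h1, h2, h3, h4, h5⟩ | ⟨e, h1, h2, r, hr, h3, h4⟩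
      · rw [h2, h4, h5]; rw [h3] at ih; exact Ctx.head h1 ih h6
      · rw [h2, h3, h4]; exact Ctx.tail h1 h5 ih
      · rw [h1, h2, h3]; rw [h4] at ih; exact Ctx.rule hr ih
  · obtain ⟨s', γ, δ⟩ := x
    intro h
    simp only at h
    induction h with
    | refl => rfl
    | @head e s₂ γ δ z h1 _ h2 ih =>
      refine Relation.ReflTransGen.head ?_ ih
      exact Or.inl ⟨(e, s₂, z), h1, rfl, rfl, rfl, rfl, h2⟩
    | @tail e s₂ γ δ z h1 h2 _ ih =>
      refine Relation.ReflTransGen.head ?_ ih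
      exact Or.inr (Or.inl ⟨(e, z), h1, rfl, rfl, rfl, h2⟩)
    | rule hr _ ih =>
      refine Relation.ReflTransGen.head ?_ ih
      exact Or.inr (Or.inr ⟨_, rfl, rfl, _, hr, rfl, rfl⟩)

variable {α : Type} [Primcodable α]

lemma sigU_GenS (hT : Primrec (terminal : B → Symbol B N))
    (hN : Primrec (nonterminal : N → Symbol B N))
    {l : α → List (Symbol B N × List (Symbol B N))} {H : α → List (List B)} {θ : α → Ty B N}
    {w : α → List A} (hl : Primrec l) (hH : Primrec H) (hθ : Primrec θ) (hw : Primrec w) :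
    Sig fun x => GenS (PL (l x)) (hf (H x)) (θ x) (w x) := by
  refine Sig.ex (Sig.and ?_ (Sig.eq (by fun_prop) (by fun_prop)))
  exact (sigU_Y hT hN).comp (f := fun x : α × List B => (l x.1, (θ x.1).2.1, x.2)) (by fun_prop)

lemma sigU_CtxS (hT : Primrec (terminal : B → Symbol B N))
    (hN : Primrec (nonterminal : N → Symbol B N))
    {l : α → List (Symbol B N × List (Symbol B N))} {H : α → List (List B)} {θ θ' : α → Ty B N}
    {γ δ : α → List A} (hl : Primrec l) (hH : Primrec H) (hθ' : Primrec θ') (hγ : Primrec γ)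
    (hθ : Primrec θ) (hδ : Primrec δ) :
    Sig fun x => CtxS (PL (l x)) (hf (H x)) (θ' x) (γ x) (θ x) (δ x) := by
  refine Sig.ex (Sig.and ?_ (Sig.and (Sig.eq (by fun_prop) (by fun_prop))
    (Sig.eq (by fun_prop) (by fun_prop))))
  exact (sigU_Ctx hT hN).comp
    (f := fun x : α × List B × List B => (l x.1, (θ x.1).2.1, (θ' x.1).2.1, x.2)) (by fun_prop)

lemma sigU_Side [Finite I] (hT : Primrec (terminal : B → Symbol B N))
    (hN : Primrec (nonterminal : N → Symbol B N)) (tiles : List I) (tl : I → A)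
    (ur : I → List A) {l : α → List (Symbol B N × List (Symbol B N))} {S : α → N}
    {H : α → List (List B)} {y₀ g : α → List A}
    {items : α → List (Ty B N × List A × List A × List A)}
    {ms : α → List (List (Ty B N × List A × List A))} (hl : Primrec l) (hS : Primrec S)
    (hH : Primrec H) (hy : Primrec y₀)
    (hg : Primrec g) (hi : Primrec items) (hm : Primrec ms) :
    Sig fun x => Side (PL (l x)) (hf (H x)) (S x) tiles tl ur (y₀ x) (g x) (items x) (ms x) := by
  have h1 : Primrec tl := Primrec.dom_finite _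
  have h2 : Primrec ur := Primrec.dom_finite _
  refine Sig.and (Sig.all_mem hi (Sig.and
    (sigU_GenS hT hN (by fun_prop) (by fun_prop) (by fun_prop) (by fun_prop))
    (Sig.eq (by fun_prop) (by fun_prop)))) (Sig.and ?_ (Sig.and ?_
    (Sig.all_mem hm (Sig.mem (by fun_prop) (by fun_prop)))))
  · exact Sig.ex_mem hm (Sig.all_mem (by fun_prop) (Sig.ex_mem (by fun_prop)
      (sigU_CtxS hT hN (by fun_prop) (by fun_prop) (by fun_prop) (by fun_prop) (by fun_prop)
        (by fun_prop))))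
  · refine Sig.all_mem hm (Sig.all_mem (by fun_prop) (Sig.ex_mem (by fun_prop)
      (Sig.all_mem (by fun_prop) (Sig.ex_mem (by fun_prop) (Sig.ex (Sig.and
      (sigU_CtxS hT hN (by fun_prop) (by fun_prop) (by fun_prop) (by fun_prop) (by fun_prop)
        (by fun_prop))
      (Sig.and (Sig.eq (by fun_prop) (by fun_prop)) (Sig.eq (by fun_prop) (by fun_prop)))))))))

theorem sigU_Cert [Finite I] (hT : Primrec (terminal : B → Symbol B N))
    (hN : Primrec (nonterminal : N → Symbol B N)) (tiles : List I) (tl : I → A)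
    (ur vr : I → List A) :
    Sig fun x : (List (Symbol B N × List (Symbol B N)) × N) × List A =>
      ∃ H : List (List B), Cert (PL x.1.1) (hf H) x.1.2 tiles tl ur vr x.2 := by
  refine Sig.ex (Sig.ex (Sig.ex (Sig.ex (Sig.ex (Sig.ex (Sig.and
    (sigU_Side hT hN tiles tl ur (by fun_prop) (by fun_prop) (by fun_prop) (by fun_prop)
      (by fun_prop) (by fun_prop) (by fun_prop))
    (Sig.and (sigU_Side hT hN tiles tl vr (by fun_prop) (by fun_prop) (by fun_prop) (by fun_prop)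
    (by fun_prop) (by fun_prop) (by fun_prop))
    (Sig.all_mem (by fun_prop) (Sig.all_mem (by fun_prop) ?_)))))))))
  exact Sig.and (Sig.lt (by fun_prop) (by fun_prop)) (Sig.and (Sig.lt (by fun_prop) (by fun_prop))
    (Sig.lt (by fun_prop) (by fun_prop)))

end sig

section transfer

variable {A B N B' N' I : Type}

/-- renaming terminals and nonterminals -/
def sm (β : B' → B) (g : N' → N) : Symbol B' N' → Symbol B N
  | terminal a => terminal (β a)
  | nonterminal X => nonterminal (g X)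

/-- renaming in rules -/
def rm (β : B' → B) (g : N' → N) (r : ContextFreeRule B' N') : ContextFreeRule B N :=
  ⟨g r.input, r.output.map (sm β g)⟩

/-- renaming in types -/
def tm (β : B' → B) (g : N' → N) (θ : Ty B' N') : Ty B N :=
  (θ.1.map β, θ.2.1.map (sm β g), θ.2.2.map β)

variable {β : B' → B} {g : N' → N} {P : Set (ContextFreeRule B N)}

lemma sm_inj (hβ : Function.Injective β) (hg : Function.Injective g) :
    Function.Injective (sm β g) := by
  intro x y h
  cases x <;> cases y <;> simp_all [sm, hg.eq_iff, hβ.eq_iff]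

lemma rm_inj (hβ : Function.Injective β) (hg : Function.Injective g) :
    Function.Injective (rm β g) := by
  intro r r' h
  simp only [rm, ContextFreeRule.mk.injEq] at h
  exact ContextFreeRule.ext (hg h.1) (List.map_injective_iff.2 (sm_inj hβ hg) h.2)

lemma D.map2 {s rs w} (h : D (rm β g ⁻¹' P) s rs w) :
    D P (s.map (sm β g)) (rs.map (rm β g)) (w.map β) := by
  induction h with
  | nil => exact D.nil
  | term _ ih => exact ih.term
  | @nt r s rs w hr _ ih =>
    exact D.nt (r := rm β g r) hr (by simpa [rm] using ih)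

lemma D.lift2 (hβ : Function.Injective β) (hg : Function.Injective g)
    (hP : ∀ r ∈ P, ∃ r', rm β g r' = r) {s rs w} (h : D P s rs w) :
    ∀ s' w', s'.map (sm β g) = s → w'.map β = w → ∃ rs', D (rm β g ⁻¹' P) s' rs' w' := by
  induction h with
  | nil =>
    intro s' w' e e'
    rw [List.map_eq_nil_iff.1 e, List.map_eq_nil_iff.1 e']; exact ⟨[], D.nil⟩
  | @term a s rs w _ ih =>
    intro s' w' e e'
    obtain ⟨x, s'', rfl, e1, e2⟩ := List.map_eq_cons_iff.1 e
    obtain ⟨b', w'', rfl, e3, e4⟩ := List.map_eq_cons_iff.1 e'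
    obtain ⟨rs', h⟩ := ih s'' w'' e2 e4
    cases x with
    | terminal b =>
      simp only [sm, terminal.injEq] at e1
      have : b = b' := hβ (e1.trans e3.symm)
      subst this
      exact ⟨rs', h.term⟩
    | nonterminal X => cases e1
  | @nt r s rs w hr _ ih =>
    intro s' w' e e'
    obtain ⟨x, s'', rfl, e1, e2⟩ := List.map_eq_cons_iff.1 e
    obtain ⟨r', rfl⟩ := hP r hr
    obtain ⟨rs', h⟩ := ih (r'.output ++ s'') w' (by simp [rm, e2]) e'
    cases x with
    | terminal b => cases e1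
    | nonterminal X =>
      simp only [sm, rm, nonterminal.injEq] at e1
      rw [hg e1]
      exact ⟨r' :: rs', D.nt hr h⟩

lemma Y.map2 {s w} (h : Y (rm β g ⁻¹' P) s w) : Y P (s.map (sm β g)) (w.map β) :=
  let ⟨_, h⟩ := h; ⟨_, h.map2⟩

lemma Ctx.map2 {s s' γ δ} (h : Ctx (rm β g ⁻¹' P) s s' γ δ) :
    Ctx P (s.map (sm β g)) (s'.map (sm β g)) (γ.map β) (δ.map β) := by
  induction h with
  | refl => exact Ctx.refl
  | head h1 _ h2 ih =>
    rw [List.map_append]
    exact Ctx.head (by simpa using h1) ih h2.map2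
  | tail h1 h2 _ ih =>
    rw [List.map_append]
    exact Ctx.tail (by simpa using h1) h2.map2 ih
  | @rule r γ δ hr _ ih => exact Ctx.rule (r := rm β g r) hr ih

variable {h : A → List B'}

lemma GenS.map2 {θ w} (hs : GenS (rm β g ⁻¹' P) h θ w) :
    GenS P (fun a => (h a).map β) (tm β g θ) w := by
  obtain ⟨z, h1, h2⟩ := hs
  refine ⟨z.map β, h1.map2, ?_⟩
  have := congrArg (List.map β) h2
  simpa [tm, List.map_flatMap] using this

lemma CtxS.map2 {θ' γ θ δ} (hs : CtxS (rm β g ⁻¹' P) h θ' γ θ δ) :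
    CtxS P (fun a => (h a).map β) (tm β g θ') γ (tm β g θ) δ := by
  obtain ⟨⟨γ₀, δ₀⟩, h1, h2, h3⟩ := hs
  refine ⟨(γ₀.map β, δ₀.map β), h1.map2, ?_, ?_⟩
  · have := congrArg (List.map β) h2
    simpa [tm, List.map_flatMap] using this
  · have := congrArg (List.map β) h3
    simpa [tm, List.map_flatMap] using this

lemma Side.map2 {S : N'} {tiles : List I} {tl : I → A} {ur : I → List A} {y₀ w : List A}
    {items ms} (hs : Side (rm β g ⁻¹' P) h S tiles tl ur y₀ w items ms) :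
    Side P (fun a => (h a).map β) (g S) tiles tl ur y₀ w
      (items.map fun it => (tm β g it.1, it.2))
      (ms.map fun x => x.map fun st => (tm β g st.1, st.2)) := by
  obtain ⟨h1, ⟨x, hx, h2⟩, h3, h4⟩ := hs
  refine ⟨?_, ⟨_, List.mem_map_of_mem hx, ?_⟩, ?_, ?_⟩
  · simp only [List.forall_mem_map]
    exact fun it hit => ⟨(h1 it hit).1.map2, (h1 it hit).2⟩
  · simp only [List.forall_mem_map]
    intro st hst
    obtain ⟨it, a1, a2⟩ := h2 st hst
    exact ⟨_, List.mem_map_of_mem a1, a2.map2⟩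
  · simp only [List.forall_mem_map]
    intro x hx t ht
    obtain ⟨x', hx', h5⟩ := h3 x hx t ht
    refine ⟨_, List.mem_map_of_mem hx', ?_⟩
    simp only [List.forall_mem_map]
    intro st' hst'
    obtain ⟨st, a1, γδ, a2, a3⟩ := h5 st' hst'
    exact ⟨_, List.mem_map_of_mem a1, γδ, a2.map2, a3⟩
  · simp only [List.forall_mem_map]
    intro x hx
    exact List.mem_map.2 ⟨_, h4 x hx, rfl⟩

lemma Cert.map2 {S : N'} {tiles : List I} {tl : I → A} {ur vr : I → List A} {y₀ : List A}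
    (hc : Cert (rm β g ⁻¹' P) h S tiles tl ur vr y₀) :
    Cert P (fun a => (h a).map β) (g S) tiles tl ur vr y₀ := by
  obtain ⟨w, iU, iV, mU, mV, h1, h2, h3⟩ := hc
  refine ⟨w, _, _, _, _, h1.map2, h2.map2, ?_⟩
  simp only [List.forall_mem_map]
  intro it hit it' hit'
  have := h3 it hit it' hit'
  simpa only [Crosses, tm, ← List.map_flatMap, List.length_map] using this

end transfer

lemma list_lift {X X' : Type} (φ : X' → X) (l : List X) (h : ∀ x ∈ l, ∃ y, φ y = x) :
    ∃ o : List X', o.map φ = l := by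
  induction l with
  | nil => exact ⟨[], rfl⟩
  | cons x l ih =>
    obtain ⟨y, rfl⟩ := h x (by simp)
    obtain ⟨o, rfl⟩ := ih fun z hz => h z (by simp [hz])
    exact ⟨y :: o, rfl⟩

/-- completeness of certificates over infinite alphabets -/
theorem cert_complete' {I Γ B N σ : Type} {u v : I → List Γ} {y : List Γ}
    [Finite I] [Finite Γ] [Finite σ]
    {P : Set (ContextFreeRule B N)} (hP : P.Finite) {S : N} {L0 : Set (List B)} (hG : UG P S L0)
    {f : Al I Γ → List B} {M : DFA (Al I Γ) σ}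
    (hL : ∀ w, w ∈ LL u v y ↔ (w.flatMap f ∈ L0 ∧ w ∈ M.accepts))
    (hno : ¬ ∃ τ : List I, τ.flatMap u = y ++ τ.flatMap v) (hu : ∀ t, u t ≠ [])
    (hv : ∀ t, v t ≠ []) (tiles : List I) :
    Cert P f S tiles Al.t (fun t => (u t).map Al.g) (fun t => (v t).map Al.g) (y.map Al.g) := by
  let Z : Set N := {S} ∪ ⋃ r ∈ P, ({r.input} ∪ {X | nonterminal X ∈ r.output})
  have hZ : Z.Finite := by
    refine (Set.finite_singleton _).union (hP.biUnion fun r _ => (Set.finite_singleton _).union ?_)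
    exact (List.finite_toSet r.output).preimage (f := fun X => (nonterminal X : Symbol B N))
      (fun x _ y _ h => by simpa using h)
  let T : Set B := (⋃ a, {b | b ∈ f a}) ∪ ⋃ r ∈ P, {b | terminal b ∈ r.output}
  have hT : T.Finite := by
    refine (Set.finite_iUnion fun a => List.finite_toSet (f a)).union (hP.biUnion fun r _ => ?_)
    exact (List.finite_toSet r.output).preimage (f := fun b => (terminal b : Symbol B N))
      (fun x _ y _ h => by simpa using h)
  have hg : Function.Injective (Subtype.val : Z → N) := Subtype.val_injective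
  have hβ : Function.Injective (Subtype.val : T → B) := Subtype.val_injective
  have hP' : ∀ r ∈ P, ∃ r', rm (Subtype.val : T → B) (Subtype.val : Z → N) r' = r := by
    intro r hr
    have h1 : r.input ∈ Z := Or.inr (Set.mem_biUnion hr (Or.inl rfl))
    obtain ⟨o, ho⟩ := list_lift (sm (Subtype.val : T → B) (Subtype.val : Z → N)) r.output (by
      intro x hx
      cases x with
      | terminal a => exact ⟨terminal ⟨a, Or.inr (Set.mem_biUnion hr hx)⟩, rfl⟩
      | nonterminal X => exact ⟨nonterminal ⟨X, Or.inr (Set.mem_biUnion hr (Or.inr hx))⟩, rfl⟩)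
    exact ⟨⟨⟨r.input, h1⟩, o⟩, by simp [rm, ho]⟩
  have hf0 : ∀ a, ∃ o : List T, o.map Subtype.val = f a := fun a =>
    list_lift _ _ fun b hb => ⟨⟨b, Or.inl (Set.mem_iUnion.2 ⟨a, hb⟩)⟩, rfl⟩
  choose f₀ hf₀ using hf0
  have := hZ.to_subtype
  have := hT.to_subtype
  have hG' : UG (rm (Subtype.val : T → B) (Subtype.val : Z → N) ⁻¹' P) ⟨S, Or.inl rfl⟩
      {w | w.map Subtype.val ∈ L0} := by
    refine ⟨fun w => ?_, fun w rs rs' h h' => ?_⟩
    · show w.map Subtype.val ∈ L0 ↔ _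
      rw [hG.1]
      exact ⟨fun ⟨rs, h⟩ => h.lift2 hβ hg hP' _ _ rfl rfl, fun ⟨rs, h⟩ => ⟨_, h.map2⟩⟩
    · exact List.map_injective_iff.2 (rm_inj hβ hg) (hG.2 _ _ _ h.map2 h'.map2)
  have e : (fun a => (f₀ a).map Subtype.val) = f := funext hf₀
  have hc := cert_complete (hP.preimage (rm_inj hβ hg).injOn) hG' (f := f₀) (M := M)
    (fun w => by
      rw [hL]
      show _ ↔ (w.flatMap f₀).map Subtype.val ∈ L0 ∧ _
      rw [List.map_flatMap, e]) hno hu hv tiles
  have := hc.map2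
  rwa [e] at this

/-- symbols as a sum type -/
def symE : Symbol ℕ ℕ ≃ ℕ ⊕ ℕ where
  toFun
    | terminal a => Sum.inl a
    | nonterminal X => Sum.inr X
  invFun
    | Sum.inl a => terminal a
    | Sum.inr X => nonterminal X
  left_inv x := by cases x <;> rfl
  right_inv x := by cases x <;> rfl

/-- No r.e. family of unambiguous grammars generates all unambiguous languages. -/
theorem no_re_family : ∃ (A : Type) (_ : Finite A),
    ∀ G : ℕ × List (ℕ × List (ℕ ⊕ ℕ)) → Prop, REPred G →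
    ∀ Pc : ℕ × List (ℕ × List (ℕ ⊕ ℕ)) → Set (ContextFreeRule ℕ ℕ),
      (∀ c r, r ∈ Pc c ↔ ∃ p ∈ c.2, r = ⟨p.1, p.2.map symE.symm⟩) →
      (∀ c, G c → ∀ w rs rs', D (Pc c) [nonterminal c.1] rs w →
        D (Pc c) [nonterminal c.1] rs' w → rs = rs') →
      ∃ L : Set (List A), UL L ∧ ∀ c, G c →
        ∀ (f : A → List ℕ) (σ : Type) (_ : Finite σ) (M : DFA A σ),
          ∃ w : List A, ¬ (w ∈ L ↔ ((∃ rs, D (Pc c) [nonterminal c.1] rs (w.flatMap f)) ∧
            w ∈ M.accepts)) := by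
  classical
  obtain ⟨I, Γ, _, _, u, v, y, hu, hv, -, hy, hre⟩ := mpcp_undec
  refine ⟨Al I Γ, inferInstance, fun G hG Pc hPc hU => ?_⟩
  by_contra hcon
  let _ : Primcodable I := Primcodable.ofEquiv _ (Finite.equivFin I)
  let _ : Primcodable (Al I Γ) := Primcodable.ofEquiv _ (Finite.equivFin (Al I Γ))
  let _ : Primcodable (Symbol ℕ ℕ) := Primcodable.ofEquiv _ symE
  let _ : Fintype I := Fintype.ofFinite I
  have hE : Primrec symE.symm := Primrec.of_equiv_symm
  have hT : Primrec (terminal : ℕ → Symbol ℕ ℕ) := hE.comp Primrec.sumInl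
  have hN : Primrec (nonterminal : ℕ → Symbol ℕ ℕ) := hE.comp Primrec.sumInr
  let cd : ℕ × List (ℕ × List (ℕ ⊕ ℕ)) → List (Symbol ℕ ℕ × List (Symbol ℕ ℕ)) :=
    fun c => c.2.map fun p => (nonterminal p.1, p.2.map symE.symm)
  have hcd : Primrec cd := by
    refine Primrec.list_map Primrec.snd ?_
    refine Primrec.pair (hN.comp (Primrec.fst.comp Primrec.snd)) ?_
    exact Primrec.list_map (Primrec.snd.comp Primrec.snd) (hE.comp Primrec.snd)
  have hPL : ∀ c, PL (cd c) = Pc c := by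
    intro c
    ext r
    rw [hPc]
    simp only [PL, cd, Set.mem_ofPred_eq, List.mem_map, Prod.mk.injEq, nonterminal.injEq]
    constructor
    · rintro ⟨p, hp, h1, h2⟩
      exact ⟨p, hp, ContextFreeRule.ext h1.symm h2.symm⟩
    · rintro ⟨p, hp, rfl⟩
      exact ⟨p, hp, rfl, rfl⟩
  have hfin : ∀ c, (Pc c).Finite := by
    intro c
    refine ((List.finite_toSet c.2).image fun p =>
      (⟨p.1, p.2.map symE.symm⟩ : ContextFreeRule ℕ ℕ)).subset fun r hr => ?_
    obtain ⟨p, hp, rfl⟩ := (hPc c r).1 hr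
    exact ⟨p, hp, rfl⟩
  apply hre
  have hyy := hy (Al I Γ) Al.g
  have hs : Sig fun n : ℕ => ∃ c, G c ∧ ∃ H : List (List ℕ), Cert (PL (cd c)) (hf H) c.1
      (Finset.univ : Finset I).toList Al.t (fun t => (u t).map Al.g) (fun t => (v t).map Al.g)
      ((y n).map Al.g) := by
    refine Sig.ex (Sig.and ((Sig.of_re hG).comp Primrec.snd) ?_)
    exact (sigU_Cert (A := Al I Γ) hT hN (Finset.univ : Finset I).toList Al.t
      (fun t => (u t).map Al.g) (fun t => (v t).map Al.g)).comp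
      (f := fun x : ℕ × ℕ × List (ℕ × List (ℕ ⊕ ℕ)) => ((cd x.2, x.2.1), (y x.1).map Al.g))
      (((hcd.comp Primrec.snd).pair (Primrec.fst.comp Primrec.snd)).pair (hyy.comp Primrec.fst))
  refine hs.re.of_eq fun n => ?_
  constructor
  · rintro ⟨c, hc0, H, hc⟩ ⟨τ, hτ⟩
    rw [hPL] at hc
    apply hc.sound (hU c hc0) τ (by simp)
    rw [← List.map_flatMap, ← List.map_flatMap, hτ, List.map_append]
  · intro hno
    have : ∃ c, G c ∧ ∃ (f : Al I Γ → List ℕ) (σ : Type) (_ : Finite σ) (M : DFA (Al I Γ) σ),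
        ∀ w, w ∈ LL u v (y n) ↔ ((∃ rs, D (Pc c) [nonterminal c.1] rs (w.flatMap f)) ∧
          w ∈ M.accepts) := by
      by_contra h2
      apply hcon
      refine ⟨LL u v (y n), LL_unambiguous hno, fun c hc f σ i M => ?_⟩
      by_contra h3
      exact h2 ⟨c, hc, f, σ, i, M, fun w => by_contra fun h4 => h3 ⟨w, h4⟩⟩
    obtain ⟨c, hc, f, σ, _, M, hL⟩ := this
    obtain ⟨H, rfl⟩ := exists_hf f
    refine ⟨c, hc, H, ?_⟩
    rw [hPL]
    exact cert_complete' (hfin c) (L0 := {w | ∃ rs, D (Pc c) [nonterminal c.1] rs w})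
      ⟨fun _ => Iff.rfl, hU c hc⟩ hL hno hu hv _

section code

variable {A C N : Type} (e : A → List C)

/-- substituting code words for terminals -/
def se : Symbol A N → List (Symbol C N)
  | terminal a => (e a).map terminal
  | nonterminal X => [nonterminal X]

/-- substituting code words in rules -/
def re (r : ContextFreeRule A N) : ContextFreeRule C N := ⟨r.input, r.output.flatMap (se e)⟩

variable {e} {P : Set (ContextFreeRule A N)}

lemma D.code {s rs w} (h : D P s rs w) :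
    D (re e '' P) (s.flatMap (se e)) (rs.map (re e)) (w.flatMap e) := by
  induction h with
  | nil => exact D.nil
  | term _ ih => exact D.terminals_append_iff.2 ⟨_, rfl, ih⟩
  | @nt r s rs w hr _ ih =>
    rw [List.flatMap_append] at ih
    exact D.nt (r := re e r) ⟨r, hr, rfl⟩ ih

lemma D.uncode (rs' : List (ContextFreeRule C N)) : ∀ (s : List (Symbol A N)) (w' : List C),
    D (re e '' P) (s.flatMap (se e)) rs' w' →
      ∃ rs w, D P s rs w ∧ rs' = rs.map (re e) ∧ w' = w.flatMap e := by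
  induction rs' with
  | nil =>
    intro s
    induction s with
    | nil => intro w' h; exact ⟨[], [], D.nil, rfl, (D.nil_iff.1 h).2⟩
    | cons x s ih =>
      intro w' h
      cases x with
      | terminal b =>
        obtain ⟨w'', rfl, h'⟩ := D.terminals_append_iff.1 h
        obtain ⟨rs, w, h1, h2, rfl⟩ := ih w'' h'
        exact ⟨rs, b :: w, h1.term, h2, rfl⟩
      | nonterminal X =>
        obtain ⟨r, rs, h1, -⟩ := D.nt_iff.1 h
        cases h1
  | cons r' rs' ih0 =>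
    intro s
    induction s with
    | nil => intro w' h; cases (D.nil_iff.1 h).1
    | cons x s ih =>
      intro w' h
      cases x with
      | terminal b =>
        obtain ⟨w'', rfl, h'⟩ := D.terminals_append_iff.1 h
        obtain ⟨rs, w, h1, h2, rfl⟩ := ih w'' h'
        exact ⟨rs, b :: w, h1.term, h2, rfl⟩
      | nonterminal X =>
        obtain ⟨r₁, rs₁, h1, ⟨r, hr, rfl⟩, h2, h3⟩ := D.nt_iff.1 h
        simp only [List.cons.injEq] at h1
        obtain ⟨rfl, rfl⟩ := h1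
        obtain ⟨rs, w, a1, a2, a3⟩ := ih0 (r.output ++ s) w' (by rw [List.flatMap_append]; exact h3)
        have h2' : r.input = X := h2
        subst h2'
        exact ⟨r :: rs, w, D.nt hr a1, by simp [a2], a3⟩

lemma UL.code {L : Set (List A)} (h : UL L) (he : Function.Injective fun w : List A => w.flatMap e) :
    UL ((fun w : List A => w.flatMap e) '' L) := by
  obtain ⟨N, S, P, hP, h1, h2⟩ := h
  refine ⟨N, S, re e '' P, hP.image _, fun w' => ?_, fun w' rs rs' a b => ?_⟩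
  · constructor
    · rintro ⟨w, hw, rfl⟩
      obtain ⟨rs, h⟩ := (h1 w).1 hw
      exact ⟨_, h.code⟩
    · rintro ⟨rs', h⟩
      obtain ⟨rs, w, a1, -, rfl⟩ := D.uncode rs' [nonterminal S] w' h
      exact ⟨w, (h1 w).2 ⟨rs, a1⟩, rfl⟩
  · obtain ⟨r₁, w₁, a1, rfl, a3⟩ := D.uncode rs [nonterminal S] w' a
    obtain ⟨r₂, w₂, b1, rfl, b3⟩ := D.uncode rs' [nonterminal S] w' b
    have : w₁ = w₂ := he (a3.symm.trans b3)
    subst this
    rw [h2 _ _ _ a1 b1]

lemma exists_code (A : Type) [Finite A] :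
    ∃ e : A → List Bool, Function.Injective fun w : List A => w.flatMap e := by
  classical
  obtain ⟨n, ⟨φ⟩⟩ := Finite.exists_equiv_fin A
  refine ⟨fun a => List.ofFn fun i : Fin n => decide (i = φ a), ?_⟩
  intro w
  induction w with
  | nil =>
    intro w' h
    cases w' with
    | nil => rfl
    | cons b w' =>
      have := congrArg List.length h
      have h0 := (φ b).pos
      simp at this
      omega
  | cons a w ih =>
    intro w' h
    cases w' with
    | nil =>
      have := congrArg List.length h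
      have h0 := (φ a).pos
      simp at this
      omega
    | cons b w' =>
      simp only [List.flatMap_cons] at h
      obtain ⟨h1, h2⟩ := List.append_inj h (by simp)
      have h3 := congrFun (List.ofFn_injective h1) (φ a)
      simp only [decide_true, true_eq_decide_iff] at h3
      rw [φ.injective h3, ih h2]

end code

/-- The binary form. -/
theorem no_re_family_bool (G : ℕ × List (ℕ × List (ℕ ⊕ ℕ)) → Prop) (hG : REPred G)
    (Pc : ℕ × List (ℕ × List (ℕ ⊕ ℕ)) → Set (ContextFreeRule ℕ ℕ))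
    (hPc : ∀ c r, r ∈ Pc c ↔ ∃ p ∈ c.2, r = ⟨p.1, p.2.map symE.symm⟩)
    (hU : ∀ c, G c → ∀ w rs rs', D (Pc c) [nonterminal c.1] rs w →
        D (Pc c) [nonterminal c.1] rs' w → rs = rs') :
    ∃ L : Set (List Bool), UL L ∧ ∀ c, G c →
        ∀ (f : Bool → List ℕ) (σ : Type) (_ : Finite σ) (M : DFA Bool σ),
          ∃ w : List Bool, ¬ (w ∈ L ↔ ((∃ rs, D (Pc c) [nonterminal c.1] rs (w.flatMap f)) ∧
            w ∈ M.accepts)) := by
  obtain ⟨A, _, h⟩ := no_re_family
  obtain ⟨L, hL, h⟩ := h G hG Pc hPc hU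
  obtain ⟨e, he⟩ := exists_code A
  refine ⟨_, hL.code he, fun c hc f σ i M => ?_⟩
  let M' : DFA A σ := ⟨fun s a => M.evalFrom s (e a), M.start, M.accept⟩
  have hM : ∀ (w : List A) s, M'.evalFrom s w = M.evalFrom s (w.flatMap e) := by
    intro w
    induction w with
    | nil => intro s; rfl
    | cons a w ih =>
      intro s
      rw [List.flatMap_cons, DFA.evalFrom_of_append, ← ih]
      rfl
  obtain ⟨w, hw⟩ := h c hc (fun a => (e a).flatMap f) σ i M'
  refine ⟨w.flatMap e, fun h' => hw ?_⟩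
  rw [he.mem_set_image, List.flatMap_assoc] at h'
  rw [h', DFA.mem_accepts, DFA.mem_accepts, DFA.eval, DFA.eval, hM]

end Pool.Agent.P.MP_067fd8_lc.Unif

end

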